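import Pool.Agent.H839.PZ.Ind

/-!
# The entries of a product of two matrices with prescribed zeros as diagonal entries
-/

set_option autoImplicit false

open CategoryTheory AlgebraicGeometry MvPolynomial

namespace Pool.Agent.H839.PZ

open Pool.Agent.Y116.UV Pool.Agent.Z125.UN

section peel

variable {ι : Type} [Fintype ι] [DecidableEq ι]

omit [Fintype ι] in
lemma peel_rows {O : Finset (ι × ι)} (hO : Peel O) (T : Finset (ι × ι))
    (h1 : ∀ e ∈ T, ∀ f ∈ O, f.1 ≠ e.1) (h2 : ∀ e ∈ T, ∀ f ∈ T, e.1 = f.1 → e = f) :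
    Peel (T ∪ O) := by
  induction T using Finset.induction_on with
  | empty => rwa [Finset.empty_union]
  | insert c T hc ih =>
    rw [Finset.insert_union]
    refine Peel.row c (ih (fun e he => h1 e (Finset.mem_insert_of_mem he)) fun e he f hf =>
      h2 e (Finset.mem_insert_of_mem he) f (Finset.mem_insert_of_mem hf)) ?_
    intro e he
    rcases Finset.mem_union.mp he with he | he
    · intro h
      have h3 := h2 e (Finset.mem_insert_of_mem he) c (Finset.mem_insert_self _ _) h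
      exact hc (h3 ▸ he)
    · exact h1 c (Finset.mem_insert_self _ _) e he

omit [Fintype ι] in
lemma peel_cols {O : Finset (ι × ι)} (hO : Peel O) (T : Finset (ι × ι))
    (h1 : ∀ e ∈ T, ∀ f ∈ O, f.2 ≠ e.2) (h2 : ∀ e ∈ T, ∀ f ∈ T, e.2 = f.2 → e = f) :
    Peel (T ∪ O) := by
  induction T using Finset.induction_on with
  | empty => rwa [Finset.empty_union]
  | insert c T hc ih =>
    rw [Finset.insert_union]
    refine Peel.col c (ih (fun e he => h1 e (Finset.mem_insert_of_mem he)) fun e he f hf =>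
      h2 e (Finset.mem_insert_of_mem he) f (Finset.mem_insert_of_mem hf)) ?_
    intro e he
    rcases Finset.mem_union.mp he with he | he
    · intro h
      have h3 := h2 e (Finset.mem_insert_of_mem he) c (Finset.mem_insert_self _ _) h
      exact hc (h3 ▸ he)
    · exact h1 c (Finset.mem_insert_self _ _) e he

end peel

variable {I L J κ : Type} [Fintype I] [Fintype L] [Fintype J] [Fintype κ] [DecidableEq I]
  [DecidableEq L] [DecidableEq J] [DecidableEq κ]

section mats

variable {C : Type} [CommRing C]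

/-- the unipotent matrix -/
def SS (Y : Matrix I L C) (X : Matrix L J C) : Matrix (I ⊕ (L ⊕ J)) (I ⊕ (L ⊕ J)) C :=
  Matrix.fromBlocks 1 (Matrix.of fun i v => Sum.elim (fun l => - Y i l) (fun _ => 0) v) 0
    (Matrix.fromBlocks 1 (-X) 0 1)

/-- its inverse -/
def SI (Y : Matrix I L C) (X : Matrix L J C) : Matrix (I ⊕ (L ⊕ J)) (I ⊕ (L ⊕ J)) C :=
  Matrix.fromBlocks 1 (Matrix.of fun i v => Sum.elim (fun l => Y i l) (fun j => (Y * X) i j) v) 0
    (Matrix.fromBlocks 1 X 0 1)

omit [Fintype κ] [DecidableEq κ] in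
lemma SS_SI (Y : Matrix I L C) (X : Matrix L J C) : SS Y X * SI Y X = 1 := by
  rw [SS, SI, Matrix.fromBlocks_multiply, Matrix.fromBlocks_multiply, ← Matrix.fromBlocks_one]
  congr 1
  · simp
  · ext i v
    rw [Matrix.add_apply, Matrix.one_mul, Matrix.mul_apply, Fintype.sum_sum_type]
    rcases v with l | j
    · simp [Matrix.one_apply]
    · simp [Matrix.mul_apply]
  · simp
  · rw [← Matrix.fromBlocks_one, Matrix.zero_mul, zero_add]
    simp

lemma det_SS (Y : Matrix I L C) (X : Matrix L J C) : (SS Y X).det = 1 := by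
  rw [SS, Matrix.det_fromBlocks_zero₂₁, Matrix.det_fromBlocks_zero₂₁]
  simp

variable (χ : κ → Option (I × J))

/-- the correction -/
def corr (Y : Matrix I L C) (X : Matrix L J C) : Matrix κ κ C :=
  Matrix.of fun a b => (χ a).elim 0 fun e => (χ b).elim 0 fun f => (Y * X) e.1 f.2

/-- the selected rows -/
def RR (C : Type) [CommRing C] (L : Type) : Matrix κ (I ⊕ (L ⊕ J)) C :=
  Matrix.of fun a v => (χ a).elim 0 fun e => Sum.elim (fun i => if i = e.1 then 1 else 0)
    (fun _ => 0) v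

/-- the selected columns -/
def CC (C : Type) [CommRing C] (L : Type) : Matrix (I ⊕ (L ⊕ J)) κ C :=
  Matrix.of fun v b => (χ b).elim 0 fun f => Sum.elim (fun _ => 0)
    (Sum.elim (fun _ => 0) fun j => if j = f.2 then 1 else 0) v

lemma RR_SI_CC (Y : Matrix I L C) (X : Matrix L J C) :
    RR χ C L * SI Y X * CC χ C L = corr χ Y X := by
  ext a b
  rw [Matrix.mul_apply, corr, Matrix.of_apply]
  rcases hb : χ b with _ | f
  · rw [Finset.sum_eq_zero]
    · rcases χ a <;> rfl
    · intro v _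
      rw [CC, Matrix.of_apply, hb]
      exact mul_zero _
  · have h1 : ∀ v, CC χ C L v b = if v = Sum.inr (Sum.inr f.2) then 1 else 0 := by
      intro v
      rw [CC, Matrix.of_apply, hb]
      rcases v with i | l | j <;> simp
    simp only [h1, mul_ite, mul_one, mul_zero, Finset.sum_ite_eq', Finset.mem_univ, if_true]
    rw [Matrix.mul_apply]
    rcases ha : χ a with _ | e
    · rw [Finset.sum_eq_zero]
      · rfl
      · intro v _
        rw [RR, Matrix.of_apply, ha]
        exact zero_mul _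
    · have h2 : ∀ v, RR χ C L a v = if v = Sum.inl e.1 then 1 else 0 := by
        intro v
        rw [RR, Matrix.of_apply, ha]
        rcases v with i | l | j <;> simp
      simp only [h2, ite_mul, one_mul, zero_mul, Finset.sum_ite_eq', Finset.mem_univ, if_true]
      rfl

/-- the big matrix -/
def Mx (Y : Matrix I L C) (X : Matrix L J C) (N : Matrix κ κ C) :
    Matrix (κ ⊕ (I ⊕ (L ⊕ J))) (κ ⊕ (I ⊕ (L ⊕ J))) C :=
  Matrix.fromBlocks (N + corr χ Y X) (RR χ C L) (CC χ C L) (SS Y X)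

lemma det_Mx (Y : Matrix I L C) (X : Matrix L J C) (N : Matrix κ κ C) :
    (Mx χ Y X N).det = N.det := by
  have hI : Invertible (SS Y X) := invertibleOfRightInverse _ _ (SS_SI Y X)
  have h1 : ⅟ (SS Y X) = SI Y X := invOf_eq_right_inv (SS_SI Y X)
  rw [Mx, Matrix.det_fromBlocks₂₂, det_SS, one_mul, h1, RR_SI_CC, add_sub_cancel_right]

end mats

section pattern

variable (χ : κ → Option (I × J)) (Zy : Finset (I × L)) (Zx : Finset (L × J))

/-- the places of the ones -/
def isOne : κ ⊕ (I ⊕ (L ⊕ J)) → κ ⊕ (I ⊕ (L ⊕ J)) → Prop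
  | Sum.inl _, Sum.inl _ => False
  | Sum.inl a, Sum.inr (Sum.inl i) => ∃ j, χ a = some (i, j)
  | Sum.inl _, Sum.inr (Sum.inr _) => False
  | Sum.inr (Sum.inl _), Sum.inl _ => False
  | Sum.inr (Sum.inr (Sum.inl _)), Sum.inl _ => False
  | Sum.inr (Sum.inr (Sum.inr j)), Sum.inl a => ∃ i, χ a = some (i, j)
  | Sum.inr u, Sum.inr v => u = v

/-- the free places -/
def isFree : κ ⊕ (I ⊕ (L ⊕ J)) → κ ⊕ (I ⊕ (L ⊕ J)) → Prop
  | Sum.inl a, Sum.inl b => a ≠ b
  | Sum.inr (Sum.inl i), Sum.inr (Sum.inr (Sum.inl l)) => (i, l) ∉ Zy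
  | Sum.inr (Sum.inr (Sum.inl l)), Sum.inr (Sum.inr (Sum.inr j)) => (l, j) ∉ Zx
  | _, _ => False

open Classical in
/-- the places of the ones -/
noncomputable def OO : Finset ((κ ⊕ (I ⊕ (L ⊕ J))) × (κ ⊕ (I ⊕ (L ⊕ J)))) :=
  Finset.univ.filter fun e => isOne χ e.1 e.2

open Classical in
/-- the places of the zeros -/
noncomputable def ZZ : Finset ((κ ⊕ (I ⊕ (L ⊕ J))) × (κ ⊕ (I ⊕ (L ⊕ J)))) :=
  Finset.univ.filter fun e => ¬ isOne χ e.1 e.2 ∧ ¬ isFree Zy Zx e.1 e.2

open Classical in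
lemma peel_OO : Peel (OO χ (L := L)) := by
  let T1 : Finset ((κ ⊕ (I ⊕ (L ⊕ J))) × (κ ⊕ (I ⊕ (L ⊕ J)))) :=
    Finset.univ.filter fun e => ∃ v, e = (Sum.inr v, Sum.inr v)
  let T2 : Finset ((κ ⊕ (I ⊕ (L ⊕ J))) × (κ ⊕ (I ⊕ (L ⊕ J)))) :=
    Finset.univ.filter fun e => ∃ a i j, χ a = some (i, j) ∧
      e = (Sum.inr (Sum.inr (Sum.inr j)), Sum.inl a)
  let T3 : Finset ((κ ⊕ (I ⊕ (L ⊕ J))) × (κ ⊕ (I ⊕ (L ⊕ J)))) :=
    Finset.univ.filter fun e => ∃ a i j, χ a = some (i, j) ∧
      e = (Sum.inl a, Sum.inr (Sum.inl i))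
  have hT : OO χ (L := L) = T3 ∪ (T2 ∪ (T1 ∪ ∅)) := by
    ext ⟨p, q⟩
    simp only [OO, T1, T2, T3, Finset.mem_union, Finset.mem_filter, Finset.mem_univ, true_and,
      Prod.mk.injEq, Finset.notMem_empty, or_false]
    rcases p with a | i | l | j <;> rcases q with b | i' | l' | j' <;> simp [isOne, eq_comm]
  have h1 : Peel (T1 ∪ ∅) := by
    apply peel_rows Peel.nil
    · intro e _ f hf
      simp at hf
    · intro e he f hf h
      obtain ⟨v, rfl⟩ := (Finset.mem_filter.mp he).2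
      obtain ⟨v', rfl⟩ := (Finset.mem_filter.mp hf).2
      simp only [Sum.inr.injEq] at h
      rw [h]
  have h2 : Peel (T2 ∪ (T1 ∪ ∅)) := by
    apply peel_cols h1
    · intro e he f hf
      obtain ⟨a, i, j, _, rfl⟩ := (Finset.mem_filter.mp he).2
      rw [Finset.union_empty] at hf
      obtain ⟨v, rfl⟩ := (Finset.mem_filter.mp hf).2
      simp
    · intro e he f hf h
      obtain ⟨a, i, j, h3, rfl⟩ := (Finset.mem_filter.mp he).2
      obtain ⟨b, i', j', h4, rfl⟩ := (Finset.mem_filter.mp hf).2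
      simp only [Sum.inl.injEq] at h
      subst h
      rw [h3] at h4
      simp only [Option.some.injEq, Prod.mk.injEq] at h4
      rw [h4.2]
  rw [hT]
  apply peel_rows h2
  · intro e he f hf
    obtain ⟨a, i, j, _, rfl⟩ := (Finset.mem_filter.mp he).2
    rw [Finset.union_empty] at hf
    rcases Finset.mem_union.mp hf with hf | hf
    · obtain ⟨b, i', j', h4, rfl⟩ := (Finset.mem_filter.mp hf).2
      simp
    · obtain ⟨v, rfl⟩ := (Finset.mem_filter.mp hf).2
      simp
  · intro e he f hf h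
    obtain ⟨a, i, j, h3, rfl⟩ := (Finset.mem_filter.mp he).2
    obtain ⟨b, i', j', h4, rfl⟩ := (Finset.mem_filter.mp hf).2
    simp only [Sum.inl.injEq] at h
    subst h
    rw [h3] at h4
    simp only [Option.some.injEq, Prod.mk.injEq] at h4
    rw [h4.1]

end pattern

end Pool.Agent.H839.PZ
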