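import Pool.Agent.H839.PZ.Base

/-!
# The entries of a product of two matrices with prescribed zeros as diagonal entries: the isomorphism
-/

set_option autoImplicit false

open CategoryTheory AlgebraicGeometry MvPolynomial

namespace Pool.Agent.H839.PZ

open Pool.Agent.Y116.UV Pool.Agent.Z125.UN

variable {R : Type} [CommRing R] {sep : Prop} {P : Sch R → Prop}

variable {I L J κ : Type} [Fintype I] [Fintype L] [Fintype J] [Fintype κ] [DecidableEq I]
  [DecidableEq L] [DecidableEq J] [DecidableEq κ]

/-- the equations of pairs of matrices with prescribed zeros -/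
def S0 (R : Type) [CommRing R] (Zy : Finset (I × L)) (Zx : Finset (L × J)) :
    Set (MvPolynomial ((I × L) ⊕ (L × J)) R) :=
  {g | (∃ e ∈ Zy, X (Sum.inl e) = g) ∨ ∃ e ∈ Zx, X (Sum.inr e) = g}

/-- the entries of the product -/
noncomputable def pr (R : Type) [CommRing R] (e : I × J) : MvPolynomial ((I × L) ⊕ (L × J)) R :=
  ∑ l, X (Sum.inl (e.1, l)) * X (Sum.inr (l, e.2))

/-- the diagonal entries -/
noncomputable def dd (R : Type) [CommRing R] (χ : κ → Option (I × J)) (a : κ) :
    MvPolynomial ((I × L) ⊕ (L × J)) R :=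
  (χ a).elim 0 fun e => - pr R e

section

variable {C : Type} [CommRing C] [Algebra R C]

/-- the first matrix of a point -/
def Ym (y : (I × L) ⊕ (L × J) → C) : Matrix I L C := Matrix.of fun i l => y (Sum.inl (i, l))

/-- the second matrix of a point -/
def Xm (y : (I × L) ⊕ (L × J) → C) : Matrix L J C := Matrix.of fun l j => y (Sum.inr (l, j))

omit [Fintype I] [Fintype J] [DecidableEq I] [DecidableEq L] [DecidableEq J] in
lemma aeval_pr (y : (I × L) ⊕ (L × J) → C) (e : I × J) :
    aeval y (pr R e) = (Ym y * Xm y) e.1 e.2 := by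
  rw [pr, map_sum, Matrix.mul_apply]
  refine Finset.sum_congr rfl fun l _ => ?_
  rw [map_mul, aeval_X, aeval_X]
  rfl

lemma aeval_dd (χ : κ → Option (I × J)) (y : (I × L) ⊕ (L × J) → C) (a : κ) :
    aeval y (dd R χ a) = - corr χ (Ym y) (Xm y) a a := by
  rw [dd, corr, Matrix.of_apply]
  rcases χ a with _ | e
  · exact (map_zero _).trans neg_zero.symm
  · change aeval y (- pr R e) = - (Ym y * Xm y) e.1 e.2
    rw [map_neg, aeval_pr]

lemma pt_S0 {Zy : Finset (I × L)} {Zx : Finset (L × J)} (y : (I × L) ⊕ (L × J) → C) :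
    Pt (S0 R Zy Zx) 1 y ↔ (∀ e ∈ Zy, y (Sum.inl e) = 0) ∧ ∀ e ∈ Zx, y (Sum.inr e) = 0 := by
  rw [Pt, map_one]
  constructor
  · rintro ⟨h, _⟩
    refine ⟨fun e he => ?_, fun e he => ?_⟩
    · have := h _ (Or.inl ⟨e, he, rfl⟩)
      rwa [aeval_X] at this
    · have := h _ (Or.inr ⟨e, he, rfl⟩)
      rwa [aeval_X] at this
  · rintro ⟨h1, h2⟩
    refine ⟨?_, isUnit_one⟩
    rintro _ (⟨e, he, rfl⟩ | ⟨e, he, rfl⟩)
    · rw [aeval_X]
      exact h1 e he
    · rw [aeval_X]
      exact h2 e he

/-- the coordinates of the pair of matrices of a big matrix -/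
def yv (v : (κ ⊕ (I ⊕ (L ⊕ J))) × (κ ⊕ (I ⊕ (L ⊕ J))) → C) : (I × L) ⊕ (L × J) → C :=
  Sum.elim (fun e => - v (Sum.inr (Sum.inl e.1), Sum.inr (Sum.inr (Sum.inl e.2))))
    fun e => - v (Sum.inr (Sum.inr (Sum.inl e.1)), Sum.inr (Sum.inr (Sum.inr e.2)))

/-- the small matrix of a big matrix -/
def nv (χ : κ → Option (I × J)) (v : (κ ⊕ (I ⊕ (L ⊕ J))) × (κ ⊕ (I ⊕ (L ⊕ J))) → C) :
    Matrix κ κ C :=
  Matrix.of fun a b => v (Sum.inl a, Sum.inl b) - corr χ (Ym (yv v)) (Xm (yv v)) a b

lemma Mx_of_pt {χ : κ → Option (I × J)} {Zy : Finset (I × L)} {Zx : Finset (L × J)}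
    {v : (κ ⊕ (I ⊕ (L ⊕ J))) × (κ ⊕ (I ⊕ (L ⊕ J))) → C}
    (h1 : ∀ p q, ¬ isOne χ p q → ¬ isFree Zy Zx p q → v (p, q) = 0)
    (h2 : ∀ p q, isOne χ p q → v (p, q) = 1) (p q : κ ⊕ (I ⊕ (L ⊕ J))) :
    Mx χ (Ym (yv v)) (Xm (yv v)) (nv χ v) p q = v (p, q) := by
  rcases p with a | i | l | j
  · rcases q with b | i' | l' | j'
    · change v (Sum.inl a, Sum.inl b) - corr χ (Ym (yv v)) (Xm (yv v)) a b +
        corr χ (Ym (yv v)) (Xm (yv v)) a b = _
      rw [sub_add_cancel]
    · change (χ a).elim 0 (fun e => if i' = e.1 then 1 else 0) = _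
      rcases ha : χ a with _ | e
      · rw [h1]
        · rfl
        · rintro ⟨j, hj⟩
          rw [ha] at hj
          exact Option.some_ne_none _ hj.symm
        · exact fun h => h
      · by_cases hi : i' = e.1
        · rw [h2]
          · exact if_pos hi
          · exact ⟨e.2, by rw [ha, hi]⟩
        · rw [h1]
          · exact if_neg hi
          · rintro ⟨j, hj⟩
            rw [ha] at hj
            apply hi
            rw [Option.some.inj hj]
          · exact fun h => h
    · rw [h1]
      · change (χ a).elim 0 (fun e => (0 : C)) = 0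
        rcases χ a with _ | e <;> rfl
      · exact fun h => h
      · exact fun h => h
    · rw [h1]
      · change (χ a).elim 0 (fun e => (0 : C)) = 0
        rcases χ a with _ | e <;> rfl
      · exact fun h => h
      · exact fun h => h
  · rcases q with b | i' | l' | j'
    · rw [h1]
      · change (χ b).elim 0 (fun e => (0 : C)) = 0
        rcases χ b with _ | e <;> rfl
      · exact fun h => h
      · exact fun h => h
    · change (1 : Matrix I I C) i i' = _
      by_cases hi : i = i'
      · subst hi
        rw [Matrix.one_apply_eq, h2]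
        rfl
      · rw [Matrix.one_apply_ne hi, h1]
        · intro h
          exact hi (Sum.inl.inj h)
        · exact fun h => h
    · change - - v (Sum.inr (Sum.inl i), Sum.inr (Sum.inr (Sum.inl l'))) = _
      rw [neg_neg]
    · rw [h1]
      · rfl
      · intro h
        exact absurd h (by simp [isOne])
      · exact fun h => h
  · rcases q with b | i' | l' | j'
    · rw [h1]
      · change (χ b).elim 0 (fun e => (0 : C)) = 0
        rcases χ b with _ | e <;> rfl
      · exact fun h => h
      · exact fun h => h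
    · rw [h1]
      · rfl
      · intro h
        exact absurd h (by simp [isOne])
      · exact fun h => h
    · change (1 : Matrix L L C) l l' = _
      by_cases hi : l = l'
      · subst hi
        rw [Matrix.one_apply_eq, h2]
        rfl
      · rw [Matrix.one_apply_ne hi, h1]
        · intro h
          exact hi (Sum.inl.inj (Sum.inr.inj h))
        · exact fun h => h
    · change - - v (Sum.inr (Sum.inr (Sum.inl l)), Sum.inr (Sum.inr (Sum.inr j'))) = _
      rw [neg_neg]
  · rcases q with b | i' | l' | j'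
    · change (χ b).elim 0 (fun e => if j = e.2 then 1 else 0) = _
      rcases hb : χ b with _ | e
      · rw [h1]
        · rfl
        · rintro ⟨i, hi⟩
          rw [hb] at hi
          exact Option.some_ne_none _ hi.symm
        · exact fun h => h
      · by_cases hj : j = e.2
        · rw [h2]
          · exact if_pos hj
          · exact ⟨e.1, by rw [hb, hj]⟩
        · rw [h1]
          · exact if_neg hj
          · rintro ⟨i, hi⟩
            rw [hb] at hi
            apply hj
            rw [Option.some.inj hi]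
          · exact fun h => h
    · rw [h1]
      · rfl
      · intro h
        exact absurd h (by simp [isOne])
      · exact fun h => h
    · rw [h1]
      · rfl
      · intro h
        exact absurd h (by simp [isOne])
      · exact fun h => h
    · change (1 : Matrix J J C) j j' = _
      by_cases hi : j = j'
      · subst hi
        rw [Matrix.one_apply_eq, h2]
        rfl
      · rw [Matrix.one_apply_ne hi, h1]
        · intro h
          exact hi (Sum.inr.inj (Sum.inr.inj h))
        · exact fun h => h

lemma Mx_one {χ : κ → Option (I × J)} {Y : Matrix I L C} {X : Matrix L J C} {N : Matrix κ κ C}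
    {p q : κ ⊕ (I ⊕ (L ⊕ J))} (h : isOne χ p q) : Mx χ Y X N p q = 1 := by
  rcases p with a | i | l | j
  · rcases q with b | i' | l' | j'
    · exact h.elim
    · obtain ⟨j, hj⟩ := h
      change (χ a).elim 0 (fun e => if i' = e.1 then 1 else 0) = 1
      rw [hj]
      exact if_pos rfl
    · exact h.elim
    · exact h.elim
  · rcases q with b | i' | l' | j'
    · exact h.elim
    · change (1 : Matrix I I C) i i' = 1
      have h1 : i = i' := Sum.inl.inj h
      rw [h1, Matrix.one_apply_eq]
    · exact absurd h (by simp [isOne])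
    · exact absurd h (by simp [isOne])
  · rcases q with b | i' | l' | j'
    · exact h.elim
    · exact absurd h (by simp [isOne])
    · change (1 : Matrix L L C) l l' = 1
      have h1 : l = l' := Sum.inl.inj (Sum.inr.inj h)
      rw [h1, Matrix.one_apply_eq]
    · exact absurd h (by simp [isOne])
  · rcases q with b | i' | l' | j'
    · obtain ⟨i, hi⟩ := h
      change (χ b).elim 0 (fun e => if j = e.2 then 1 else 0) = 1
      rw [hi]
      exact if_pos rfl
    · exact absurd h (by simp [isOne])
    · exact absurd h (by simp [isOne])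
    · change (1 : Matrix J J C) j j' = 1
      have h1 : j = j' := Sum.inr.inj (Sum.inr.inj h)
      rw [h1, Matrix.one_apply_eq]

lemma Mx_zero {χ : κ → Option (I × J)} {Zy : Finset (I × L)} {Zx : Finset (L × J)}
    {Y : Matrix I L C} {X : Matrix L J C} {N : Matrix κ κ C}
    (hY : ∀ e ∈ Zy, Y e.1 e.2 = 0) (hX : ∀ e ∈ Zx, X e.1 e.2 = 0)
    (hN : ∀ a, N a a = - corr χ Y X a a)
    {p q : κ ⊕ (I ⊕ (L ⊕ J))} (h1 : ¬ isOne χ p q) (h2 : ¬ isFree Zy Zx p q) :
    Mx χ Y X N p q = 0 := by
  rcases p with a | i | l | j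
  · rcases q with b | i' | l' | j'
    · have h3 : a = b := not_not.mp h2
      subst h3
      change N a a + corr χ Y X a a = 0
      rw [hN, neg_add_cancel]
    · change (χ a).elim 0 (fun e => if i' = e.1 then 1 else 0) = (0 : C)
      rcases ha : χ a with _ | e
      · rfl
      · refine if_neg fun hi => h1 ⟨e.2, ?_⟩
        rw [ha, hi]
    · change (χ a).elim 0 (fun e => (0 : C)) = 0
      rcases χ a with _ | e <;> rfl
    · change (χ a).elim 0 (fun e => (0 : C)) = 0
      rcases χ a with _ | e <;> rfl
  · rcases q with b | i' | l' | j'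
    · change (χ b).elim 0 (fun e => (0 : C)) = 0
      rcases χ b with _ | e <;> rfl
    · change (1 : Matrix I I C) i i' = 0
      refine Matrix.one_apply_ne fun h => h1 ?_
      rw [h]
      rfl
    · have h3 : (i, l') ∈ Zy := not_not.mp h2
      change - Y i l' = 0
      rw [hY _ h3, neg_zero]
    · rfl
  · rcases q with b | i' | l' | j'
    · change (χ b).elim 0 (fun e => (0 : C)) = 0
      rcases χ b with _ | e <;> rfl
    · rfl
    · change (1 : Matrix L L C) l l' = 0
      refine Matrix.one_apply_ne fun h => h1 ?_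
      rw [h]
      rfl
    · have h3 : (l, j') ∈ Zx := not_not.mp h2
      change - X l j' = 0
      rw [hX _ h3, neg_zero]
  · rcases q with b | i' | l' | j'
    · change (χ b).elim 0 (fun e => if j = e.2 then 1 else 0) = (0 : C)
      rcases hb : χ b with _ | e
      · rfl
      · refine if_neg fun hj => h1 ⟨e.1, ?_⟩
        rw [hb, hj]
    · rfl
    · rfl
    · change (1 : Matrix J J C) j j' = 0
      refine Matrix.one_apply_ne fun h => h1 ?_
      rw [h]
      rfl

lemma map_corr {D : Type} [CommRing D] (f : C →+* D) (χ : κ → Option (I × J)) (Y : Matrix I L C)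
    (X : Matrix L J C) (a b : κ) : corr χ (Y.map f) (X.map f) a b = f (corr χ Y X a b) := by
  rw [corr, corr, Matrix.of_apply, Matrix.of_apply, ← Matrix.map_mul]
  rcases χ a with _ | e
  · exact (map_zero f).symm
  · rcases χ b with _ | e'
    · exact (map_zero f).symm
    · rfl

end

lemma mem_ZZ {χ : κ → Option (I × J)} {Zy : Finset (I × L)} {Zx : Finset (L × J)}
    (e : (κ ⊕ (I ⊕ (L ⊕ J))) × (κ ⊕ (I ⊕ (L ⊕ J)))) :
    e ∈ ZZ χ Zy Zx ↔ ¬ isOne χ e.1 e.2 ∧ ¬ isFree Zy Zx e.1 e.2 := by
  classical
  rw [ZZ, Finset.mem_filter]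
  simp

lemma mem_OO {χ : κ → Option (I × J)}
    (e : (κ ⊕ (I ⊕ (L ⊕ J))) × (κ ⊕ (I ⊕ (L ⊕ J)))) :
    e ∈ OO χ (L := L) ↔ isOne χ e.1 e.2 := by
  classical
  rw [OO, Finset.mem_filter]
  simp

/-- Matrices whose diagonal entries are entries of a product of two matrices with given zeros. -/
theorem base (hP : Bnd sep P) (χ : κ → Option (I × J)) (Zy : Finset (I × L))
    (Zx : Finset (L × J))
    (h : ∀ Z, PP P (rel R Z (∅ : Finset ((κ ⊕ (I ⊕ (L ⊕ J))) × (κ ⊕ (I ⊕ (L ⊕ J))))))
      (gm R (κ ⊕ (I ⊕ (L ⊕ J)))).det) :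
    Dg (S0 R Zy Zx) 1 P (dd R χ) := by
  have h1 := pp_peel hP h (peel_OO χ (L := L)) (ZZ χ Zy Zx)
  have hpt : ∀ {C : Type} [CommRing C] [Algebra R C]
      (v : (κ ⊕ (I ⊕ (L ⊕ J))) × (κ ⊕ (I ⊕ (L ⊕ J))) → C),
      Pt (rel R (ZZ χ Zy Zx) (OO χ)) (gm R (κ ⊕ (I ⊕ (L ⊕ J)))).det v ↔
        ((∀ p q, ¬ isOne χ p q → ¬ isFree Zy Zx p q → v (p, q) = 0) ∧
          ∀ p q, isOne χ p q → v (p, q) = 1) ∧ IsUnit (Matrix.of fun i j => v (i, j)).det := by
    intro C _ _ v
    rw [pt_rel]
    refine and_congr_left fun _ => and_congr ?_ ?_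
    · constructor
      · intro h p q h1 h2
        exact h (p, q) ((mem_ZZ _).mpr ⟨h1, h2⟩)
      · rintro h ⟨p, q⟩ he
        rw [mem_ZZ] at he
        exact h p q he.1 he.2
    · constructor
      · intro h p q h1
        exact h (p, q) ((mem_OO _).mpr h1)
      · rintro h ⟨p, q⟩ he
        rw [mem_OO] at he
        exact h p q he
  have hpt' : ∀ {C : Type} [CommRing C] [Algebra R C]
      (y : ((I × L) ⊕ (L × J)) ⊕ (κ × κ) → C),
      Pt (DS (S0 R Zy Zx) (dd R χ)) (rename Sum.inl 1 * (gN R ((I × L) ⊕ (L × J)) κ).det) y ↔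
      (((∀ e ∈ Zy, y (Sum.inl (Sum.inl e)) = 0) ∧ ∀ e ∈ Zx, y (Sum.inl (Sum.inr e)) = 0) ∧
        ∀ a, y (Sum.inr (a, a)) = - corr χ (Ym fun s => y (Sum.inl s))
          (Xm fun s => y (Sum.inl s)) a a) ∧
      IsUnit (Matrix.of fun a b => y (Sum.inr (a, b))).det := by
    intro C _ _ y
    rw [pt_ds, pt_S0]
    simp only [aeval_dd]
  refine pp_iso hP
    ⟨fun C _ _ v => Sum.elim (yv v) fun e => nv χ v e.1 e.2, ?_, ?_⟩
    ⟨fun C _ _ y e => Mx χ (Ym fun s => y (Sum.inl s)) (Xm fun s => y (Sum.inl s))
      (Matrix.of fun a b => y (Sum.inr (a, b))) e.1 e.2, ?_, ?_⟩ ?_ ?_ h1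
  · intro C _ _ v hv
    rw [hpt] at hv
    obtain ⟨⟨h2, h3⟩, h4⟩ := hv
    rw [hpt']
    refine ⟨⟨⟨fun e he => ?_, fun e he => ?_⟩, fun a => ?_⟩, ?_⟩
    · change - v (Sum.inr (Sum.inl e.1), Sum.inr (Sum.inr (Sum.inl e.2))) = 0
      rw [h2, neg_zero]
      · exact fun h => absurd h (by simp [isOne])
      · exact not_not.mpr he
    · change - v (Sum.inr (Sum.inr (Sum.inl e.1)), Sum.inr (Sum.inr (Sum.inr e.2))) = 0
      rw [h2, neg_zero]
      · exact fun h => absurd h (by simp [isOne])
      · exact not_not.mpr he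
    · change v (Sum.inl a, Sum.inl a) - corr χ (Ym (yv v)) (Xm (yv v)) a a =
        - corr χ (Ym (yv v)) (Xm (yv v)) a a
      rw [h2, zero_sub]
      · exact fun h => h
      · exact not_not.mpr rfl
    · have h5 : (Matrix.of fun i j => v (i, j)) =
          Mx χ (Ym (yv v)) (Xm (yv v)) (nv χ v) := by
        ext p q
        exact (Mx_of_pt h2 h3 p q).symm
      rw [h5, det_Mx] at h4
      exact h4
  · intro C D _ _ _ _ f v _ t
    have hy : yv (fun s => f (v s)) = fun s => f (yv v s) := by
      funext s
      rcases s with s | s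
      · exact (map_neg f _).symm
      · exact (map_neg f _).symm
    rcases t with t | ⟨a, b⟩
    · exact congrFun hy t
    · change f (v (Sum.inl a, Sum.inl b)) - corr χ (Ym (yv fun s => f (v s)))
        (Xm (yv fun s => f (v s))) a b = f (v (Sum.inl a, Sum.inl b) -
        corr χ (Ym (yv v)) (Xm (yv v)) a b)
      rw [map_sub, hy]
      congr 1
      exact map_corr (f : C →+* D) χ _ _ a b
  · intro C _ _ y hy
    rw [hpt'] at hy
    obtain ⟨⟨⟨h2, h3⟩, h4⟩, h5⟩ := hy
    rw [hpt]
    refine ⟨⟨fun p q h6 h7 => ?_, fun p q h6 => Mx_one h6⟩, ?_⟩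
    · exact Mx_zero (fun e he => h2 e he) (fun e he => h3 e he) (fun a => h4 a) h6 h7
    · have h6 := det_Mx χ (Ym fun s => y (Sum.inl s)) (Xm fun s => y (Sum.inl s))
        (Matrix.of fun a b => y (Sum.inr (a, b)))
      rw [← h6] at h5
      exact h5
  · intro C D _ _ _ _ f y _ e
    have h2 : Mx χ (Ym fun s => f (y (Sum.inl s))) (Xm fun s => f (y (Sum.inl s)))
        (Matrix.of fun a b => f (y (Sum.inr (a, b)))) =
        (Mx χ (Ym fun s => y (Sum.inl s)) (Xm fun s => y (Sum.inl s))
          (Matrix.of fun a b => y (Sum.inr (a, b)))).map f := by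
      ext p q
      rcases p with a | i | l | j
      · rcases q with b | i' | l' | j'
        · change f (y (Sum.inr (a, b))) + corr χ (Ym fun s => f (y (Sum.inl s)))
            (Xm fun s => f (y (Sum.inl s))) a b = f (y (Sum.inr (a, b)) +
              corr χ (Ym fun s => y (Sum.inl s)) (Xm fun s => y (Sum.inl s)) a b)
          rw [map_add]
          congr 1
          exact map_corr (f : C →+* D) χ _ _ a b
        · change (χ a).elim 0 (fun e => if i' = e.1 then 1 else 0) =
            f ((χ a).elim 0 (fun e => if i' = e.1 then 1 else 0))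
          rcases χ a with _ | e
          · exact (map_zero f).symm
          · change (if i' = e.1 then 1 else 0) = f (if i' = e.1 then 1 else 0)
            split_ifs
            · exact (map_one f).symm
            · exact (map_zero f).symm
        · change (χ a).elim 0 (fun e => (0 : D)) = f ((χ a).elim 0 (fun e => (0 : C)))
          rcases χ a with _ | e <;> exact (map_zero f).symm
        · change (χ a).elim 0 (fun e => (0 : D)) = f ((χ a).elim 0 (fun e => (0 : C)))
          rcases χ a with _ | e <;> exact (map_zero f).symm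
      · rcases q with b | i' | l' | j'
        · change (χ b).elim 0 (fun e => (0 : D)) = f ((χ b).elim 0 (fun e => (0 : C)))
          rcases χ b with _ | e <;> exact (map_zero f).symm
        · change (1 : Matrix I I D) i i' = f ((1 : Matrix I I C) i i')
          rw [Matrix.one_apply, Matrix.one_apply]
          split_ifs
          · exact (map_one f).symm
          · exact (map_zero f).symm
        · exact (map_neg f _).symm
        · exact (map_zero f).symm
      · rcases q with b | i' | l' | j'
        · change (χ b).elim 0 (fun e => (0 : D)) = f ((χ b).elim 0 (fun e => (0 : C)))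
          rcases χ b with _ | e <;> exact (map_zero f).symm
        · exact (map_zero f).symm
        · change (1 : Matrix L L D) l l' = f ((1 : Matrix L L C) l l')
          rw [Matrix.one_apply, Matrix.one_apply]
          split_ifs
          · exact (map_one f).symm
          · exact (map_zero f).symm
        · exact (map_neg f _).symm
      · rcases q with b | i' | l' | j'
        · change (χ b).elim 0 (fun e => if j = e.2 then 1 else 0) =
            f ((χ b).elim 0 (fun e => if j = e.2 then 1 else 0))
          rcases χ b with _ | e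
          · exact (map_zero f).symm
          · change (if j = e.2 then 1 else 0) = f (if j = e.2 then 1 else 0)
            split_ifs
            · exact (map_one f).symm
            · exact (map_zero f).symm
        · exact (map_zero f).symm
        · exact (map_zero f).symm
        · change (1 : Matrix J J D) j j' = f ((1 : Matrix J J C) j j')
          rw [Matrix.one_apply, Matrix.one_apply]
          split_ifs
          · exact (map_one f).symm
          · exact (map_zero f).symm
    exact congrFun (congrFun h2 e.1) e.2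
  · intro C _ _ v hv e
    rw [hpt] at hv
    exact Mx_of_pt hv.1.1 hv.1.2 e.1 e.2
  · intro C _ _ y _ t
    have h2 : yv (fun e : (κ ⊕ (I ⊕ (L ⊕ J))) × (κ ⊕ (I ⊕ (L ⊕ J))) =>
        Mx χ (Ym fun s => y (Sum.inl s)) (Xm fun s => y (Sum.inl s))
        (Matrix.of fun a b => y (Sum.inr (a, b))) e.1 e.2) = fun s => y (Sum.inl s) := by
      funext s
      rcases s with s | s
      · exact neg_neg _
      · exact neg_neg _
    rcases t with t | ⟨a, b⟩
    · exact congrFun h2 t
    · have h3 : ∀ c : C, y (Sum.inr (a, b)) + c - c = y (Sum.inr (a, b)) := fun c => by ring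
      refine Eq.trans ?_ (h3 (corr χ (Ym fun s => y (Sum.inl s)) (Xm fun s => y (Sum.inl s)) a b))
      change y (Sum.inr (a, b)) + corr χ (Ym fun s => y (Sum.inl s)) (Xm fun s => y (Sum.inl s)) a b -
        corr χ (Ym (yv _)) (Xm (yv _)) a b = _
      rw [h2]

end Pool.Agent.H839.PZ
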