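import Pool.Agent.H839.PZ.Norm

/-!
# Pairs of matrices with prescribed entries and with zeros in the product
-/

set_option autoImplicit false

open CategoryTheory AlgebraicGeometry MvPolynomial

namespace Pool.Agent.H839.PZ

open Pool.Agent.Y116.UV Pool.Agent.Z125.UN

variable {R : Type} [CommRing R] {sep : Prop} {P : Sch R → Prop}

section relc

variable {ι : Type} [Fintype ι] [DecidableEq ι]

/-- the equations: the entries `c` at the places `F` -/
def relc (F : Finset (ι × ι)) (c : ι × ι → R) : Set (MvPolynomial (ι × ι) R) :=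
  {g | ∃ e ∈ F, X e - C (c e) = g}

lemma pt_relc {F : Finset (ι × ι)} {c : ι × ι → R} {C : Type} [CommRing C] [Algebra R C]
    {v : ι × ι → C} : Pt (relc F c) (gm R ι).det v ↔ (∀ e ∈ F, v e = algebraMap R C (c e)) ∧
      IsUnit (Matrix.of fun i j => v (i, j)).det := by
  have h1 : aeval v (gm R ι).det = (Matrix.of fun i j => v (i, j)).det := by
    rw [AlgHom.map_det]
    congr 1
    ext i j
    exact aeval_X _ _
  rw [Pt, h1]
  refine and_congr_left fun _ => ?_
  constructor
  · intro h e he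
    have := h _ ⟨e, he, rfl⟩
    rwa [map_sub, aeval_X, aeval_C, sub_eq_zero] at this
  · rintro h2 g ⟨e, he, rfl⟩
    rw [map_sub, aeval_X, aeval_C, sub_eq_zero]
    exact h2 e he

end relc

variable {I L J κ : Type} [Fintype I] [Fintype L] [Fintype J] [Fintype κ] [DecidableEq I]
  [DecidableEq L] [DecidableEq J] [DecidableEq κ]

/-- the equations: the entries `c` at the places `F` -/
def S0c (F : Finset ((I × L) ⊕ (L × J))) (c : (I × L) ⊕ (L × J) → R) :
    Set (MvPolynomial ((I × L) ⊕ (L × J)) R) :=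
  {g | ∃ e ∈ F, X e - C (c e) = g}

omit [Fintype I] [Fintype L] [Fintype J] [DecidableEq I] [DecidableEq L] [DecidableEq J] in
lemma pt_S0c {F : Finset ((I × L) ⊕ (L × J))} {c : (I × L) ⊕ (L × J) → R} {C : Type} [CommRing C]
    [Algebra R C] (y : (I × L) ⊕ (L × J) → C) :
    Pt (S0c F c) 1 y ↔ ∀ e ∈ F, y e = algebraMap R C (c e) := by
  rw [Pt, map_one]
  constructor
  · rintro ⟨h, _⟩ e he
    have := h _ ⟨e, he, rfl⟩
    rwa [map_sub, aeval_X, aeval_C, sub_eq_zero] at this
  · intro h1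
    refine ⟨?_, isUnit_one⟩
    rintro _ ⟨e, he, rfl⟩
    rw [map_sub, aeval_X, aeval_C, sub_eq_zero]
    exact h1 e he

/-- the free places -/
def isFr (F : Finset ((I × L) ⊕ (L × J))) : κ ⊕ (I ⊕ (L ⊕ J)) → κ ⊕ (I ⊕ (L ⊕ J)) → Prop
  | Sum.inl a, Sum.inl b => a ≠ b
  | Sum.inr (Sum.inl i), Sum.inr (Sum.inr (Sum.inl l)) => Sum.inl (i, l) ∉ F
  | Sum.inr (Sum.inr (Sum.inl l)), Sum.inr (Sum.inr (Sum.inr j)) => Sum.inr (l, j) ∉ F
  | _, _ => False

/-- the given entries -/
def cst (χ : κ → Option (I × J)) (c : (I × L) ⊕ (L × J) → R) :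
    κ ⊕ (I ⊕ (L ⊕ J)) → κ ⊕ (I ⊕ (L ⊕ J)) → R
  | Sum.inl _, Sum.inl _ => 0
  | Sum.inl a, Sum.inr (Sum.inl i) => (χ a).elim 0 fun e => if i = e.1 then 1 else 0
  | Sum.inl _, Sum.inr (Sum.inr _) => 0
  | Sum.inr (Sum.inl _), Sum.inl _ => 0
  | Sum.inr (Sum.inr (Sum.inl _)), Sum.inl _ => 0
  | Sum.inr (Sum.inr (Sum.inr j)), Sum.inl b => (χ b).elim 0 fun e => if j = e.2 then 1 else 0
  | Sum.inr (Sum.inl i), Sum.inr (Sum.inl i') => if i = i' then 1 else 0
  | Sum.inr (Sum.inl i), Sum.inr (Sum.inr (Sum.inl l)) => - c (Sum.inl (i, l))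
  | Sum.inr (Sum.inl _), Sum.inr (Sum.inr (Sum.inr _)) => 0
  | Sum.inr (Sum.inr (Sum.inl _)), Sum.inr (Sum.inl _) => 0
  | Sum.inr (Sum.inr (Sum.inl l)), Sum.inr (Sum.inr (Sum.inl l')) => if l = l' then 1 else 0
  | Sum.inr (Sum.inr (Sum.inl l)), Sum.inr (Sum.inr (Sum.inr j)) => - c (Sum.inr (l, j))
  | Sum.inr (Sum.inr (Sum.inr _)), Sum.inr (Sum.inl _) => 0
  | Sum.inr (Sum.inr (Sum.inr _)), Sum.inr (Sum.inr (Sum.inl _)) => 0
  | Sum.inr (Sum.inr (Sum.inr j)), Sum.inr (Sum.inr (Sum.inr j')) => if j = j' then 1 else 0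

section

variable {C : Type} [CommRing C] [Algebra R C]

lemma am_ite (p : Prop) [Decidable p] : (if p then (1 : C) else 0) =
    algebraMap R C (if p then 1 else 0) := by
  split_ifs
  · exact (map_one _).symm
  · exact (map_zero _).symm

lemma Mx_cst {χ : κ → Option (I × J)} {F : Finset ((I × L) ⊕ (L × J))}
    {c : (I × L) ⊕ (L × J) → R} {Y : Matrix I L C} {X : Matrix L J C} {N : Matrix κ κ C}
    (hY : ∀ i l, Sum.inl (i, l) ∈ F → Y i l = algebraMap R C (c (Sum.inl (i, l))))
    (hX : ∀ l j, Sum.inr (l, j) ∈ F → X l j = algebraMap R C (c (Sum.inr (l, j))))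
    (hN : ∀ a, N a a = - corr χ Y X a a) (p q : κ ⊕ (I ⊕ (L ⊕ J))) (h : ¬ isFr F p q) :
    Mx χ Y X N p q = algebraMap R C (cst χ c p q) := by
  rcases p with a | i | l | j
  · rcases q with b | i' | l' | j'
    · have h3 : a = b := not_not.mp h
      subst h3
      change N a a + corr χ Y X a a = algebraMap R C 0
      rw [hN, neg_add_cancel, map_zero]
    · change (χ a).elim 0 (fun e => if i' = e.1 then 1 else 0) =
        algebraMap R C ((χ a).elim 0 fun e => if i' = e.1 then 1 else 0)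
      rcases χ a with _ | e
      · exact (map_zero _).symm
      · exact am_ite _
    · change (χ a).elim 0 (fun e => (0 : C)) = algebraMap R C 0
      rw [map_zero]
      rcases χ a with _ | e <;> rfl
    · change (χ a).elim 0 (fun e => (0 : C)) = algebraMap R C 0
      rw [map_zero]
      rcases χ a with _ | e <;> rfl
  · rcases q with b | i' | l' | j'
    · change (χ b).elim 0 (fun e => (0 : C)) = algebraMap R C 0
      rw [map_zero]
      rcases χ b with _ | e <;> rfl
    · change (1 : Matrix I I C) i i' = _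
      rw [Matrix.one_apply]
      exact am_ite _
    · have h3 : Sum.inl (i, l') ∈ F := not_not.mp h
      change - Y i l' = algebraMap R C (- c (Sum.inl (i, l')))
      rw [hY _ _ h3, map_neg]
    · exact (map_zero _).symm
  · rcases q with b | i' | l' | j'
    · change (χ b).elim 0 (fun e => (0 : C)) = algebraMap R C 0
      rw [map_zero]
      rcases χ b with _ | e <;> rfl
    · exact (map_zero _).symm
    · change (1 : Matrix L L C) l l' = _
      rw [Matrix.one_apply]
      exact am_ite _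
    · have h3 : Sum.inr (l, j') ∈ F := not_not.mp h
      change - X l j' = algebraMap R C (- c (Sum.inr (l, j')))
      rw [hX _ _ h3, map_neg]
  · rcases q with b | i' | l' | j'
    · change (χ b).elim 0 (fun e => if j = e.2 then 1 else 0) =
        algebraMap R C ((χ b).elim 0 fun e => if j = e.2 then 1 else 0)
      rcases χ b with _ | e
      · exact (map_zero _).symm
      · exact am_ite _
    · exact (map_zero _).symm
    · exact (map_zero _).symm
    · change (1 : Matrix J J C) j j' = _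
      rw [Matrix.one_apply]
      exact am_ite _

lemma Mx_of_ptc {χ : κ → Option (I × J)} {F : Finset ((I × L) ⊕ (L × J))}
    {c : (I × L) ⊕ (L × J) → R} {v : (κ ⊕ (I ⊕ (L ⊕ J))) × (κ ⊕ (I ⊕ (L ⊕ J))) → C}
    (h1 : ∀ p q, ¬ isFr F p q → v (p, q) = algebraMap R C (cst χ c p q))
    (p q : κ ⊕ (I ⊕ (L ⊕ J))) :
    Mx χ (Ym (yv v)) (Xm (yv v)) (nv χ v) p q = v (p, q) := by
  by_cases h : isFr F p q
  · rcases p with a | i | l | j
    · rcases q with b | i' | l' | j'
      · change v (Sum.inl a, Sum.inl b) - corr χ (Ym (yv v)) (Xm (yv v)) a b +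
          corr χ (Ym (yv v)) (Xm (yv v)) a b = _
        rw [sub_add_cancel]
      · exact h.elim
      · exact h.elim
      · exact h.elim
    · rcases q with b | i' | l' | j'
      · exact h.elim
      · exact h.elim
      · exact neg_neg _
      · exact h.elim
    · rcases q with b | i' | l' | j'
      · exact h.elim
      · exact h.elim
      · exact h.elim
      · exact neg_neg _
    · rcases q with b | i' | l' | j'
      · exact h.elim
      · exact h.elim
      · exact h.elim
      · exact h.elim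
  · rw [h1 p q h]
    refine Mx_cst ?_ ?_ ?_ p q h
    · intro i l hil
      change - v (Sum.inr (Sum.inl i), Sum.inr (Sum.inr (Sum.inl l))) = _
      rw [h1 (Sum.inr (Sum.inl i)) (Sum.inr (Sum.inr (Sum.inl l))) (not_not.mpr hil)]
      change - algebraMap R C (- c (Sum.inl (i, l))) = _
      rw [map_neg, neg_neg]
    · intro l j hlj
      change - v (Sum.inr (Sum.inr (Sum.inl l)), Sum.inr (Sum.inr (Sum.inr j))) = _
      rw [h1 (Sum.inr (Sum.inr (Sum.inl l))) (Sum.inr (Sum.inr (Sum.inr j))) (not_not.mpr hlj)]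
      change - algebraMap R C (- c (Sum.inr (l, j))) = _
      rw [map_neg, neg_neg]
    · intro a
      change v (Sum.inl a, Sum.inl a) - corr χ (Ym (yv v)) (Xm (yv v)) a a = _
      rw [h1 (Sum.inl a) (Sum.inl a) (not_not.mpr rfl)]
      change algebraMap R C 0 - _ = _
      rw [map_zero, zero_sub]

lemma map_Mx {D : Type} [CommRing D] [Algebra R D] (f : C →ₐ[R] D) (χ : κ → Option (I × J))
    (Y : Matrix I L C) (X : Matrix L J C) (N : Matrix κ κ C) (p q : κ ⊕ (I ⊕ (L ⊕ J))) :
    Mx χ (Y.map f) (X.map f) (N.map f) p q = f (Mx χ Y X N p q) := by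
  rcases p with a | i | l | j
  · rcases q with b | i' | l' | j'
    · change f (N a b) + corr χ (Y.map f) (X.map f) a b = f (N a b + corr χ Y X a b)
      rw [map_add]
      congr 1
      exact map_corr (f : C →+* D) χ _ _ a b
    · change (χ a).elim 0 (fun e => if i' = e.1 then 1 else 0) =
        f ((χ a).elim 0 (fun e => if i' = e.1 then 1 else 0))
      rcases χ a with _ | e
      · exact (map_zero f).symm
      · change (if i' = e.1 then 1 else 0) = f (if i' = e.1 then 1 else 0)
        split_ifs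
        · exact (map_one f).symm
        · exact (map_zero f).symm
    · change (χ a).elim 0 (fun e => (0 : D)) = f ((χ a).elim 0 (fun e => (0 : C)))
      rcases χ a with _ | e <;> exact (map_zero f).symm
    · change (χ a).elim 0 (fun e => (0 : D)) = f ((χ a).elim 0 (fun e => (0 : C)))
      rcases χ a with _ | e <;> exact (map_zero f).symm
  · rcases q with b | i' | l' | j'
    · change (χ b).elim 0 (fun e => (0 : D)) = f ((χ b).elim 0 (fun e => (0 : C)))
      rcases χ b with _ | e <;> exact (map_zero f).symm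
    · change (1 : Matrix I I D) i i' = f ((1 : Matrix I I C) i i')
      rw [Matrix.one_apply, Matrix.one_apply]
      split_ifs
      · exact (map_one f).symm
      · exact (map_zero f).symm
    · exact (map_neg f _).symm
    · exact (map_zero f).symm
  · rcases q with b | i' | l' | j'
    · change (χ b).elim 0 (fun e => (0 : D)) = f ((χ b).elim 0 (fun e => (0 : C)))
      rcases χ b with _ | e <;> exact (map_zero f).symm
    · exact (map_zero f).symm
    · change (1 : Matrix L L D) l l' = f ((1 : Matrix L L C) l l')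
      rw [Matrix.one_apply, Matrix.one_apply]
      split_ifs
      · exact (map_one f).symm
      · exact (map_zero f).symm
    · exact (map_neg f _).symm
  · rcases q with b | i' | l' | j'
    · change (χ b).elim 0 (fun e => if j = e.2 then 1 else 0) =
        f ((χ b).elim 0 (fun e => if j = e.2 then 1 else 0))
      rcases χ b with _ | e
      · exact (map_zero f).symm
      · change (if j = e.2 then 1 else 0) = f (if j = e.2 then 1 else 0)
        split_ifs
        · exact (map_one f).symm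
        · exact (map_zero f).symm
    · exact (map_zero f).symm
    · exact (map_zero f).symm
    · change (1 : Matrix J J D) j j' = f ((1 : Matrix J J C) j j')
      rw [Matrix.one_apply, Matrix.one_apply]
      split_ifs
      · exact (map_one f).symm
      · exact (map_zero f).symm

end

/-- Matrices whose diagonal entries are entries of a product of two matrices with given entries. -/
theorem basec (hP : Bnd sep P) (χ : κ → Option (I × J)) (F : Finset ((I × L) ⊕ (L × J)))
    (c : (I × L) ⊕ (L × J) → R)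
    (h : ∀ (F : Finset ((κ ⊕ (I ⊕ (L ⊕ J))) × (κ ⊕ (I ⊕ (L ⊕ J))))) c,
      PP P (relc F c) (gm R (κ ⊕ (I ⊕ (L ⊕ J)))).det) :
    Dg (S0c F c) 1 P (dd R χ) := by
  classical
  have h1 := h (Finset.univ.filter fun e => ¬ isFr F e.1 e.2) (fun e => cst χ c e.1 e.2)
  have hpt : ∀ {C : Type} [CommRing C] [Algebra R C]
      (v : (κ ⊕ (I ⊕ (L ⊕ J))) × (κ ⊕ (I ⊕ (L ⊕ J))) → C),
      Pt (relc (Finset.univ.filter fun e : (κ ⊕ (I ⊕ (L ⊕ J))) × (κ ⊕ (I ⊕ (L ⊕ J))) =>
        ¬ isFr F e.1 e.2) (fun e => cst χ c e.1 e.2)) (gm R (κ ⊕ (I ⊕ (L ⊕ J)))).det v ↔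
        (∀ p q, ¬ isFr F p q → v (p, q) = algebraMap R C (cst χ c p q)) ∧
          IsUnit (Matrix.of fun i j => v (i, j)).det := by
    intro C _ _ v
    rw [pt_relc]
    refine and_congr_left fun _ => ?_
    constructor
    · intro h p q h1
      exact h (p, q) (Finset.mem_filter.mpr ⟨Finset.mem_univ _, h1⟩)
    · rintro h ⟨p, q⟩ he
      exact h p q (Finset.mem_filter.mp he).2
  have hpt' : ∀ {C : Type} [CommRing C] [Algebra R C]
      (y : ((I × L) ⊕ (L × J)) ⊕ (κ × κ) → C),
      Pt (DS (S0c F c) (dd R χ)) (rename Sum.inl 1 * (gN R ((I × L) ⊕ (L × J)) κ).det) y ↔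
      ((∀ e ∈ F, y (Sum.inl e) = algebraMap R C (c e)) ∧
        ∀ a, y (Sum.inr (a, a)) = - corr χ (Ym fun s => y (Sum.inl s))
          (Xm fun s => y (Sum.inl s)) a a) ∧
      IsUnit (Matrix.of fun a b => y (Sum.inr (a, b))).det := by
    intro C _ _ y
    rw [pt_ds, pt_S0c]
    simp only [aeval_dd]
  refine pp_iso hP
    ⟨fun C _ _ v => Sum.elim (yv v) fun e => nv χ v e.1 e.2, ?_, ?_⟩
    ⟨fun C _ _ y e => Mx χ (Ym fun s => y (Sum.inl s)) (Xm fun s => y (Sum.inl s))
      (Matrix.of fun a b => y (Sum.inr (a, b))) e.1 e.2, ?_, ?_⟩ ?_ ?_ h1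
  · intro C _ _ v hv
    rw [hpt] at hv
    obtain ⟨h2, h4⟩ := hv
    rw [hpt']
    refine ⟨⟨?_, fun a => ?_⟩, ?_⟩
    · rintro (⟨i, l⟩ | ⟨l, j⟩) he
      · change - v (Sum.inr (Sum.inl i), Sum.inr (Sum.inr (Sum.inl l))) = _
        rw [h2 (Sum.inr (Sum.inl i)) (Sum.inr (Sum.inr (Sum.inl l))) (not_not.mpr he)]
        change - algebraMap R C (- c (Sum.inl (i, l))) = _
        rw [map_neg, neg_neg]
      · change - v (Sum.inr (Sum.inr (Sum.inl l)), Sum.inr (Sum.inr (Sum.inr j))) = _
        rw [h2 (Sum.inr (Sum.inr (Sum.inl l))) (Sum.inr (Sum.inr (Sum.inr j))) (not_not.mpr he)]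
        change - algebraMap R C (- c (Sum.inr (l, j))) = _
        rw [map_neg, neg_neg]
    · change v (Sum.inl a, Sum.inl a) - corr χ (Ym (yv v)) (Xm (yv v)) a a =
        - corr χ (Ym (yv v)) (Xm (yv v)) a a
      rw [h2 (Sum.inl a) (Sum.inl a) (not_not.mpr rfl)]
      change algebraMap R C 0 - _ = _
      rw [map_zero, zero_sub]
    · have h5 : (Matrix.of fun i j => v (i, j)) =
          Mx χ (Ym (yv v)) (Xm (yv v)) (nv χ v) := by
        ext p q
        exact (Mx_of_ptc h2 p q).symm
      rw [h5, det_Mx] at h4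
      exact h4
  · intro C D _ _ _ _ f v _ t
    have hy : yv (fun s => f (v s)) = fun s => f (yv v s) := by
      funext s
      rcases s with s | s
      · exact (map_neg f _).symm
      · exact (map_neg f _).symm
    rcases t with t | ⟨a, b⟩
    · exact congrFun hy t
    · change f (v (Sum.inl a, Sum.inl b)) - corr χ (Ym (yv fun s => f (v s)))
        (Xm (yv fun s => f (v s))) a b = f (v (Sum.inl a, Sum.inl b) -
        corr χ (Ym (yv v)) (Xm (yv v)) a b)
      rw [map_sub, hy]
      congr 1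
      exact map_corr (f : C →+* D) χ _ _ a b
  · intro C _ _ y hy
    rw [hpt'] at hy
    obtain ⟨⟨h2, h4⟩, h5⟩ := hy
    rw [hpt]
    refine ⟨fun p q h6 => ?_, ?_⟩
    · exact Mx_cst (fun i l he => h2 _ he) (fun l j he => h2 _ he) (fun a => h4 a) p q h6
    · have h6 := det_Mx χ (Ym fun s => y (Sum.inl s)) (Xm fun s => y (Sum.inl s))
        (Matrix.of fun a b => y (Sum.inr (a, b)))
      rw [← h6] at h5
      exact h5
  · intro C D _ _ _ _ f y _ e
    exact map_Mx f χ _ _ _ e.1 e.2
  · intro C _ _ v hv e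
    rw [hpt] at hv
    exact Mx_of_ptc hv.1 e.1 e.2
  · intro C _ _ y _ t
    have h2 : yv (fun e : (κ ⊕ (I ⊕ (L ⊕ J))) × (κ ⊕ (I ⊕ (L ⊕ J))) =>
        Mx χ (Ym fun s => y (Sum.inl s)) (Xm fun s => y (Sum.inl s))
        (Matrix.of fun a b => y (Sum.inr (a, b))) e.1 e.2) = fun s => y (Sum.inl s) := by
      funext s
      rcases s with s | s
      · exact neg_neg _
      · exact neg_neg _
    rcases t with t | ⟨a, b⟩
    · exact congrFun h2 t
    · have h3 : ∀ c : C, y (Sum.inr (a, b)) + c - c = y (Sum.inr (a, b)) := fun c => by ring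
      refine Eq.trans ?_ (h3 (corr χ (Ym fun s => y (Sum.inl s)) (Xm fun s => y (Sum.inl s)) a b))
      change y (Sum.inr (a, b)) + corr χ (Ym fun s => y (Sum.inl s)) (Xm fun s => y (Sum.inl s)) a b -
        corr χ (Ym (yv _)) (Xm (yv _)) a b = _
      rw [h2]

/-- the equations: the entries `c` at the places `F`, and zeros of the product at the places `E` -/
def S3c (F : Finset ((I × L) ⊕ (L × J))) (c : (I × L) ⊕ (L × J) → R) (E : Finset (I × J)) :
    Set (MvPolynomial ((I × L) ⊕ (L × J)) R) :=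
  {g | (∃ e ∈ F, X e - C (c e) = g) ∨ ∃ e ∈ E, pr R e = g}

omit [Fintype I] [Fintype J] [DecidableEq I] [DecidableEq L] [DecidableEq J] in
lemma pt_S3c {F : Finset ((I × L) ⊕ (L × J))} {c : (I × L) ⊕ (L × J) → R} {E : Finset (I × J)}
    {C : Type} [CommRing C] [Algebra R C] (y : (I × L) ⊕ (L × J) → C) :
    Pt (S3c F c E) 1 y ↔ (∀ e ∈ F, y e = algebraMap R C (c e)) ∧
      ∀ e ∈ E, ∑ l, y (Sum.inl (e.1, l)) * y (Sum.inr (l, e.2)) = 0 := by
  have h0 : ∀ e : I × J, aeval y (pr R e) = ∑ l, y (Sum.inl (e.1, l)) * y (Sum.inr (l, e.2)) := by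
    intro e
    rw [aeval_pr, Matrix.mul_apply]
    rfl
  rw [Pt, map_one]
  constructor
  · rintro ⟨h, _⟩
    refine ⟨fun e he => ?_, fun e he => ?_⟩
    · have := h _ (Or.inl ⟨e, he, rfl⟩)
      rwa [map_sub, aeval_C, aeval_X, sub_eq_zero] at this
    · have := h _ (Or.inr ⟨e, he, rfl⟩)
      rwa [h0] at this
  · rintro ⟨h2, h3⟩
    refine ⟨?_, isUnit_one⟩
    rintro _ (⟨e, he, rfl⟩ | ⟨e, he, rfl⟩)
    · rw [map_sub, aeval_C, aeval_X, sub_eq_zero]
      exact h2 e he
    · rw [h0]
      exact h3 e he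

/-- Pairs of matrices with given entries and zeros in the product. -/
theorem pairs (hP : Bnd sep P)
    (h : ∀ (ι : Type) [Fintype ι] [DecidableEq ι] (F : Finset (ι × ι)) (c : ι × ι → R),
      PP P (relc F c) (gm R ι).det)
    (F : Finset ((I × L) ⊕ (L × J))) (c : (I × L) ⊕ (L × J) → R) (E : Finset (I × J)) :
    PP P (S3c F c E) 1 := by
  let D : Set (MvPolynomial ((I × L) ⊕ (L × J)) R) := {g | g = 0 ∨ ∃ e : I × J, g = - pr R e}
  have h1 : ∀ L' : List (MvPolynomial ((I × L) ⊕ (L × J)) R), (∀ f ∈ L', f ∈ D) →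
      PP P (S0c F c) (1 * L'.prod) := by
    refine of_diag hP D (Or.inl rfl) ?_
    intro κ _ _ d hd
    have h2 : ∃ χ : κ → Option (I × J), d = dd R χ := by
      have h3 : ∀ a, ∃ o : Option (I × J), d a = o.elim 0 fun e => - pr R e := by
        intro a
        rcases hd a with ha | ⟨e, he⟩
        · exact ⟨none, ha⟩
        · exact ⟨some e, he⟩
      choose χ hχ using h3
      exact ⟨χ, funext hχ⟩
    obtain ⟨χ, rfl⟩ := h2
    exact basec hP χ F c fun F c => h _ F c
  have h2 := closed_of_list hP D h1 (E.toList.map fun e => - pr R e) (by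
    intro f hf
    obtain ⟨e, _, rfl⟩ := List.mem_map.mp hf
    exact Or.inr ⟨e, rfl⟩)
  refine pp_same hP ?_ h2
  intro C _ _ y
  have h3 : Pt (S0c F c ∪ {g | g ∈ E.toList.map fun e => - pr R e}) 1 y ↔
      Pt (S0c F c) 1 y ∧ ∀ e ∈ E, aeval y (- pr R e : MvPolynomial ((I × L) ⊕ (L × J)) R) = 0 := by
    rw [Pt, Pt]
    constructor
    · rintro ⟨h3, h4⟩
      refine ⟨⟨fun g hg => h3 g (Or.inl hg), h4⟩, fun e he => h3 _ (Or.inr ?_)⟩
      exact List.mem_map.mpr ⟨e, Finset.mem_toList.mpr he, rfl⟩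
    · rintro ⟨⟨h3, h4⟩, h5⟩
      refine ⟨?_, h4⟩
      rintro g (hg | hg)
      · exact h3 g hg
      · obtain ⟨e, he, rfl⟩ := List.mem_map.mp hg
        exact h5 e (Finset.mem_toList.mp he)
  rw [h3, pt_S0c, pt_S3c]
  refine and_congr_right fun _ => ?_
  constructor
  · intro h6 e he
    have h7 := h6 e he
    rw [map_neg, neg_eq_zero, aeval_pr, Matrix.mul_apply] at h7
    exact h7
  · intro h6 e he
    rw [map_neg, neg_eq_zero, aeval_pr, Matrix.mul_apply]
    exact h6 e he

end Pool.Agent.H839.PZ
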