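import Pool.Agent.H839.PZ.Peel

/-!
# Bordered matrices
-/

set_option autoImplicit false

open CategoryTheory AlgebraicGeometry MvPolynomial

namespace Pool.Agent.H839.PZ

open Pool.Agent.Y116.UV Pool.Agent.Z125.UN

variable {κ : Type} [Fintype κ] [DecidableEq κ]

section bd

variable {C : Type} [CommRing C]

/-- the bordered matrix -/
def bm (q : C) (u v : κ → C) (N : Matrix κ κ C) : Matrix (Unit ⊕ κ) (Unit ⊕ κ) C :=
  Matrix.fromBlocks (Matrix.of fun _ _ => q) (Matrix.of fun _ j => u j) (Matrix.of fun i _ => v i) N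

/-- the bordered determinant -/
def bd (q : C) (u v : κ → C) (N : Matrix κ κ C) : C := (bm q u v N).det

/-- its coefficients -/
def fc (v : κ → C) (N : Matrix κ κ C) (i : κ) : C := - bd 0 (Pi.single i 1) v N

lemma bm_update (q : C) (u v : κ → C) (N : Matrix κ κ C) (a : C) (b : κ → C) :
    (bm q u v N).updateRow (Sum.inl ()) (Sum.elim (fun _ => a) b) = bm a b v N := by
  ext i j
  rcases i with ⟨⟩ | i
  · rw [Matrix.updateRow_self]
    rcases j with ⟨⟩ | j <;> rfl
  · rw [Matrix.updateRow_ne (by simp)]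
    rcases j with ⟨⟩ | j <;> rfl

lemma single_inl : (Pi.single (Sum.inl ()) 1 : Unit ⊕ κ → C) = Sum.elim (fun _ => 1) 0 := by
  funext j
  rcases j with ⟨⟩ | j
  · simp
  · simp

lemma single_inr (i : κ) :
    (Pi.single (Sum.inr i) 1 : Unit ⊕ κ → C) = Sum.elim (fun _ => 0) (Pi.single i 1) := by
  funext j
  rcases j with ⟨⟩ | j
  · simp
  · simp [Pi.single_apply]

lemma bd_one (v : κ → C) (N : Matrix κ κ C) : bd 1 0 v N = N.det := by
  have h : bm 1 0 v N = Matrix.fromBlocks 1 0 (Matrix.of fun i _ => v i) N := by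
    ext i j
    rcases i with ⟨⟩ | i <;> rcases j with ⟨⟩ | j <;> simp [bm]
  rw [bd, h, Matrix.det_fromBlocks_zero₁₂, Matrix.det_one, one_mul]

lemma bd_eq (q : C) (u v : κ → C) (N : Matrix κ κ C) :
    bd q u v N = q * N.det - ∑ i, u i * fc v N i := by
  have h := Matrix.det_eq_sum_mul_adjugate_row (bm q u v N) (Sum.inl ())
  rw [Fintype.sum_sum_type, Fintype.sum_unique] at h
  rw [bd, h, sub_eq_add_neg, ← Finset.sum_neg_distrib]
  congr 1
  · rw [Matrix.adjugate_apply]
    have h1 : (bm q u v N).updateRow (Sum.inl ()) (Pi.single (Sum.inl default) 1) =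
        bm 1 0 v N := by
      have h2 : (Pi.single (Sum.inl default) 1 : Unit ⊕ κ → C) = Sum.elim (fun _ => 1) 0 :=
        single_inl
      rw [h2, bm_update]
    rw [h1]
    change q * bd 1 0 v N = _
    rw [bd_one]
  · refine Finset.sum_congr rfl fun i _ => ?_
    rw [Matrix.adjugate_apply, single_inr, bm_update, fc, mul_neg, neg_neg]
    rfl

lemma fc_zero (N : Matrix κ κ C) (i : κ) : fc 0 N i = 0 := by
  rw [fc, bd, neg_eq_zero]
  apply Matrix.det_eq_zero_of_column_eq_zero (Sum.inl ())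
  intro j
  rcases j with ⟨⟩ | j <;> rfl

lemma zero_of_fc {v : κ → C} {N : Matrix κ κ C} (hN : IsUnit N.det) (h : ∀ i, fc v N i = 0) :
    v = 0 := by
  have hI : Invertible N := Matrix.invertibleOfIsUnitDet N hN
  have h1 : ∀ i, (⅟ N).mulVec v i = 0 := by
    intro i
    have h2 := h i
    rw [fc, bd, bm, Matrix.det_fromBlocks₂₂, neg_eq_zero] at h2
    have h3 := hN.mul_right_eq_zero.mp h2
    rw [Matrix.det_unique] at h3
    have h4 : (Matrix.of (fun (_ _ : Unit) => (0 : C)) -
        Matrix.of (fun (_ : Unit) (j : κ) => (Pi.single i 1 : κ → C) j) * ⅟ N *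
        Matrix.of (fun (i : κ) (_ : Unit) => v i)) default default = - (⅟ N).mulVec v i := by
      rw [Matrix.sub_apply, Matrix.mul_assoc, Matrix.mul_apply]
      simp only [Matrix.of_apply, Pi.single_apply, ite_mul, one_mul, zero_mul,
        Finset.sum_ite_eq', Finset.sum_ite_eq, Finset.mem_univ, if_true, zero_sub]
      rfl
    rw [h4, neg_eq_zero] at h3
    exact h3
  have h5 : (⅟ N).mulVec v = 0 := funext h1
  calc v = (N * ⅟ N).mulVec v := by rw [mul_invOf_self, Matrix.one_mulVec]
    _ = N.mulVec ((⅟ N).mulVec v) := (Matrix.mulVec_mulVec _ _ _).symm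
    _ = 0 := by rw [h5, Matrix.mulVec_zero]

lemma map_bd {D : Type} [CommRing D] (f : C →+* D) (q : C) (u v : κ → C) (N : Matrix κ κ C) :
    f (bd q u v N) = bd (f q) (fun i => f (u i)) (fun i => f (v i)) (N.map f) := by
  rw [bd, bd, RingHom.map_det]
  congr 1
  ext i j
  rcases i with ⟨⟩ | i <;> rcases j with ⟨⟩ | j <;> rfl

lemma map_fc {D : Type} [CommRing D] (f : C →+* D) (v : κ → C) (N : Matrix κ κ C) (i : κ) :
    f (fc v N i) = fc (fun i => f (v i)) (N.map f) i := by
  rw [fc, fc, map_neg, map_bd, map_zero]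
  congr 2
  funext j
  rw [Pi.single_apply, Pi.single_apply]
  split_ifs
  · exact map_one f
  · exact map_zero f

end bd

variable {R : Type} [CommRing R] {sep : Prop} {P : Sch R → Prop}

variable {σ : Type} (S : Set (MvPolynomial σ R)) (w : MvPolynomial σ R)
  (N : Matrix κ κ (MvPolynomial σ R))

/-- the polynomial of the bordered matrix -/
noncomputable def bp (q : MvPolynomial σ R) : MvPolynomial (σ ⊕ (κ ⊕ κ)) R :=
  bd (rename Sum.inl q) (fun i => X (Sum.inr (Sum.inl i))) (fun i => X (Sum.inr (Sum.inr i)))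
    (N.map (rename Sum.inl))

/-- its coefficients -/
noncomputable def fp (i : κ) : MvPolynomial (σ ⊕ (κ ⊕ κ)) R :=
  fc (fun i => X (Sum.inr (Sum.inr i))) (N.map (rename Sum.inl)) i

lemma aeval_inl {τ C : Type} [CommRing C] [Algebra R C] (y : σ ⊕ τ → C) (p : MvPolynomial σ R) :
    aeval y (rename Sum.inl p) = aeval (fun s => y (Sum.inl s)) p := aeval_rename _ _ _

lemma aeval_bp {C : Type} [CommRing C] [Algebra R C] (q : MvPolynomial σ R)
    (y : σ ⊕ (κ ⊕ κ) → C) : aeval y (bp N q) = bd (aeval (fun s => y (Sum.inl s)) q)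
      (fun i => y (Sum.inr (Sum.inl i))) (fun i => y (Sum.inr (Sum.inr i)))
      (N.map (aeval fun s => y (Sum.inl s))) := by
  have h := map_bd (aeval y : MvPolynomial (σ ⊕ (κ ⊕ κ)) R →ₐ[R] C).toRingHom (rename Sum.inl q)
    (fun i => X (Sum.inr (Sum.inl i))) (fun i => X (Sum.inr (Sum.inr i))) (N.map (rename Sum.inl))
  refine h.trans ?_
  congr 1
  · exact aeval_inl y q
  · funext i
    exact aeval_X _ _
  · funext i
    exact aeval_X _ _
  · ext i j
    exact aeval_inl y _

lemma aeval_fp {C : Type} [CommRing C] [Algebra R C] (i : κ)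
    (y : σ ⊕ (κ ⊕ κ) → C) : aeval y (fp N i) = fc (fun i => y (Sum.inr (Sum.inr i)))
      (N.map (aeval fun s => y (Sum.inl s))) i := by
  have h := map_fc (aeval y : MvPolynomial (σ ⊕ (κ ⊕ κ)) R →ₐ[R] C).toRingHom
    (fun i => X (Sum.inr (Sum.inr i))) (N.map (rename Sum.inl)) i
  refine h.trans ?_
  congr 1
  · funext i
    exact aeval_X _ _
  · ext i j
    exact aeval_inl y _

lemma aeval_det' {C : Type} [CommRing C] [Algebra R C] (x : σ → C) :
    aeval x N.det = (N.map (aeval x)).det := by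
  rw [AlgHom.map_det]
  rfl

/-- the scheme of the bordered matrices -/
def BP (P : Sch R → Prop) (q : MvPolynomial σ R) : Prop :=
  PP P (rename Sum.inl '' S : Set (MvPolynomial (σ ⊕ (κ ⊕ κ)) R)) (rename Sum.inl w * bp N q)

variable {S w N}

lemma pt_bp {C : Type} [CommRing C] [Algebra R C] (q : MvPolynomial σ R)
    (y : σ ⊕ (κ ⊕ κ) → C) :
    Pt (rename Sum.inl '' S : Set (MvPolynomial (σ ⊕ (κ ⊕ κ)) R)) (rename Sum.inl w * bp N q) y ↔
      Pt S w (fun s => y (Sum.inl s)) ∧ IsUnit (aeval (fun s => y (Sum.inl s)) q *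
        (N.map (aeval fun s => y (Sum.inl s))).det - ∑ i, y (Sum.inr (Sum.inl i)) *
          fc (fun i => y (Sum.inr (Sum.inr i))) (N.map (aeval fun s => y (Sum.inl s))) i) := by
  rw [pt_mul, pt_rename, aeval_bp, bd_eq]

lemma pt_js' {q : MvPolynomial σ R} {C : Type} [CommRing C] [Algebra R C]
    (y : (σ ⊕ (κ ⊕ κ)) ⊕ κ → C) :
    Pt (JS (rename Sum.inl '' S : Set (MvPolynomial (σ ⊕ (κ ⊕ κ)) R)) (fp N))
      (rename Sum.inl (rename Sum.inl w * bp N q)) y ↔
      (Pt S w (fun s => y (Sum.inl (Sum.inl s))) ∧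
        IsUnit (aeval (fun s => y (Sum.inl (Sum.inl s))) q *
        (N.map (aeval fun s => y (Sum.inl (Sum.inl s)))).det -
        ∑ i, y (Sum.inl (Sum.inr (Sum.inl i))) *
          fc (fun i => y (Sum.inl (Sum.inr (Sum.inr i))))
            (N.map (aeval fun s => y (Sum.inl (Sum.inl s)))) i)) ∧
      ∑ i, fc (fun i => y (Sum.inl (Sum.inr (Sum.inr i))))
            (N.map (aeval fun s => y (Sum.inl (Sum.inl s)))) i * y (Sum.inr i) = 1 := by
  rw [pt_js, pt_bp]
  refine and_congr_right fun _ => ?_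
  have h : ∀ i, aeval (fun s => y (Sum.inl s)) (fp N i) =
      fc (fun i => y (Sum.inl (Sum.inr (Sum.inr i))))
            (N.map (aeval fun s => y (Sum.inl (Sum.inl s)))) i := fun i => aeval_fp N i _
  rw [Finset.sum_congr rfl fun i _ => by rw [h i]]

/-- From bordered matrices to the product of the determinant and the function in the corner. -/
theorem border [Finite σ] (hP : Bnd sep P) {p : MvPolynomial σ R} (h0 : BP S w N P 0)
    (hp : BP S w N P p) : PP P S (w * (p * N.det)) := by
  -- the affine bundle over the first scheme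
  have hJ0 : PP P (JS (rename Sum.inl '' S : Set (MvPolynomial (σ ⊕ (κ ⊕ κ)) R)) (fp N))
      (rename Sum.inl (rename Sum.inl w * bp N 0)) := by
    refine pp_bundle hP (fp N) ?_ h0
    intro C _ _ y hy
    rw [pt_bp, map_zero, zero_mul, zero_sub] at hy
    obtain ⟨_, a, ha⟩ := hy
    refine ⟨fun i => - ((a⁻¹ : Cˣ) : C) * y (Sum.inr (Sum.inl i)), ?_⟩
    simp only [aeval_fp]
    have h1 : ∑ i, - ((a⁻¹ : Cˣ) : C) * y (Sum.inr (Sum.inl i)) *
        fc (fun i => y (Sum.inr (Sum.inr i))) (N.map (aeval fun s => y (Sum.inl s))) i =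
        ((a⁻¹ : Cˣ) : C) * (a : C) := by
      rw [ha, mul_neg, ← neg_mul, Finset.mul_sum]
      refine Finset.sum_congr rfl fun i _ => ?_
      rw [mul_assoc]
    rw [h1]
    exact a.inv_mul
  -- the affine bundle over the second scheme
  have hJp : PP P (JS (rename Sum.inl '' S : Set (MvPolynomial (σ ⊕ (κ ⊕ κ)) R)) (fp N))
      (rename Sum.inl (rename Sum.inl w * bp N p)) := by
    refine pp_iso hP
      ⟨fun C _ _ y => Sum.elim (Sum.elim (fun s => y (Sum.inl (Sum.inl s)))
        (Sum.elim (fun i => y (Sum.inl (Sum.inr (Sum.inl i))) +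
          (aeval (fun s => y (Sum.inl (Sum.inl s))) p *
            (N.map (aeval fun s => y (Sum.inl (Sum.inl s)))).det) * y (Sum.inr i))
          fun i => y (Sum.inl (Sum.inr (Sum.inr i))))) fun i => y (Sum.inr i), ?_, ?_⟩
      ⟨fun C _ _ y => Sum.elim (Sum.elim (fun s => y (Sum.inl (Sum.inl s)))
        (Sum.elim (fun i => y (Sum.inl (Sum.inr (Sum.inl i))) -
          (aeval (fun s => y (Sum.inl (Sum.inl s))) p *
            (N.map (aeval fun s => y (Sum.inl (Sum.inl s)))).det) * y (Sum.inr i))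
          fun i => y (Sum.inl (Sum.inr (Sum.inr i))))) fun i => y (Sum.inr i), ?_, ?_⟩ ?_ ?_ hJ0
    · intro C _ _ y hy
      rw [pt_js', map_zero, zero_mul, zero_sub] at hy
      rw [pt_js']
      refine ⟨⟨hy.1.1, ?_⟩, hy.2⟩
      have h1 := hy.1.2
      have h2 := hy.2
      simp only [Sum.elim_inl, Sum.elim_inr]
      refine (congrArg IsUnit ?_).mp h1
      simp only [add_mul, Finset.sum_add_distrib]
      have h3 : ∀ g : C, ∑ i, g * y (Sum.inr i) * fc (fun i => y (Sum.inl (Sum.inr (Sum.inr i))))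
          (N.map (aeval fun s => y (Sum.inl (Sum.inl s)))) i = g := by
        intro g
        conv_rhs => rw [← mul_one g, ← h2, Finset.mul_sum]
        refine Finset.sum_congr rfl fun i _ => ?_
        ring
      rw [h3]
      ring
    · intro C D _ _ _ _ f y _ t
      have h1 : ∀ q : MvPolynomial σ R, aeval (fun s => f (y (Sum.inl (Sum.inl s)))) q =
          f (aeval (fun s => y (Sum.inl (Sum.inl s))) q) := by
        intro q
        have := MvPolynomial.comp_aeval (R := R) (fun s => y (Sum.inl (Sum.inl s))) f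
        exact (congrArg (fun k : MvPolynomial σ R →ₐ[R] _ => k q) this).symm
      rcases t with (s | i | i) | i
      · rfl
      · change f (y (Sum.inl (Sum.inr (Sum.inl i)))) +
          (aeval (fun s => f (y (Sum.inl (Sum.inl s)))) p *
            (N.map (aeval fun s => f (y (Sum.inl (Sum.inl s))))).det) * f (y (Sum.inr i)) =
          f (y (Sum.inl (Sum.inr (Sum.inl i))) + (aeval (fun s => y (Sum.inl (Sum.inl s))) p *
            (N.map (aeval fun s => y (Sum.inl (Sum.inl s)))).det) * y (Sum.inr i))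
        rw [← aeval_det', ← aeval_det', h1, h1, map_add, map_mul, map_mul]
      · rfl
      · rfl
    · intro C _ _ y hy
      rw [pt_js'] at hy
      rw [pt_js', map_zero, zero_mul, zero_sub]
      refine ⟨⟨hy.1.1, ?_⟩, hy.2⟩
      have h1 := hy.1.2
      have h2 := hy.2
      simp only [Sum.elim_inl, Sum.elim_inr]
      refine (congrArg IsUnit ?_).mp h1
      simp only [sub_mul, Finset.sum_sub_distrib]
      have h3 : ∀ g : C, ∑ i, g * y (Sum.inr i) * fc (fun i => y (Sum.inl (Sum.inr (Sum.inr i))))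
          (N.map (aeval fun s => y (Sum.inl (Sum.inl s)))) i = g := by
        intro g
        conv_rhs => rw [← mul_one g, ← h2, Finset.mul_sum]
        refine Finset.sum_congr rfl fun i _ => ?_
        ring
      rw [h3]
      ring
    · intro C D _ _ _ _ f y _ t
      have h1 : ∀ q : MvPolynomial σ R, aeval (fun s => f (y (Sum.inl (Sum.inl s)))) q =
          f (aeval (fun s => y (Sum.inl (Sum.inl s))) q) := by
        intro q
        have := MvPolynomial.comp_aeval (R := R) (fun s => y (Sum.inl (Sum.inl s))) f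
        exact (congrArg (fun k : MvPolynomial σ R →ₐ[R] _ => k q) this).symm
      rcases t with (s | i | i) | i
      · rfl
      · change f (y (Sum.inl (Sum.inr (Sum.inl i)))) -
          (aeval (fun s => f (y (Sum.inl (Sum.inl s)))) p *
            (N.map (aeval fun s => f (y (Sum.inl (Sum.inl s))))).det) * f (y (Sum.inr i)) =
          f (y (Sum.inl (Sum.inr (Sum.inl i))) - (aeval (fun s => y (Sum.inl (Sum.inl s))) p *
            (N.map (aeval fun s => y (Sum.inl (Sum.inl s)))).det) * y (Sum.inr i))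
        rw [← aeval_det', ← aeval_det', h1, h1, map_sub, map_mul, map_mul]
      · rfl
      · rfl
    · intro C _ _ y _ t
      rcases t with (s | i | i) | i
      · rfl
      · exact add_sub_cancel_right _ _
      · rfl
      · rfl
    · intro C _ _ y _ t
      rcases t with (s | i | i) | i
      · rfl
      · exact sub_add_cancel _ _
      · rfl
      · rfl
  -- the closed part
  have h1 := pp_of_jou hP (fp N) hp hJp
  have hpt : ∀ {C : Type} [CommRing C] [Algebra R C] (y : σ ⊕ (κ ⊕ κ) → C),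
      Pt ((rename Sum.inl '' S : Set (MvPolynomial (σ ⊕ (κ ⊕ κ)) R)) ∪ Set.range (fp N))
        (rename Sum.inl w * bp N p) y ↔ Pt S (w * (p * N.det)) (fun s => y (Sum.inl s)) ∧
          ∀ i, y (Sum.inr (Sum.inr i)) = 0 := by
    intro C _ _ y
    have h2 : Pt ((rename Sum.inl '' S : Set (MvPolynomial (σ ⊕ (κ ⊕ κ)) R)) ∪ Set.range (fp N))
        (rename Sum.inl w * bp N p) y ↔
        Pt (rename Sum.inl '' S : Set (MvPolynomial (σ ⊕ (κ ⊕ κ)) R))
          (rename Sum.inl w * bp N p) y ∧ ∀ i, aeval y (fp N i) = 0 := by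
      rw [Pt, Pt]
      constructor
      · rintro ⟨h3, h4⟩
        exact ⟨⟨fun g hg => h3 g (Or.inl hg), h4⟩, fun i => h3 _ (Or.inr ⟨i, rfl⟩)⟩
      · rintro ⟨⟨h3, h4⟩, h5⟩
        refine ⟨?_, h4⟩
        rintro g (hg | ⟨i, rfl⟩)
        · exact h3 g hg
        · exact h5 i
    rw [h2, pt_bp, pt_mul, map_mul, aeval_det']
    simp only [aeval_fp]
    constructor
    · rintro ⟨⟨h3, h4⟩, h5⟩
      have h6 : ∑ i, y (Sum.inr (Sum.inl i)) *
          fc (fun i => y (Sum.inr (Sum.inr i))) (N.map (aeval fun s => y (Sum.inl s))) i = 0 :=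
        Finset.sum_eq_zero fun i _ => by rw [h5 i, mul_zero]
      rw [h6, sub_zero] at h4
      refine ⟨⟨h3, h4⟩, fun i => ?_⟩
      exact congrFun (zero_of_fc (isUnit_of_mul_isUnit_right h4) h5) i
    · rintro ⟨⟨h3, h4⟩, h5⟩
      have h6 : (fun i => y (Sum.inr (Sum.inr i))) = 0 := funext h5
      have h7 : ∀ i, fc (fun i => y (Sum.inr (Sum.inr i))) (N.map (aeval fun s => y (Sum.inl s))) i
          = 0 := fun i => by rw [h6, fc_zero]
      refine ⟨⟨h3, ?_⟩, h7⟩
      rw [Finset.sum_eq_zero fun i _ => by rw [h7 i, mul_zero], sub_zero]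
      exact h4
  refine pp_unfree hP κ (pp_iso hP
    ⟨fun C _ _ y => Sum.elim (fun s => y (Sum.inl s)) fun i => y (Sum.inr (Sum.inl i)), ?_, ?_⟩
    ⟨fun C _ _ y => Sum.elim (fun s => y (Sum.inl s)) (Sum.elim (fun i => y (Sum.inr i)) fun _ => 0),
      ?_, ?_⟩ ?_ ?_ h1)
  · intro C _ _ y hy
    rw [hpt] at hy
    rw [pt_rename]
    exact hy.1
  · intro C D _ _ _ _ f y _ t
    rcases t with s | i <;> rfl
  · intro C _ _ y hy
    rw [pt_rename] at hy
    rw [hpt]
    exact ⟨hy, fun _ => rfl⟩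
  · intro C D _ _ _ _ f y _ t
    rcases t with s | i | i
    · rfl
    · rfl
    · exact (map_zero f).symm
  · intro C _ _ y hy s
    rw [hpt] at hy
    rcases s with s | i | i
    · rfl
    · rfl
    · exact (hy.2 i).symm
  · intro C _ _ y _ t
    rcases t with s | i <;> rfl

end Pool.Agent.H839.PZ
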