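import Pool.Agent.H839.PZ.Main

/-!
# At most three entries in every row and column
-/

set_option autoImplicit false

open CategoryTheory AlgebraicGeometry MvPolynomial

namespace Pool.Agent.H839.PZ

open Pool.Agent.Y116.UV Pool.Agent.Z125.UN Pool.Agent.Q282.UZ Pool.Agent.N882.UE

variable {R : Type} [CommRing R] {sep : Prop} {P : Sch R → Prop}

section count

variable {ι : Type} [Fintype ι] [DecidableEq ι]

/-- the number of the places in a row -/
def rd (B : Finset (ι × ι)) (i : ι) : ℕ := ∑ j, if (i, j) ∈ B then 1 else 0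

/-- the number of the places in a column -/
def cd (B : Finset (ι × ι)) (j : ι) : ℕ := ∑ i, if (i, j) ∈ B then 1 else 0

/-- the excess -/
def ex (B : Finset (ι × ι)) : ℕ := ∑ i, (rd B i - 3) + ∑ j, (cd B j - 3)

lemma ex_mono {B B' : Finset (ι × ι)} (h : B' ⊆ B) : ex B' ≤ ex B := by
  have h1 : ∀ i, rd B' i ≤ rd B i := by
    intro i
    refine Finset.sum_le_sum fun j _ => ?_
    by_cases h2 : (i, j) ∈ B'
    · rw [if_pos h2, if_pos (h h2)]
    · rw [if_neg h2]
      exact Nat.zero_le _
  have h2 : ∀ j, cd B' j ≤ cd B j := by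
    intro j
    refine Finset.sum_le_sum fun i _ => ?_
    by_cases h2 : (i, j) ∈ B'
    · rw [if_pos h2, if_pos (h h2)]
    · rw [if_neg h2]
      exact Nat.zero_le _
  exact Nat.add_le_add (Finset.sum_le_sum fun i _ => Nat.sub_le_sub_right (h1 i) 3)
    (Finset.sum_le_sum fun j _ => Nat.sub_le_sub_right (h2 j) 3)

/-- the transpose -/
def tr (B : Finset (ι × ι)) : Finset (ι × ι) := Finset.univ.filter fun e => (e.2, e.1) ∈ B

lemma mem_tr (B : Finset (ι × ι)) (i j : ι) : (i, j) ∈ tr B ↔ (j, i) ∈ B := by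
  rw [tr, Finset.mem_filter]
  simp

lemma rd_tr (B : Finset (ι × ι)) (i : ι) : rd (tr B) i = cd B i := by
  rw [rd, cd]
  refine Finset.sum_congr rfl fun j _ => ?_
  simp only [mem_tr]

lemma cd_tr (B : Finset (ι × ι)) (i : ι) : cd (tr B) i = rd B i := by
  rw [rd, cd]
  refine Finset.sum_congr rfl fun j _ => ?_
  simp only [mem_tr]

lemma ex_tr (B : Finset (ι × ι)) : ex (tr B) = ex B := by
  rw [ex, ex, add_comm]
  simp only [rd_tr, cd_tr]

variable (B : Finset (ι × ι)) (r : ι) (S1 : Finset ι)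

/-- the places after splitting a row -/
def sp : ι ⊕ Unit → ι ⊕ Unit → Prop
  | Sum.inl i, Sum.inl j => (i, j) ∈ B ∧ (i = r → j ∈ S1)
  | Sum.inl i, Sum.inr _ => i = r
  | Sum.inr _, Sum.inl j => (r, j) ∈ B ∧ j ∉ S1
  | Sum.inr _, Sum.inr _ => True

open Classical in
/-- the places after splitting a row -/
noncomputable def sB : Finset ((ι ⊕ Unit) × (ι ⊕ Unit)) :=
  Finset.univ.filter fun e => sp B r S1 e.1 e.2

lemma mem_sB (p q : ι ⊕ Unit) : (p, q) ∈ sB B r S1 ↔ sp B r S1 p q := by
  classical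
  rw [sB, Finset.mem_filter]
  simp

variable {B r S1}

lemma rd_ne {i : ι} (hi : i ≠ r) : rd (sB B r S1) (Sum.inl i) = rd B i := by
  rw [rd, rd, Fintype.sum_sum_type]
  simp only [mem_sB, sp, hi, false_implies, and_true, if_false, Finset.sum_const_zero, add_zero]

lemma rd_r (h1 : ∀ j ∈ S1, (r, j) ∈ B) : rd (sB B r S1) (Sum.inl r) = S1.card + 1 := by
  classical
  rw [rd, Fintype.sum_sum_type]
  have h2 : ∀ j, sp B r S1 (Sum.inl r) (Sum.inl j) ↔ j ∈ S1 := by
    intro j
    simp only [sp, true_implies]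
    exact ⟨fun h => h.2, fun h => ⟨h1 j h, h⟩⟩
  have h3 : sp B r S1 (Sum.inl r) (Sum.inr ()) := by
    simp only [sp]
  simp only [mem_sB, h2, Finset.sum_ite_mem, Finset.univ_inter, Finset.sum_const, smul_eq_mul,
    mul_one, Finset.univ_unique, PUnit.default_eq_unit, h3, if_true, Finset.card_singleton]

lemma rd_new (h1 : ∀ j ∈ S1, (r, j) ∈ B) :
    rd (sB B r S1) (Sum.inr ()) + S1.card = rd B r + 1 := by
  classical
  rw [rd, rd, Fintype.sum_sum_type]
  have h3 : sp B r S1 (Sum.inr ()) (Sum.inr ()) := trivial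
  have h4 : ∑ j, (if (r, j) ∈ B then 1 else 0) =
      ∑ j, (if (r, j) ∈ B ∧ j ∉ S1 then 1 else 0) + S1.card := by
    have h5 : S1.card = ∑ j, if j ∈ S1 then 1 else 0 := by
      rw [Finset.sum_ite_mem, Finset.univ_inter, Finset.card_eq_sum_ones]
    rw [h5, ← Finset.sum_add_distrib]
    refine Finset.sum_congr rfl fun j _ => ?_
    by_cases hj : j ∈ S1
    · simp [hj, h1 j hj]
    · simp [hj]
  rw [h4]
  simp only [mem_sB, Finset.univ_unique, PUnit.default_eq_unit, h3, if_true, Finset.sum_const,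
    Finset.card_singleton, smul_eq_mul, mul_one]
  simp only [sp]
  ring_nf

lemma cd_old (_h1 : ∀ j ∈ S1, (r, j) ∈ B) (j : ι) : cd (sB B r S1) (Sum.inl j) = cd B j := by
  classical
  rw [cd, cd, Fintype.sum_sum_type]
  simp only [mem_sB, sp, Finset.univ_unique, Finset.sum_const, Finset.card_singleton, smul_eq_mul,
    one_mul]
  rw [← Finset.add_sum_erase _ _ (Finset.mem_univ r), ← Finset.add_sum_erase _ _ (Finset.mem_univ r),
    add_right_comm]
  congr 1
  · simp only [true_implies]
    by_cases hj : j ∈ S1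
    · simp [hj]
    · simp [hj]
  · refine Finset.sum_congr rfl fun i hi => ?_
    have : i ≠ r := Finset.ne_of_mem_erase hi
    simp [this]

lemma cd_new : cd (sB B r S1) (Sum.inr ()) = 2 := by
  classical
  rw [cd, Fintype.sum_sum_type]
  simp [mem_sB, sp]

lemma ex_lt (h1 : ∀ j ∈ S1, (r, j) ∈ B) (h2 : S1.card = 2) (h3 : 4 ≤ rd B r) :
    ex (sB B r S1) < ex B := by
  have h7 : ∀ f : Unit → ℕ, ∑ x, f x = f () := fun f => Fintype.sum_unique f
  rw [ex, ex, Fintype.sum_sum_type, Fintype.sum_sum_type, h7, h7, cd_new]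
  simp only [cd_old h1]
  rw [← Finset.add_sum_erase _ _ (Finset.mem_univ r), ← Finset.add_sum_erase Finset.univ
    (fun i => rd B i - 3) (Finset.mem_univ r)]
  have h4 : ∑ i ∈ Finset.univ.erase r, (rd (sB B r S1) (Sum.inl i) - 3) =
      ∑ i ∈ Finset.univ.erase r, (rd B i - 3) :=
    Finset.sum_congr rfl fun i hi => by rw [rd_ne (Finset.ne_of_mem_erase hi)]
  rw [h4, rd_r h1, h2]
  have h5 := rd_new h1
  rw [h2] at h5
  omega

end count

section step

variable {ι : Type} [Fintype ι] [DecidableEq ι]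

/-- the property for the matrices supported on `B` -/
def GP (P : Sch R → Prop) (B : Finset (ι × ι)) : Prop :=
  PP P (rel R (Finset.univ \ B) (∅ : Finset (ι × ι))) (gm R ι).det

lemma pt_gpr {B : Finset (ι × ι)} {C : Type} [CommRing C] [Algebra R C] {v : ι × ι → C} :
    Pt (rel R (Finset.univ \ B) (∅ : Finset (ι × ι))) (gm R ι).det v ↔
      (∀ i j, (i, j) ∉ B → v (i, j) = 0) ∧ IsUnit (Matrix.of fun i j => v (i, j)).det := by
  rw [pt_rel]
  refine and_congr_left fun _ => ?_
  constructor
  · intro h i j hij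
    exact h.1 _ (Finset.mem_sdiff.mpr ⟨Finset.mem_univ _, hij⟩)
  · intro h
    exact ⟨fun e he => h e.1 e.2 (Finset.mem_sdiff.mp he).2, fun e he => absurd he (by simp)⟩

variable (hP : Bnd sep P)

include hP

lemma gp_tr (B : Finset (ι × ι)) (h : GP (R := R) P (tr B)) : GP (R := R) P B := by
  refine pp_iso hP ⟨fun C _ _ v e => v (e.2, e.1), ?_, ?_⟩ ⟨fun C _ _ v e => v (e.2, e.1), ?_, ?_⟩
    ?_ ?_ h
  · intro C _ _ v hv
    rw [pt_gpr] at hv ⊢
    refine ⟨fun i j hij => hv.1 j i fun h => hij ((mem_tr B j i).mp h), ?_⟩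
    have h1 := hv.2
    rw [← Matrix.det_transpose] at h1
    exact h1
  · intro C D _ _ _ _ f v _ t
    rfl
  · intro C _ _ v hv
    rw [pt_gpr] at hv ⊢
    refine ⟨fun i j hij => hv.1 j i fun h => hij ((mem_tr B i j).mpr h), ?_⟩
    have h1 := hv.2
    rw [← Matrix.det_transpose] at h1
    exact h1
  · intro C D _ _ _ _ f v _ t
    rfl
  · intro C _ _ v _ s
    rfl
  · intro C _ _ v _ s
    rfl

/-- Splitting a row. -/
lemma gp_split (B : Finset (ι × ι)) (r : ι) (S1 : Finset ι) (h1 : ∀ j ∈ S1, (r, j) ∈ B)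
    (h : ∀ B' ⊆ sB B r S1, GP (R := R) P B') : GP (R := R) P B := by
  classical
  let O : Finset ((ι ⊕ Unit) × (ι ⊕ Unit)) := {(Sum.inl r, Sum.inr ()), (Sum.inr (), Sum.inr ())}
  have hO : Peel O := by
    have h2 : Peel ({(Sum.inr (), Sum.inr ())} : Finset ((ι ⊕ Unit) × (ι ⊕ Unit))) := by
      rw [← insert_empty_eq]
      exact Peel.row _ Peel.nil fun e he => absurd he (by simp)
    exact Peel.row _ h2 fun e he => by
      rw [Finset.mem_singleton.mp he]
      simp
  have h2 : ∀ Z, (Finset.univ \ sB B r S1) ⊆ Z →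
      PP P (rel R Z (∅ : Finset ((ι ⊕ Unit) × (ι ⊕ Unit)))) (gm R (ι ⊕ Unit)).det := by
    intro Z hZ
    have h3 := h (Finset.univ \ Z) (by
      intro e he
      by_contra h4
      exact (Finset.mem_sdiff.mp he).2 (hZ (Finset.mem_sdiff.mpr ⟨Finset.mem_univ _, h4⟩)))
    rw [GP] at h3
    have h4 : Finset.univ \ (Finset.univ \ Z) = Z := by
      ext e
      simp
    rwa [h4] at h3
  have h3 := pp_peel' hP h2 hO (Finset.univ \ sB B r S1) (Finset.Subset.refl _)
  have hpt : ∀ {C : Type} [CommRing C] [Algebra R C] {v : (ι ⊕ Unit) × (ι ⊕ Unit) → C},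
      Pt (rel R (Finset.univ \ sB B r S1) O) (gm R (ι ⊕ Unit)).det v ↔
        ((∀ p q, ¬ sp B r S1 p q → v (p, q) = 0) ∧ v (Sum.inl r, Sum.inr ()) = 1 ∧
          v (Sum.inr (), Sum.inr ()) = 1) ∧ IsUnit (Matrix.of fun i j => v (i, j)).det := by
    intro C _ _ v
    rw [pt_rel]
    refine and_congr_left fun _ => ?_
    constructor
    · rintro ⟨h4, h5⟩
      refine ⟨fun p q hpq => ?_, h5 _ (by simp [O]), h5 _ (by simp [O])⟩
      exact h4 _ (Finset.mem_sdiff.mpr ⟨Finset.mem_univ _, fun h => hpq ((mem_sB B r S1 p q).mp h)⟩)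
    · rintro ⟨h4, h5, h6⟩
      refine ⟨?_, ?_⟩
      · rintro ⟨p, q⟩ he
        exact h4 p q fun h => (Finset.mem_sdiff.mp he).2 ((mem_sB B r S1 p q).mpr h)
      · intro e he
        rcases Finset.mem_insert.mp he with rfl | he
        · exact h5
        · rw [Finset.mem_singleton.mp he]
          exact h6
  -- the small and the big matrix
  let sm : ∀ {C : Type} [CommRing C], ((ι ⊕ Unit) × (ι ⊕ Unit) → C) → ι × ι → C :=
    fun v e => if e.1 = r then v (Sum.inl r, Sum.inl e.2) - v (Sum.inr (), Sum.inl e.2)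
      else v (Sum.inl e.1, Sum.inl e.2)
  let bg : ∀ {C : Type} [CommRing C], (ι × ι → C) → Matrix (ι ⊕ Unit) (ι ⊕ Unit) C :=
    fun {C} _ v => Matrix.fromBlocks
      (Matrix.of fun i j => if i = r ∧ j ∉ S1 then 0 else v (i, j))
      (Matrix.of fun i _ => if i = r then 1 else 0)
      (Matrix.of fun _ j => if j ∈ S1 then 0 else - v (r, j)) 1
  have hbg : ∀ {C : Type} [CommRing C] (v : ι × ι → C),
      (bg v).det = (Matrix.of fun i j => v (i, j)).det := by
    intro C _ v
    have : Invertible (1 : Matrix Unit Unit C) := invertibleOne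
    change (Matrix.fromBlocks _ _ _ (1 : Matrix Unit Unit C)).det = _
    rw [Matrix.det_fromBlocks₂₂, Matrix.det_one, one_mul]
    congr 1
    ext i j
    rw [Matrix.sub_apply, Matrix.mul_assoc, Matrix.mul_apply, Fintype.sum_unique,
      invOf_one, Matrix.one_mul]
    simp only [Matrix.of_apply]
    by_cases hi : i = r
    · subst hi
      by_cases hj : j ∈ S1
      · simp [hj]
      · simp [hj]
    · simp [hi]
  have hsmbg : ∀ {C : Type} [CommRing C] (v : (ι ⊕ Unit) × (ι ⊕ Unit) → C),
      (∀ p q, ¬ sp B r S1 p q → v (p, q) = 0) → v (Sum.inl r, Sum.inr ()) = 1 →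
      v (Sum.inr (), Sum.inr ()) = 1 → ∀ p q, bg (sm v) p q = v (p, q) := by
    intro C _ v h4 h5 h6 p q
    rcases p with i | ⟨⟩ <;> rcases q with j | ⟨⟩
    · change (if i = r ∧ j ∉ S1 then 0 else if i = r then
        v (Sum.inl r, Sum.inl j) - v (Sum.inr (), Sum.inl j) else v (Sum.inl i, Sum.inl j)) = _
      by_cases hi : i = r
      · subst hi
        by_cases hj : j ∈ S1
        · rw [if_neg (by simp [hj]), if_pos rfl, h4 (Sum.inr ()) (Sum.inl j) (fun h => h.2 hj),
            sub_zero]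
        · rw [if_pos ⟨rfl, hj⟩, h4 (Sum.inl i) (Sum.inl j) (fun h => hj (h.2 rfl))]
      · rw [if_neg (fun h => hi h.1), if_neg hi]
    · change (if i = r then 1 else 0) = _
      by_cases hi : i = r
      · subst hi
        rw [if_pos rfl, h5]
      · rw [if_neg hi, h4 (Sum.inl i) (Sum.inr ()) (fun h => hi h)]
    · change (if j ∈ S1 then 0 else - (if r = r then
        v (Sum.inl r, Sum.inl j) - v (Sum.inr (), Sum.inl j) else v (Sum.inl r, Sum.inl j))) = _
      by_cases hj : j ∈ S1
      · rw [if_pos hj, h4 (Sum.inr ()) (Sum.inl j) (fun h => h.2 hj)]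
      · rw [if_neg hj, if_pos rfl, h4 (Sum.inl r) (Sum.inl j) (fun h => hj (h.2 rfl)), zero_sub,
          neg_neg]
    · exact h6.symm
  have hbgsm : ∀ {C : Type} [CommRing C] (v : ι × ι → C),
      ∀ i j, sm (fun e => bg v e.1 e.2) (i, j) = v (i, j) := by
    intro C _ v i j
    change (if i = r then (if r = r ∧ j ∉ S1 then 0 else v (r, j)) -
      (if j ∈ S1 then 0 else - v (r, j)) else (if i = r ∧ j ∉ S1 then 0 else v (i, j))) = _
    by_cases hi : i = r
    · subst hi
      by_cases hj : j ∈ S1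
      · simp [hj]
      · simp [hj]
    · simp [hi]
  refine pp_iso hP ⟨fun C _ _ v => sm v, ?_, ?_⟩ ⟨fun C _ _ v e => bg v e.1 e.2, ?_, ?_⟩ ?_ ?_ h3
  · intro C _ _ v hv
    rw [hpt] at hv
    obtain ⟨⟨h4, h5, h6⟩, h7⟩ := hv
    rw [pt_gpr]
    refine ⟨fun i j hij => ?_, ?_⟩
    · change (if i = r then v (Sum.inl r, Sum.inl j) - v (Sum.inr (), Sum.inl j)
        else v (Sum.inl i, Sum.inl j)) = 0
      by_cases hi : i = r
      · subst hi
        rw [if_pos rfl, h4 (Sum.inl i) (Sum.inl j) (fun h => hij h.1),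
          h4 (Sum.inr ()) (Sum.inl j) (fun h => hij h.1), sub_zero]
      · rw [if_neg hi, h4 (Sum.inl i) (Sum.inl j) (fun h => hij h.1)]
    · have h8 : (Matrix.of fun p q => v (p, q)) = bg (sm v) := by
        ext p q
        exact (hsmbg v h4 h5 h6 p q).symm
      rw [h8, hbg] at h7
      exact h7
  · intro C D _ _ _ _ f v _ e
    change (if e.1 = r then f (v (Sum.inl r, Sum.inl e.2)) - f (v (Sum.inr (), Sum.inl e.2))
      else f (v (Sum.inl e.1, Sum.inl e.2))) =
      f (if e.1 = r then v (Sum.inl r, Sum.inl e.2) - v (Sum.inr (), Sum.inl e.2)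
      else v (Sum.inl e.1, Sum.inl e.2))
    split_ifs
    · exact (map_sub f _ _).symm
    · rfl
  · intro C _ _ v hv
    rw [pt_gpr] at hv
    rw [hpt]
    refine ⟨⟨?_, ?_, rfl⟩, ?_⟩
    · intro p q hpq
      rcases p with i | ⟨⟩ <;> rcases q with j | ⟨⟩
      · change (if i = r ∧ j ∉ S1 then 0 else v (i, j)) = 0
        by_cases hi : i = r ∧ j ∉ S1
        · rw [if_pos hi]
        · rw [if_neg hi]
          refine hv.1 i j fun h => hpq ⟨h, fun h' => ?_⟩
          by_contra h''
          exact hi ⟨h', h''⟩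
      · change (if i = r then 1 else 0) = (0 : C)
        exact if_neg hpq
      · change (if j ∈ S1 then 0 else - v (r, j)) = 0
        by_cases hj : j ∈ S1
        · rw [if_pos hj]
        · rw [if_neg hj, hv.1 r j fun h => hpq ⟨h, hj⟩, neg_zero]
      · exact absurd trivial hpq
    · change (if r = r then 1 else 0) = (1 : C)
      exact if_pos rfl
    · have h4 := hv.2
      rw [← hbg] at h4
      exact h4
  · intro C D _ _ _ _ f v _ e
    obtain ⟨p, q⟩ := e
    change bg (fun s => f (v s)) p q = f (bg v p q)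
    rcases p with i | ⟨⟩ <;> rcases q with j | ⟨⟩
    · change (if i = r ∧ j ∉ S1 then 0 else f (v (i, j))) = f (if i = r ∧ j ∉ S1 then 0 else v (i, j))
      split_ifs
      · exact (map_zero f).symm
      · rfl
    · change (if i = r then 1 else 0) = f (if i = r then 1 else 0)
      split_ifs
      · exact (map_one f).symm
      · exact (map_zero f).symm
    · change (if j ∈ S1 then 0 else - f (v (r, j))) = f (if j ∈ S1 then 0 else - v (r, j))
      split_ifs
      · exact (map_zero f).symm
      · exact (map_neg f _).symm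
    · exact (map_one f).symm
  · intro C _ _ v hv e
    rw [hpt] at hv
    exact hsmbg v hv.1.1 hv.1.2.1 hv.1.2.2 e.1 e.2
  · intro C _ _ v _ e
    exact hbgsm v e.1 e.2

/-- From sets with at most three places in every row and column to all sets. -/
theorem gp_all
    (h : ∀ (ι : Type) [Fintype ι] [DecidableEq ι] (B : Finset (ι × ι)), (∀ i, rd B i ≤ 3) →
      (∀ j, cd B j ≤ 3) → GP (R := R) P B) :
    ∀ (n : ℕ) (ι : Type) [Fintype ι] [DecidableEq ι] (B : Finset (ι × ι)), ex B ≤ n →
      GP (R := R) P B := by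
  intro n
  induction n with
  | zero =>
    intro ι _ _ B hB
    have h1 : ex B = 0 := Nat.le_zero.mp hB
    rw [ex, Nat.add_eq_zero_iff, Finset.sum_eq_zero_iff, Finset.sum_eq_zero_iff] at h1
    exact h ι B (fun i => Nat.sub_eq_zero_iff_le.mp (h1.1 i (Finset.mem_univ _)))
      (fun j => Nat.sub_eq_zero_iff_le.mp (h1.2 j (Finset.mem_univ _)))
  | succ n ih =>
    have key : ∀ (ι : Type) [Fintype ι] [DecidableEq ι] (B : Finset (ι × ι)) (r : ι),
        ex B ≤ n + 1 → 4 ≤ rd B r → GP (R := R) P B := by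
      intro ι _ _ B r hB hr
      have h1 : rd B r = (Finset.univ.filter fun j => (r, j) ∈ B).card := by
        rw [rd, Finset.card_filter]
      obtain ⟨S1, hS, hc⟩ := Finset.exists_subset_card_eq
        (show 2 ≤ (Finset.univ.filter fun j => (r, j) ∈ B).card by omega)
      have h2 : ∀ j ∈ S1, (r, j) ∈ B := fun j hj => (Finset.mem_filter.mp (hS hj)).2
      refine gp_split hP B r S1 h2 fun B' hB' => ih _ B' ?_
      have h3 := ex_lt h2 hc hr
      have h4 := ex_mono hB'
      omega
    intro ι _ _ B hB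
    by_cases h1 : ∃ r, 4 ≤ rd B r
    · obtain ⟨r, hr⟩ := h1
      exact key ι B r hB hr
    · by_cases h2 : ∃ r, 4 ≤ cd B r
      · obtain ⟨r, hr⟩ := h2
        refine gp_tr hP B (key ι (tr B) r ?_ ?_)
        · rw [ex_tr]
          exact hB
        · rw [rd_tr]
          exact hr
      · push Not at h1 h2
        exact h ι B (fun i => Nat.lt_succ_iff.mp (h1 i)) (fun j => Nat.lt_succ_iff.mp (h2 j))

end step

/-- **Invertible matrices with prescribed zeros, and at most three other entries in every row and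
every column, decide.** -/
theorem cubic_iff [IsNoetherianRing R] (hR : Pool.Agent.Q193.LT.Frac R) (hP : Bnd sep P) :
    (∀ X : Sch R, FT sep X → P X) ↔ ∀ (m : ℕ) (B : Finset (Fin m × Fin m)),
      (∀ i, (B.filter fun e => e.1 = i).card ≤ 3) → (∀ j, (B.filter fun e => e.2 = j).card ≤ 3) →
      P (GLB R B) := by
  classical
  constructor
  · intro h m B _ _
    exact (glb_iff hR hP).mp h m B
  · intro h
    rw [three_iff (short_frac hR) (clo2_of_bnd hP).toClo]
    intro a b c E _
    refine sys_of hP ?_ E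
    intro ι _ _ Z
    have h1 : Finset.univ \ (Finset.univ \ Z) = Z := by
      ext e
      simp
    have h2 : ∀ (ι : Type) [Fintype ι] [DecidableEq ι] (B : Finset (ι × ι)), (∀ i, rd B i ≤ 3) →
        (∀ j, cd B j ≤ 3) → GP (R := R) P B := by
      intro ι _ _ B hr hc
      let e := Fintype.equivFin ι
      let B' : Finset (Fin (Fintype.card ι) × Fin (Fintype.card ι)) :=
        Finset.univ.filter fun q => (e.symm q.1, e.symm q.2) ∈ B
      refine pp_rel hP (Finset.univ \ B) e B' ?_ (h _ B' ?_ ?_)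
      · intro p
        simp [B']
      · intro i
        refine le_trans (le_of_eq ?_) (hr (e.symm i))
        rw [rd]
        have h3 : (B'.filter fun q => q.1 = i) =
            (Finset.univ.filter fun j => (e.symm i, j) ∈ B).image fun j => (i, e j) := by
          ext ⟨p, q⟩
          simp only [B', Finset.mem_filter, Finset.mem_univ, true_and, Finset.mem_image,
            Prod.mk.injEq]
          constructor
          · rintro ⟨h4, rfl⟩
            exact ⟨e.symm q, h4, rfl, e.apply_symm_apply q⟩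
          · rintro ⟨j, h4, rfl, rfl⟩
            refine ⟨?_, rfl⟩
            rw [Equiv.symm_apply_apply]
            exact h4
        rw [h3, Finset.card_image_of_injective, Finset.card_filter]
        intro j j' hj
        simpa using hj
      · intro j
        refine le_trans (le_of_eq ?_) (hc (e.symm j))
        rw [cd]
        have h3 : (B'.filter fun q => q.2 = j) =
            (Finset.univ.filter fun i => (i, e.symm j) ∈ B).image fun i => (e i, j) := by
          ext ⟨p, q⟩
          simp only [B', Finset.mem_filter, Finset.mem_univ, true_and, Finset.mem_image,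
            Prod.mk.injEq]
          constructor
          · rintro ⟨h4, rfl⟩
            exact ⟨e.symm p, h4, e.apply_symm_apply p, rfl⟩
          · rintro ⟨i, h4, rfl, rfl⟩
            refine ⟨?_, rfl⟩
            rw [Equiv.symm_apply_apply]
            exact h4
        rw [h3, Finset.card_image_of_injective, Finset.card_filter]
        intro j j' hj
        simpa using hj
    have h3 := gp_all hP h2 _ ι (Finset.univ \ Z) le_rfl
    rw [GP, h1] at h3
    exact h3

end Pool.Agent.H839.PZ
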