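import Pool.Agent.H839.PZ.Norm
import Pool.Graph.R_seed8.Q282.UZ.Sys

/-!
# Systems of bilinear equations as pairs of matrices with prescribed zeros and ones
-/

set_option autoImplicit false

open CategoryTheory AlgebraicGeometry MvPolynomial

namespace Pool.Agent.H839.PZ

open Pool.Agent.Y116.UV Pool.Agent.Z125.UN Pool.Agent.Q282.UZ

variable {a b c : ℕ}

/-- the rows of the first matrix -/
abbrev RI (a b : ℕ) : Type := Unit ⊕ (Unit ⊕ (Unit ⊕ (Fin a × Fin b)))

/-- the coordinates -/
abbrev CL (a b : ℕ) : Type := Unit ⊕ (Fin a ⊕ (Fin b ⊕ (Fin a × Fin b)))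

/-- the columns of the second matrix -/
abbrev CJ (a b c : ℕ) : Type :=
  Fin a ⊕ ((Fin a × Fin b) ⊕ ((Fin a × Fin b) ⊕ ((Fin a × Fin b) ⊕ Fin c)))

/-- the row of ones -/
@[match_pattern] abbrev ro : RI a b := Sum.inl ()
/-- the row of the `y_j` -/
@[match_pattern] abbrev rm : RI a b := Sum.inr (Sum.inl ())
/-- the row of the `x_i` and `x_i y_j` -/
@[match_pattern] abbrev rw' : RI a b := Sum.inr (Sum.inr (Sum.inl ()))
/-- the rows with two entries -/
@[match_pattern] abbrev rt (e : Fin a × Fin b) : RI a b := Sum.inr (Sum.inr (Sum.inr e))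

/-- the first coordinate -/
@[match_pattern] abbrev cs : CL a b := Sum.inl ()
/-- the coordinates of the `x_i` -/
@[match_pattern] abbrev cu (i : Fin a) : CL a b := Sum.inr (Sum.inl i)
/-- the coordinates of the `y_j` -/
@[match_pattern] abbrev ch (j : Fin b) : CL a b := Sum.inr (Sum.inr (Sum.inl j))
/-- the coordinates of the `x_i y_j` -/
@[match_pattern] abbrev cc (e : Fin a × Fin b) : CL a b := Sum.inr (Sum.inr (Sum.inr e))

/-- first kind of columns -/
@[match_pattern] abbrev jd (i : Fin a) : CJ a b c := Sum.inl i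
/-- second kind of columns -/
@[match_pattern] abbrev jf (e : Fin a × Fin b) : CJ a b c := Sum.inr (Sum.inl e)
/-- third kind of columns -/
@[match_pattern] abbrev jk (e : Fin a × Fin b) : CJ a b c := Sum.inr (Sum.inr (Sum.inl e))
/-- fourth kind of columns -/
@[match_pattern] abbrev jz (e : Fin a × Fin b) : CJ a b c := Sum.inr (Sum.inr (Sum.inr (Sum.inl e)))
/-- the columns of the equations -/
@[match_pattern] abbrev je (l : Fin c) : CJ a b c := Sum.inr (Sum.inr (Sum.inr (Sum.inr l)))

/-- the supports of the rows of the first matrix -/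
def sY : RI a b → CL a b → Prop
  | ro, _ => True
  | rm, _ => True
  | rw', l => (∃ i, l = cu i) ∨ ∃ e, l = cc e
  | rt e, l => l = cs ∨ l = cc e

/-- the supports of the columns of the second matrix -/
def sX (E : Fin c → Finset (Fin a × Fin b)) : CJ a b c → CL a b → Prop
  | jd i, l => l = cs ∨ l = cu i
  | jf e, l => l = cs ∨ l = cc e
  | jk e, l => l = ch e.2 ∨ l = cc e
  | jz e, l => l = cu e.1 ∨ l = cc e
  | je k, l => l = cs ∨ ∃ e ∈ E k, l = cc e

/-- the places of the zeros of the product -/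
def rE (E : Fin c → Finset (Fin a × Fin b)) : RI a b → CJ a b c → Prop
  | ro, jd _ => True
  | rm, jd _ => True
  | ro, jf _ => True
  | rt e, jf f => e = f
  | ro, jk _ => True
  | rm, jk _ => True
  | rm, jz _ => True
  | rw', jz _ => True
  | rw', je _ => True
  | rt e, je k => e ∈ E k
  | _, _ => False

/-- the place of the one in a row -/
def oc (_ : RI a b) : CL a b := cs

/-- the place of the one in a column -/
def od : CJ a b c → CL a b
  | jd _ => cs
  | jf _ => cs
  | jk e => cc e
  | jz e => cc e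
  | je _ => cs

section

variable {C : Type} [CommRing C] (Y : RI a b → CL a b → C) (X : CL a b → CJ a b c → C)

/-- the conditions -/
structure Good (E : Fin c → Finset (Fin a × Fin b)) : Prop where
  hY : ∀ i l, ¬ sY i l → Y i l = 0
  hX : ∀ j l, ¬ sX E j l → X l j = 0
  h1 : ∀ l, Y ro l = 1
  h2 : Y rm cs = 1
  h3 : ∀ e, Y (rt e) cs = 1
  h4 : ∀ j, X (od j) j = 1
  h5 : ∀ i j, rE E i j → ∑ l, Y i l * X l j = 0

omit [CommRing C] in
lemma sum_two' [CommRing C] (f : CL a b → C) (p q : CL a b) (hpq : p ≠ q)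
    (h : ∀ l, l ≠ p → l ≠ q → f l = 0) : ∑ l, f l = f p + f q :=
  Fintype.sum_eq_add p q hpq fun x hx => h x hx.1 hx.2

variable {Y X} {E : Fin c → Finset (Fin a × Fin b)}

lemma sum_jd (hX : ∀ j l, ¬ sX E j l → X l j = 0) (i : RI a b) (k : Fin a) :
    ∑ l, Y i l * X l (jd k) = Y i cs * X cs (jd k) + Y i (cu k) * X (cu k) (jd k) :=
  sum_two' (fun l => Y i l * X l (jd k)) cs (cu k) (by simp) fun l h1 h2 => by
    change Y i l * X l (jd k) = 0
    rw [hX (jd k) l (not_or.mpr ⟨h1, h2⟩), mul_zero]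

lemma sum_jf (hX : ∀ j l, ¬ sX E j l → X l j = 0) (i : RI a b) (e : Fin a × Fin b) :
    ∑ l, Y i l * X l (jf e) = Y i cs * X cs (jf e) + Y i (cc e) * X (cc e) (jf e) :=
  sum_two' (fun l => Y i l * X l (jf e)) cs (cc e) (by simp) fun l h1 h2 => by
    change Y i l * X l (jf e) = 0
    rw [hX (jf e) l (not_or.mpr ⟨h1, h2⟩), mul_zero]

lemma sum_jk (hX : ∀ j l, ¬ sX E j l → X l j = 0) (i : RI a b) (e : Fin a × Fin b) :
    ∑ l, Y i l * X l (jk e) = Y i (ch e.2) * X (ch e.2) (jk e) + Y i (cc e) * X (cc e) (jk e) :=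
  sum_two' (fun l => Y i l * X l (jk e)) (ch e.2) (cc e) (by simp) fun l h1 h2 => by
    change Y i l * X l (jk e) = 0
    rw [hX (jk e) l (not_or.mpr ⟨h1, h2⟩), mul_zero]

lemma sum_jz (hX : ∀ j l, ¬ sX E j l → X l j = 0) (i : RI a b) (e : Fin a × Fin b) :
    ∑ l, Y i l * X l (jz e) = Y i (cu e.1) * X (cu e.1) (jz e) + Y i (cc e) * X (cc e) (jz e) :=
  sum_two' (fun l => Y i l * X l (jz e)) (cu e.1) (cc e) (by simp) fun l h1 h2 => by
    change Y i l * X l (jz e) = 0
    rw [hX (jz e) l (not_or.mpr ⟨h1, h2⟩), mul_zero]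

lemma sum_rt (hY : ∀ i l, ¬ sY i l → Y i l = 0) (e : Fin a × Fin b) (j : CJ a b c) :
    ∑ l, Y (rt e) l * X l j = Y (rt e) cs * X cs j + Y (rt e) (cc e) * X (cc e) j :=
  sum_two' (fun l => Y (rt e) l * X l j) cs (cc e) (by simp) fun l h1 h2 => by
    change Y (rt e) l * X l j = 0
    rw [hY (rt e) l (not_or.mpr ⟨h1, h2⟩), zero_mul]

lemma sum_we (hY : ∀ i l, ¬ sY i l → Y i l = 0) (hX : ∀ j l, ¬ sX E j l → X l j = 0)
    (h : ∀ k, ∀ e ∈ E k, X (cc e) (je k) = -1) (k : Fin c) :
    ∑ l, Y rw' l * X l (je k) = - ∑ e ∈ E k, Y rw' (cc e) := by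
  have h1 : ∑ l, Y rw' l * X l (je k) = ∑ l ∈ (E k).image cc, Y rw' l * X l (je k) := by
    symm
    apply Finset.sum_subset (Finset.subset_univ _)
    intro l _ hl
    by_cases hs : l = cs
    · rw [hY, zero_mul]
      subst hs
      rintro (⟨i, hi⟩ | ⟨e, he⟩)
      · exact absurd hi (by simp)
      · exact absurd he (by simp)
    · rw [hX, mul_zero]
      rintro (h2 | ⟨e, he, h2⟩)
      · exact hs h2
      · exact hl (Finset.mem_image.mpr ⟨e, he, h2.symm⟩)
  rw [h1, Finset.sum_image, ← Finset.sum_neg_distrib]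
  · refine Finset.sum_congr rfl fun e he => ?_
    rw [h k e he, mul_neg, mul_one]
  · intro e _ f _ hef
    simpa using hef

/-- The equations. -/
lemma Good.sol (g : Good Y X E) :
    (∀ i, X (cu i) (jd i) = -1) ∧ (∀ e, X (cc e) (jf e) = -1) ∧ (∀ e, X (ch e.2) (jk e) = -1) ∧
    (∀ i, Y rm (cu i) = 1) ∧ (∀ e, Y rm (cc e) = Y rm (ch e.2)) ∧ (∀ e, Y (rt e) (cc e) = 1) ∧
    (∀ e, X (cu e.1) (jz e) = - Y rm (ch e.2)) ∧
    (∀ e, Y rw' (cc e) = Y rw' (cu e.1) * Y rm (ch e.2)) ∧
    (∀ k, ∀ e ∈ E k, X (cc e) (je k) = -1) ∧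
    ∀ k, ∑ e ∈ E k, Y rw' (cu e.1) * Y rm (ch e.2) = 0 := by
  have e1 : ∀ i, X (cu i) (jd i) = -1 := by
    intro i
    have h := g.h5 ro (jd i) trivial
    have h' : X cs (jd i) = 1 := g.h4 (jd i)
    rw [sum_jd g.hX, g.h1, g.h1, h'] at h
    linear_combination h
  have e2 : ∀ e, X (cc e) (jf e) = -1 := by
    intro e
    have h := g.h5 ro (jf e) trivial
    have h' : X cs (jf e) = 1 := g.h4 (jf e)
    rw [sum_jf g.hX, g.h1, g.h1, h'] at h
    linear_combination h
  have e3 : ∀ e, X (ch e.2) (jk e) = -1 := by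
    intro e
    have h := g.h5 ro (jk e) trivial
    have h' : X (cc e) (jk e) = 1 := g.h4 (jk e)
    rw [sum_jk g.hX, g.h1, g.h1, h'] at h
    linear_combination h
  have e4 : ∀ i, Y rm (cu i) = 1 := by
    intro i
    have h := g.h5 rm (jd i) trivial
    have h' : X cs (jd i) = 1 := g.h4 (jd i)
    rw [sum_jd g.hX, g.h2, e1, h'] at h
    linear_combination -h
  have e5 : ∀ e, Y rm (cc e) = Y rm (ch e.2) := by
    intro e
    have h := g.h5 rm (jk e) trivial
    have h' : X (cc e) (jk e) = 1 := g.h4 (jk e)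
    rw [sum_jk g.hX, e3, h'] at h
    linear_combination h
  have e6 : ∀ e, Y (rt e) (cc e) = 1 := by
    intro e
    have h := g.h5 (rt e) (jf e) rfl
    have h' : X cs (jf e) = 1 := g.h4 (jf e)
    rw [sum_jf g.hX, e2, h', g.h3] at h
    linear_combination -h
  have e7 : ∀ e, X (cu e.1) (jz e) = - Y rm (ch e.2) := by
    intro e
    have h := g.h5 rm (jz e) trivial
    have h' : X (cc e) (jz e) = 1 := g.h4 (jz e)
    rw [sum_jz g.hX, e4, e5, h'] at h
    linear_combination h
  have e8 : ∀ e, Y rw' (cc e) = Y rw' (cu e.1) * Y rm (ch e.2) := by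
    intro e
    have h := g.h5 rw' (jz e) trivial
    have h' : X (cc e) (jz e) = 1 := g.h4 (jz e)
    rw [sum_jz g.hX, e7, h'] at h
    linear_combination h
  have e9 : ∀ k, ∀ e ∈ E k, X (cc e) (je k) = -1 := by
    intro k e he
    have h := g.h5 (rt e) (je k) he
    have h' : X cs (je k) = 1 := g.h4 (je k)
    rw [sum_rt g.hY, e6, h', g.h3] at h
    linear_combination h
  refine ⟨e1, e2, e3, e4, e5, e6, e7, e8, e9, fun k => ?_⟩
  have h := g.h5 rw' (je k) trivial
  rw [sum_we g.hY g.hX e9, neg_eq_zero] at h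
  rw [← h]
  exact Finset.sum_congr rfl fun e _ => (e8 e).symm

/-- the first matrix of a solution -/
def Ye (z : Fin a ⊕ Fin b → C) : RI a b → CL a b → C
  | ro, _ => 1
  | rm, cs => 1
  | rm, cu _ => 1
  | rm, ch j => z (Sum.inr j)
  | rm, cc e => z (Sum.inr e.2)
  | rw', cs => 0
  | rw', cu i => z (Sum.inl i)
  | rw', ch _ => 0
  | rw', cc e => z (Sum.inl e.1) * z (Sum.inr e.2)
  | rt _, cs => 1
  | rt _, cu _ => 0
  | rt _, ch _ => 0
  | rt e, cc f => if f = e then 1 else 0

/-- the second matrix of a solution -/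
def Xe (E : Fin c → Finset (Fin a × Fin b)) (z : Fin a ⊕ Fin b → C) : CL a b → CJ a b c → C
  | cs, jd _ => 1
  | cu i, jd k => if i = k then -1 else 0
  | ch _, jd _ => 0
  | cc _, jd _ => 0
  | cs, jf _ => 1
  | cu _, jf _ => 0
  | ch _, jf _ => 0
  | cc f, jf e => if f = e then -1 else 0
  | cs, jk _ => 0
  | cu _, jk _ => 0
  | ch j, jk e => if j = e.2 then -1 else 0
  | cc f, jk e => if f = e then 1 else 0
  | cs, jz _ => 0
  | cu i, jz e => if i = e.1 then - z (Sum.inr e.2) else 0
  | ch _, jz _ => 0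
  | cc f, jz e => if f = e then 1 else 0
  | cs, je _ => 1
  | cu _, je _ => 0
  | ch _, je _ => 0
  | cc f, je k => if f ∈ E k then -1 else 0

lemma good_of (z : Fin a ⊕ Fin b → C)
    (hz : ∀ k, ∑ e ∈ E k, z (Sum.inl e.1) * z (Sum.inr e.2) = 0) : Good (Ye z) (Xe E z) E := by
  have hY : ∀ i l, ¬ sY i l → Ye z i l = 0 := by
    rintro (i | i | i | i) (l | l | l | l) h
    · exact absurd trivial h
    · exact absurd trivial h
    · exact absurd trivial h
    · exact absurd trivial h
    · exact absurd trivial h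
    · exact absurd trivial h
    · exact absurd trivial h
    · exact absurd trivial h
    · rfl
    · exact absurd (Or.inl ⟨l, rfl⟩) h
    · rfl
    · exact absurd (Or.inr ⟨l, rfl⟩) h
    · exact absurd (Or.inl rfl) h
    · rfl
    · rfl
    · change (if l = i then (1 : C) else 0) = 0
      rw [if_neg]
      rintro rfl
      exact h (Or.inr rfl)
  have hX : ∀ j l, ¬ sX E j l → Xe E z l j = 0 := by
    rintro (j | j | j | j | j) (l | l | l | l) h
    · exact absurd (Or.inl rfl) h
    · change (if l = j then (-1 : C) else 0) = 0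
      rw [if_neg]
      rintro rfl
      exact h (Or.inr rfl)
    · rfl
    · rfl
    · exact absurd (Or.inl rfl) h
    · rfl
    · rfl
    · change (if l = j then (-1 : C) else 0) = 0
      rw [if_neg]
      rintro rfl
      exact h (Or.inr rfl)
    · rfl
    · rfl
    · change (if l = j.2 then (-1 : C) else 0) = 0
      rw [if_neg]
      rintro rfl
      exact h (Or.inl rfl)
    · change (if l = j then (1 : C) else 0) = 0
      rw [if_neg]
      rintro rfl
      exact h (Or.inr rfl)
    · rfl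
    · change (if l = j.1 then - z (Sum.inr j.2) else 0) = 0
      rw [if_neg]
      rintro rfl
      exact h (Or.inl rfl)
    · rfl
    · change (if l = j then (1 : C) else 0) = 0
      rw [if_neg]
      rintro rfl
      exact h (Or.inr rfl)
    · exact absurd (Or.inl rfl) h
    · rfl
    · rfl
    · change (if l ∈ E j then (-1 : C) else 0) = 0
      rw [if_neg]
      intro hl
      exact h (Or.inr ⟨l, hl, rfl⟩)
  have h4 : ∀ j, Xe E z (od j) j = 1 := by
    rintro (j | j | j | j | j)
    · rfl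
    · rfl
    · exact if_pos rfl
    · exact if_pos rfl
    · rfl
  have g1 : ∀ i, Xe E z (cu i) (jd i) = -1 := fun i => if_pos rfl
  have g2 : ∀ e, Xe E z (cc e) (jf e) = -1 := fun i => if_pos rfl
  have g3 : ∀ e : Fin a × Fin b, Xe E z (ch e.2) (jk e) = -1 := fun i => if_pos rfl
  have g6 : ∀ e, Ye z (rt e) (cc e) = 1 := fun i => if_pos rfl
  have g7 : ∀ e : Fin a × Fin b, Xe E z (cu e.1) (jz e) = - z (Sum.inr e.2) := fun i => if_pos rfl
  have g9 : ∀ k, ∀ e ∈ E k, Xe E z (cc e) (je k) = -1 := fun k e he => if_pos he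
  refine ⟨hY, hX, fun _ => rfl, rfl, fun _ => rfl, h4, ?_⟩
  rintro (i | i | i | i) (j | j | j | j | j) h
  · rw [sum_jd hX, g1, show Xe E z cs (jd j) = 1 from rfl]
    change (1 : C) * 1 + 1 * -1 = 0
    ring
  · rw [sum_jf hX, g2, show Xe E z cs (jf j) = 1 from rfl]
    change (1 : C) * 1 + 1 * -1 = 0
    ring
  · rw [sum_jk hX, g3, show Xe E z (cc j) (jk j) = 1 from if_pos rfl]
    change (1 : C) * -1 + 1 * 1 = 0
    ring
  · exact h.elim
  · exact h.elim
  · rw [sum_jd hX, g1, show Xe E z cs (jd j) = 1 from rfl]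
    change (1 : C) * 1 + 1 * -1 = 0
    ring
  · exact h.elim
  · rw [sum_jk hX, g3, show Xe E z (cc j) (jk j) = 1 from if_pos rfl]
    change z (Sum.inr j.2) * -1 + z (Sum.inr j.2) * 1 = 0
    ring
  · rw [sum_jz hX, g7, show Xe E z (cc j) (jz j) = 1 from if_pos rfl]
    change 1 * - z (Sum.inr j.2) + z (Sum.inr j.2) * 1 = 0
    ring
  · exact h.elim
  · exact h.elim
  · exact h.elim
  · exact h.elim
  · rw [sum_jz hX, g7, show Xe E z (cc j) (jz j) = 1 from if_pos rfl]
    change z (Sum.inl j.1) * - z (Sum.inr j.2) + (z (Sum.inl j.1) * z (Sum.inr j.2)) * 1 = 0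
    ring
  · rw [sum_we hY hX g9, neg_eq_zero]
    exact hz j
  · exact h.elim
  · have h' : i = j := h
    subst h'
    rw [sum_jf hX, g2, g6, show Xe E z cs (jf i) = 1 from rfl]
    change (1 : C) * 1 + 1 * -1 = 0
    ring
  · exact h.elim
  · exact h.elim
  · rw [sum_rt hY, g6, g9 j i h, show Xe E z cs (je j) = 1 from rfl]
    change (1 : C) * 1 + 1 * -1 = 0
    ring

/-- the point of the system -/
def zo (Y : RI a b → CL a b → C) : Fin a ⊕ Fin b → C :=
  Sum.elim (fun i => Y rw' (cu i)) fun j => Y rm (ch j)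

lemma Good.Ye_eq (g : Good Y X E) : ∀ i l, Ye (zo Y) i l = Y i l := by
  obtain ⟨e1, e2, e3, e4, e5, e6, e7, e8, e9, _⟩ := g.sol
  rintro (i | i | i | i) (l | l | l | l)
  · exact (g.h1 _).symm
  · exact (g.h1 _).symm
  · exact (g.h1 _).symm
  · exact (g.h1 _).symm
  · exact g.h2.symm
  · exact (e4 l).symm
  · rfl
  · exact (e5 l).symm
  · refine (g.hY _ _ ?_).symm
    rintro (⟨i, hi⟩ | ⟨e, he⟩)
    · exact absurd hi (by simp)
    · exact absurd he (by simp)
  · rfl
  · refine (g.hY _ _ ?_).symm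
    rintro (⟨i, hi⟩ | ⟨e, he⟩)
    · exact absurd hi (by simp)
    · exact absurd he (by simp)
  · exact (e8 l).symm
  · exact (g.h3 _).symm
  · refine (g.hY _ _ ?_).symm
    rintro (h | h) <;> exact absurd h (by simp)
  · refine (g.hY _ _ ?_).symm
    rintro (h | h) <;> exact absurd h (by simp)
  · change (if l = i then (1 : C) else 0) = _
    by_cases h : l = i
    · subst h
      rw [if_pos rfl]
      exact (e6 l).symm
    · rw [if_neg h]
      refine (g.hY _ _ ?_).symm
      rintro (h' | h')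
      · exact absurd h' (by simp)
      · exact h (by simpa using h')

lemma Good.Xe_eq (g : Good Y X E) : ∀ l j, Xe E (zo Y) l j = X l j := by
  obtain ⟨e1, e2, e3, e4, e5, e6, e7, e8, e9, _⟩ := g.sol
  rintro (l | l | l | l) (j | j | j | j | j)
  · exact (g.h4 (jd j)).symm
  · exact (g.h4 (jf j)).symm
  · refine (g.hX _ _ ?_).symm
    rintro (h | h) <;> exact absurd h (by simp)
  · refine (g.hX _ _ ?_).symm
    rintro (h | h) <;> exact absurd h (by simp)
  · exact (g.h4 (je j)).symm
  · change (if l = j then (-1 : C) else 0) = _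
    by_cases h : l = j
    · subst h
      rw [if_pos rfl]
      exact (e1 l).symm
    · rw [if_neg h]
      refine (g.hX _ _ ?_).symm
      rintro (h' | h')
      · exact absurd h' (by simp)
      · exact h (by simpa using h')
  · refine (g.hX _ _ ?_).symm
    rintro (h | h) <;> exact absurd h (by simp)
  · refine (g.hX _ _ ?_).symm
    rintro (h | h) <;> exact absurd h (by simp)
  · change (if l = j.1 then - Y rm (ch j.2) else 0) = _
    by_cases h : l = j.1
    · subst h
      rw [if_pos rfl]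
      exact (e7 j).symm
    · rw [if_neg h]
      refine (g.hX _ _ ?_).symm
      rintro (h' | h')
      · exact h (by simpa using h')
      · exact absurd h' (by simp)
  · refine (g.hX _ _ ?_).symm
    rintro (h | ⟨e, _, h⟩) <;> exact absurd h (by simp)
  · refine (g.hX _ _ ?_).symm
    rintro (h | h) <;> exact absurd h (by simp)
  · refine (g.hX _ _ ?_).symm
    rintro (h | h) <;> exact absurd h (by simp)
  · change (if l = j.2 then (-1 : C) else 0) = _
    by_cases h : l = j.2
    · subst h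
      rw [if_pos rfl]
      exact (e3 j).symm
    · rw [if_neg h]
      refine (g.hX _ _ ?_).symm
      rintro (h' | h')
      · exact h (by simpa using h')
      · exact absurd h' (by simp)
  · refine (g.hX _ _ ?_).symm
    rintro (h | h) <;> exact absurd h (by simp)
  · refine (g.hX _ _ ?_).symm
    rintro (h | ⟨e, _, h⟩) <;> exact absurd h (by simp)
  · refine (g.hX _ _ ?_).symm
    rintro (h | h) <;> exact absurd h (by simp)
  · change (if l = j then (-1 : C) else 0) = _
    by_cases h : l = j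
    · subst h
      rw [if_pos rfl]
      exact (e2 l).symm
    · rw [if_neg h]
      refine (g.hX _ _ ?_).symm
      rintro (h' | h')
      · exact absurd h' (by simp)
      · exact h (by simpa using h')
  · change (if l = j then (1 : C) else 0) = _
    by_cases h : l = j
    · subst h
      rw [if_pos rfl]
      exact (g.h4 (jk l)).symm
    · rw [if_neg h]
      refine (g.hX _ _ ?_).symm
      rintro (h' | h')
      · exact absurd h' (by simp)
      · exact h (by simpa using h')
  · change (if l = j then (1 : C) else 0) = _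
    by_cases h : l = j
    · subst h
      rw [if_pos rfl]
      exact (g.h4 (jz l)).symm
    · rw [if_neg h]
      refine (g.hX _ _ ?_).symm
      rintro (h' | h')
      · exact absurd h' (by simp)
      · exact h (by simpa using h')
  · change (if l ∈ E j then (-1 : C) else 0) = _
    by_cases h : l ∈ E j
    · rw [if_pos h]
      exact (e9 j l h).symm
    · rw [if_neg h]
      refine (g.hX _ _ ?_).symm
      rintro (h' | ⟨e, he, h'⟩)
      · exact absurd h' (by simp)
      · have : l = e := by simpa using h'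
        exact h (this ▸ he)

end

end Pool.Agent.H839.PZ
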