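import Pool.Agent.H839.PZ.Base3
import Pool.Agent.H839.PZ.Cubic

/-!
# Systems of bilinear equations as pairs of matrices with prescribed entries
-/

set_option autoImplicit false

open CategoryTheory AlgebraicGeometry MvPolynomial

namespace Pool.Agent.H839.PZ

open Pool.Agent.Y116.UV Pool.Agent.Z125.UN Pool.Agent.Q282.UZ Pool.Agent.Q282.UK
  Pool.Agent.N882.UE

variable {a b c : ℕ}

/-- the rows of the first matrix -/
abbrev PI : Type := Unit ⊕ Unit

/-- the coordinates -/
abbrev PL (a b : ℕ) : Type := Fin a ⊕ (Fin b ⊕ (Fin a × Fin b))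

/-- the columns of the second matrix -/
abbrev PJ (a b c : ℕ) : Type := (Fin a × Fin b) ⊕ ((Fin a × Fin b) ⊕ Fin c)

/-- the row of the `y_j` -/
@[match_pattern] abbrev pm : PI := Sum.inl ()
/-- the row of the `x_i` and `x_i y_j` -/
@[match_pattern] abbrev pw : PI := Sum.inr ()

/-- the coordinates of the `x_i` -/
@[match_pattern] abbrev qu (i : Fin a) : PL a b := Sum.inl i
/-- the coordinates of the `y_j` -/
@[match_pattern] abbrev qh (j : Fin b) : PL a b := Sum.inr (Sum.inl j)
/-- the coordinates of the `x_i y_j` -/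
@[match_pattern] abbrev qc (e : Fin a × Fin b) : PL a b := Sum.inr (Sum.inr e)

/-- first kind of columns -/
@[match_pattern] abbrev gk (e : Fin a × Fin b) : PJ a b c := Sum.inl e
/-- second kind of columns -/
@[match_pattern] abbrev gz (e : Fin a × Fin b) : PJ a b c := Sum.inr (Sum.inl e)
/-- the columns of the equations -/
@[match_pattern] abbrev ge (l : Fin c) : PJ a b c := Sum.inr (Sum.inr l)

/-- the free places of the first matrix -/
def fY : PI → PL a b → Prop
  | pm, qu _ => False
  | pm, _ => True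
  | pw, qh _ => False
  | pw, _ => True

/-- the free places of the second matrix -/
def fX : PL a b → PJ a b c → Prop
  | qu i, gz e => i = e.1
  | _, _ => False

/-- the places of the zeros of the product -/
def rP : PI → PJ a b c → Prop
  | pm, gk _ => True
  | pm, gz _ => True
  | pw, gz _ => True
  | pw, ge _ => True
  | _, _ => False

variable {R : Type} [CommRing R]

/-- the given entries of the first matrix -/
def cY (R : Type) [CommRing R] : PI → PL a b → R
  | pm, _ => 1
  | pw, _ => 0

/-- the given entries of the second matrix -/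
def cX (t : Fin a → Fin b → Fin c → R) : PL a b → PJ a b c → R
  | qu _, gk _ => 0
  | qh j, gk e => if j = e.2 then -1 else 0
  | qc f, gk e => if f = e then 1 else 0
  | qu _, gz _ => 0
  | qh _, gz _ => 0
  | qc f, gz e => if f = e then 1 else 0
  | qu _, ge _ => 0
  | qh _, ge _ => 0
  | qc f, ge l => t f.1 f.2 l

section

variable {C : Type} [CommRing C] [Algebra R C] (Y : PI → PL a b → C) (X : PL a b → PJ a b c → C)

/-- the conditions -/
structure Goodc (t : Fin a → Fin b → Fin c → R) : Prop where
  hY : ∀ i l, ¬ fY i l → Y i l = algebraMap R C (cY R i l)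
  hX : ∀ l j, ¬ fX l j → X l j = algebraMap R C (cX t l j)
  h5 : ∀ i j, rP i j → ∑ l, Y i l * X l j = 0

lemma sum_two'' (f : PL a b → C) (p q : PL a b) (hpq : p ≠ q)
    (h : ∀ l, l ≠ p → l ≠ q → f l = 0) : ∑ l, f l = f p + f q :=
  Fintype.sum_eq_add p q hpq fun x hx => h x hx.1 hx.2

variable {Y X} {t : Fin a → Fin b → Fin c → R}

lemma Goodc.gk1 (hX : ∀ l j, ¬ fX l j → X l j = algebraMap R C (cX t l j)) (e : Fin a × Fin b) :
    X (qh e.2) (gk e) = -1 := by
  rw [hX (qh e.2) (gk e) (fun h => h)]
  change algebraMap R C (if e.2 = e.2 then -1 else 0) = -1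
  rw [if_pos rfl, map_neg, map_one]

lemma Goodc.gk2 (hX : ∀ l j, ¬ fX l j → X l j = algebraMap R C (cX t l j)) (e : Fin a × Fin b) :
    X (qc e) (gk e) = 1 := by
  rw [hX (qc e) (gk e) (fun h => h)]
  change algebraMap R C (if e = e then 1 else 0) = 1
  rw [if_pos rfl, map_one]

lemma Goodc.gz2 (hX : ∀ l j, ¬ fX l j → X l j = algebraMap R C (cX t l j)) (e : Fin a × Fin b) :
    X (qc e) (gz e) = 1 := by
  rw [hX (qc e) (gz e) (fun h => h)]
  change algebraMap R C (if e = e then 1 else 0) = 1
  rw [if_pos rfl, map_one]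

lemma sum_gk (hX : ∀ l j, ¬ fX l j → X l j = algebraMap R C (cX t l j)) (i : PI)
    (e : Fin a × Fin b) : ∑ l, Y i l * X l (gk e) = - Y i (qh e.2) + Y i (qc e) := by
  rw [sum_two'' (fun l => Y i l * X l (gk e)) (qh e.2) (qc e) (by simp)]
  · change Y i (qh e.2) * X (qh e.2) (gk e) + Y i (qc e) * X (qc e) (gk e) = _
    rw [Goodc.gk1 hX, Goodc.gk2 hX]
    ring
  · intro l h1 h2
    change Y i l * X l (gk e) = 0
    rw [hX l (gk e)]
    · rcases l with l | l | l
      · change _ * algebraMap R C 0 = 0
        rw [map_zero, mul_zero]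
      · change _ * algebraMap R C (if l = e.2 then -1 else 0) = 0
        rw [if_neg, map_zero, mul_zero]
        rintro rfl
        exact h1 rfl
      · change _ * algebraMap R C (if l = e then 1 else 0) = 0
        rw [if_neg, map_zero, mul_zero]
        rintro rfl
        exact h2 rfl
    · rcases l with l | l | l <;> exact fun h => h

lemma sum_gz (hX : ∀ l j, ¬ fX l j → X l j = algebraMap R C (cX t l j)) (i : PI)
    (e : Fin a × Fin b) :
    ∑ l, Y i l * X l (gz e) = Y i (qu e.1) * X (qu e.1) (gz e) + Y i (qc e) := by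
  rw [sum_two'' (fun l => Y i l * X l (gz e)) (qu e.1) (qc e) (by simp)]
  · change Y i (qu e.1) * X (qu e.1) (gz e) + Y i (qc e) * X (qc e) (gz e) = _
    rw [Goodc.gz2 hX]
    ring
  · intro l h1 h2
    change Y i l * X l (gz e) = 0
    rcases l with l | l | l
    · rw [hX (qu l) (gz e)]
      · change _ * algebraMap R C 0 = 0
        rw [map_zero, mul_zero]
      · intro h
        have h' : l = e.1 := h
        subst h'
        exact h1 rfl
    · rw [hX (qh l) (gz e) (fun h => h)]
      change _ * algebraMap R C 0 = 0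
      rw [map_zero, mul_zero]
    · rw [hX (qc l) (gz e) (fun h => h)]
      change _ * algebraMap R C (if l = e then 1 else 0) = 0
      rw [if_neg, map_zero, mul_zero]
      rintro rfl
      exact h2 rfl

lemma sum_ge (hX : ∀ l j, ¬ fX l j → X l j = algebraMap R C (cX t l j)) (i : PI) (k : Fin c) :
    ∑ l, Y i l * X l (ge k) = ∑ p, ∑ q, algebraMap R C (t p q k) * Y i (qc (p, q)) := by
  rw [Fintype.sum_sum_type, Fintype.sum_sum_type]
  have h1 : ∑ l : Fin a, Y i (Sum.inl l) * X (Sum.inl l) (ge k) = 0 :=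
    Finset.sum_eq_zero fun l _ => by
      rw [hX (qu l) (ge k) (fun h => h)]
      change _ * algebraMap R C 0 = 0
      rw [map_zero, mul_zero]
  have h2 : ∑ l : Fin b, Y i (Sum.inr (Sum.inl l)) * X (Sum.inr (Sum.inl l)) (ge k) = 0 :=
    Finset.sum_eq_zero fun l _ => by
      rw [hX (qh l) (ge k) (fun h => h)]
      change _ * algebraMap R C 0 = 0
      rw [map_zero, mul_zero]
  rw [h1, h2, zero_add, zero_add, Fintype.sum_prod_type]
  refine Finset.sum_congr rfl fun p _ => Finset.sum_congr rfl fun q _ => ?_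
  rw [hX (qc (p, q)) (ge k) (fun h => h)]
  exact mul_comm _ _

/-- The equations. -/
lemma Goodc.sol (g : Goodc Y X t) :
    (∀ e, Y pm (qc e) = Y pm (qh e.2)) ∧ (∀ e, X (qu e.1) (gz e) = - Y pm (qh e.2)) ∧
    (∀ e, Y pw (qc e) = Y pw (qu e.1) * Y pm (qh e.2)) ∧
    ∀ k, ∑ p, ∑ q, algebraMap R C (t p q k) * (Y pw (qu p) * Y pm (qh q)) = 0 := by
  have e5 : ∀ e, Y pm (qc e) = Y pm (qh e.2) := by
    intro e
    have h := g.h5 pm (gk e) trivial
    rw [sum_gk g.hX] at h
    linear_combination h
  have e7 : ∀ e, X (qu e.1) (gz e) = - Y pm (qh e.2) := by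
    intro e
    have h := g.h5 pm (gz e) trivial
    have h' : Y pm (qu e.1) = 1 := by
      rw [g.hY pm (qu e.1) (fun h => h)]
      exact map_one _
    rw [sum_gz g.hX, e5, h'] at h
    linear_combination h
  have e8 : ∀ e, Y pw (qc e) = Y pw (qu e.1) * Y pm (qh e.2) := by
    intro e
    have h := g.h5 pw (gz e) trivial
    rw [sum_gz g.hX, e7] at h
    linear_combination h
  refine ⟨e5, e7, e8, fun k => ?_⟩
  have h := g.h5 pw (ge k) trivial
  rw [sum_ge g.hX] at h
  rw [← h]
  exact Finset.sum_congr rfl fun p _ => Finset.sum_congr rfl fun q _ => by rw [e8 (p, q)]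

/-- the first matrix of a solution -/
def Yec (z : Fin a ⊕ Fin b → C) : PI → PL a b → C
  | pm, qu _ => 1
  | pm, qh j => z (Sum.inr j)
  | pm, qc e => z (Sum.inr e.2)
  | pw, qu i => z (Sum.inl i)
  | pw, qh _ => 0
  | pw, qc e => z (Sum.inl e.1) * z (Sum.inr e.2)

/-- the second matrix of a solution -/
def Xec (t : Fin a → Fin b → Fin c → R) (z : Fin a ⊕ Fin b → C) : PL a b → PJ a b c → C
  | qu i, gz e => if i = e.1 then - z (Sum.inr e.2) else 0
  | qh _, gz _ => 0
  | qc f, gz e => if f = e then 1 else 0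
  | l, gk e => algebraMap R C (cX t l (gk e))
  | l, ge k => algebraMap R C (cX t l (ge k))

lemma Xec_cst (z : Fin a ⊕ Fin b → C) (l : PL a b) (j : PJ a b c) (h : ¬ fX l j) :
    Xec t z l j = algebraMap R C (cX t l j) := by
  rcases j with j | j | j
  · rcases l with l | l | l <;> rfl
  · rcases l with l | l | l
    · change (if l = j.1 then - z (Sum.inr j.2) else 0) = algebraMap R C 0
      have h' : ¬ l = j.1 := h
      rw [if_neg h', map_zero]
    · exact (map_zero _).symm
    · exact am_ite _
  · rcases l with l | l | l <;> rfl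

lemma goodc_of (z : Fin a ⊕ Fin b → C)
    (hz : ∀ k, ∑ p, ∑ q, algebraMap R C (t p q k) * (z (Sum.inl p) * z (Sum.inr q)) = 0) :
    Goodc (Yec z) (Xec t z) t := by
  have hX := Xec_cst (t := t) z
  refine ⟨?_, hX, ?_⟩
  · rintro (i | i) (l | l | l) h
    · exact (map_one _).symm
    · exact absurd trivial h
    · exact absurd trivial h
    · exact absurd trivial h
    · exact (map_zero _).symm
    · exact absurd trivial h
  · rintro (i | i) (j | j | j) h
    · rw [sum_gk hX]
      change - z (Sum.inr j.2) + z (Sum.inr j.2) = 0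
      ring
    · rw [sum_gz hX, show Xec t z (qu j.1) (gz j) = - z (Sum.inr j.2) from if_pos rfl]
      change 1 * - z (Sum.inr j.2) + z (Sum.inr j.2) = 0
      ring
    · exact h.elim
    · exact h.elim
    · rw [sum_gz hX, show Xec t z (qu j.1) (gz j) = - z (Sum.inr j.2) from if_pos rfl]
      change z (Sum.inl j.1) * - z (Sum.inr j.2) + z (Sum.inl j.1) * z (Sum.inr j.2) = 0
      ring
    · rw [sum_ge hX]
      exact hz j

/-- the point of the system -/
def zoc (Y : PI → PL a b → C) : Fin a ⊕ Fin b → C :=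
  Sum.elim (fun i => Y pw (qu i)) fun j => Y pm (qh j)

lemma Goodc.Ye_eq (g : Goodc Y X t) : ∀ i l, Yec (zoc Y) i l = Y i l := by
  obtain ⟨e5, e7, e8, _⟩ := g.sol
  rintro (i | i) (l | l | l)
  · rw [g.hY pm (qu l) (fun h => h)]
    exact (map_one _).symm
  · rfl
  · exact (e5 l).symm
  · rfl
  · rw [g.hY pw (qh l) (fun h => h)]
    exact (map_zero _).symm
  · exact (e8 l).symm

lemma Goodc.Xe_eq (g : Goodc Y X t) : ∀ l j, Xec t (zoc Y) l j = X l j := by
  obtain ⟨e5, e7, e8, _⟩ := g.sol
  intro l j
  by_cases h : fX l j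
  · rcases l with l | l | l <;> rcases j with j | j | j
    · exact h.elim
    · have h' : l = j.1 := h
      subst h'
      rw [e7]
      exact if_pos rfl
    · exact h.elim
    · exact h.elim
    · exact h.elim
    · exact h.elim
    · exact h.elim
    · exact h.elim
    · exact h.elim
  · rw [Xec_cst _ _ _ h, g.hX _ _ h]

end

section

variable {sep : Prop} {P : Sch R → Prop}

open Classical in
/-- the prescribed places -/
noncomputable def encF (a b c : ℕ) : Finset ((PI × PL a b) ⊕ (PL a b × PJ a b c)) :=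
  Finset.univ.filter fun e => Sum.elim (fun f => ¬ fY f.1 f.2) (fun f => ¬ fX f.1 f.2) e

/-- the prescribed entries -/
def encC (t : Fin a → Fin b → Fin c → R) : (PI × PL a b) ⊕ (PL a b × PJ a b c) → R :=
  Sum.elim (fun f => cY R f.1 f.2) fun f => cX t f.1 f.2

open Classical in
/-- the zeros of the product -/
noncomputable def encR (a b c : ℕ) : Finset (PI × PJ a b c) :=
  Finset.univ.filter fun e => rP e.1 e.2

lemma pt_encc (t : Fin a → Fin b → Fin c → R) {C : Type} [CommRing C] [Algebra R C]
    (y : (PI × PL a b) ⊕ (PL a b × PJ a b c) → C) :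
    Pt (S3c (encF a b c) (encC t) (encR a b c)) 1 y ↔
      Goodc (fun i l => y (Sum.inl (i, l))) (fun l j => y (Sum.inr (l, j))) t := by
  classical
  rw [pt_S3c]
  constructor
  · rintro ⟨h1, h3⟩
    refine ⟨?_, ?_, ?_⟩
    · intro i l h
      exact h1 _ (Finset.mem_filter.mpr ⟨Finset.mem_univ _, h⟩)
    · intro l j h
      exact h1 _ (Finset.mem_filter.mpr ⟨Finset.mem_univ _, h⟩)
    · intro i j h
      exact h3 (i, j) (Finset.mem_filter.mpr ⟨Finset.mem_univ _, h⟩)
  · intro g
    refine ⟨?_, ?_⟩
    · rintro (⟨i, l⟩ | ⟨l, j⟩) he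
      · exact g.hY i l (Finset.mem_filter.mp he).2
      · exact g.hX l j (Finset.mem_filter.mp he).2
    · rintro ⟨i, j⟩ he
      exact g.h5 i j (Finset.mem_filter.mp he).2

lemma pt_bform (t : Fin a → Fin b → Fin c → R) {C : Type} [CommRing C] [Algebra R C]
    (z : Fin a ⊕ Fin b → C) : Pt (Set.range (bform t)) 1 z ↔
      ∀ k, ∑ p, ∑ q, algebraMap R C (t p q k) * (z (Sum.inl p) * z (Sum.inr q)) = 0 := by
  have h : ∀ k, aeval z (bform t k) =
      ∑ p, ∑ q, algebraMap R C (t p q k) * (z (Sum.inl p) * z (Sum.inr q)) := by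
    intro k
    rw [bform, map_sum]
    refine Finset.sum_congr rfl fun p _ => ?_
    rw [map_sum]
    refine Finset.sum_congr rfl fun q _ => ?_
    rw [map_mul, map_mul, aeval_X, aeval_X, aeval_C, mul_assoc]
  rw [Pt, map_one]
  constructor
  · intro h1 k
    rw [← h]
    exact h1.1 _ ⟨k, rfl⟩
  · intro h1
    refine ⟨?_, isUnit_one⟩
    rintro _ ⟨k, rfl⟩
    rw [h]
    exact h1 k

/-- The systems of bilinear equations. -/
theorem bil_of (hP : Bnd sep P)
    (h : ∀ (ι : Type) [Fintype ι] [DecidableEq ι] (F : Finset (ι × ι)) (c : ι × ι → R),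
      PP P (relc F c) (gm R ι).det) (t : Fin a → Fin b → Fin c → R) : P (bilS t) := by
  classical
  have h1 : PP P (S3c (encF a b c) (encC t) (encR a b c)) 1 := pairs hP h _ _ _
  have h2 : PP P (Set.range (bform t)) 1 := by
    refine pp_iso hP
      ⟨fun C _ _ y => zoc fun i l => y (Sum.inl (i, l)), ?_, ?_⟩
      ⟨fun C _ _ z => Sum.elim (fun e => Yec z e.1 e.2) fun e => Xec t z e.1 e.2, ?_, ?_⟩ ?_ ?_ h1
    · intro C _ _ y hy
      rw [pt_encc] at hy
      rw [pt_bform]
      intro k
      exact hy.sol.2.2.2 k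
    · intro C D _ _ _ _ f y _ t
      rcases t with t | t <;> rfl
    · intro C _ _ z hz
      rw [pt_bform] at hz
      rw [pt_encc]
      exact goodc_of z hz
    · intro C D _ _ _ _ f z _ s
      rcases s with ⟨i, l⟩ | ⟨l, j⟩
      · change Yec (fun s => f (z s)) i l = f (Yec z i l)
        rcases i with i | i <;> rcases l with l | l | l
        · exact (map_one f).symm
        · rfl
        · rfl
        · rfl
        · exact (map_zero f).symm
        · exact (map_mul f _ _).symm
      · change Xec t (fun s => f (z s)) l j = f (Xec t z l j)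
        by_cases h : fX l j
        · rcases l with l | l | l <;> rcases j with j | j | j
          · exact h.elim
          · have h' : l = j.1 := h
            subst h'
            change (if j.1 = j.1 then - f (z (Sum.inr j.2)) else 0) =
              f (if j.1 = j.1 then - z (Sum.inr j.2) else 0)
            rw [if_pos rfl, if_pos rfl, map_neg]
          · exact h.elim
          · exact h.elim
          · exact h.elim
          · exact h.elim
          · exact h.elim
          · exact h.elim
          · exact h.elim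
        · rw [Xec_cst _ _ _ h, Xec_cst _ _ _ h, AlgHom.commutes]
    · intro C _ _ y hy s
      rw [pt_encc] at hy
      rcases s with ⟨i, l⟩ | ⟨l, j⟩
      · exact hy.Ye_eq i l
      · exact hy.Xe_eq l j
    · intro C _ _ z _ t
      rcases t with t | t <;> rfl
  have h3 : P (aff R (Pc (bform t) 1)) := (pp_pc hP).mpr h2
  exact iso_alg hP.toUni (oneE _).symm h3

end

/-- The square matrix with the entries `c` at the places in `F` and independent variables at the
other places. -/
noncomputable def prm {R : Type} [CommRing R] {m : ℕ} (F : Finset (Fin m × Fin m))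
    (c : Fin m → Fin m → R) : Matrix (Fin m) (Fin m) (MvPolynomial {e // e ∉ F} R) :=
  Matrix.of fun i j => if h : (i, j) ∉ F then X ⟨(i, j), h⟩ else C (c i j)

/-- The scheme of the invertible matrices with the entries `c` at the places in `F`. -/
noncomputable def GLP {R : Type} [CommRing R] {m : ℕ} (F : Finset (Fin m × Fin m))
    (c : Fin m → Fin m → R) : Sch R :=
  aff R (Localization.Away (prm F c).det)

section

variable {sep : Prop} {P : Sch R → Prop}

lemma aeval_prm {m : ℕ} (F : Finset (Fin m × Fin m)) (c : Fin m → Fin m → R) {C : Type}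
    [CommRing C] [Algebra R C] (v : {e // e ∉ F} → C) : aeval v (prm F c).det =
      (Matrix.of fun i j => if h : (i, j) ∉ F then v ⟨(i, j), h⟩ else
        algebraMap R C (c i j)).det := by
  rw [AlgHom.map_det]
  congr 1
  ext i j
  change aeval v (if h : (i, j) ∉ F then X ⟨(i, j), h⟩ else MvPolynomial.C (c i j)) = _
  rw [Matrix.of_apply]
  by_cases h : (i, j) ∉ F
  · rw [dif_pos h, dif_pos h, aeval_X]
  · rw [dif_neg h, dif_neg h, aeval_C]

lemma pp_away (hP : Bnd sep P) {σ : Type} [Finite σ] (w : MvPolynomial σ R) :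
    P (aff R (Localization.Away w)) ↔ PP P (∅ : Set (MvPolynomial σ R)) w := by
  let G : Fin 0 → MvPolynomial σ R := fun k => k.elim0
  have hG : Set.range G = ∅ := by
    ext g
    constructor
    · rintro ⟨k, _⟩
      exact k.elim0
    · intro h
      exact h.elim
  have h1 : P (aff R (Pc G w)) ↔ PP P (∅ : Set (MvPolynomial σ R)) w := by
    rw [pp_pc hP, hG]
  rw [← h1]
  have hf : Algebra.FiniteType R (Localization.Away w) :=
    Algebra.FiniteType.trans (S := MvPolynomial σ R) inferInstance inferInstance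
  exact ⟨iso_alg hP.toUni (awayE G _), iso_alg hP.toUni (awayE G _).symm⟩

/-- Any finite index set and entries given by equations. -/
lemma pp_relc (hP : Bnd sep P) {ι : Type} [Fintype ι] [DecidableEq ι] (F : Finset (ι × ι))
    (c : ι × ι → R) {m : ℕ} (e : ι ≃ Fin m) (F' : Finset (Fin m × Fin m))
    (hF : ∀ p, (e p.1, e p.2) ∈ F' ↔ p ∈ F)
    (h : P (GLP F' fun i j => c (e.symm i, e.symm j))) :
    PP P (relc F c) (gm R ι).det := by
  have h := (pp_away hP _).mp h
  have hdet : ∀ {C : Type} [CommRing C] (u : Fin m × Fin m → C) (v : ι × ι → C),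
      (∀ i j, v (i, j) = u (e i, e j)) →
      (Matrix.of fun i j => v (i, j)).det = (Matrix.of fun i j => u (i, j)).det := by
    intro C _ u v huv
    rw [← Matrix.det_submatrix_equiv_self e (Matrix.of fun i j => u (i, j))]
    congr 1
    ext i j
    exact huv i j
  refine pp_iso hP
    ⟨fun C _ _ v p => if h : (e p.1, e p.2) ∉ F' then v ⟨(e p.1, e p.2), h⟩ else
      algebraMap R C (c p), ?_, ?_⟩
    ⟨fun C _ _ v q => v (e.symm q.1.1, e.symm q.1.2), ?_, ?_⟩ ?_ ?_ h
  · intro C _ _ v hv
    rw [pt_relc]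
    refine ⟨fun p hp => dif_neg (not_not.mpr ((hF p).mpr hp)), ?_⟩
    have h1 := hv.2
    rw [aeval_prm] at h1
    have h2 := hdet (fun q => if h : q ∉ F' then v ⟨q, h⟩ else
        algebraMap R C (c (e.symm q.1, e.symm q.2)))
      (fun p => if h : (e p.1, e p.2) ∉ F' then v ⟨(e p.1, e p.2), h⟩ else
        algebraMap R C (c p)) (fun i j => by
          by_cases h : (e i, e j) ∉ F'
          · rw [dif_pos h, dif_pos h]
          · rw [dif_neg h, dif_neg h, Equiv.symm_apply_apply, Equiv.symm_apply_apply])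
    exact (congrArg IsUnit h2).mpr h1
  · intro C D _ _ _ _ f v _ p
    change (if h : (e p.1, e p.2) ∉ F' then f (v ⟨(e p.1, e p.2), h⟩) else algebraMap R D (c p)) =
      f (if h : (e p.1, e p.2) ∉ F' then v ⟨(e p.1, e p.2), h⟩ else algebraMap R C (c p))
    by_cases h : (e p.1, e p.2) ∉ F'
    · rw [dif_pos h, dif_pos h]
    · rw [dif_neg h, dif_neg h, AlgHom.commutes]
  · intro C _ _ v hv
    rw [pt_relc] at hv
    refine ⟨fun g hg => hg.elim, ?_⟩
    rw [aeval_prm]
    have h1 := hv.2
    rw [hdet (fun q => if h : q ∉ F' then v (e.symm q.1, e.symm q.2) else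
      algebraMap R C (c (e.symm q.1, e.symm q.2)))] at h1
    · exact h1
    · intro i j
      by_cases h : (e i, e j) ∉ F'
      · rw [dif_pos h, Equiv.symm_apply_apply, Equiv.symm_apply_apply]
      · rw [dif_neg h, Equiv.symm_apply_apply, Equiv.symm_apply_apply]
        exact hv.1 (i, j) ((hF (i, j)).mp (not_not.mp h))
  · intro C D _ _ _ _ f v _ q
    rfl
  · intro C _ _ v _ q
    change (if h : (e (e.symm q.1.1), e (e.symm q.1.2)) ∉ F' then
      v ⟨(e (e.symm q.1.1), e (e.symm q.1.2)), h⟩ else
        algebraMap R C (c (e.symm q.1.1, e.symm q.1.2))) = v q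
    have h1 : ((e (e.symm q.1.1), e (e.symm q.1.2)) : Fin m × Fin m) = q.1 := by
      rw [Equiv.apply_symm_apply, Equiv.apply_symm_apply]
    have h2 : ((e (e.symm q.1.1), e (e.symm q.1.2)) : Fin m × Fin m) ∉ F' := by
      rw [h1]
      exact q.2
    rw [dif_pos h2]
    exact congrArg v (Subtype.ext h1)
  · intro C _ _ v hv p
    rw [pt_relc] at hv
    change (if h : (e p.1, e p.2) ∉ F' then v (e.symm (e p.1), e.symm (e p.2)) else
      algebraMap R C (c p)) = v p
    by_cases h : (e p.1, e p.2) ∉ F'
    · rw [dif_pos h, Equiv.symm_apply_apply, Equiv.symm_apply_apply]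
    · rw [dif_neg h]
      exact (hv.1 p ((hF p).mp (not_not.mp h))).symm

/-- **Invertible matrices with prescribed entries decide**, over every noetherian ring. -/
theorem glp_iff [IsNoetherianRing R] (hP : Bnd sep P) : (∀ X : Sch R, FT sep X → P X) ↔
    ∀ (m : ℕ) (F : Finset (Fin m × Fin m)) (c : Fin m → Fin m → R), P (GLP F c) := by
  classical
  constructor
  · intro h m F c
    have hf : Algebra.FiniteType R (Localization.Away (prm F c).det) :=
      Algebra.FiniteType.trans (S := MvPolynomial {e // e ∉ F} R) inferInstance inferInstance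
    exact h _ (ft_aff sep)
  · intro h X hX
    refine clo_universal (S := Set.univ) (clo2_of_bnd hP).toClo trivial trivial ?_ presents_univ X hX
    intro a b c t _
    refine bil_of hP ?_ t
    intro ι _ _ F c
    let e := Fintype.equivFin ι
    refine pp_relc hP F c e (Finset.univ.filter fun q => (e.symm q.1, e.symm q.2) ∈ F) ?_ (h _ _ _)
    intro p
    simp

end

end Pool.Agent.H839.PZ
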