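import Pool.Agent.H839.PZ.Sym6

/-!
# Kirchhoff polynomials
-/

set_option autoImplicit false

open CategoryTheory AlgebraicGeometry MvPolynomial

namespace Pool.Agent.H839.PZ

open Pool.Agent.Y116.UV Pool.Agent.Z125.UN Pool.Agent.Q282.UZ Pool.Agent.N882.UE

/-- The Laplace matrix of the weights `x` of the edges between the vertices `none` and `some i`,
without the row and the column of the vertex `none`: the entry at `(i, i)` is the sum of the weights of
the edges at `some i`, and the entry at `(i, j)`, `i ≠ j`, is minus the weight of the edge between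
`some i` and `some j`. -/
def lap {m : ℕ} {C : Type} [CommRing C] (x : Sym2 (Option (Fin m)) → C) :
    Matrix (Fin m) (Fin m) C :=
  Matrix.of fun i j => if i = j then x s(some i, none) +
    ∑ k, (if k = i then 0 else x s(some i, some k)) else - x s(some i, some j)

open Classical in
/-- The Kirchhoff polynomial of the graph `G` with the vertices `none` and `some i`, `i < m`, with one
variable for each edge: the determinant of the reduced Laplace matrix (by the theorem of Kirchhoff this
is the sum of the products of the edges of the spanning trees). -/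
noncomputable def kirch (R : Type) [CommRing R] {m : ℕ} (G : SimpleGraph (Option (Fin m))) :
    MvPolynomial G.edgeSet R :=
  (lap fun e => if h : e ∈ G.edgeSet then X ⟨e, h⟩ else 0).det

/-- The complement of the graph hypersurface: the open subscheme of the affine space where the
Kirchhoff polynomial is not zero. -/
noncomputable def GCo (R : Type) [CommRing R] {m : ℕ} (G : SimpleGraph (Option (Fin m))) : Sch R :=
  aff R (Localization.Away (kirch R G))

namespace Sy

variable {R : Type} [CommRing R] {sep : Prop} {P : Sch R → Prop}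

lemma lap_map {m : ℕ} {C D : Type} [CommRing C] [CommRing D] (f : C →+* D)
    (x : Sym2 (Option (Fin m)) → C) : (lap x).map f = lap fun e => f (x e) := by
  ext i j
  rw [Matrix.map_apply, lap, lap, Matrix.of_apply, Matrix.of_apply]
  split_ifs
  · rw [map_add, map_sum]
    congr 1
    refine Finset.sum_congr rfl fun k _ => ?_
    split_ifs
    · exact map_zero f
    · rfl
  · exact map_neg f _

open Classical in
lemma aeval_kirch {m : ℕ} (G : SimpleGraph (Option (Fin m))) {C : Type} [CommRing C] [Algebra R C]
    (v : G.edgeSet → C) : aeval v (kirch R G) =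
      (lap fun e => if h : e ∈ G.edgeSet then v ⟨e, h⟩ else 0).det := by
  rw [kirch, AlgHom.map_det]
  have h := lap_map (aeval v : MvPolynomial G.edgeSet R →ₐ[R] C).toRingHom
    (fun e => if h : e ∈ G.edgeSet then X ⟨e, h⟩ else 0)
  have h1 : (aeval v : MvPolynomial G.edgeSet R →ₐ[R] C).mapMatrix
      (lap fun e => if h : e ∈ G.edgeSet then X ⟨e, h⟩ else 0) =
      lap fun e => (aeval v : MvPolynomial G.edgeSet R →ₐ[R] C).toRingHom
        (if h : e ∈ G.edgeSet then X ⟨e, h⟩ else 0) := h
  rw [h1]
  congr 2
  funext e
  split_ifs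
  · exact aeval_X _ _
  · exact map_zero _

lemma pp_gco (hP : Bnd sep P) {m : ℕ} (G : SimpleGraph (Option (Fin m))) :
    P (GCo R G) ↔ PP P (∅ : Set (MvPolynomial G.edgeSet R)) (kirch R G) := by
  have hfin : Finite G.edgeSet := inferInstance
  let H : Fin 0 → MvPolynomial G.edgeSet R := fun k => k.elim0
  have hH : Set.range H = ∅ := by
    ext g
    constructor
    · rintro ⟨k, _⟩
      exact k.elim0
    · intro h
      exact h.elim
  have h1 : P (aff R (Pc H (kirch R G))) ↔
      PP P (∅ : Set (MvPolynomial G.edgeSet R)) (kirch R G) := by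
    rw [pp_pc hP, hH]
  rw [← h1]
  have hf : Algebra.FiniteType R (Localization.Away (kirch R G)) :=
    Algebra.FiniteType.trans (S := MvPolynomial G.edgeSet R) inferInstance inferInstance
  exact ⟨iso_alg hP.toUni (awayE H _), iso_alg hP.toUni (awayE H _).symm⟩

lemma ft_gco {R : Type} [CommRing R] {sep : Prop} {m : ℕ} (G : SimpleGraph (Option (Fin m))) :
    FT sep (GCo R G) := by
  have hfin : Finite G.edgeSet := inferInstance
  have hf : Algebra.FiniteType R (Localization.Away (kirch R G)) :=
    Algebra.FiniteType.trans (S := MvPolynomial G.edgeSet R) inferInstance inferInstance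
  exact ft_aff sep

/-- the index sets `Fin m` suffice -/
lemma symAll_of_fin (hP : Bnd sep P)
    (h : ∀ (m : ℕ) (Z : Finset (Sym2 (Fin m))), (∀ e ∈ Z, ¬ e.IsDiag) → SGP (R := R) P Z) :
    SymAll R P := by
  intro κ _ _ Z hZ
  let e := Fintype.equivFin κ
  have h1 := h _ (Z.map ⟨Sym2.map e, Sym2.map.injective e.injective⟩) (by
    intro a ha
    rw [Finset.mem_map] at ha
    obtain ⟨b, hb, rfl⟩ := ha
    have h2 := hZ b hb
    induction b with
    | _ x y =>
      rw [Sym2.mk_isDiag_iff] at h2
      change ¬ (Sym2.map e s(x, y)).IsDiag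
      rw [Sym2.map_mk, Sym2.mk_isDiag_iff]
      exact fun h3 => h2 (e.injective h3))
  have hdet : ∀ {C : Type} [CommRing C] (u : Sym2 (Fin (Fintype.card κ)) → C) (v : Sym2 κ → C),
      (∀ a, v a = u (Sym2.map e a)) → (sm v).det = (sm u).det := by
    intro C _ u v huv
    rw [← Matrix.det_submatrix_equiv_self e (sm u)]
    congr 1
    ext i j
    exact huv s(i, j)
  have hmm : ∀ a : Sym2 (Fin (Fintype.card κ)), Sym2.map e (Sym2.map e.symm a) = a := by
    intro a
    rw [Sym2.map_map, Equiv.self_comp_symm, Sym2.map_id]
    rfl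
  have hmm' : ∀ a : Sym2 κ, Sym2.map e.symm (Sym2.map e a) = a := by
    intro a
    rw [Sym2.map_map, Equiv.symm_comp_self, Sym2.map_id]
    rfl
  refine pp_iso hP ⟨fun C _ _ v a => v (Sym2.map e a), ?_, ?_⟩
    ⟨fun C _ _ v a => v (Sym2.map e.symm a), ?_, ?_⟩ ?_ ?_ h1
  · intro C _ _ v hv
    rw [pt_srel] at hv ⊢
    refine ⟨fun a ha => hv.1 _ (Finset.mem_map.mpr ⟨a, ha, rfl⟩), ?_⟩
    rw [hdet v (fun a => v (Sym2.map e a)) fun _ => rfl]
    exact hv.2
  · intro C D _ _ _ _ f v _ t
    rfl
  · intro C _ _ v hv
    rw [pt_srel] at hv ⊢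
    refine ⟨fun a ha => ?_, ?_⟩
    · rw [Finset.mem_map] at ha
      obtain ⟨b, hb, rfl⟩ := ha
      change v (Sym2.map e.symm (Sym2.map e b)) = 0
      rw [hmm']
      exact hv.1 b hb
    · rw [← hdet (fun a => v (Sym2.map e.symm a)) v fun a => by
        change v a = v (Sym2.map e.symm (Sym2.map e a))
        rw [hmm']]
      exact hv.2
  · intro C D _ _ _ _ f v _ t
    rfl
  · intro C _ _ v _ a
    change v (Sym2.map e (Sym2.map e.symm a)) = v a
    rw [hmm]
  · intro C _ _ v _ a
    change v (Sym2.map e.symm (Sym2.map e a)) = v a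
    rw [hmm']

section cone

variable {m : ℕ} (Z : Finset (Sym2 (Fin m)))

/-- the adjacency of the cone -/
def cadj : Option (Fin m) → Option (Fin m) → Prop
  | none, none => False
  | none, some _ => True
  | some _, none => True
  | some i, some j => i ≠ j ∧ s(i, j) ∉ Z

/-- the cone over the complement of `Z` -/
def cone : SimpleGraph (Option (Fin m)) where
  Adj := cadj Z
  symm := ⟨fun a b h => by
    rcases a with _ | a <;> rcases b with _ | b
    · exact h
    · trivial
    · trivial
    · exact ⟨Ne.symm h.1, by rw [Sym2.eq_swap]; exact h.2⟩⟩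
  loopless := ⟨fun a h => by
    rcases a with _ | a
    · exact h
    · exact h.1 rfl⟩

lemma cone_root (i : Fin m) : (cone Z).Adj none (some i) := trivial

lemma cone_some {i j : Fin m} : s(some i, some j) ∈ (cone Z).edgeSet ↔ i ≠ j ∧ s(i, j) ∉ Z := Iff.rfl

lemma cone_none (i : Fin m) : s(some i, none) ∈ (cone Z).edgeSet := trivial

variable {C : Type} [CommRing C]

/-- the weights of a symmetric matrix -/
def wt (v : Sym2 (Fin m) → C) : Sym2 (Option (Fin m)) → C :=
  Sym2.lift ⟨fun a b => match a, b with
    | none, none => 0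
    | none, some i => v s(i, i) + ∑ k, if k = i then 0 else v s(i, k)
    | some i, none => v s(i, i) + ∑ k, if k = i then 0 else v s(i, k)
    | some i, some j => - v s(i, j), by
    intro a b
    rcases a with _ | a <;> rcases b with _ | b
    · rfl
    · rfl
    · rfl
    · change - v s(a, b) = - v s(b, a)
      rw [Sym2.eq_swap]⟩

/-- the symmetric matrix of the weights -/
def mt (x : Sym2 (Option (Fin m)) → C) : Sym2 (Fin m) → C :=
  Sym2.lift ⟨fun i j => if i = j then x s(some i, none) +
    ∑ k, (if k = i then 0 else x s(some i, some k)) else - x s(some i, some j), by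
    intro a b
    by_cases h : a = b
    · rw [h]
    · change (if a = b then (x s(some a, none) + ∑ k, if k = a then 0 else x s(some a, some k))
        else - x s(some a, some b)) = if b = a then (x s(some b, none) +
        ∑ k, if k = b then 0 else x s(some b, some k)) else - x s(some b, some a)
      rw [if_neg h, if_neg fun h' => h h'.symm, Sym2.eq_swap]⟩

lemma sm_mt (x : Sym2 (Option (Fin m)) → C) : sm (mt x) = lap x := rfl

lemma mt_wt (v : Sym2 (Fin m) → C) (e : Sym2 (Fin m)) : mt (wt v) e = v e := by
  induction e with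
  | _ i j =>
    change (if i = j then (v s(i, i) + ∑ k, if k = i then 0 else v s(i, k)) +
      ∑ k, (if k = i then 0 else - v s(i, k)) else - - v s(i, j)) = v s(i, j)
    split_ifs with h
    · subst h
      rw [add_assoc, ← Finset.sum_add_distrib, Finset.sum_eq_zero, add_zero]
      intro k _
      split_ifs
      · exact add_zero 0
      · exact add_neg_cancel _
    · exact neg_neg _

lemma wt_mt (x : Sym2 (Option (Fin m)) → C) (e : Sym2 (Option (Fin m))) (he : ¬ e.IsDiag) :
    wt (mt x) e = x e := by
  have h1 : ∀ i, (mt x s(i, i) + ∑ k, if k = i then 0 else mt x s(i, k)) = x s(some i, none) := by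
    intro i
    have h2 : mt x s(i, i) = x s(some i, none) +
        ∑ k, (if k = i then 0 else x s(some i, some k)) := if_pos rfl
    have h3 : ∀ k, (if k = i then 0 else mt x s(i, k)) =
        - (if k = i then 0 else x s(some i, some k)) := by
      intro k
      split_ifs with h
      · exact neg_zero.symm
      · exact if_neg fun h' => h h'.symm
    rw [h2, Finset.sum_congr rfl fun k _ => h3 k, Finset.sum_neg_distrib]
    ring
  induction e with
  | _ a b =>
    rw [Sym2.mk_isDiag_iff] at he
    rcases a with _ | a <;> rcases b with _ | b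
    · exact absurd rfl he
    · refine (h1 b).trans ?_
      rw [Sym2.eq_swap]
    · exact h1 a
    · change - mt x s(a, b) = x s(some a, some b)
      have h4 : mt x s(a, b) = - x s(some a, some b) := if_neg fun h => he (congrArg some h)
      rw [h4, neg_neg]

lemma mt_map {D : Type} [CommRing D] (f : C →+* D) (x : Sym2 (Option (Fin m)) → C)
    (e : Sym2 (Fin m)) : mt (fun e => f (x e)) e = f (mt x e) := by
  induction e with
  | _ i j =>
    have h := lap_map f x
    exact (congrFun (congrFun h i) j).symm

lemma wt_map {D : Type} [CommRing D] (f : C →+* D) (v : Sym2 (Fin m) → C)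
    (e : Sym2 (Option (Fin m))) : wt (fun e => f (v e)) e = f (wt v e) := by
  have h1 : ∀ i, (f (v s(i, i)) + ∑ k, if k = i then 0 else f (v s(i, k))) =
      f (v s(i, i) + ∑ k, if k = i then 0 else v s(i, k)) := by
    intro i
    rw [map_add, map_sum]
    congr 1
    refine Finset.sum_congr rfl fun k _ => ?_
    split_ifs
    · exact (map_zero f).symm
    · rfl
  induction e with
  | _ a b =>
    rcases a with _ | a <;> rcases b with _ | b
    · exact (map_zero f).symm
    · exact h1 b
    · exact h1 a
    · exact (map_neg f _).symm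

end cone

lemma sgp_of_gco (hP : Bnd sep P) {m : ℕ} (Z : Finset (Sym2 (Fin m))) (hZ : ∀ e ∈ Z, ¬ e.IsDiag)
    (h : P (GCo R (cone Z))) : SGP (R := R) P Z := by
  classical
  rw [pp_gco hP] at h
  have hfin : Finite (cone Z).edgeSet := inferInstance
  let ex : ∀ {C : Type} [CommRing C], ((cone Z).edgeSet → C) → Sym2 (Option (Fin m)) → C :=
    fun v e => if h : e ∈ (cone Z).edgeSet then v ⟨e, h⟩ else 0
  have hex : ∀ {C : Type} [CommRing C] (v : (cone Z).edgeSet → C) (e : (cone Z).edgeSet),
      ex v e.1 = v e := fun v e => dif_pos e.2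
  have hsz : ∀ {C : Type} [CommRing C] (v : (cone Z).edgeSet → C), ∀ e ∈ Z, mt (ex v) e = 0 := by
    intro C _ v e he
    have h1 := hZ e he
    induction e with
    | _ i j =>
      rw [Sym2.mk_isDiag_iff] at h1
      change (if i = j then _ else - ex v s(some i, some j)) = 0
      rw [if_neg h1]
      have h2 : ex v s(some i, some j) = 0 := dif_neg fun h3 => ((cone_some Z).mp h3).2 he
      rw [h2, neg_zero]
  have hds : ∀ {C : Type} [CommRing C] (v : Sym2 (Fin m) → C) (_ : ∀ e ∈ Z, v e = 0),
      mt (ex fun e => wt v e.1) = v := by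
    intro C _ v hv
    have h1 : ∀ e : Sym2 (Option (Fin m)), ¬ e.IsDiag → ex (fun e => wt v e.1) e = wt v e := by
      intro e he
      by_cases h2 : e ∈ (cone Z).edgeSet
      · exact dif_pos h2
      · refine (dif_neg h2).trans ?_
        induction e with
        | _ a b =>
          rw [Sym2.mk_isDiag_iff] at he
          rcases a with _ | a <;> rcases b with _ | b
          · exact absurd rfl he
          · exact absurd trivial h2
          · exact absurd trivial h2
          · have h3 : s(a, b) ∈ Z := by
              by_contra h4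
              exact h2 ((cone_some Z).mpr ⟨fun h5 => he (congrArg some h5), h4⟩)
            change (0 : C) = - v s(a, b)
            rw [hv _ h3, neg_zero]
    funext e
    rw [← mt_wt v e]
    induction e with
    | _ i j =>
      change (if i = j then ex (fun e => wt v e.1) s(some i, none) +
        ∑ k, (if k = i then 0 else ex (fun e => wt v e.1) s(some i, some k)) else
        - ex (fun e => wt v e.1) s(some i, some j)) = (if i = j then wt v s(some i, none) +
        ∑ k, (if k = i then 0 else wt v s(some i, some k)) else - wt v s(some i, some j))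
      split_ifs with hij
      · rw [h1 _ (by rw [Sym2.mk_isDiag_iff]; simp)]
        congr 1
        refine Finset.sum_congr rfl fun k _ => ?_
        split_ifs with hk
        · rfl
        · exact h1 _ (by rw [Sym2.mk_isDiag_iff]; exact fun h => hk (Option.some.inj h).symm)
      · rw [h1 _ (by rw [Sym2.mk_isDiag_iff]; exact fun h => hij (Option.some.inj h))]
  refine pp_iso hP ⟨fun C _ _ v => mt (ex v), ?_, ?_⟩
    ⟨fun C _ _ v e => wt v e.1, ?_, ?_⟩ ?_ ?_ h
  · intro C _ _ v hv
    rw [pt_srel]
    refine ⟨hsz v, ?_⟩
    have h1 := hv.2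
    rw [aeval_kirch] at h1
    exact h1
  · intro C D _ _ _ _ f v _ t
    have h1 : (ex fun e => f (v e)) = fun e => (f : C →+* D) (ex v e) := by
      funext e
      change (if h : e ∈ (cone Z).edgeSet then f (v ⟨e, h⟩) else 0) =
        f (if h : e ∈ (cone Z).edgeSet then v ⟨e, h⟩ else 0)
      split_ifs
      · rfl
      · exact (map_zero f).symm
    change mt (ex fun e => f (v e)) t = _
    rw [h1]
    exact mt_map (f : C →+* D) (ex v) t
  · intro C _ _ v hv
    rw [pt_srel] at hv
    refine ⟨fun g hg => hg.elim, ?_⟩
    rw [aeval_kirch]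
    change IsUnit (sm (mt (ex fun e => wt v e.1))).det
    rw [hds v hv.1]
    exact hv.2
  · intro C D _ _ _ _ f v _ e
    exact wt_map (f : C →+* D) v e.1
  · intro C _ _ v _ e
    change wt (mt (ex v)) e.1 = v e
    rw [wt_mt (ex v) e.1 ((cone Z).not_isDiag_of_mem_edgeSet e.2)]
    exact hex v e
  · intro C _ _ v hv e
    rw [pt_srel] at hv
    exact congrFun (hds v hv.1) e

end Sy

open Sy

/-- **Graph hypersurfaces decide.** -/
theorem graph_iff {R : Type} [CommRing R] {sep : Prop} {P : Sch R → Prop} [IsNoetherianRing R]
    (hR : Pool.Agent.Q193.LT.Frac R) (hP : Bnd sep P) : (∀ X : Sch R, FT sep X → P X) ↔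
      ∀ (m : ℕ) (G : SimpleGraph (Option (Fin m))), (∀ i, G.Adj none (some i)) → P (GCo R G) := by
  constructor
  · intro h m G _
    exact h _ (ft_gco G)
  · intro h X hX
    refine all_of_sym hR hP (symAll_of_fin hP fun m Z hZ => sgp_of_gco hP Z hZ ?_) X hX
    exact h m (cone Z) (cone_root Z)

end Pool.Agent.H839.PZ
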