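import Pool.Agent.H839.PZ.Border

/-!
# Matrices with prescribed diagonal entries
-/

set_option autoImplicit false

open CategoryTheory AlgebraicGeometry MvPolynomial

namespace Pool.Agent.H839.PZ

open Pool.Agent.Y116.UV Pool.Agent.Z125.UN

variable {R : Type} [CommRing R] {sep : Prop} {P : Sch R → Prop}

section

variable {σ : Type} (S : Set (MvPolynomial σ R)) (w : MvPolynomial σ R)

/-- the equations for the diagonal entries -/
def DS {κ : Type} (d : κ → MvPolynomial σ R) : Set (MvPolynomial (σ ⊕ (κ × κ)) R) :=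
  (rename Sum.inl '' S) ∪ Set.range fun a => X (Sum.inr (a, a)) - rename Sum.inl (d a)

/-- the generic matrix -/
noncomputable def gN (R : Type) [CommRing R] (σ κ : Type) :
    Matrix κ κ (MvPolynomial (σ ⊕ (κ × κ)) R) :=
  Matrix.of fun a b => X (Sum.inr (a, b))

/-- The matrices with given diagonal entries. -/
def Dg (P : Sch R → Prop) {κ : Type} [Fintype κ] [DecidableEq κ] (d : κ → MvPolynomial σ R) : Prop :=
  PP P (DS S d) (rename Sum.inl w * (gN R σ κ).det)

variable {S w}

lemma pt_ds {κ : Type} [Fintype κ] [DecidableEq κ] {d : κ → MvPolynomial σ R} {C : Type}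
    [CommRing C] [Algebra R C] (y : σ ⊕ (κ × κ) → C) :
    Pt (DS S d) (rename Sum.inl w * (gN R σ κ).det) y ↔
      (Pt S w (fun s => y (Sum.inl s)) ∧
        ∀ a, y (Sum.inr (a, a)) = aeval (fun s => y (Sum.inl s)) (d a)) ∧
      IsUnit (Matrix.of fun a b => y (Sum.inr (a, b))).det := by
  have h1 : aeval y (gN R σ κ).det = (Matrix.of fun a b => y (Sum.inr (a, b))).det := by
    rw [AlgHom.map_det]
    congr 1
    ext i j
    exact aeval_X _ _
  rw [pt_mul, h1]
  refine and_congr_left fun _ => ?_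
  rw [Pt, Pt, aeval_inl]
  constructor
  · rintro ⟨h2, h3⟩
    refine ⟨⟨fun g hg => ?_, h3⟩, fun a => ?_⟩
    · rw [← aeval_inl]
      exact h2 _ (Or.inl ⟨g, hg, rfl⟩)
    · have h4 := h2 _ (Or.inr ⟨a, rfl⟩)
      rwa [map_sub, aeval_X, aeval_inl, sub_eq_zero] at h4
  · rintro ⟨⟨h2, h3⟩, h4⟩
    refine ⟨?_, h3⟩
    rintro _ (⟨g, hg, rfl⟩ | ⟨a, rfl⟩)
    · rw [aeval_inl]
      exact h2 g hg
    · rw [map_sub, aeval_X, aeval_inl, sub_eq_zero]
      exact h4 a

lemma pt_ds' {κ : Type} {d : κ → MvPolynomial σ R} {C : Type}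
    [CommRing C] [Algebra R C] (y : σ ⊕ (κ × κ) → C) :
    Pt (DS S d) (rename Sum.inl w) y ↔ Pt S w (fun s => y (Sum.inl s)) ∧
        ∀ a, y (Sum.inr (a, a)) = aeval (fun s => y (Sum.inl s)) (d a) := by
  rw [Pt, Pt, aeval_inl]
  constructor
  · rintro ⟨h2, h3⟩
    refine ⟨⟨fun g hg => ?_, h3⟩, fun a => ?_⟩
    · rw [← aeval_inl]
      exact h2 _ (Or.inl ⟨g, hg, rfl⟩)
    · have h4 := h2 _ (Or.inr ⟨a, rfl⟩)
      rwa [map_sub, aeval_X, aeval_inl, sub_eq_zero] at h4
  · rintro ⟨⟨h2, h3⟩, h4⟩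
    refine ⟨?_, h3⟩
    rintro _ (⟨g, hg, rfl⟩ | ⟨a, rfl⟩)
    · rw [aeval_inl]
      exact h2 g hg
    · rw [map_sub, aeval_X, aeval_inl, sub_eq_zero]
      exact h4 a

variable [Finite σ] (hP : Bnd sep P)

include hP

lemma diag_bp {κ : Type} [Fintype κ] [DecidableEq κ] (d : κ → MvPolynomial σ R)
    (q : MvPolynomial σ R)
    (h : Dg S w P (Sum.elim (fun _ : Unit => q) d)) :
    BP (DS S d) (rename Sum.inl w) (gN R σ κ) P (rename Sum.inl q) := by
  have hN : ∀ {C : Type} [CommRing C] [Algebra R C] (y : (σ ⊕ (κ × κ)) ⊕ (κ ⊕ κ) → C),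
      (gN R σ κ).map (aeval fun s => y (Sum.inl s)) =
        Matrix.of fun a b => y (Sum.inl (Sum.inr (a, b))) := by
    intro C _ _ y
    ext a b
    exact aeval_X _ _
  have hb : ∀ {C : Type} [CommRing C] (Q : C) (u v : κ → C) (N : Matrix κ κ C),
      Q * N.det - ∑ i, u i * fc v N i = (bm Q u v N).det := by
    intro C _ Q u v N
    rw [← bd_eq]
    rfl
  refine pp_iso hP
    ⟨fun C _ _ y => Sum.elim (Sum.elim (fun s => y (Sum.inl s))
        fun e => y (Sum.inr (Sum.inr e.1, Sum.inr e.2)))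
      (Sum.elim (fun b => y (Sum.inr (Sum.inl (), Sum.inr b)))
        fun a => y (Sum.inr (Sum.inr a, Sum.inl ()))), ?_, ?_⟩
    ⟨fun C _ _ y => Sum.elim (fun s => y (Sum.inl (Sum.inl s)))
      fun e => bm (aeval (fun s => y (Sum.inl (Sum.inl s))) q) (fun b => y (Sum.inr (Sum.inl b)))
        (fun a => y (Sum.inr (Sum.inr a))) (Matrix.of fun a b => y (Sum.inl (Sum.inr (a, b))))
        e.1 e.2, ?_, ?_⟩ ?_ ?_ h
  · intro C _ _ y hy
    rw [pt_ds] at hy
    obtain ⟨⟨h1, h2⟩, h3⟩ := hy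
    rw [pt_bp, pt_ds', hN, hb]
    refine ⟨⟨h1, fun a => h2 (Sum.inr a)⟩, ?_⟩
    rw [aeval_inl]
    refine (congrArg (fun M : Matrix (Unit ⊕ κ) (Unit ⊕ κ) C => IsUnit M.det) ?_).mp h3
    ext i j
    rcases i with ⟨⟩ | i
    · rcases j with ⟨⟩ | j
      · exact h2 (Sum.inl ())
      · rfl
    · rcases j with ⟨⟩ | j
      · rfl
      · rfl
  · intro C D _ _ _ _ f y _ t
    rcases t with (s | e) | b | a <;> rfl
  · intro C _ _ y hy
    rw [pt_bp, pt_ds', hN, hb, aeval_inl] at hy
    obtain ⟨⟨h1, h2⟩, h3⟩ := hy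
    rw [pt_ds]
    refine ⟨⟨h1, fun a => ?_⟩, ?_⟩
    · rcases a with ⟨⟩ | a
      · rfl
      · exact h2 a
    · exact h3
  · intro C D _ _ _ _ f y _ t
    rcases t with s | ⟨i, j⟩
    · rfl
    · rcases i with ⟨⟩ | i
      · rcases j with ⟨⟩ | j
        · change aeval (fun s => f (y (Sum.inl (Sum.inl s)))) q =
            f (aeval (fun s => y (Sum.inl (Sum.inl s))) q)
          have := MvPolynomial.comp_aeval (R := R) (fun s => y (Sum.inl (Sum.inl s))) f
          exact (congrArg (fun k : MvPolynomial σ R →ₐ[R] _ => k q) this).symm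
        · rfl
      · rcases j with ⟨⟩ | j
        · rfl
        · rfl
  · intro C _ _ y hy t
    rw [pt_ds] at hy
    rcases t with s | ⟨i, j⟩
    · rfl
    · rcases i with ⟨⟩ | i
      · rcases j with ⟨⟩ | j
        · exact (hy.1.2 (Sum.inl ())).symm
        · rfl
      · rcases j with ⟨⟩ | j
        · rfl
        · rfl
  · intro C _ _ y _ t
    rcases t with (s | e) | b | a <;> rfl

/-- Products of the diagonal functions. -/
theorem of_diag (D : Set (MvPolynomial σ R)) (hD : 0 ∈ D)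
    (h : ∀ (κ : Type) [Fintype κ] [DecidableEq κ] (d : κ → MvPolynomial σ R), (∀ a, d a ∈ D) →
      Dg S w P d) (L : List (MvPolynomial σ R)) (hL : ∀ f ∈ L, f ∈ D) : PP P S (w * L.prod) := by
  have h1 : ∀ L : List (MvPolynomial σ R), (∀ f ∈ L, f ∈ D) →
      ∀ (κ : Type) [Fintype κ] [DecidableEq κ] (d : κ → MvPolynomial σ R), (∀ a, d a ∈ D) →
      Dg S (w * L.prod) P d := by
    intro L
    induction L with
    | nil =>
      intro _ κ _ _ d hd
      rw [List.prod_nil, mul_one]
      exact h κ d hd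
    | cons p L ih =>
      intro hL κ _ _ d hd
      have ih' := ih fun f hf => hL f (List.mem_cons_of_mem _ hf)
      have hp := hL p List.mem_cons_self
      have h2 : ∀ q ∈ D, BP (DS S d) (rename Sum.inl (w * L.prod)) (gN R σ κ) P
          (rename Sum.inl q) := by
        intro q hq
        refine diag_bp hP d q (ih' (Unit ⊕ κ) _ ?_)
        rintro (⟨⟩ | a)
        · exact hq
        · exact hd a
      have h3 := h2 0 hD
      rw [map_zero] at h3
      have h4 := border hP h3 (h2 p hp)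
      rw [← mul_assoc, ← map_mul, mul_assoc, mul_comm L.prod, ← List.prod_cons] at h4
      exact h4
  have h2 := h1 L hL Empty (fun a => a.elim) (fun a => a.elim)
  refine pp_iso hP ⟨fun C _ _ y s => y (Sum.inl s), ?_, ?_⟩
    ⟨fun C _ _ y => Sum.elim y fun e => e.1.elim, ?_, ?_⟩ ?_ ?_ h2
  · intro C _ _ y hy
    rw [pt_ds] at hy
    exact hy.1.1
  · intro C D _ _ _ _ f y _ t
    rfl
  · intro C _ _ y hy
    rw [pt_ds]
    refine ⟨⟨hy, fun a => a.elim⟩, ?_⟩
    rw [Matrix.det_isEmpty]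
    exact isUnit_one
  · intro C D _ _ _ _ f y _ t
    rcases t with s | ⟨a, _⟩
    · rfl
    · exact a.elim
  · intro C _ _ y _ t
    rcases t with s | ⟨a, _⟩
    · rfl
    · exact a.elim
  · intro C _ _ y _ t
    rfl

/-- The closed subschemes which are defined by the diagonal functions. -/
theorem closed_of_list (D : Set (MvPolynomial σ R))
    (h : ∀ L : List (MvPolynomial σ R), (∀ f ∈ L, f ∈ D) → PP P S (w * L.prod))
    (F : List (MvPolynomial σ R)) (hF : ∀ f ∈ F, f ∈ D) :
    PP P (S ∪ {g | g ∈ F}) w := by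
  have h1 : ∀ F : List (MvPolynomial σ R), (∀ f ∈ F, f ∈ D) →
      ∀ L : List (MvPolynomial σ R), (∀ f ∈ L, f ∈ D) → PP P (S ∪ {g | g ∈ F}) (w * L.prod) := by
    intro F
    induction F with
    | nil =>
      intro _ L hL
      have h2 : S ∪ {g | g ∈ ([] : List (MvPolynomial σ R))} = S := by
        ext g
        simp
      rw [h2]
      exact h L hL
    | cons p F ih =>
      intro hF L hL
      have hF' : ∀ f ∈ F, f ∈ D := fun f hf => hF f (List.mem_cons_of_mem _ hf)
      have h2 : S ∪ {g | g ∈ p :: F} = insert p (S ∪ {g | g ∈ F}) := by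
        ext g
        simp only [Set.mem_union, Set.mem_ofPred_eq, List.mem_cons, Set.mem_insert_iff]
        tauto
      rw [h2]
      refine pp_closed hP p (ih hF' L hL) ?_
      have h3 := ih hF' (L ++ [p]) (by
        intro f hf
        rcases List.mem_append.mp hf with hf | hf
        · exact hL f hf
        · rw [List.mem_singleton.mp hf]
          exact hF p List.mem_cons_self)
      rwa [List.prod_append, List.prod_singleton, ← mul_assoc] at h3
  have h2 := h1 F hF [] (by simp)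
  rwa [List.prod_nil, mul_one] at h2

end

end Pool.Agent.H839.PZ
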