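import Pool.Agent.H839.PZ.Enc
import Pool.Graph.R_pool_sql_team_seeded_63374d34.N882.UE.ShortFrac
import Pool.Graph.R_pool_sql_team_seeded_63374d34.N882.UE.Gen

/-!
# Invertible matrices with prescribed zeros decide
-/

set_option autoImplicit false

open CategoryTheory AlgebraicGeometry MvPolynomial

namespace Pool.Agent.H839.PZ

open Pool.Agent.Y116.UV Pool.Agent.Z125.UN Pool.Agent.Q282.UZ Pool.Agent.N882.UE

variable {R : Type} [CommRing R] {sep : Prop} {P : Sch R → Prop}

section enc

variable {a b c : ℕ}

open Classical in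
/-- the zeros -/
noncomputable def encZ (E : Fin c → Finset (Fin a × Fin b)) :
    Finset ((RI a b × CL a b) ⊕ (CL a b × CJ a b c)) :=
  Finset.univ.filter fun e => Sum.elim (fun f => ¬ sY f.1 f.2) (fun f => ¬ sX E f.2 f.1) e

/-- the ones -/
def encO (a b c : ℕ) : Finset ((RI a b × CL a b) ⊕ (CL a b × CJ a b c)) :=
  ((Finset.univ : Finset (CJ a b c)).image fun j => Sum.inr (od j, j)) ∪
    (((Finset.univ.filter fun i : RI a b => i ≠ ro ∧ i ≠ rw').image
      fun i => Sum.inl (i, oc i)) ∪ (Finset.univ : Finset (CL a b)).image fun l => Sum.inl (ro, l))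

open Classical in
/-- the zeros of the product -/
noncomputable def encE (E : Fin c → Finset (Fin a × Fin b)) : Finset (RI a b × CJ a b c) :=
  Finset.univ.filter fun e => rE E e.1 e.2

lemma pt_enc (E : Fin c → Finset (Fin a × Fin b)) {C : Type} [CommRing C] [Algebra R C]
    (y : (RI a b × CL a b) ⊕ (CL a b × CJ a b c) → C) :
    Pt (S3 R (encZ E) (encO a b c) (encE E)) 1 y ↔
      Good (fun i l => y (Sum.inl (i, l))) (fun l j => y (Sum.inr (l, j))) E := by
  classical
  rw [pt_S3]
  constructor
  · rintro ⟨h1, h2, h3⟩
    refine ⟨?_, ?_, ?_, ?_, ?_, ?_, ?_⟩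
    · intro i l h
      exact h1 _ (Finset.mem_filter.mpr ⟨Finset.mem_univ _, h⟩)
    · intro j l h
      exact h1 _ (Finset.mem_filter.mpr ⟨Finset.mem_univ _, h⟩)
    · intro l
      exact h2 _ (Finset.mem_union_right _ (Finset.mem_union_right _
        (Finset.mem_image.mpr ⟨l, Finset.mem_univ _, rfl⟩)))
    · exact h2 _ (Finset.mem_union_right _ (Finset.mem_union_left _
        (Finset.mem_image.mpr ⟨rm, Finset.mem_filter.mpr ⟨Finset.mem_univ _, by simp⟩, rfl⟩)))
    · intro e
      exact h2 _ (Finset.mem_union_right _ (Finset.mem_union_left _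
        (Finset.mem_image.mpr ⟨rt e, Finset.mem_filter.mpr ⟨Finset.mem_univ _, by simp⟩, rfl⟩)))
    · intro j
      exact h2 _ (Finset.mem_union_left _ (Finset.mem_image.mpr ⟨j, Finset.mem_univ _, rfl⟩))
    · intro i j h
      exact h3 (i, j) (Finset.mem_filter.mpr ⟨Finset.mem_univ _, h⟩)
  · intro g
    refine ⟨?_, ?_, ?_⟩
    · rintro (⟨i, l⟩ | ⟨l, j⟩) he
      · exact g.hY i l (Finset.mem_filter.mp he).2
      · exact g.hX j l (Finset.mem_filter.mp he).2
    · intro e he
      rcases Finset.mem_union.mp he with he | he
      · obtain ⟨j, _, rfl⟩ := Finset.mem_image.mp he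
        exact g.h4 j
      · rcases Finset.mem_union.mp he with he | he
        · obtain ⟨i, hi, rfl⟩ := Finset.mem_image.mp he
          have hi' := (Finset.mem_filter.mp hi).2
          rcases i with i | i | i | i
          · exact absurd rfl hi'.1
          · exact g.h2
          · exact absurd rfl hi'.2
          · exact g.h3 i
        · obtain ⟨l, _, rfl⟩ := Finset.mem_image.mp he
          exact g.h1 l
    · rintro ⟨i, j⟩ he
      exact g.h5 i j (Finset.mem_filter.mp he).2

lemma pt_few (E : Fin c → Finset (Fin a × Fin b)) {C : Type} [CommRing C] [Algebra R C]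
    (z : Fin a ⊕ Fin b → C) : Pt (Set.range fun l => few R (E l)) 1 z ↔
      ∀ k, ∑ e ∈ E k, z (Sum.inl e.1) * z (Sum.inr e.2) = 0 := by
  have h : ∀ k, aeval z (few R (E k)) = ∑ e ∈ E k, z (Sum.inl e.1) * z (Sum.inr e.2) := by
    intro k
    rw [few, map_sum]
    refine Finset.sum_congr rfl fun e _ => ?_
    rw [map_mul, aeval_X, aeval_X]
  rw [Pt, map_one]
  constructor
  · intro h1 k
    rw [← h]
    exact h1.1 _ ⟨k, rfl⟩
  · intro h1
    refine ⟨?_, isUnit_one⟩
    rintro _ ⟨k, rfl⟩
    change aeval z (few R (E k)) = 0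
    rw [h]
    exact h1 k

/-- The systems of bilinear equations. -/
theorem sys_of (hP : Bnd sep P)
    (h : ∀ (ι : Type) [Fintype ι] [DecidableEq ι] (Z : Finset (ι × ι)),
      PP P (rel R Z ∅) (gm R ι).det) (E : Fin c → Finset (Fin a × Fin b)) : P (sysS R E) := by
  classical
  have h1 : PP P (S3 R (encZ E) (encO a b c) (encE E)) 1 :=
    ones hP h ro Finset.univ (Finset.univ.filter fun i : RI a b => i ≠ ro ∧ i ≠ rw') oc (by simp)
      Finset.univ od (encZ E) (encE E)
  have h2 : PP P (Set.range fun l => few R (E l)) 1 := by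
    refine pp_iso hP
      ⟨fun C _ _ y => zo fun i l => y (Sum.inl (i, l)), ?_, ?_⟩
      ⟨fun C _ _ z => Sum.elim (fun e => Ye z e.1 e.2) fun e => Xe E z e.1 e.2, ?_, ?_⟩ ?_ ?_ h1
    · intro C _ _ y hy
      rw [pt_enc] at hy
      rw [pt_few]
      intro k
      exact hy.sol.2.2.2.2.2.2.2.2.2 k
    · intro C D _ _ _ _ f y _ t
      rcases t with t | t <;> rfl
    · intro C _ _ z hz
      rw [pt_few] at hz
      rw [pt_enc]
      exact good_of z hz
    · intro C D _ _ _ _ f z _ t
      rcases t with ⟨i, l⟩ | ⟨l, j⟩
      · change Ye (fun s => f (z s)) i l = f (Ye z i l)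
        rcases i with i | i | i | i
        · exact (map_one f).symm
        · rcases l with l | l | l | l
          · exact (map_one f).symm
          · exact (map_one f).symm
          · rfl
          · rfl
        · rcases l with l | l | l | l
          · exact (map_zero f).symm
          · rfl
          · exact (map_zero f).symm
          · exact (map_mul f _ _).symm
        · rcases l with l | l | l | l
          · exact (map_one f).symm
          · exact (map_zero f).symm
          · exact (map_zero f).symm
          · change (if l = i then (1 : D) else 0) = f (if l = i then (1 : C) else 0)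
            split_ifs
            · exact (map_one f).symm
            · exact (map_zero f).symm
      · change Xe E (fun s => f (z s)) l j = f (Xe E z l j)
        have hn : f (-1) = -1 := by rw [map_neg, map_one]
        rcases l with l | l | l | l <;> rcases j with j | j | j | j | j
        · exact (map_one f).symm
        · exact (map_one f).symm
        · exact (map_zero f).symm
        · exact (map_zero f).symm
        · exact (map_one f).symm
        · change (if l = j then (-1 : D) else 0) = f (if l = j then (-1 : C) else 0)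
          split_ifs
          · exact hn.symm
          · exact (map_zero f).symm
        · exact (map_zero f).symm
        · exact (map_zero f).symm
        · change (if l = j.1 then - f (z (Sum.inr j.2)) else 0) =
            f (if l = j.1 then - z (Sum.inr j.2) else 0)
          split_ifs
          · exact (map_neg f _).symm
          · exact (map_zero f).symm
        · exact (map_zero f).symm
        · exact (map_zero f).symm
        · exact (map_zero f).symm
        · change (if l = j.2 then (-1 : D) else 0) = f (if l = j.2 then (-1 : C) else 0)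
          split_ifs
          · exact hn.symm
          · exact (map_zero f).symm
        · exact (map_zero f).symm
        · exact (map_zero f).symm
        · exact (map_zero f).symm
        · change (if l = j then (-1 : D) else 0) = f (if l = j then (-1 : C) else 0)
          split_ifs
          · exact hn.symm
          · exact (map_zero f).symm
        · change (if l = j then (1 : D) else 0) = f (if l = j then (1 : C) else 0)
          split_ifs
          · exact (map_one f).symm
          · exact (map_zero f).symm
        · change (if l = j then (1 : D) else 0) = f (if l = j then (1 : C) else 0)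
          split_ifs
          · exact (map_one f).symm
          · exact (map_zero f).symm
        · change (if l ∈ E j then (-1 : D) else 0) = f (if l ∈ E j then (-1 : C) else 0)
          split_ifs
          · exact hn.symm
          · exact (map_zero f).symm
    · intro C _ _ y hy s
      rw [pt_enc] at hy
      rcases s with ⟨i, l⟩ | ⟨l, j⟩
      · exact hy.Ye_eq i l
      · exact hy.Xe_eq l j
    · intro C _ _ z _ t
      rcases t with t | t <;> rfl
  have h3 : P (aff R (Pc (fun l => few R (E l)) 1)) := (pp_pc hP).mpr h2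
  exact iso_alg hP.toUni (oneE _).symm h3

end enc

/-- The generic square matrix with zeros outside of `B`. -/
noncomputable def edm (R : Type) [CommRing R] {m : ℕ} (B : Finset (Fin m × Fin m)) :
    Matrix (Fin m) (Fin m) (MvPolynomial B R) :=
  Matrix.of fun i j => if h : (i, j) ∈ B then X ⟨(i, j), h⟩ else 0

/-- The scheme of the invertible matrices with zeros outside of `B`. -/
noncomputable def GLB (R : Type) [CommRing R] {m : ℕ} (B : Finset (Fin m × Fin m)) : Sch R :=
  aff R (Localization.Away (edm R B).det)

lemma aeval_edm {m : ℕ} (B : Finset (Fin m × Fin m)) {C : Type} [CommRing C] [Algebra R C]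
    (v : B → C) : aeval v (edm R B).det =
      (Matrix.of fun i j => if h : (i, j) ∈ B then v ⟨(i, j), h⟩ else 0).det := by
  rw [AlgHom.map_det]
  congr 1
  ext i j
  change aeval v (if h : (i, j) ∈ B then X ⟨(i, j), h⟩ else 0) = _
  rw [Matrix.of_apply]
  split_ifs
  · exact aeval_X _ _
  · exact map_zero _

lemma pp_glb (hP : Bnd sep P) {m : ℕ} (B : Finset (Fin m × Fin m)) :
    P (GLB R B) ↔ PP P (∅ : Set (MvPolynomial B R)) (edm R B).det := by
  let G : Fin 0 → MvPolynomial B R := fun k => k.elim0
  have hG : Set.range G = ∅ := by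
    ext g
    constructor
    · rintro ⟨k, _⟩
      exact k.elim0
    · intro h
      exact h.elim
  have h1 : P (aff R (Pc G (edm R B).det)) ↔ PP P (∅ : Set (MvPolynomial B R)) (edm R B).det := by
    rw [pp_pc hP, hG]
  rw [← h1]
  have hf : Algebra.FiniteType R (Localization.Away (edm R B).det) :=
    Algebra.FiniteType.trans (S := MvPolynomial B R) inferInstance inferInstance
  exact ⟨iso_alg hP.toUni (awayE G _), iso_alg hP.toUni (awayE G _).symm⟩

/-- Any finite index set and zeros given by equations. -/
lemma pp_rel (hP : Bnd sep P) {ι : Type} [Fintype ι] [DecidableEq ι] (Z : Finset (ι × ι)) {m : ℕ}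
    (e : ι ≃ Fin m) (B : Finset (Fin m × Fin m)) (hB : ∀ p, (e p.1, e p.2) ∈ B ↔ p ∉ Z)
    (h : P (GLB R B)) : PP P (rel R Z (∅ : Finset (ι × ι))) (gm R ι).det := by
  rw [pp_glb hP] at h
  have hdet : ∀ {C : Type} [CommRing C] (u : Fin m × Fin m → C) (v : ι × ι → C),
      (∀ i j, v (i, j) = u (e i, e j)) →
      (Matrix.of fun i j => v (i, j)).det = (Matrix.of fun i j => u (i, j)).det := by
    intro C _ u v huv
    rw [← Matrix.det_submatrix_equiv_self e (Matrix.of fun i j => u (i, j))]
    congr 1
    ext i j
    exact huv i j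
  refine pp_iso hP
    ⟨fun C _ _ v p => if h : (e p.1, e p.2) ∈ B then v ⟨(e p.1, e p.2), h⟩ else 0, ?_, ?_⟩
    ⟨fun C _ _ v q => v (e.symm q.1.1, e.symm q.1.2), ?_, ?_⟩ ?_ ?_ h
  · intro C _ _ v hv
    rw [pt_rel]
    refine ⟨⟨fun p hp => dif_neg fun h => ((hB p).mp h) hp,
      fun p hp => absurd hp (Finset.notMem_empty p)⟩, ?_⟩
    have h1 := hv.2
    rw [aeval_edm] at h1
    have h2 := hdet (fun q => if h : q ∈ B then v ⟨q, h⟩ else 0)
      (fun p => if h : (e p.1, e p.2) ∈ B then v ⟨(e p.1, e p.2), h⟩ else 0) (fun _ _ => rfl)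
    exact (congrArg IsUnit h2).mpr h1
  · intro C D _ _ _ _ f v _ p
    change (if h : (e p.1, e p.2) ∈ B then f (v ⟨(e p.1, e p.2), h⟩) else 0) =
      f (if h : (e p.1, e p.2) ∈ B then v ⟨(e p.1, e p.2), h⟩ else 0)
    split_ifs
    · rfl
    · exact (map_zero f).symm
  · intro C _ _ v hv
    rw [pt_rel] at hv
    refine ⟨fun g hg => hg.elim, ?_⟩
    rw [aeval_edm]
    have h1 := hv.2
    rw [hdet (fun q => if h : q ∈ B then v (e.symm q.1, e.symm q.2) else 0)] at h1
    · exact h1
    · intro i j
      by_cases h : (e i, e j) ∈ B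
      · rw [dif_pos h, Equiv.symm_apply_apply, Equiv.symm_apply_apply]
      · rw [dif_neg h]
        exact hv.1.1 (i, j) (not_not.mp fun h' => h ((hB (i, j)).mpr h'))
  · intro C D _ _ _ _ f v _ q
    rfl
  · intro C _ _ v _ q
    change (if h : (e (e.symm q.1.1), e (e.symm q.1.2)) ∈ B then
      v ⟨(e (e.symm q.1.1), e (e.symm q.1.2)), h⟩ else 0) = v q
    have h1 : ((e (e.symm q.1.1), e (e.symm q.1.2)) : Fin m × Fin m) = q.1 := by
      rw [Equiv.apply_symm_apply, Equiv.apply_symm_apply]
    have h2 : ((e (e.symm q.1.1), e (e.symm q.1.2)) : Fin m × Fin m) ∈ B := by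
      rw [h1]
      exact q.2
    rw [dif_pos h2]
    exact congrArg v (Subtype.ext h1)
  · intro C _ _ v hv p
    rw [pt_rel] at hv
    change (if h : (e p.1, e p.2) ∈ B then v (e.symm (e p.1), e.symm (e p.2)) else 0) = v p
    by_cases h : (e p.1, e p.2) ∈ B
    · rw [dif_pos h, Equiv.symm_apply_apply, Equiv.symm_apply_apply]
    · rw [dif_neg h]
      exact (hv.1.1 p (not_not.mp fun h' => h ((hB p).mpr h'))).symm

lemma rel_of_glb (hP : Bnd sep P) (h : ∀ (m : ℕ) (B : Finset (Fin m × Fin m)), P (GLB R B))
    (ι : Type) [Fintype ι] [DecidableEq ι] (Z : Finset (ι × ι)) :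
    PP P (rel R Z ∅) (gm R ι).det := by
  classical
  let e := Fintype.equivFin ι
  refine pp_rel hP Z e (Finset.univ.filter fun q => (e.symm q.1, e.symm q.2) ∉ Z) ?_ (h _ _)
  intro p
  simp

/-- **Invertible matrices with prescribed zeros decide.** -/
theorem glb_iff [IsNoetherianRing R] (hR : Pool.Agent.Q193.LT.Frac R) (hP : Bnd sep P) :
    (∀ X : Sch R, FT sep X → P X) ↔ ∀ (m : ℕ) (B : Finset (Fin m × Fin m)), P (GLB R B) := by
  constructor
  · intro h m B
    have hf : Algebra.FiniteType R (Localization.Away (edm R B).det) :=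
      Algebra.FiniteType.trans (S := MvPolynomial B R) inferInstance inferInstance
    exact h _ (ft_aff sep)
  · intro h
    rw [three_iff (short_frac hR) (clo2_of_bnd hP).toClo]
    intro a b c E _
    exact sys_of hP (rel_of_glb hP h) E

end Pool.Agent.H839.PZ
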