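import Pool.Agent.H839.PZ.Sym5
import Pool.Agent.H839.PZ.Cubic

/-!
# Symmetric matrices with prescribed zeros outside of the diagonal decide
-/

set_option autoImplicit false

open CategoryTheory AlgebraicGeometry MvPolynomial

namespace Pool.Agent.H839.PZ.Sy

open Pool.Agent.Y116.UV Pool.Agent.Z125.UN

variable {R : Type} [CommRing R] {sep : Prop} {P : Sch R → Prop}

section pat

variable {m : ℕ} (B : Finset (Fin m × Fin m))

/-- the places which may be nonzero -/
def al : VK m → VK m → Prop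
  | Sum.inl _, Sum.inl _ => True
  | Sum.inl _, Sum.inr (Sum.inl _) => False
  | Sum.inl _, Sum.inr (Sum.inr _) => True
  | Sum.inr (Sum.inl _), Sum.inl _ => False
  | Sum.inr (Sum.inl i), Sum.inr (Sum.inl i') => i = i'
  | Sum.inr (Sum.inl i), Sum.inr (Sum.inr j) => (i, j) ∈ B
  | Sum.inr (Sum.inr _), Sum.inl _ => True
  | Sum.inr (Sum.inr j), Sum.inr (Sum.inl i) => (i, j) ∈ B
  | Sum.inr (Sum.inr j), Sum.inr (Sum.inr j') => j = j'

lemma al_symm : Std.Symm (al B) := by
  refine ⟨fun a b h => ?_⟩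
  rcases a with ⟨⟩ | a | a <;> rcases b with ⟨⟩ | b | b
  · trivial
  · exact h
  · trivial
  · exact h
  · exact Eq.symm h
  · exact h
  · trivial
  · exact h
  · exact Eq.symm h

lemma al_refl (a : VK m) : al B a a := by
  rcases a with ⟨⟩ | a | a
  · trivial
  · rfl
  · rfl

open Classical in
/-- the zeros -/
noncomputable def zs : Finset (Sym2 (VK m)) :=
  Finset.univ.filter fun e => e ∉ Sym2.fromRel (al_symm B)

lemma forall_zs {p : Sym2 (VK m) → Prop} :
    (∀ e ∈ zs B, p e) ↔ ∀ a b, ¬ al B a b → p s(a, b) := by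
  classical
  constructor
  · intro h a b hab
    refine h _ ?_
    rw [zs, Finset.mem_filter]
    exact ⟨Finset.mem_univ _, hab⟩
  · intro h e he
    rw [zs, Finset.mem_filter] at he
    induction e with
    | _ a b => exact h a b he.2

lemma zs_diag : ∀ e ∈ zs B, ¬ e.IsDiag := by
  rw [forall_zs]
  intro a b hab h
  rw [Sym2.mk_isDiag_iff] at h
  subst h
  exact hab (al_refl B a)

/-- the support of the kernel -/
def sA (m : ℕ) : Finset (VK m) :=
  (Finset.univ : Finset Unit).disjSum ((Finset.univ : Finset (Fin m)).disjSum ∅)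

/-- the support of the kernel, without the first vertex -/
def sT (m : ℕ) : Finset (VK m) :=
  (∅ : Finset Unit).disjSum ((Finset.univ : Finset (Fin m)).disjSum ∅)

lemma forall_sA {p : VK m → Prop} : (∀ i, i ∉ sA m → p i) ↔ ∀ j : Fin m, p (Sum.inr (Sum.inr j)) := by
  constructor
  · intro h j
    exact h _ (by simp [sA])
  · intro h i hi
    rcases i with ⟨⟩ | i | i
    · simp [sA] at hi
    · simp [sA] at hi
    · exact h i

lemma forall_sT {p : VK m → Prop} : (∀ i ∈ sT m, p i) ↔ ∀ i : Fin m, p (Sum.inr (Sum.inl i)) := by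
  constructor
  · intro h j
    exact h _ (by simp [sT])
  · intro h i hi
    rcases i with ⟨⟩ | i | i
    · simp [sT] at hi
    · exact h i
    · simp [sT] at hi

lemma isUnit_prod' {ι C : Type} [CommRing C] (s : Finset ι) (f : ι → C) :
    IsUnit (∏ i ∈ s, f i) ↔ ∀ i ∈ s, IsUnit (f i) := by
  classical
  induction s using Finset.induction_on with
  | empty => simp
  | insert a s ha ih => rw [Finset.prod_insert ha, IsUnit.mul_iff, ih, Finset.forall_mem_insert]

variable {B} {C : Type} [CommRing C] [Algebra R C]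

lemma pt_src (v : Sym2 (VK m) → C) :
    Pt (kS R (zs B) (Sum.inl ()) (sA m)) (gk R (Sum.inl ()) (Sum.inl ()) *
      ∏ i ∈ sT m, gk R (Sum.inl ()) i) v ↔
      ((∀ a b, ¬ al B a b → v s(a, b) = 0) ∧ (sm v).det = 0 ∧
        ∀ j : Fin m, fc (Pi.single (Sum.inl ()) 1) (sm v) (Sum.inr (Sum.inr j)) = 0) ∧
      IsUnit (fc (Pi.single (Sum.inl ()) 1) (sm v) (Sum.inl ())) ∧
      ∀ i : Fin m, IsUnit (fc (Pi.single (Sum.inl ()) 1) (sm v) (Sum.inr (Sum.inl i))) := by
  rw [pt_kS, forall_zs, forall_sA, map_mul, IsUnit.mul_iff, aeval_gk, map_prod, isUnit_prod',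
    forall_sT]
  simp only [aeval_gk]

/-- the entries -/
def fx (v : Sym2 (VK m) → C) : Fin m × Fin m → C :=
  fun e => v s(Sum.inr (Sum.inl e.1), Sum.inr (Sum.inr e.2))

/-- the diagonal entries -/
def fD (v : Sym2 (VK m) → C) : Fin m → C :=
  fun j => v s(Sum.inr (Sum.inr j), Sum.inr (Sum.inr j))

/-- the kernel -/
noncomputable def fw (v : Sym2 (VK m) → C) : Fin m → C := fun i =>
  zp (fc (Pi.single (Sum.inl ()) 1) (sm v) (Sum.inl ())) (-1) *
    fc (Pi.single (Sum.inl ()) 1) (sm v) (Sum.inr (Sum.inl i))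

lemma bv_eq (v : Sym2 (VK m) → C) (h1 : ∀ a b, ¬ al B a b → v s(a, b) = 0)
    (h2 : (sm v).det = 0)
    (h3 : ∀ j : Fin m, fc (Pi.single (Sum.inl ()) 1) (sm v) (Sum.inr (Sum.inr j)) = 0)
    (h4 : IsUnit (fc (Pi.single (Sum.inl ()) 1) (sm v) (Sum.inl ())))
    (h5 : ∀ i : Fin m, IsUnit (fc (Pi.single (Sum.inl ()) 1) (sm v) (Sum.inr (Sum.inl i)))) :
    bv (fx v) (fD v) (fw v) = v := by
  set g := fc (Pi.single (Sum.inl ()) 1) (sm v) with hg
  have h6 : ∀ a : VK m, v s(a, Sum.inl ()) * g (Sum.inl ()) +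
      ∑ i, v s(a, Sum.inr (Sum.inl i)) * g (Sum.inr (Sum.inl i)) = 0 := by
    intro a
    have h7 := mul_fc (Pi.single (Sum.inl ()) 1) (sm v) a
    rw [h2, mul_zero, Fintype.sum_sum_type, Fintype.sum_sum_type, Fintype.sum_unique] at h7
    have h0 : ∑ j : Fin m, sm v a (Sum.inr (Sum.inr j)) *
        fc (Pi.single (Sum.inl ()) 1) (sm v) (Sum.inr (Sum.inr j)) = 0 :=
      Finset.sum_eq_zero fun j _ => by rw [← hg, h3 j, mul_zero]
    rw [h0, add_zero] at h7
    exact h7
  have hoo : v s(Sum.inl (), Sum.inl ()) = 0 := by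
    have h7 := h6 (Sum.inl ())
    rw [Finset.sum_eq_zero fun i _ => by rw [h1 (Sum.inl ()) (Sum.inr (Sum.inl i)) id, zero_mul],
      add_zero] at h7
    exact h4.mul_left_eq_zero.mp h7
  have hEE : ∀ i : Fin m, v s(Sum.inr (Sum.inl i), Sum.inr (Sum.inl i)) = 0 := by
    intro i
    have h7 := h6 (Sum.inr (Sum.inl i))
    rw [h1 (Sum.inr (Sum.inl i)) (Sum.inl ()) id, zero_mul, zero_add,
      Finset.sum_eq_single i] at h7
    · exact (h5 i).mul_left_eq_zero.mp h7
    · intro j _ hj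
      rw [h1 (Sum.inr (Sum.inl i)) (Sum.inr (Sum.inl j)) (fun h => hj (Eq.symm h)), zero_mul]
    · intro h
      exact absurd (Finset.mem_univ i) h
  have hFo : ∀ j : Fin m, v s(Sum.inr (Sum.inr j), Sum.inl ()) = - ∑ i, fx v (i, j) * fw v i := by
    intro j
    have h7 := h6 (Sum.inr (Sum.inr j))
    obtain ⟨u, hu⟩ := h4
    have h8 : ∑ i, fx v (i, j) * fw v i = ((u⁻¹ : Cˣ) : C) *
        ∑ i, v s(Sum.inr (Sum.inr j), Sum.inr (Sum.inl i)) * g (Sum.inr (Sum.inl i)) := by
      rw [Finset.mul_sum]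
      refine Finset.sum_congr rfl fun i _ => ?_
      rw [fw, ← hg, ← hu, zp_unit, zpow_neg_one, fx, Sym2.eq_swap]
      ring
    have h9 : v s(Sum.inr (Sum.inr j), Sum.inl ()) = - (((u⁻¹ : Cˣ) : C) *
        ∑ i, v s(Sum.inr (Sum.inr j), Sum.inr (Sum.inl i)) * g (Sum.inr (Sum.inl i))) := by
      have h10 := congrArg (fun t => t * ((u⁻¹ : Cˣ) : C)) h7
      simp only [add_mul, zero_mul] at h10
      rw [← hu, mul_assoc, u.mul_inv, mul_one] at h10
      rw [mul_comm ((u⁻¹ : Cˣ) : C)]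
      exact eq_neg_of_add_eq_zero_left h10
    rw [h9, h8]
  funext e
  induction e with
  | _ a b =>
    change ent (fx v) (fD v) (fw v) a b = v s(a, b)
    rcases a with ⟨⟩ | a | a <;> rcases b with ⟨⟩ | b | b
    · exact hoo.symm
    · exact (h1 (Sum.inl ()) (Sum.inr (Sum.inl b)) id).symm
    · rw [Sym2.eq_swap]
      exact (hFo b).symm
    · exact (h1 (Sum.inr (Sum.inl a)) (Sum.inl ()) id).symm
    · change 0 = _
      by_cases hab : a = b
      · rw [hab]
        exact (hEE b).symm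
      · exact (h1 (Sum.inr (Sum.inl a)) (Sum.inr (Sum.inl b)) hab).symm
    · rfl
    · exact (hFo a).symm
    · rw [Sym2.eq_swap]
      rfl
    · change (if a = b then fD v a else 0) = _
      split_ifs with hab
      · rw [← hab]
        rfl
      · exact (h1 (Sum.inr (Sum.inr a)) (Sum.inr (Sum.inr b)) hab).symm

lemma map_zpfc {D : Type} [CommRing D] [Algebra R D] (f : C →ₐ[R] D) (v : Sym2 (VK m) → C)
    (h4 : IsUnit (fc (Pi.single (Sum.inl ()) 1) (sm v) (Sum.inl ()))) (i : Fin m) :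
    fw (fun e => f (v e)) i = f (fw v i) := by
  have h1 : ∀ j, fc (Pi.single (Sum.inl ()) 1) (sm fun e => f (v e)) j =
      f (fc (Pi.single (Sum.inl ()) 1) (sm v) j) := by
    intro j
    rw [← aeval_gk (R := R) v, ← aeval_gk (R := R) fun e => f (v e)]
    have := MvPolynomial.comp_aeval (R := R) v f
    exact (congrArg (fun k : MvPolynomial _ R →ₐ[R] _ => k _) this).symm
  rw [fw, fw, h1, h1, map_mul]
  congr 1
  exact (zp_map (f : C →+* D) h4 _).symm

lemma ent_map {D : Type} [CommRing D] (f : C →+* D) (x : Fin m × Fin m → C) (y w : Fin m → C)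
    (a b : VK m) : ent (fun e => f (x e)) (fun e => f (y e)) (fun e => f (w e)) a b =
      f (ent x y w a b) := by
  have h : ∀ j, - ∑ i, f (x (i, j)) * f (w i) = f (- ∑ i, x (i, j) * w i) := by
    intro j
    rw [map_neg, map_sum]
    simp only [map_mul]
  rcases a with ⟨⟩ | a | a <;> rcases b with ⟨⟩ | b | b
  · exact (map_zero f).symm
  · exact (map_zero f).symm
  · exact h b
  · exact (map_zero f).symm
  · exact (map_zero f).symm
  · rfl
  · exact h a
  · rfl
  · change (if a = b then f (y a) else 0) = f (if a = b then y a else 0)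
    split_ifs
    · rfl
    · exact (map_zero f).symm

end pat

/-- From symmetric matrices to arbitrary matrices. -/
theorem rel_of_sym (hP : Bnd sep P) (hG : SymAll R P) {m : ℕ} (B : Finset (Fin m × Fin m)) :
    PP P (rel R (Finset.univ \ B) (∅ : Finset (Fin m × Fin m))) (gm R (Fin m)).det := by
  have h := sym_supp hP hG (zs_diag B) (sT m) (sA m) (o := Sum.inl ()) (by simp [sA]) (by
    intro i hi
    rcases i with ⟨⟩ | i | i
    · simp [sT] at hi
    · simp [sA]
    · simp [sT] at hi)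
  have ht : ∀ {C : Type} [CommRing C] [Algebra R C] (v : ((Fin m × Fin m) ⊕ Fin m) ⊕ Fin m → C),
      Pt (rename Sum.inl '' (rename Sum.inl '' rel R (Finset.univ \ B) ∅ :
        Set (MvPolynomial ((Fin m × Fin m) ⊕ Fin m) R)) :
        Set (MvPolynomial (((Fin m × Fin m) ⊕ Fin m) ⊕ Fin m) R))
        (rename Sum.inl (rename Sum.inl (gm R (Fin m)).det) * ∏ i, X (Sum.inr i)) v ↔
      ((∀ i j, (i, j) ∉ B → v (Sum.inl (Sum.inl (i, j))) = 0) ∧
        IsUnit (Matrix.of fun i j => v (Sum.inl (Sum.inl (i, j)))).det) ∧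
        ∀ i, IsUnit (v (Sum.inr i)) := by
    intro C _ _ v
    rw [pt_mul, pt_rename, pt_rename, pt_gpr, map_prod, isUnit_prod']
    simp
  refine pp_unfree hP (Fin m) (pp_tori hP m ?_)
  refine pp_iso hP
    ⟨fun C _ _ v => Sum.elim (Sum.elim (fx v) (fD v)) (fw v), ?_, ?_⟩
    ⟨fun C _ _ v => bv (fun e => v (Sum.inl (Sum.inl e))) (fun j => v (Sum.inl (Sum.inr j)))
      fun i => v (Sum.inr i), ?_, ?_⟩ ?_ ?_ h
  · intro C _ _ v hv
    rw [pt_src] at hv
    obtain ⟨⟨h1, h2, h3⟩, h4, h5⟩ := hv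
    have h6 := bv_eq v h1 h2 h3 h4 h5
    rw [ht]
    refine ⟨⟨fun i j hij => h1 _ _ hij, ?_⟩, fun i => ?_⟩
    · refine (unit_bv (fx v) (fD v) (fw v)).mp ?_
      rw [h6]
      exact h4
    · obtain ⟨u, hu⟩ := h4
      change IsUnit (zp (fc (Pi.single (Sum.inl ()) 1) (sm v) (Sum.inl ())) (-1) * _)
      rw [← hu, zp_unit]
      exact (Units.isUnit _).mul (h5 i)
  · intro C D _ _ _ _ f v hv t
    rw [pt_src] at hv
    rcases t with (e | j) | i
    · rfl
    · rfl
    · exact map_zpfc f v hv.2.1 i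
  · intro C _ _ v hv
    rw [ht] at hv
    obtain ⟨⟨h1, h2⟩, h3⟩ := hv
    rw [pt_src]
    have h4 := (unit_bv (fun e => v (Sum.inl (Sum.inl e))) (fun j => v (Sum.inl (Sum.inr j)))
      fun i => v (Sum.inr i)).mpr h2
    have h5 := fc_bv (x := fun e => v (Sum.inl (Sum.inl e))) (fun j => v (Sum.inl (Sum.inr j)))
      (fun i => v (Sum.inr i)) h2
    refine ⟨⟨?_, bv_det _ _ _, fun j => ?_⟩, h4, fun i => ?_⟩
    · intro a b hab
      change ent (fun e => v (Sum.inl (Sum.inl e))) (fun j => v (Sum.inl (Sum.inr j)))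
        (fun i => v (Sum.inr i)) a b = 0
      rcases a with ⟨⟩ | a | a <;> rcases b with ⟨⟩ | b | b
      · exact absurd trivial hab
      · rfl
      · exact absurd trivial hab
      · rfl
      · rfl
      · exact h1 a b hab
      · exact absurd trivial hab
      · exact h1 b a hab
      · exact if_neg hab
    · rw [h5]
      exact mul_zero _
    · rw [h5]
      exact h4.mul (h3 i)
  · intro C D _ _ _ _ f v _ e
    induction e with
    | _ a b =>
      exact ent_map (f : C →+* D) (fun e => v (Sum.inl (Sum.inl e)))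
        (fun j => v (Sum.inl (Sum.inr j))) (fun i => v (Sum.inr i)) a b
  · intro C _ _ v hv e
    rw [pt_src] at hv
    obtain ⟨⟨h1, h2, h3⟩, h4, h5⟩ := hv
    exact congrFun (bv_eq v h1 h2 h3 h4 h5) e
  · intro C _ _ v hv t
    rw [ht] at hv
    obtain ⟨⟨h1, h2⟩, h3⟩ := hv
    have h4 := (unit_bv (fun e => v (Sum.inl (Sum.inl e))) (fun j => v (Sum.inl (Sum.inr j)))
      fun i => v (Sum.inr i)).mpr h2
    have h5 := fc_bv (x := fun e => v (Sum.inl (Sum.inl e))) (fun j => v (Sum.inl (Sum.inr j)))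
      (fun i => v (Sum.inr i)) h2
    rcases t with (e | j) | i
    · rfl
    · exact if_pos rfl
    · change zp (fc (Pi.single (Sum.inl ()) 1) (sm (bv _ _ _)) (Sum.inl ())) (-1) *
        fc (Pi.single (Sum.inl ()) 1) (sm (bv _ _ _)) (Sum.inr (Sum.inl i)) = v (Sum.inr i)
      rw [h5 (Sum.inr (Sum.inl i))]
      obtain ⟨u, hu⟩ := h4
      rw [← hu, zp_unit, zpow_neg_one, ← mul_assoc, u.inv_mul, one_mul]
      rfl

/-- from symmetric matrices to everything -/
theorem all_of_sym [IsNoetherianRing R] (hR : Pool.Agent.Q193.LT.Frac R) (hP : Bnd sep P)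
    (hG : SymAll R P) (X : Sch R) (hX : FT sep X) : P X := by
  refine (glb_iff hR hP).mpr ?_ X hX
  intro m B
  have h := rel_of_sym hP hG B
  rw [pp_glb hP]
  refine pp_iso hP
    ⟨fun C _ _ v e => v e.1, ?_, ?_⟩
    ⟨fun C _ _ v e => if h : e ∈ B then v ⟨e, h⟩ else 0, ?_, ?_⟩ ?_ ?_ h
  · intro C _ _ v hv
    rw [pt_gpr] at hv
    refine ⟨fun g hg => hg.elim, ?_⟩
    rw [aeval_edm]
    refine (congrArg (fun M : Matrix (Fin m) (Fin m) C => IsUnit M.det) ?_).mp hv.2
    ext i j
    change v (i, j) = if h : (i, j) ∈ B then v (i, j) else 0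
    split_ifs with hij
    · rfl
    · exact hv.1 i j hij
  · intro C D _ _ _ _ f v _ t
    rfl
  · intro C _ _ v hv
    rw [pt_gpr]
    refine ⟨fun i j hij => dif_neg hij, ?_⟩
    have h1 := hv.2
    rw [aeval_edm] at h1
    exact h1
  · intro C D _ _ _ _ f v _ e
    change (if h : e ∈ B then f (v ⟨e, h⟩) else 0) = f (if h : e ∈ B then v ⟨e, h⟩ else 0)
    split_ifs
    · rfl
    · exact (map_zero f).symm
  · intro C _ _ v hv e
    rw [pt_gpr] at hv
    change (if h : e ∈ B then v e else 0) = v e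
    split_ifs with he
    · rfl
    · exact (hv.1 e.1 e.2 he).symm
  · intro C _ _ v _ e
    exact dif_pos e.2

end Pool.Agent.H839.PZ.Sy
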