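import Pool.Agent.H839.PZ.Sc4
import Pool.Agent.H839.PZ.Sym6
import Pool.Agent.H839.PZ.Enc2

/-!
# Symmetric matrices with prescribed entries outside of the diagonal decide
-/

set_option autoImplicit false

open CategoryTheory AlgebraicGeometry MvPolynomial

namespace Pool.Agent.H839.PZ.Sc

open Pool.Agent.Y116.UV Pool.Agent.Z125.UN Sy

variable {R : Type} [CommRing R] {sep : Prop} {P : Sch R → Prop}

section pat

variable {m : ℕ}

/-- the prescribed entries -/
def ce (c : Fin m × Fin m → R) : VK m → VK m → R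
  | Sum.inr (Sum.inl i), Sum.inr (Sum.inr j) => c (i, j)
  | Sum.inr (Sum.inr j), Sum.inr (Sum.inl i) => c (i, j)
  | Sum.inl _, _ => 0
  | Sum.inr (Sum.inl _), Sum.inl _ => 0
  | Sum.inr (Sum.inl _), Sum.inr (Sum.inl _) => 0
  | Sum.inr (Sum.inr _), Sum.inl _ => 0
  | Sum.inr (Sum.inr _), Sum.inr (Sum.inr _) => 0

/-- the prescribed entries -/
def cc (c : Fin m × Fin m → R) : Sym2 (VK m) → R :=
  Sym2.lift ⟨ce c, by
    intro a b
    rcases a with ⟨⟩ | a | a <;> rcases b with ⟨⟩ | b | b <;> rfl⟩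

lemma cc_zero (c : Fin m × Fin m → R) (a b : VK m)
    (h : ¬ al (Finset.univ : Finset (Fin m × Fin m)) a b) : cc c s(a, b) = 0 := by
  rcases a with ⟨⟩ | a | a <;> rcases b with ⟨⟩ | b | b
  · rfl
  · rfl
  · rfl
  · rfl
  · rfl
  · exact absurd (Finset.mem_univ _) h
  · rfl
  · exact absurd (Finset.mem_univ _) h
  · rfl

lemma al_mono {B : Finset (Fin m × Fin m)} (a b : VK m)
    (h : ¬ al (Finset.univ : Finset (Fin m × Fin m)) a b) : ¬ al B a b := by
  intro h1
  apply h
  rcases a with ⟨⟩ | a | a <;> rcases b with ⟨⟩ | b | b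
  · exact h1
  · exact h1
  · exact h1
  · exact h1
  · exact h1
  · exact Finset.mem_univ _
  · exact h1
  · exact Finset.mem_univ _
  · exact h1

variable {B : Finset (Fin m × Fin m)} {c : Fin m × Fin m → R} {C : Type} [CommRing C] [Algebra R C]

lemma pt_srcC (v : Sym2 (VK m) → C) :
    Pt (kC (zs B) (cc c) (Sum.inl ()) (sA m)) (Sy.gk R (Sum.inl ()) (Sum.inl ()) *
      ∏ i ∈ sT m, Sy.gk R (Sum.inl ()) i) v ↔
      ((∀ a b, ¬ al B a b → v s(a, b) = algebraMap R C (cc c s(a, b))) ∧ (sm v).det = 0 ∧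
        ∀ j : Fin m, fc (Pi.single (Sum.inl ()) 1) (sm v) (Sum.inr (Sum.inr j)) = 0) ∧
      IsUnit (fc (Pi.single (Sum.inl ()) 1) (sm v) (Sum.inl ())) ∧
      ∀ i : Fin m, IsUnit (fc (Pi.single (Sum.inl ()) 1) (sm v) (Sum.inr (Sum.inl i))) := by
  rw [pt_kC, forall_zs, forall_sA, map_mul, IsUnit.mul_iff, Sy.aeval_gk, map_prod, isUnit_prod',
    forall_sT]
  simp only [Sy.aeval_gk]

lemma weak (v : Sym2 (VK m) → C)
    (h : ∀ a b, ¬ al B a b → v s(a, b) = algebraMap R C (cc c s(a, b))) :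
    ∀ a b, ¬ al (Finset.univ : Finset (Fin m × Fin m)) a b → v s(a, b) = 0 := by
  intro a b hab
  rw [h a b (al_mono a b hab), cc_zero c a b hab, map_zero]

end pat

/-- From symmetric matrices to arbitrary matrices. -/
theorem rel_of_symC (hP : Bnd sep P) (hG : SymAllC R P) {m : ℕ} (F : Finset (Fin m × Fin m))
    (c : Fin m × Fin m → R) : PP P (relc F c) (gm R (Fin m)).det := by
  have h := sym_supp hP hG (c := cc c) (zs_diag (Finset.univ \ F)) (sT m) (sA m) (o := Sum.inl ())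
    (by simp [sA]) (by
      intro i hi
      rcases i with ⟨⟩ | i | i
      · simp [sT] at hi
      · simp [sA]
      · simp [sT] at hi)
  have hmem : ∀ i j, ¬ (i, j) ∈ Finset.univ \ F ↔ (i, j) ∈ F := by
    intro i j
    simp
  have ht : ∀ {C : Type} [CommRing C] [Algebra R C] (v : ((Fin m × Fin m) ⊕ Fin m) ⊕ Fin m → C),
      Pt (rename Sum.inl '' (rename Sum.inl '' relc F c :
        Set (MvPolynomial ((Fin m × Fin m) ⊕ Fin m) R)) :
        Set (MvPolynomial (((Fin m × Fin m) ⊕ Fin m) ⊕ Fin m) R))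
        (rename Sum.inl (rename Sum.inl (gm R (Fin m)).det) * ∏ i, X (Sum.inr i)) v ↔
      ((∀ e ∈ F, v (Sum.inl (Sum.inl e)) = algebraMap R C (c e)) ∧
        IsUnit (Matrix.of fun i j => v (Sum.inl (Sum.inl (i, j)))).det) ∧
        ∀ i, IsUnit (v (Sum.inr i)) := by
    intro C _ _ v
    rw [pt_mul, pt_rename, pt_rename, pt_relc, map_prod, isUnit_prod']
    simp
  refine pp_unfree hP (Fin m) (pp_tori hP m ?_)
  refine pp_iso hP
    ⟨fun C _ _ v => Sum.elim (Sum.elim (fx v) (fD v)) (fw v), ?_, ?_⟩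
    ⟨fun C _ _ v => bv (fun e => v (Sum.inl (Sum.inl e))) (fun j => v (Sum.inl (Sum.inr j)))
      fun i => v (Sum.inr i), ?_, ?_⟩ ?_ ?_ h
  · intro C _ _ v hv
    rw [pt_srcC] at hv
    obtain ⟨⟨h1, h2, h3⟩, h4, h5⟩ := hv
    have h6 := bv_eq v (weak v h1) h2 h3 h4 h5
    rw [ht]
    refine ⟨⟨fun e he => ?_, ?_⟩, fun i => ?_⟩
    · exact h1 (Sum.inr (Sum.inl e.1)) (Sum.inr (Sum.inr e.2)) ((hmem e.1 e.2).mpr he)
    · refine (unit_bv (fx v) (fD v) (fw v)).mp ?_
      rw [h6]
      exact h4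
    · obtain ⟨u, hu⟩ := h4
      change IsUnit (zp (fc (Pi.single (Sum.inl ()) 1) (sm v) (Sum.inl ())) (-1) * _)
      rw [← hu, zp_unit]
      exact (Units.isUnit _).mul (h5 i)
  · intro C D _ _ _ _ f v hv t
    rw [pt_srcC] at hv
    rcases t with (e | j) | i
    · rfl
    · rfl
    · exact map_zpfc f v hv.2.1 i
  · intro C _ _ v hv
    rw [ht] at hv
    obtain ⟨⟨h1, h2⟩, h3⟩ := hv
    rw [pt_srcC]
    have h4 := (unit_bv (fun e => v (Sum.inl (Sum.inl e))) (fun j => v (Sum.inl (Sum.inr j)))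
      fun i => v (Sum.inr i)).mpr h2
    have h5 := fc_bv (x := fun e => v (Sum.inl (Sum.inl e))) (fun j => v (Sum.inl (Sum.inr j)))
      (fun i => v (Sum.inr i)) h2
    refine ⟨⟨?_, bv_det _ _ _, fun j => ?_⟩, h4, fun i => ?_⟩
    · intro a b hab
      change ent (fun e => v (Sum.inl (Sum.inl e))) (fun j => v (Sum.inl (Sum.inr j)))
        (fun i => v (Sum.inr i)) a b = algebraMap R C (ce c a b)
      rcases a with ⟨⟩ | a | a <;> rcases b with ⟨⟩ | b | b
      · exact absurd trivial hab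
      · exact (map_zero _).symm
      · exact absurd trivial hab
      · exact (map_zero _).symm
      · exact (map_zero _).symm
      · exact h1 (a, b) ((hmem a b).mp hab)
      · exact absurd trivial hab
      · exact h1 (b, a) ((hmem b a).mp hab)
      · exact (if_neg hab).trans (map_zero _).symm
    · rw [h5]
      exact mul_zero _
    · rw [h5]
      exact h4.mul (h3 i)
  · intro C D _ _ _ _ f v _ e
    induction e with
    | _ a b =>
      exact ent_map (f : C →+* D) (fun e => v (Sum.inl (Sum.inl e)))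
        (fun j => v (Sum.inl (Sum.inr j))) (fun i => v (Sum.inr i)) a b
  · intro C _ _ v hv e
    rw [pt_srcC] at hv
    obtain ⟨⟨h1, h2, h3⟩, h4, h5⟩ := hv
    exact congrFun (bv_eq v (weak v h1) h2 h3 h4 h5) e
  · intro C _ _ v hv t
    rw [ht] at hv
    obtain ⟨⟨h1, h2⟩, h3⟩ := hv
    have h4 := (unit_bv (fun e => v (Sum.inl (Sum.inl e))) (fun j => v (Sum.inl (Sum.inr j)))
      fun i => v (Sum.inr i)).mpr h2
    have h5 := fc_bv (x := fun e => v (Sum.inl (Sum.inl e))) (fun j => v (Sum.inl (Sum.inr j)))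
      (fun i => v (Sum.inr i)) h2
    rcases t with (e | j) | i
    · rfl
    · exact if_pos rfl
    · change zp (fc (Pi.single (Sum.inl ()) 1) (sm (bv _ _ _)) (Sum.inl ())) (-1) *
        fc (Pi.single (Sum.inl ()) 1) (sm (bv _ _ _)) (Sum.inr (Sum.inl i)) = v (Sum.inr i)
      rw [h5 (Sum.inr (Sum.inl i))]
      obtain ⟨u, hu⟩ := h4
      rw [← hu, zp_unit, zpow_neg_one, ← mul_assoc, u.inv_mul, one_mul]
      rfl

/-- from symmetric matrices to everything, over every noetherian ring -/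
theorem all_of_symC [IsNoetherianRing R] (hP : Bnd sep P) (hG : SymAllC R P) (X : Sch R)
    (hX : FT sep X) : P X := by
  refine (glp_iff hP).mpr ?_ X hX
  intro m F c
  have h := rel_of_symC hP hG F fun e => c e.1 e.2
  refine (pp_away hP _).mpr ?_
  refine pp_iso hP
    ⟨fun C _ _ v e => v e.1, ?_, ?_⟩
    ⟨fun C _ _ v e => if h : e ∉ F then v ⟨e, h⟩ else algebraMap R C (c e.1 e.2), ?_, ?_⟩
    ?_ ?_ h
  · intro C _ _ v hv
    rw [pt_relc] at hv
    refine ⟨fun g hg => hg.elim, ?_⟩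
    rw [aeval_prm]
    refine (congrArg (fun M : Matrix (Fin m) (Fin m) C => IsUnit M.det) ?_).mp hv.2
    ext i j
    change v (i, j) = if h : (i, j) ∉ F then v (i, j) else algebraMap R C (c i j)
    split_ifs with hij
    · exact hv.1 (i, j) hij
    · rfl
  · intro C D _ _ _ _ f v _ t
    rfl
  · intro C _ _ v hv
    rw [pt_relc]
    refine ⟨fun e he => dif_neg (not_not.mpr he), ?_⟩
    have h1 := hv.2
    rw [aeval_prm] at h1
    exact h1
  · intro C D _ _ _ _ f v _ e
    change (if h : e ∉ F then f (v ⟨e, h⟩) else algebraMap R D (c e.1 e.2)) =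
      f (if h : e ∉ F then v ⟨e, h⟩ else algebraMap R C (c e.1 e.2))
    by_cases he : e ∉ F
    · rw [dif_pos he, dif_pos he]
    · rw [dif_neg he, dif_neg he, AlgHom.commutes]
  · intro C _ _ v hv e
    rw [pt_relc] at hv
    change (if h : e ∉ F then v e else algebraMap R C (c e.1 e.2)) = v e
    by_cases he : e ∉ F
    · exact dif_pos he
    · rw [dif_neg he]
      exact (hv.1 e (not_not.mp he)).symm
  · intro C _ _ v _ e
    exact dif_pos e.2

end Pool.Agent.H839.PZ.Sc
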