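import Pool.Agent.H839.PZ.Sub4
import Pool.Agent.H839.PZ.Sc6

/-!
# Networks: graphs with variable and prescribed weights of the edges
-/

set_option autoImplicit false

open CategoryTheory AlgebraicGeometry MvPolynomial

namespace Pool.Agent.H839.PZ.Nt

open Pool.Agent.Y116.UV Pool.Agent.Z125.UN Sy Gr

variable {R : Type} [CommRing R] {sep : Prop} {P : Sch R → Prop}

section kpw

variable {κ ε σ : Type} [Fintype κ] [DecidableEq κ] [Fintype ε]

/-- the Kirchhoff polynomial of the network with the weights `x` -/
noncomputable def kpw (a b : ε → Option κ) (x : ε → MvPolynomial σ R) : MvPolynomial σ R :=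
  (lm a b x).det

/-- the weights with a new variable for a new edge -/
noncomputable def xE (x : ε → MvPolynomial σ R) : ε ⊕ Unit → MvPolynomial (σ ⊕ Unit) R :=
  Sum.elim (fun e => rename Sum.inl (x e)) fun _ => X (Sum.inr ())

/-- Every weight is a constant or one of the variables, and every variable is the weight of exactly one
edge. -/
def Wt (x : ε → MvPolynomial σ R) : Prop :=
  ∃ f : σ → ε, Function.Injective f ∧ (∀ s, x (f s) = X s) ∧
    ∀ e, e ∉ Set.range f → ∃ r : R, x e = C r

omit [Fintype ε] in
lemma wt_xE {x : ε → MvPolynomial σ R} (h : Wt x) : Wt (xE x) := by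
  obtain ⟨f, h1, h2, h3⟩ := h
  refine ⟨Sum.map f id, h1.sumMap Function.injective_id, fun s => ?_, fun e he => ?_⟩
  · rcases s with s | s
    · change rename Sum.inl (x (f s)) = _
      rw [h2, rename_X]
    · rfl
  · rcases e with e | e
    · obtain ⟨r, hr⟩ := h3 e fun ⟨s, hs⟩ => he ⟨Sum.inl s, congrArg Sum.inl hs⟩
      refine ⟨r, ?_⟩
      change rename Sum.inl (x e) = _
      rw [hr, rename_C]
    · exact absurd ⟨Sum.inr e, rfl⟩ he

lemma kpw_aeval {C : Type} [CommRing C] [Algebra R C] (a b : ε → Option κ)
    (x : ε → MvPolynomial σ R) (v : σ → C) :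
    aeval v (kpw a b x) = (lm a b fun e => aeval v (x e)).det := by
  rw [kpw, AlgHom.map_det]
  have h := lm_map (aeval v : MvPolynomial σ R →ₐ[R] C).toRingHom a b x
  exact congrArg Matrix.det h

lemma kpw_rename {σ' : Type} (f : σ → σ') (a b : ε → Option κ) (x : ε → MvPolynomial σ R) :
    (rename f (kpw a b x) : MvPolynomial σ' R) = (lm a b fun e => rename f (x e)).det := by
  rw [kpw, AlgHom.map_det]
  have h := lm_map (rename f : MvPolynomial σ R →ₐ[R] MvPolynomial σ' R).toRingHom a b x
  exact congrArg Matrix.det h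

end kpw

section main

/-- the three networks -/
lemma of_threeW (hP : Bnd sep P) {κ ε σ : Type} [Fintype κ] [DecidableEq κ] [Fintype ε] [Finite σ]
    (i : κ) (a b : ε → Option (Unit ⊕ κ)) (x : ε → MvPolynomial σ R)
    (h1 : PP P ∅ (kpw (adE a Gr.nv) (adE b (some (Sum.inr i))) (xE x)))
    (h2 : PP P ∅ (kpw a b x))
    (h3 : PP P ∅ (kpw (adE (adE (fun e => ov (a e)) Gr.nv) Gr.nv)
      (adE (adE (fun e => ov (b e)) (some (Sum.inr (Sum.inl ())))) (some (Sum.inr (Sum.inr i))))
      (xE (xE x)))) :
    PP P ∅ (kpw (fun e => mv i (a e)) (fun e => mv i (b e)) x) := by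
  have e1 : kpw (adE a Gr.nv) (adE b (some (Sum.inr i))) (xE x) =
      sp1 (kpw (fun e => mv i (a e)) (fun e => mv i (b e)) x) (kpw a b x) := by
    rw [kpw, det_edge, sp1, kpw_rename, kpw_rename]
    rfl
  refine pp_series hP _ (kpw a b x) ?_ h2 ?_
  · rw [← e1]
    exact h1
  · have e2 : kpw (adE (adE (fun e => ov (a e)) Gr.nv) Gr.nv)
        (adE (adE (fun e => ov (b e)) (some (Sum.inr (Sum.inl ())))) (some (Sum.inr (Sum.inr i))))
        (xE (xE x)) =
        sp2 (kpw (fun e => mv i (a e)) (fun e => mv i (b e)) x) (kpw a b x) := by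
      have h4 : (fun e => xE (xE x) (Sum.inl (Sum.inl e))) =
          fun e => rename (Sum.inl ∘ Sum.inl) (x e) := funext fun e => rename_rename _ _ _
      have h5 : xE (xE x) (Sum.inl (Sum.inr ())) = X (Sum.inl (Sum.inr ())) := rename_X _ _
      rw [kpw, det_path, sp2, ← e1, kpw_rename, rename_rename, kpw_rename, h4, h5]
      rfl
    rw [← e2]
    exact h3

/-- **Networks of maximal degree three.** -/
theorem all_of_subW (hP : Bnd sep P)
    (h : ∀ (κ ε σ : Type) [Fintype κ] [DecidableEq κ] [Fintype ε] [Finite σ] (a b : ε → Option κ)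
      (x : ε → MvPolynomial σ R), Wt x → Smp a b → (∀ p, dg a b p ≤ 3) →
      PP P (∅ : Set (MvPolynomial σ R)) (kpw a b x)) (n : ℕ) :
    ∀ (κ ε σ : Type) [Fintype κ] [DecidableEq κ] [Fintype ε] [Finite σ] (a b : ε → Option κ)
      (x : ε → MvPolynomial σ R), Wt x → Smp a b → dg a b none ≤ 3 → exc a b ≤ n →
      PP P (∅ : Set (MvPolynomial σ R)) (kpw a b x) := by
  classical
  induction n with
  | zero =>
    intro κ ε σ _ _ _ _ a b x hx hs h0 hn
    refine h κ ε σ a b x hx hs fun p => ?_
    rcases p with _ | i
    · exact h0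
    · have h1 := Finset.sum_eq_zero_iff.mp (Nat.le_zero.mp hn) i (Finset.mem_univ i)
      omega
  | succ n ih =>
    intro κ ε σ _ _ _ _ a b x hx hs h0 hn
    by_cases hd : ∀ p, dg a b p ≤ 3
    · exact h κ ε σ a b x hx hs hd
    obtain ⟨i, hi⟩ : ∃ i : κ, 4 ≤ dg a b (some i) := by
      by_contra h1
      push Not at h1
      refine hd fun p => ?_
      rcases p with _ | i
      · exact h0
      · exact Nat.le_of_lt_succ (h1 i)
    obtain ⟨A, hA, hA2⟩ := Finset.exists_subset_card_eq (s := Ed a b (some i)) (n := 2)
      (by have := hi; rw [dg] at this; omega)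
    have g1 : dg (sv A i a) (sv A i b) Gr.nv = 2 := by rw [dg_sv_nv hA, hA2]
    have g2 : dg (sv A i a) (sv A i b) (ov (some i)) + 2 = dg a b (some i) := by
      have := dg_sv_i hA
      rwa [hA2] at this
    have g3 : ∀ {p : Option κ}, p ≠ some i → dg (sv A i a) (sv A i b) (ov p) = dg a b p :=
      fun hp => dg_sv_ne hp
    have hsv := smp_sv (A := A) (i := i) hs
    have hS1 : Smp (adE (sv A i a) Gr.nv) (adE (sv A i b) (some (Sum.inr i))) :=
      smp_adE hsv (fun h1 => ov_ne_nv (some i) h1.symm) fun e => sv_new hs e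
    have key : ∀ f : κ → ℕ, (∀ j, f j ≤ dg a b (some j)) → f i + 1 ≤ dg a b (some i) →
        ∑ j, (f j - 3) < exc a b := by
      intro f hf hfi
      refine Finset.sum_lt_sum (fun j _ => Nat.sub_le_sub_right (hf j) 3) ⟨i, Finset.mem_univ i, ?_⟩
      omega
    have hmv : kpw a b x = kpw (fun e => mv i (sv A i a e)) (fun e => mv i (sv A i b e)) x := by
      congr 1
      · funext e
        exact (mv_sv e).symm
      · funext e
        exact (mv_sv e).symm
    have hdj : ∀ j : κ, dg (sv A i a) (sv A i b) (some (Sum.inr j)) ≤ dg a b (some j) := by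
      intro j
      by_cases hj : j = i
      · subst hj
        have : dg (sv A j a) (sv A j b) (some (Sum.inr j)) + 2 = dg a b (some j) := g2
        omega
      · exact (g3 fun h1 => hj (Option.some.inj h1)).le
    rw [hmv]
    refine of_threeW hP i _ _ x ?_ ?_ ?_
    · refine ih _ _ _ _ _ _ (wt_xE hx) hS1 ?_ ?_
      · rw [dg_adE, if_neg (by simp [Gr.nv])]
        exact (g3 (p := none) (by simp)).le.trans h0
      · have e1 : exc (adE (sv A i a) Gr.nv) (adE (sv A i b) (some (Sum.inr i))) =
            ∑ j : κ, (dg (adE (sv A i a) Gr.nv) (adE (sv A i b) (some (Sum.inr i)))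
              (some (Sum.inr j)) - 3) := by
          rw [exc, Fintype.sum_sum_type, Fintype.sum_unique]
          have h3' : dg (adE (sv A i a) Gr.nv) (adE (sv A i b) (some (Sum.inr i))) Gr.nv = 3 := by
            rw [dg_adE, if_pos (Or.inl rfl), g1]
          have : dg (adE (sv A i a) Gr.nv) (adE (sv A i b) (some (Sum.inr i)))
              (some (Sum.inl ())) = 3 := h3'
          change dg (adE (sv A i a) Gr.nv) (adE (sv A i b) (some (Sum.inr i)))
              (some (Sum.inl ())) - 3 + _ = _
          rw [this]
          omega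
        rw [e1]
        refine Nat.le_of_lt_succ (lt_of_lt_of_le (key _ (fun j => ?_) ?_) hn)
        · rw [dg_adE]
          by_cases hj : j = i
          · subst hj
            have : dg (sv A j a) (sv A j b) (some (Sum.inr j)) + 2 = dg a b (some j) := g2
            split_ifs <;> omega
          · rw [if_neg]
            · exact hdj j
            · rintro (h1 | h1)
              · exact ov_ne_nv (some j) h1.symm
              · exact hj (Sum.inr.inj (Option.some.inj h1)).symm
        · rw [dg_adE, if_pos (Or.inr rfl)]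
          have : dg (sv A i a) (sv A i b) (some (Sum.inr i)) + 2 = dg a b (some i) := g2
          omega
    · refine ih _ _ _ _ _ _ hx hsv ?_ ?_
      · exact (g3 (p := none) (by simp)).le.trans h0
      · have e1 : exc (sv A i a) (sv A i b) =
            ∑ j : κ, (dg (sv A i a) (sv A i b) (some (Sum.inr j)) - 3) := by
          rw [exc, Fintype.sum_sum_type, Fintype.sum_unique]
          have : dg (sv A i a) (sv A i b) (some (Sum.inl ())) = 2 := g1
          change dg (sv A i a) (sv A i b) (some (Sum.inl ())) - 3 + _ = _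
          rw [this]
          omega
        rw [e1]
        refine Nat.le_of_lt_succ (lt_of_lt_of_le (key _ hdj ?_) hn)
        have : dg (sv A i a) (sv A i b) (some (Sum.inr i)) + 2 = dg a b (some i) := g2
        omega
    · have hS3 : Smp (adE (adE (fun e => ov (sv A i a e)) Gr.nv) Gr.nv)
          (adE (adE (fun e => ov (sv A i b e)) (some (Sum.inr (Sum.inl ()))))
            (some (Sum.inr (Sum.inr i)))) := by
        refine smp_adE (smp_adE (smp_ov hsv) (fun h1 => ov_ne_nv Gr.nv h1.symm) fun e h1 => ?_)
          (fun h1 => ov_ne_nv (some (Sum.inr i)) h1.symm) fun e h1 => ?_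
        · rw [Sym2.eq_iff] at h1
          rcases h1 with ⟨h2, _⟩ | ⟨_, h2⟩
          · exact ov_ne_nv _ h2
          · exact ov_ne_nv _ h2
        · rw [Sym2.eq_iff] at h1
          rcases e with e | e
          · rcases h1 with ⟨h2, _⟩ | ⟨_, h2⟩
            · exact ov_ne_nv _ h2
            · exact ov_ne_nv _ h2
          · rcases h1 with ⟨_, h2⟩ | ⟨h2, _⟩
            · have h3 : (Sum.inr (Sum.inl ()) : Unit ⊕ (Unit ⊕ κ)) = Sum.inr (Sum.inr i) :=
                Option.some.inj h2
              exact absurd (Sum.inr.inj h3) Sum.inl_ne_inr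
            · exact ov_ne_nv (some (Sum.inr i)) h2.symm
      have d0 : ∀ r : Option (Unit ⊕ κ), dg (adE (adE (fun e => ov (sv A i a e)) Gr.nv) Gr.nv)
          (adE (adE (fun e => ov (sv A i b e)) (some (Sum.inr (Sum.inl ()))))
            (some (Sum.inr (Sum.inr i)))) (ov r) = dg (sv A i a) (sv A i b) r +
            (if r = Gr.nv then 1 else 0) + if r = some (Sum.inr i) then 1 else 0 := by
        intro r
        rw [dg_adE, dg_adE, dg_ov]
        congr 1
        · congr 1
          refine if_congr ?_ rfl rfl
          constructor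
          · rintro (h1 | h1)
            · exact absurd h1.symm (ov_ne_nv _)
            · have h2 : ov Gr.nv = ov r := h1
              exact (ov_inj h2).symm
          · rintro rfl
            exact Or.inr rfl
        · refine if_congr ?_ rfl rfl
          constructor
          · rintro (h1 | h1)
            · exact absurd h1.symm (ov_ne_nv _)
            · have h2 : ov (some (Sum.inr i)) = ov r := h1
              exact (ov_inj h2).symm
          · rintro rfl
            exact Or.inr rfl
      have d1 : dg (adE (adE (fun e => ov (sv A i a e)) Gr.nv) Gr.nv)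
          (adE (adE (fun e => ov (sv A i b e)) (some (Sum.inr (Sum.inl ()))))
            (some (Sum.inr (Sum.inr i)))) Gr.nv = 2 := by
        rw [dg_adE, dg_adE, dg_nv, if_pos (Or.inl rfl), if_pos (Or.inl rfl)]
      refine ih _ _ _ _ _ _ (wt_xE (wt_xE hx)) hS3 ?_ ?_
      · have h1 := d0 none
        have h2 : dg (sv A i a) (sv A i b) none = dg a b none := g3 (p := none) (by simp)
        rw [h2, if_neg (by simp [Gr.nv]), if_neg (by simp)] at h1
        exact h1.le.trans h0
      · have e1 : exc (adE (adE (fun e => ov (sv A i a e)) Gr.nv) Gr.nv)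
            (adE (adE (fun e => ov (sv A i b e)) (some (Sum.inr (Sum.inl ()))))
            (some (Sum.inr (Sum.inr i)))) =
            ∑ j : κ, (dg (adE (adE (fun e => ov (sv A i a e)) Gr.nv) Gr.nv)
              (adE (adE (fun e => ov (sv A i b e)) (some (Sum.inr (Sum.inl ()))))
                (some (Sum.inr (Sum.inr i)))) (ov (some (Sum.inr j))) - 3) := by
          rw [exc, Fintype.sum_sum_type, Fintype.sum_unique, Fintype.sum_sum_type,
            Fintype.sum_unique]
          have h1 := d0 Gr.nv
          rw [g1, if_pos rfl, if_neg (fun h2 => ov_ne_nv (some i) h2.symm)] at h1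
          have h1' : dg (adE (adE (fun e => ov (sv A i a e)) Gr.nv) Gr.nv)
            (adE (adE (fun e => ov (sv A i b e)) (some (Sum.inr (Sum.inl ()))))
            (some (Sum.inr (Sum.inr i)))) (some (Sum.inr (Sum.inl ()))) = 3 := h1
          have h2' : dg (adE (adE (fun e => ov (sv A i a e)) Gr.nv) Gr.nv)
            (adE (adE (fun e => ov (sv A i b e)) (some (Sum.inr (Sum.inl ()))))
            (some (Sum.inr (Sum.inr i)))) (some (Sum.inl ())) = 2 := d1
          change dg (adE (adE (fun e => ov (sv A i a e)) Gr.nv) Gr.nv)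
            (adE (adE (fun e => ov (sv A i b e)) (some (Sum.inr (Sum.inl ()))))
            (some (Sum.inr (Sum.inr i)))) (some (Sum.inl ())) - 3 +
            (dg (adE (adE (fun e => ov (sv A i a e)) Gr.nv) Gr.nv)
            (adE (adE (fun e => ov (sv A i b e)) (some (Sum.inr (Sum.inl ()))))
            (some (Sum.inr (Sum.inr i)))) (some (Sum.inr (Sum.inl ()))) - 3 + _) = _
          rw [h1', h2']
          rw [show 2 - 3 = 0 from rfl, zero_add, zero_add]
          rfl
        rw [e1]
        have hjn : ∀ j : κ, (some (Sum.inr j) : Option (Unit ⊕ κ)) ≠ Gr.nv :=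
          fun j => ov_ne_nv (some j)
        refine Nat.le_of_lt_succ (lt_of_lt_of_le (key _ (fun j => ?_) ?_) hn)
        · rw [d0, if_neg (hjn j)]
          by_cases hj : j = i
          · subst hj
            have : dg (sv A j a) (sv A j b) (some (Sum.inr j)) + 2 = dg a b (some j) := g2
            rw [if_pos rfl]
            omega
          · rw [if_neg fun h2 => hj (Sum.inr.inj (Option.some.inj h2))]
            have := hdj j
            omega
        · rw [d0, if_neg (hjn i), if_pos rfl]
          have : dg (sv A i a) (sv A i b) (some (Sum.inr i)) + 2 = dg a b (some i) := g2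
          omega

end main

end Pool.Agent.H839.PZ.Nt
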