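import Pool.Agent.H839.PZ.Graph

/-!
# Networks of maximal degree three: definitions
-/

set_option autoImplicit false

open CategoryTheory AlgebraicGeometry MvPolynomial

namespace Pool.Agent.H839.PZ

open Pool.Agent.Y116.UV Pool.Agent.Z125.UN

open Classical in
/-- The Kirchhoff polynomial of the network with the vertices `none` and `some i`, `i < m`: the edges of
the graph `G` have variable weights `x_e`, and the other pairs `e` of vertices have the weights
`c e ∈ R` (weight zero: no edge). It is the determinant of the reduced Laplace matrix. -/
noncomputable def kirchN (R : Type) [CommRing R] {m : ℕ} (G : SimpleGraph (Option (Fin m)))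
    (c : Sym2 (Option (Fin m)) → R) : MvPolynomial G.edgeSet R :=
  (lap fun e => if h : e ∈ G.edgeSet then X ⟨e, h⟩ else C (c e)).det

/-- The open subscheme of the affine space where the Kirchhoff polynomial of the network is not
zero. -/
noncomputable def NCo (R : Type) [CommRing R] {m : ℕ} (G : SimpleGraph (Option (Fin m)))
    (c : Sym2 (Option (Fin m)) → R) : Sch R := aff R (Localization.Away (kirchN R G c))

/-- The neighbours of `p`: the vertices which are joined with `p` by an edge of `G` or by a pair of
nonzero weight. -/
def nb {R : Type} [CommRing R] {m : ℕ} (G : SimpleGraph (Option (Fin m)))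
    (c : Sym2 (Option (Fin m)) → R) (p : Option (Fin m)) : Set (Option (Fin m)) :=
  {q | q ≠ p ∧ (G.Adj p q ∨ c s(p, q) ≠ 0)}

/-- A finite network over `R` with the vertices `none` and `some i`, `i < m`: the edges of the graph `G`
have variable weights, the other pairs `e` of vertices have the prescribed weights `c e ∈ R` (no edge,
if `c e = 0`), and each vertex has at most three neighbours. -/
structure Net (R : Type) [CommRing R] where
  /-- the number of the vertices is `m + 1` -/
  m : ℕ
  /-- the graph of the edges with variable weights -/
  G : SimpleGraph (Option (Fin m))
  /-- the prescribed weights -/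
  c : Sym2 (Option (Fin m)) → R
  /-- the degrees are at most three -/
  deg : ∀ p, (nb G c p).ncard ≤ 3

variable {R : Type} [CommRing R]

/-- The open subscheme of the affine space (of the variable weights) where the Kirchhoff polynomial of
the network is not zero. -/
noncomputable def Net.co (g : Net R) : Sch R := NCo R g.G g.c

end Pool.Agent.H839.PZ
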