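import Pool.Agent.H839.PZ.Net1
import Pool.Agent.H839.PZ.NetDef

/-!
# Networks of maximal degree three decide
-/

set_option autoImplicit false

open CategoryTheory AlgebraicGeometry MvPolynomial

namespace Pool.Agent.H839.PZ

open Pool.Agent.Y116.UV Pool.Agent.Z125.UN

namespace Nt

open Sy Gr Sc

variable {R : Type} [CommRing R] {sep : Prop} {P : Sch R → Prop}

open Classical in
lemma aeval_kirchN {m : ℕ} (G : SimpleGraph (Option (Fin m))) (c : Sym2 (Option (Fin m)) → R)
    {C : Type} [CommRing C] [Algebra R C] (v : G.edgeSet → C) : aeval v (kirchN R G c) =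
      (lap fun e => if h : e ∈ G.edgeSet then v ⟨e, h⟩ else algebraMap R C (c e)).det := by
  rw [kirchN, AlgHom.map_det]
  have h := lap_map (aeval v : MvPolynomial G.edgeSet R →ₐ[R] C).toRingHom
    (fun e => if h : e ∈ G.edgeSet then X ⟨e, h⟩ else MvPolynomial.C (c e))
  have h1 : (aeval v : MvPolynomial G.edgeSet R →ₐ[R] C).mapMatrix
      (lap fun e => if h : e ∈ G.edgeSet then X ⟨e, h⟩ else MvPolynomial.C (c e)) =
      lap fun e => (aeval v : MvPolynomial G.edgeSet R →ₐ[R] C).toRingHom
        (if h : e ∈ G.edgeSet then X ⟨e, h⟩ else MvPolynomial.C (c e)) := h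
  rw [h1]
  congr 2
  funext e
  split_ifs
  · exact aeval_X _ _
  · exact aeval_C _ _

lemma pp_nco (hP : Bnd sep P) {m : ℕ} (G : SimpleGraph (Option (Fin m)))
    (c : Sym2 (Option (Fin m)) → R) :
    P (NCo R G c) ↔ PP P (∅ : Set (MvPolynomial G.edgeSet R)) (kirchN R G c) := by
  have hfin : Finite G.edgeSet := inferInstance
  exact pp_away hP _

lemma ft_nco {m : ℕ} (G : SimpleGraph (Option (Fin m))) (c : Sym2 (Option (Fin m)) → R) :
    FT sep (NCo R G c) := by
  have hfin : Finite G.edgeSet := inferInstance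
  have hf : Algebra.FiniteType R (Localization.Away (kirchN R G c)) :=
    Algebra.FiniteType.trans (S := MvPolynomial G.edgeSet R) inferInstance inferInstance
  exact ft_aff sep

section conv

variable {m : ℕ} {ε σ : Type} [Fintype ε]

/-- the Laplace matrix of the list of the edges -/
lemma lap_eq_lm' {C : Type} [CommRing C] (a b : ε → Option (Fin m)) (ha : ∀ e, a e ≠ b e)
    (x : ε → C) (y : Sym2 (Option (Fin m)) → C)
    (hy : ∀ q, ¬ q.IsDiag → y q = ∑ e, if s(a e, b e) = q then x e else 0) :
    lap y = lm a b x := by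
  classical
  have h : lap y = lap fun q => ∑ e, if s(a e, b e) = q then x e else 0 := by
    ext i j
    change (if i = j then y s(some i, none) + ∑ k, (if k = i then 0 else y s(some i, some k)) else
      - y s(some i, some j)) = if i = j then (∑ e, if s(a e, b e) = s(some i, none) then x e else 0)
        + ∑ k, (if k = i then 0 else ∑ e, if s(a e, b e) = s(some i, some k) then x e else 0) else
      - ∑ e, if s(a e, b e) = s(some i, some j) then x e else 0
    split_ifs with hij
    · rw [hy _ (by rw [Sym2.mk_isDiag_iff]; simp)]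
      congr 1
      refine Finset.sum_congr rfl fun k _ => ?_
      split_ifs with hk
      · rfl
      · rw [hy _ (by rw [Sym2.mk_isDiag_iff]; exact fun h => hk (Option.some.inj h).symm)]
    · rw [hy _ (by rw [Sym2.mk_isDiag_iff]; exact fun h => hij (Option.some.inj h))]
  rw [h]
  exact lap_eq_lm a b ha x _ fun q => rfl

open Classical in
/-- the network and the list of its edges -/
lemma pp_convW (hP : Bnd sep P) [Finite σ] (G : SimpleGraph (Option (Fin m)))
    (c : Sym2 (Option (Fin m)) → R) (a b : ε → Option (Fin m)) (x : ε → MvPolynomial σ R)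
    (ha : ∀ e, a e ≠ b e) (φ : σ ≃ G.edgeSet)
    (hy : ∀ {C : Type} [CommRing C] [Algebra R C] (v : G.edgeSet → C) (q : Sym2 (Option (Fin m))),
      ¬ q.IsDiag → (if h : q ∈ G.edgeSet then v ⟨q, h⟩ else algebraMap R C (c q)) =
        ∑ e, if s(a e, b e) = q then aeval (fun s => v (φ s)) (x e) else 0) :
    PP P ∅ (kpw a b x) ↔ PP P ∅ (kirchN R G c) := by
  have hfin : Finite G.edgeSet := inferInstance
  have h1 : ∀ {C : Type} [CommRing C] [Algebra R C] (v : G.edgeSet → C),
      aeval v (kirchN R G c) = aeval (fun s => v (φ s)) (kpw a b x) := by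
    intro C _ _ v
    rw [aeval_kirchN, kpw_aeval]
    congr 1
    exact lap_eq_lm' a b ha _ _ fun q hq => hy v q hq
  have h2 : ∀ {C : Type} [CommRing C] [Algebra R C] (v : σ → C),
      aeval v (kpw a b x) = aeval (fun e => v (φ.symm e)) (kirchN R G c) := by
    intro C _ _ v
    rw [h1]
    congr 2
    funext e
    rw [Equiv.symm_apply_apply]
  constructor
  · intro h
    refine pp_iso hP ⟨fun C _ _ v e => v (φ.symm e), ?_, ?_⟩ ⟨fun C _ _ v e => v (φ e), ?_, ?_⟩
      ?_ ?_ h
    · intro C _ _ v hv
      rw [pt_empty] at hv ⊢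
      rw [← h2]
      exact hv
    · intro C D _ _ _ _ f v _ t
      rfl
    · intro C _ _ v hv
      rw [pt_empty] at hv ⊢
      rw [← h1]
      exact hv
    · intro C D _ _ _ _ f v _ t
      rfl
    · intro C _ _ v _ s
      change v (φ.symm (φ s)) = v s
      rw [Equiv.symm_apply_apply]
    · intro C _ _ v _ s
      change v (φ (φ.symm s)) = v s
      rw [Equiv.apply_symm_apply]
  · intro h
    refine pp_iso hP ⟨fun C _ _ v e => v (φ e), ?_, ?_⟩ ⟨fun C _ _ v e => v (φ.symm e), ?_, ?_⟩
      ?_ ?_ h
    · intro C _ _ v hv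
      rw [pt_empty] at hv ⊢
      rw [← h1]
      exact hv
    · intro C D _ _ _ _ f v _ t
      rfl
    · intro C _ _ v hv
      rw [pt_empty] at hv ⊢
      rw [← h2]
      exact hv
    · intro C D _ _ _ _ f v _ t
      rfl
    · intro C _ _ v _ s
      change v (φ (φ.symm s)) = v s
      rw [Equiv.apply_symm_apply]
    · intro C _ _ v _ s
      change v (φ.symm (φ s)) = v s
      rw [Equiv.symm_apply_apply]

end conv

section fin

/-- the graph of the edges with variable weights -/
def grv {κ ε σ : Type} {a b : ε → Option κ} (h : ∀ e, a e ≠ b e) (f : σ → ε) :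
    SimpleGraph (Option κ) where
  Adj p q := ∃ s, s(a (f s), b (f s)) = s(p, q)
  symm := ⟨fun p q ⟨e, he⟩ => ⟨e, he.trans Sym2.eq_swap⟩⟩
  loopless := ⟨fun p ⟨e, he⟩ => by
    rw [Sym2.eq_iff] at he
    rcases he with ⟨h1, h2⟩ | ⟨h1, h2⟩
    · exact h _ (h1.trans h2.symm)
    · exact h _ (h1.trans h2.symm)⟩

/-- the networks with the vertices `Fin m` suffice -/
lemma sub_of_finN (hP : Bnd sep P)
    (h : ∀ (m : ℕ) (G : SimpleGraph (Option (Fin m))) (c : Sym2 (Option (Fin m)) → R),
      (∀ p, (nb G c p).ncard ≤ 3) → P (NCo R G c))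
    (κ ε σ : Type) [Fintype κ] [DecidableEq κ] [Fintype ε] [Finite σ] (a b : ε → Option κ)
    (x : ε → MvPolynomial σ R) (hx : Wt x) (hs : Smp a b)
    (hd : ∀ p, dg a b p ≤ 3) : PP P (∅ : Set (MvPolynomial σ R)) (kpw a b x) := by
  classical
  obtain ⟨f, hf1, hf2, hf3⟩ := hx
  let e := Fintype.equivFin κ
  have hinj : Function.Injective (Option.map e) := Option.map_injective e.injective
  let a' : ε → Option (Fin (Fintype.card κ)) := fun t => Option.map e (a t)
  let b' : ε → Option (Fin (Fintype.card κ)) := fun t => Option.map e (b t)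
  have ha' : ∀ t, a' t ≠ b' t := fun t h1 => hs.ne t (hinj h1)
  have hin' : ∀ t t', s(a' t, b' t) = s(a' t', b' t') → t = t' := by
    intro t t' h1
    have h2 : Sym2.map (Option.map e) s(a t, b t) = Sym2.map (Option.map e) s(a t', b t') := h1
    exact hs.inj t t' (Sym2.map.injective hinj h2)
  have hk : kpw a b x = kpw a' b' x := by
    have hi : ∀ (p : Option κ) (i : κ), inc (MvPolynomial σ R) (Option.map e p) (e i) =
        inc (MvPolynomial σ R) p i := by
      intro p i
      unfold inc
      congr 1
      rw [eq_iff_iff]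
      exact ⟨fun h1 => hinj h1, fun h1 => congrArg (Option.map e) h1⟩
    rw [kpw, kpw, ← Matrix.det_submatrix_equiv_self e (lm a' b' x)]
    congr 1
    refine Matrix.ext fun i j => ?_
    change ∑ t, x t * ((inc (MvPolynomial σ R) (a t) i -
      inc (MvPolynomial σ R) (b t) i) * (inc (MvPolynomial σ R) (a t) j -
      inc (MvPolynomial σ R) (b t) j)) = ∑ t, x t *
      ((inc (MvPolynomial σ R) (Option.map e (a t)) (e i) -
        inc (MvPolynomial σ R) (Option.map e (b t)) (e i)) *
      (inc (MvPolynomial σ R) (Option.map e (a t)) (e j) -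
        inc (MvPolynomial σ R) (Option.map e (b t)) (e j)))
    refine Finset.sum_congr rfl fun t _ => ?_
    rw [hi, hi, hi, hi]
  let G := grv ha' f
  let c : Sym2 (Option (Fin (Fintype.card κ))) → R := fun q =>
    ∑ t, if s(a' t, b' t) = q then constantCoeff (x t) else 0
  have hin : ∀ s, s(a' (f s), b' (f s)) ∈ G.edgeSet := fun s => ⟨s, rfl⟩
  let φ : σ ≃ G.edgeSet := Equiv.ofBijective (fun s => ⟨s(a' (f s), b' (f s)), hin s⟩) (by
    constructor
    · intro t t' h1
      exact hf1 (hin' _ _ (congrArg Subtype.val h1))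
    · rintro ⟨q, hq⟩
      induction q with
      | _ p q =>
        obtain ⟨t, ht⟩ := hq
        exact ⟨t, Subtype.ext ht⟩)
  have hφ : ∀ s, ((φ s : G.edgeSet) : Sym2 (Option (Fin (Fintype.card κ)))) = s(a' (f s), b' (f s)) :=
    fun _ => rfl
  have hc0 : ∀ p q, c s(p, q) ≠ 0 → ∃ t, s(a' t, b' t) = s(p, q) := by
    intro p q hpq
    by_contra h1
    push Not at h1
    exact hpq (Finset.sum_eq_zero fun t _ => if_neg (h1 t))
  have h1 := h _ G c fun p => ?_
  · rw [hk, pp_convW hP G c a' b' x ha' φ ?_, ← pp_nco hP]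
    · exact h1
    · intro C _ _ v q _
      split_ifs with hq
      · rw [Finset.sum_eq_single (f (φ.symm ⟨q, hq⟩))]
        · have h2 : s(a' (f (φ.symm ⟨q, hq⟩)), b' (f (φ.symm ⟨q, hq⟩))) = q := by
            rw [← hφ, Equiv.apply_symm_apply]
          rw [if_pos h2, hf2, aeval_X, Equiv.apply_symm_apply]
        · intro t _ ht
          rw [if_neg]
          intro h2
          refine ht (hin' _ _ ?_)
          rw [h2, ← hφ, Equiv.apply_symm_apply]
        · intro h2
          exact absurd (Finset.mem_univ _) h2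
      · change algebraMap R C (∑ t, if s(a' t, b' t) = q then constantCoeff (x t) else 0) = _
        rw [map_sum]
        refine Finset.sum_congr rfl fun t _ => ?_
        split_ifs with ht
        · obtain ⟨r, hr⟩ := hf3 t fun ⟨s, hst⟩ => hq (by
            rw [← ht, ← hst]
            exact hin s)
          rw [hr, constantCoeff_C, aeval_C]
        · exact map_zero _
  · have h2 : nb G c p ⊆
        ((Ed a' b' p).image fun t => if a' t = p then b' t else a' t :
          Finset (Option (Fin (Fintype.card κ)))) := by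
      rintro q ⟨_, hq⟩
      have h3 : ∃ t, s(a' t, b' t) = s(p, q) := by
        rcases hq with ⟨s, hs'⟩ | hq
        · exact ⟨f s, hs'⟩
        · exact hc0 p q hq
      obtain ⟨t, ht⟩ := h3
      rw [Finset.mem_coe, Finset.mem_image]
      rw [Sym2.eq_iff] at ht
      rcases ht with ⟨h4, h5⟩ | ⟨h4, h5⟩
      · exact ⟨t, mem_ed.mpr (Or.inl h4), by rw [if_pos h4, h5]⟩
      · refine ⟨t, mem_ed.mpr (Or.inr h5), ?_⟩
        rw [if_neg, h4]
        intro h6
        exact ha' t (h6.trans h5.symm)
    refine (Set.ncard_le_ncard h2 (Finset.finite_toSet _)).trans ?_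
    rw [Set.ncard_coe_finset]
    refine Finset.card_image_le.trans ?_
    change dg a' b' p ≤ 3
    by_cases hp : ∃ q, Option.map e q = p
    · obtain ⟨q, rfl⟩ := hp
      have h2 : dg a' b' (Option.map e q) = dg a b q := by
        rw [dg_eq, dg_eq]
        refine Finset.sum_congr rfl fun t _ => ?_
        congr 1
        rw [hinj.eq_iff, hinj.eq_iff]
      rw [h2]
      exact hd q
    · exact absurd ⟨Option.map e.symm p, by rw [Option.map_map, Equiv.self_comp_symm, Option.map_id,
        id]⟩ hp

end fin

section cone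

variable {m : ℕ}

/-- the weights of the prescribed entries -/
def cn (c : Sym2 (Fin m) → R) : Sym2 (Option (Fin m)) → R :=
  Sym2.lift ⟨fun a b => match a, b with
    | some i, some j => - c s(i, j)
    | _, _ => 0, by
    intro a b
    rcases a with _ | a <;> rcases b with _ | b
    · rfl
    · rfl
    · rfl
    · change - c s(a, b) = - c s(b, a)
      rw [Sym2.eq_swap]⟩

lemma sgp_of_nco (hP : Bnd sep P) (Z : Finset (Sym2 (Fin m))) (c : Sym2 (Fin m) → R)
    (hZ : ∀ e ∈ Z, ¬ e.IsDiag) (h : P (NCo R (cone Z) (cn c))) :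
    PP P (crel Z c) (sgm R (Fin m)).det := by
  classical
  rw [pp_nco hP] at h
  have hfin : Finite (cone Z).edgeSet := inferInstance
  let ex : ∀ {C : Type} [CommRing C] [Algebra R C], ((cone Z).edgeSet → C) →
      Sym2 (Option (Fin m)) → C :=
    fun v e => if h : e ∈ (cone Z).edgeSet then v ⟨e, h⟩ else algebraMap R _ (cn c e)
  have hex : ∀ {C : Type} [CommRing C] [Algebra R C] (v : (cone Z).edgeSet → C)
      (e : (cone Z).edgeSet), ex v e.1 = v e := fun v e => dif_pos e.2
  have hsz : ∀ {C : Type} [CommRing C] [Algebra R C] (v : (cone Z).edgeSet → C),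
      ∀ e ∈ Z, mt (ex v) e = algebraMap R C (c e) := by
    intro C _ _ v e he
    have h1 := hZ e he
    induction e with
    | _ i j =>
      rw [Sym2.mk_isDiag_iff] at h1
      change (if i = j then _ else - ex v s(some i, some j)) = _
      rw [if_neg h1]
      have h2 : ex v s(some i, some j) = algebraMap R C (- c s(i, j)) :=
        dif_neg fun h3 => ((cone_some Z).mp h3).2 he
      rw [h2, map_neg, neg_neg]
  have hds : ∀ {C : Type} [CommRing C] [Algebra R C] (v : Sym2 (Fin m) → C)
      (_ : ∀ e ∈ Z, v e = algebraMap R C (c e)), mt (ex fun e => wt v e.1) = v := by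
    intro C _ _ v hv
    have h1 : ∀ e : Sym2 (Option (Fin m)), ¬ e.IsDiag → ex (fun e => wt v e.1) e = wt v e := by
      intro e he
      by_cases h2 : e ∈ (cone Z).edgeSet
      · exact dif_pos h2
      · refine (dif_neg h2).trans ?_
        induction e with
        | _ a b =>
          rw [Sym2.mk_isDiag_iff] at he
          rcases a with _ | a <;> rcases b with _ | b
          · exact absurd rfl he
          · exact absurd trivial h2
          · exact absurd trivial h2
          · have h3 : s(a, b) ∈ Z := by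
              by_contra h4
              exact h2 ((cone_some Z).mpr ⟨fun h5 => he (congrArg some h5), h4⟩)
            change algebraMap R C (- c s(a, b)) = - v s(a, b)
            rw [hv _ h3, map_neg]
    funext e
    rw [← mt_wt v e]
    induction e with
    | _ i j =>
      change (if i = j then ex (fun e => wt v e.1) s(some i, none) +
        ∑ k, (if k = i then 0 else ex (fun e => wt v e.1) s(some i, some k)) else
        - ex (fun e => wt v e.1) s(some i, some j)) = (if i = j then wt v s(some i, none) +
        ∑ k, (if k = i then 0 else wt v s(some i, some k)) else - wt v s(some i, some j))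
      split_ifs with hij
      · rw [h1 _ (by rw [Sym2.mk_isDiag_iff]; simp)]
        congr 1
        refine Finset.sum_congr rfl fun k _ => ?_
        split_ifs with hk
        · rfl
        · exact h1 _ (by rw [Sym2.mk_isDiag_iff]; exact fun h => hk (Option.some.inj h).symm)
      · rw [h1 _ (by rw [Sym2.mk_isDiag_iff]; exact fun h => hij (Option.some.inj h))]
  refine pp_iso hP ⟨fun C _ _ v => mt (ex v), ?_, ?_⟩
    ⟨fun C _ _ v e => wt v e.1, ?_, ?_⟩ ?_ ?_ h
  · intro C _ _ v hv
    rw [pt_crel]
    refine ⟨hsz v, ?_⟩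
    have h1 := hv.2
    rw [aeval_kirchN] at h1
    exact h1
  · intro C D _ _ _ _ f v _ e
    have h1 : ex (fun e => f (v e)) = fun e => f (ex v e) := by
      funext e
      by_cases he : e ∈ (cone Z).edgeSet
      · rw [show ex v e = v ⟨e, he⟩ from dif_pos he]
        exact dif_pos he
      · rw [show ex v e = algebraMap R C (cn c e) from dif_neg he, AlgHom.commutes]
        exact dif_neg he
    change mt (ex fun e => f (v e)) e = f (mt (ex v) e)
    rw [h1]
    exact mt_map (f : C →+* D) _ _
  · intro C _ _ v hv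
    rw [pt_crel] at hv
    refine ⟨fun g hg => hg.elim, ?_⟩
    rw [aeval_kirchN]
    have h1 := hds v hv.1
    change IsUnit (lap (ex fun e => wt v e.1)).det
    rw [← sm_mt, h1]
    exact hv.2
  · intro C D _ _ _ _ f v _ e
    exact wt_map (f : C →+* D) _ _
  · intro C _ _ v _ e
    have he : ¬ (e.1 : Sym2 (Option (Fin m))).IsDiag := SimpleGraph.not_isDiag_of_mem_edgeSet _ e.2
    change wt (mt (ex v)) e.1 = v e
    rw [wt_mt _ _ he]
    exact hex v e
  · intro C _ _ v hv e
    rw [pt_crel] at hv
    exact congrFun (hds v hv.1) e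

/-- the index sets `Fin m` suffice -/
lemma symAllC_of_fin (hP : Bnd sep P)
    (h : ∀ (m : ℕ) (Z : Finset (Sym2 (Fin m))) (c : Sym2 (Fin m) → R), (∀ e ∈ Z, ¬ e.IsDiag) →
      PP P (crel Z c) (sgm R (Fin m)).det) : SymAllC R P := by
  intro κ _ _ Z c hZ
  let e := Fintype.equivFin κ
  have hmm : ∀ a : Sym2 (Fin (Fintype.card κ)), Sym2.map e (Sym2.map e.symm a) = a := by
    intro a
    rw [Sym2.map_map, Equiv.self_comp_symm, Sym2.map_id]
    rfl
  have hmm' : ∀ a : Sym2 κ, Sym2.map e.symm (Sym2.map e a) = a := by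
    intro a
    rw [Sym2.map_map, Equiv.symm_comp_self, Sym2.map_id]
    rfl
  have h1 := h _ (Z.map ⟨Sym2.map e, Sym2.map.injective e.injective⟩)
    (fun q => c (Sym2.map e.symm q)) (by
    intro a ha
    rw [Finset.mem_map] at ha
    obtain ⟨b, hb, rfl⟩ := ha
    have h2 := hZ b hb
    induction b with
    | _ x y =>
      rw [Sym2.mk_isDiag_iff] at h2
      change ¬ (Sym2.map e s(x, y)).IsDiag
      rw [Sym2.map_mk, Sym2.mk_isDiag_iff]
      exact fun h3 => h2 (e.injective h3))
  have hdet : ∀ {C : Type} [CommRing C] (u : Sym2 (Fin (Fintype.card κ)) → C) (v : Sym2 κ → C),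
      (∀ a, v a = u (Sym2.map e a)) → (sm v).det = (sm u).det := by
    intro C _ u v huv
    rw [← Matrix.det_submatrix_equiv_self e (sm u)]
    congr 1
    ext i j
    exact huv s(i, j)
  refine pp_iso hP ⟨fun C _ _ v a => v (Sym2.map e a), ?_, ?_⟩
    ⟨fun C _ _ v a => v (Sym2.map e.symm a), ?_, ?_⟩ ?_ ?_ h1
  · intro C _ _ v hv
    rw [pt_crel] at hv ⊢
    refine ⟨fun a ha => ?_, ?_⟩
    · have := hv.1 _ (Finset.mem_map.mpr ⟨a, ha, rfl⟩)
      change v (Sym2.map e a) = algebraMap R C (c (Sym2.map e.symm (Sym2.map e a))) at this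
      rwa [hmm'] at this
    · rw [hdet v (fun a => v (Sym2.map e a)) fun _ => rfl]
      exact hv.2
  · intro C D _ _ _ _ f v _ t
    rfl
  · intro C _ _ v hv
    rw [pt_crel] at hv ⊢
    refine ⟨fun a ha => ?_, ?_⟩
    · rw [Finset.mem_map] at ha
      obtain ⟨b, hb, rfl⟩ := ha
      change v (Sym2.map e.symm (Sym2.map e b)) = algebraMap R C (c (Sym2.map e.symm (Sym2.map e b)))
      rw [hmm']
      exact hv.1 b hb
    · rw [← hdet (fun a => v (Sym2.map e.symm a)) v fun a => by rw [hmm']]
      exact hv.2
  · intro C D _ _ _ _ f v _ t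
    rfl
  · intro C _ _ v _ a
    change v (Sym2.map e (Sym2.map e.symm a)) = v a
    rw [hmm]
  · intro C _ _ v _ a
    change v (Sym2.map e.symm (Sym2.map e a)) = v a
    rw [hmm']

end cone

end Nt

open Sy Gr Sc Nt

/-- **Networks of maximal degree three.** Let `R` be a noetherian ring. A property of schemes of finite
type over `R` with the closure properties `Bnd` is true for all of them if and only if it is true for
the open subschemes of the affine spaces where the Kirchhoff polynomial of a network is not zero, for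
all finite networks in which every vertex has at most three neighbours; some edges of the network have
variable weights, the others have prescribed weights in `R`. -/
theorem net_iff {R : Type} [CommRing R] {sep : Prop} {P : Sch R → Prop} [IsNoetherianRing R]
    (hP : Bnd sep P) : (∀ X : Sch R, FT sep X → P X) ↔
      ∀ (m : ℕ) (G : SimpleGraph (Option (Fin m))) (c : Sym2 (Option (Fin m)) → R),
        (∀ p, (nb G c p).ncard ≤ 3) → P (NCo R G c) := by
  classical
  constructor
  · intro h m G c _
    exact h _ (ft_nco G c)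
  · intro h
    refine all_of_symC hP (symAllC_of_fin hP fun m Z c hZ => sgp_of_nco hP Z c hZ ?_)
    rw [pp_nco hP]
    set G := cone Z with hG
    set c' := cn c with hc'
    let ε := {e : Sym2 (Option (Fin m)) // ¬ e.IsDiag}
    have hex : ∀ e : ε, ∃ p : Option (Fin m) × Option (Fin m),
        (e : Sym2 (Option (Fin m))) = s(p.1, p.2) := by
      rintro ⟨e, he⟩
      induction e with
      | _ p q => exact ⟨(p, q), rfl⟩
    choose f hf using hex
    have hs : Smp (fun e : ε => (f e).1) (fun e => (f e).2) :=
      ⟨fun e h1 => by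
        have h2 := e.2
        rw [hf e, Sym2.mk_isDiag_iff] at h2
        exact h2 h1, fun e e' h1 => Subtype.ext (by rw [hf e, hf e']; exact h1)⟩
    let x : ε → MvPolynomial G.edgeSet R := fun e =>
      if h : e.1 ∈ G.edgeSet then X ⟨e.1, h⟩ else C (c' e.1)
    have hfin : Finite G.edgeSet := inferInstance
    have hx : Wt x := by
      refine ⟨fun s => ⟨s.1, SimpleGraph.not_isDiag_of_mem_edgeSet _ s.2⟩, ?_, ?_, ?_⟩
      · intro s s' h1
        exact Subtype.ext (congrArg (fun t : ε => t.1) h1)
      · intro s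
        exact dif_pos s.2
      · intro e he
        refine ⟨c' e.1, dif_neg fun h1 => he ⟨⟨e.1, h1⟩, rfl⟩⟩
    rw [← pp_convW hP G c' (fun e : ε => (f e).1) (fun e => (f e).2) x hs.ne (Equiv.refl _) ?_]
    · have hroot : PP P ∅ (kpw (adE (fun e : ε => Gr.rt (f e).1) none)
          (adE (fun e : ε => Gr.rt (f e).2) Gr.nv) (xE x)) →
          PP P ∅ (kpw (fun e : ε => (f e).1) (fun e => (f e).2) x) := by
        intro h1
        refine pp_torus hP ?_
        rw [Set.image_empty]
        have h2 : kpw (adE (fun e : ε => Gr.rt (f e).1) none) (adE (fun e : ε => Gr.rt (f e).2) Gr.nv)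
            (xE x) = rename Sum.inl (kpw (fun e : ε => (f e).1) (fun e => (f e).2) x) *
              X (Sum.inr ()) := by
          rw [kpw, det_root, kpw_rename, mul_comm]
          rfl
        rw [← h2]
        exact h1
      refine hroot ?_
      exact all_of_subW hP (sub_of_finN hP h) _ _ _ _ _ _ _ (wt_xE hx) (smp_rt hs)
        (by rw [dg_rt]; omega) le_rfl
    · intro C _ _ v q hq
      have hxe : ∀ e : ε, aeval (fun s => v ((Equiv.refl G.edgeSet) s)) (x e) =
          if h : e.1 ∈ G.edgeSet then v ⟨e.1, h⟩ else algebraMap R C (c' e.1) := by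
        intro e
        by_cases h1 : e.1 ∈ G.edgeSet
        · have h2 : x e = X ⟨e.1, h1⟩ := dif_pos h1
          rw [h2, aeval_X, dif_pos h1]
          rfl
        · have h2 : x e = MvPolynomial.C (c' e.1) := dif_neg h1
          rw [h2, aeval_C, dif_neg h1]
      have hs2 : ∀ e : ε, (if s((f e).1, (f e).2) = q then
          aeval (fun s => v ((Equiv.refl G.edgeSet) s)) (x e) else 0) =
          if e = ⟨q, hq⟩ then (if h : q ∈ G.edgeSet then v ⟨q, h⟩ else algebraMap R C (c' q))
            else 0 := by
        intro e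
        rw [← hf e, hxe e]
        by_cases h1 : e = ⟨q, hq⟩
        · subst h1
          rw [if_pos rfl, if_pos rfl]
        · rw [if_neg h1, if_neg fun h2 => h1 (Subtype.ext h2)]
      rw [Finset.sum_congr rfl fun e _ => hs2 e, Finset.sum_ite_eq', if_pos (Finset.mem_univ _)]

end Pool.Agent.H839.PZ
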