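import Pool.Agent.H839.PZ.Base2

/-!
# Pairs of matrices with prescribed zeros and ones and with zeros in the product
-/

set_option autoImplicit false

open CategoryTheory AlgebraicGeometry MvPolynomial

namespace Pool.Agent.H839.PZ

open Pool.Agent.Y116.UV Pool.Agent.Z125.UN

variable {R : Type} [CommRing R] {sep : Prop} {P : Sch R → Prop}

variable {I L J : Type} [Fintype I] [Fintype L] [Fintype J] [DecidableEq I]
  [DecidableEq L] [DecidableEq J]

/-- the equations: zeros at the places `Z`, ones at the places `O`, and zeros of the product at the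
places `E` -/
def S3 (R : Type) [CommRing R] (Z O : Finset ((I × L) ⊕ (L × J))) (E : Finset (I × J)) :
    Set (MvPolynomial ((I × L) ⊕ (L × J)) R) :=
  {g | (∃ e ∈ Z, X e = g) ∨ (∃ e ∈ O, X e - 1 = g) ∨ ∃ e ∈ E, pr R e = g}

omit [Fintype I] [Fintype J] [DecidableEq I] [DecidableEq L] [DecidableEq J] in
lemma pt_S3 {Z O : Finset ((I × L) ⊕ (L × J))} {E : Finset (I × J)} {C : Type} [CommRing C]
    [Algebra R C] (y : (I × L) ⊕ (L × J) → C) :
    Pt (S3 R Z O E) 1 y ↔ (∀ e ∈ Z, y e = 0) ∧ (∀ e ∈ O, y e = 1) ∧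
      ∀ e ∈ E, ∑ l, y (Sum.inl (e.1, l)) * y (Sum.inr (l, e.2)) = 0 := by
  have h0 : ∀ e : I × J, aeval y (pr R e) = ∑ l, y (Sum.inl (e.1, l)) * y (Sum.inr (l, e.2)) := by
    intro e
    rw [aeval_pr, Matrix.mul_apply]
    rfl
  rw [Pt, map_one]
  constructor
  · rintro ⟨h, _⟩
    refine ⟨fun e he => ?_, fun e he => ?_, fun e he => ?_⟩
    · have := h _ (Or.inl ⟨e, he, rfl⟩)
      rwa [aeval_X] at this
    · have := h _ (Or.inr (Or.inl ⟨e, he, rfl⟩))
      rwa [map_sub, map_one, aeval_X, sub_eq_zero] at this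
    · have := h _ (Or.inr (Or.inr ⟨e, he, rfl⟩))
      rwa [h0] at this
  · rintro ⟨h1, h2, h3⟩
    refine ⟨?_, isUnit_one⟩
    rintro _ (⟨e, he, rfl⟩ | ⟨e, he, rfl⟩ | ⟨e, he, rfl⟩)
    · rw [aeval_X]
      exact h1 e he
    · rw [map_sub, map_one, aeval_X, sub_eq_zero]
      exact h2 e he
    · rw [h0]
      exact h3 e he

variable (hP : Bnd sep P)

include hP

/-- Without ones. -/
theorem noOnes
    (h : ∀ (ι : Type) [Fintype ι] [DecidableEq ι] (Z : Finset (ι × ι)),
      PP P (rel R Z ∅) (gm R ι).det)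
    (Z : Finset ((I × L) ⊕ (L × J))) (E : Finset (I × J)) : PP P (S3 R Z ∅ E) 1 := by
  let Zy : Finset (I × L) := Finset.univ.filter fun e => Sum.inl e ∈ Z
  let Zx : Finset (L × J) := Finset.univ.filter fun e => Sum.inr e ∈ Z
  let D : Set (MvPolynomial ((I × L) ⊕ (L × J)) R) := {g | g = 0 ∨ ∃ e : I × J, g = - pr R e}
  have h1 : ∀ L' : List (MvPolynomial ((I × L) ⊕ (L × J)) R), (∀ f ∈ L', f ∈ D) →
      PP P (S0 R Zy Zx) (1 * L'.prod) := by
    refine of_diag hP D (Or.inl rfl) ?_
    intro κ _ _ d hd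
    have h2 : ∃ χ : κ → Option (I × J), d = dd R χ := by
      have h3 : ∀ a, ∃ o : Option (I × J), d a = o.elim 0 fun e => - pr R e := by
        intro a
        rcases hd a with ha | ⟨e, he⟩
        · exact ⟨none, ha⟩
        · exact ⟨some e, he⟩
      choose χ hχ using h3
      exact ⟨χ, funext hχ⟩
    obtain ⟨χ, rfl⟩ := h2
    exact base hP χ Zy Zx fun Z => h _ Z
  have h2 := closed_of_list hP D h1 (E.toList.map fun e => - pr R e) (by
    intro f hf
    obtain ⟨e, _, rfl⟩ := List.mem_map.mp hf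
    exact Or.inr ⟨e, rfl⟩)
  refine pp_same hP ?_ h2
  intro C _ _ y
  have h3 : Pt (S0 R Zy Zx ∪ {g | g ∈ E.toList.map fun e => - pr R e}) 1 y ↔
      Pt (S0 R Zy Zx) 1 y ∧ ∀ e ∈ E, aeval y (- pr R e : MvPolynomial ((I × L) ⊕ (L × J)) R) = 0 := by
    rw [Pt, Pt]
    constructor
    · rintro ⟨h3, h4⟩
      refine ⟨⟨fun g hg => h3 g (Or.inl hg), h4⟩, fun e he => h3 _ (Or.inr ?_)⟩
      exact List.mem_map.mpr ⟨e, Finset.mem_toList.mpr he, rfl⟩
    · rintro ⟨⟨h3, h4⟩, h5⟩
      refine ⟨?_, h4⟩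
      rintro g (hg | hg)
      · exact h3 g hg
      · obtain ⟨e, he, rfl⟩ := List.mem_map.mp hg
        exact h5 e (Finset.mem_toList.mp he)
  rw [h3, pt_S0, pt_S3]
  constructor
  · rintro ⟨⟨h4, h5⟩, h6⟩
    refine ⟨?_, ?_, ?_⟩
    · rintro (e | e) he
      · exact h4 e (Finset.mem_filter.mpr ⟨Finset.mem_univ _, he⟩)
      · exact h5 e (Finset.mem_filter.mpr ⟨Finset.mem_univ _, he⟩)
    · intro e he
      exact absurd he (Finset.notMem_empty e)
    · intro e he
      have h7 := h6 e he
      rw [map_neg, neg_eq_zero, aeval_pr, Matrix.mul_apply] at h7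
      exact h7
  · rintro ⟨h4, _, h6⟩
    refine ⟨⟨fun e he => h4 _ (Finset.mem_filter.mp he).2,
      fun e he => h4 _ (Finset.mem_filter.mp he).2⟩, fun e he => ?_⟩
    rw [map_neg, neg_eq_zero, aeval_pr, Matrix.mul_apply]
    exact h6 e he

omit [Fintype I] [Fintype J] in
lemma norm_step [Finite I] [Finite J] {O : Finset ((I × L) ⊕ (L × J))} {E : Finset (I × J)}
    (c : (I × L) ⊕ (L × J)) (a : I → ℤ) (b : L → ℤ) (d : J → ℤ)
    (hc : Sum.elim (fun e : I × L => a e.1 - b e.2) (fun e : L × J => b e.1 - d e.2) c = 1)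
    (hO : ∀ e ∈ O, Sum.elim (fun e : I × L => a e.1 - b e.2) (fun e : L × J => b e.1 - d e.2) e = 0)
    (h : ∀ Z, PP P (S3 R Z O E) 1) (Z : Finset ((I × L) ⊕ (L × J))) :
    PP P (S3 R Z (insert c O) E) 1 := by
  have h3 : PP P (insert (X c) (S3 R Z O E)) 1 := by
    refine pp_same hP ?_ (h (insert c Z))
    intro C _ _ v
    rw [pt_insert, pt_S3, pt_S3, aeval_X, Finset.forall_mem_insert]
    tauto
  have h4 := pp_tor hP
    (Sum.elim (fun e : I × L => a e.1 - b e.2) (fun e : L × J => b e.1 - d e.2)) c hc ?_ (h Z) h3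
  · refine pp_same hP ?_ h4
    intro C _ _ v
    rw [pt_insert, pt_S3, pt_S3, map_sub, aeval_X, map_one, sub_eq_zero,
      Finset.forall_mem_insert]
    tauto
  · intro C _ _ u v hv
    rw [pt_S3] at hv ⊢
    obtain ⟨h5, h6, h7⟩ := hv
    refine ⟨fun e he => ?_, fun e he => ?_, fun e he => ?_⟩
    · rw [h5 e he, mul_zero]
    · rw [h6 e he, hO e he, zpow_zero, Units.val_one, one_mul]
    · have h8 : ∑ l, ((u ^ (a e.1 - b l) : Cˣ) : C) * v (Sum.inl (e.1, l)) *
          (((u ^ (b l - d e.2) : Cˣ) : C) * v (Sum.inr (l, e.2))) =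
          ((u ^ (a e.1 - d e.2) : Cˣ) : C) *
            ∑ l, v (Sum.inl (e.1, l)) * v (Sum.inr (l, e.2)) := by
        rw [Finset.mul_sum]
        refine Finset.sum_congr rfl fun l _ => ?_
        have h9 : ((u ^ (a e.1 - d e.2) : Cˣ) : C) =
            ((u ^ (a e.1 - b l) : Cˣ) : C) * ((u ^ (b l - d e.2) : Cˣ) : C) := by
          rw [← Units.val_mul, ← zpow_add]
          congr 2
          ring
        rw [h9]
        ring
      exact h8.trans (by rw [h7 e he, mul_zero])

/-- With ones in a row, and a one in each other row of the first matrix and in each column of the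
second matrix. -/
theorem ones (h : ∀ (ι : Type) [Fintype ι] [DecidableEq ι] (Z : Finset (ι × ι)),
      PP P (rel R Z ∅) (gm R ι).det) (i0 : I) (T1 : Finset L) (T2 : Finset I) (c : I → L)
      (hT2 : i0 ∉ T2) (T3 : Finset J) (d : J → L)
      (Z : Finset ((I × L) ⊕ (L × J))) (E : Finset (I × J)) :
    PP P (S3 R Z ((T3.image fun j => Sum.inr (d j, j)) ∪
      ((T2.image fun i => Sum.inl (i, c i)) ∪ T1.image fun l => Sum.inl (i0, l))) E) 1 := by
  revert Z
  induction T3 using Finset.induction_on with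
  | insert j T3 hj ih =>
    rw [Finset.image_insert, Finset.insert_union]
    refine norm_step hP (Sum.inr (d j, j)) 0 0 (Pi.single j (-1)) ?_ ?_ ih
    · simp
    · intro e he
      rcases Finset.mem_union.mp he with he | he
      · obtain ⟨j', hj', rfl⟩ := Finset.mem_image.mp he
        have h1 : j' ≠ j := fun h => hj (h ▸ hj')
        simp [h1]
      · rcases Finset.mem_union.mp he with he | he
        · obtain ⟨i, _, rfl⟩ := Finset.mem_image.mp he
          simp
        · obtain ⟨l, _, rfl⟩ := Finset.mem_image.mp he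
          simp
  | empty =>
    rw [Finset.image_empty, Finset.empty_union]
    induction T2 using Finset.induction_on with
    | insert i T2 hi ih =>
      rw [Finset.image_insert, Finset.insert_union]
      have hT : i0 ∉ T2 := fun h => hT2 (Finset.mem_insert_of_mem h)
      have hi0 : i0 ≠ i := fun h => hT2 (h ▸ Finset.mem_insert_self _ _)
      refine norm_step hP (Sum.inl (i, c i)) (Pi.single i 1) 0 0 ?_ ?_ (ih hT)
      · simp
      · intro e he
        rcases Finset.mem_union.mp he with he | he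
        · obtain ⟨i', hi', rfl⟩ := Finset.mem_image.mp he
          have h1 : i' ≠ i := fun h => hi (h ▸ hi')
          simp [h1]
        · obtain ⟨l, _, rfl⟩ := Finset.mem_image.mp he
          simp [hi0]
    | empty =>
      rw [Finset.image_empty, Finset.empty_union]
      induction T1 using Finset.induction_on with
      | insert l T1 hl ih =>
        rw [Finset.image_insert]
        refine norm_step hP (Sum.inl (i0, l)) 0 (Pi.single l (-1)) 0 ?_ ?_ ih
        · simp
        · intro e he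
          obtain ⟨l', hl', rfl⟩ := Finset.mem_image.mp he
          have h1 : l' ≠ l := fun h => hl (h ▸ hl')
          simp [h1]
      | empty =>
        intro Z
        rw [Finset.image_empty]
        exact noOnes hP h Z E

end Pool.Agent.H839.PZ
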