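import Pool.Agent.H839.PZ.Net2
import Pool.Graph.R_pool_sql_team_seeded_2aa45f1a.Q193.LT.Cyc
import Pool.Graph.R_pool_sql_team_seeded_2aa45f1a.Q193.LT.Origin

/-!
# Networks: finite lists, weight complexes and abelian categories
-/

set_option autoImplicit false

open CategoryTheory CategoryTheory.Limits AlgebraicGeometry Pool.Agent.Y116.UV Pool.Agent.Z125.UN
  Pool.Agent.Q193.LT

universe w w' v u

namespace Pool.Agent.H839.PZ

section

variable {R : Type} [CommRing R] {sep : Prop}

lemma Net.ft (g : Net R) : FT sep g.co := Nt.ft_nco g.G g.c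

lemma net_iff' {P : Sch R → Prop} [IsNoetherianRing R] (hP : Bnd sep P) :
    (∀ X : Sch R, FT sep X → P X) ↔ ∀ g : Net R, P g.co := by
  rw [net_iff hP]
  exact ⟨fun h g => h g.m g.G g.c g.deg, fun h m G c hG => h ⟨m, G, c, hG⟩⟩

variable (R) in
/-- the network with one vertex -/
def net0 : Net R := ⟨0, ⊥, fun _ => 0, fun p => by
  have h : nb (⊥ : SimpleGraph (Option (Fin 0))) (fun _ => (0 : R)) p = ∅ := by
    ext q
    simp [nb]
  rw [h, Set.ncard_empty]
  omega⟩

/-- The point is the complement of the network with one vertex. -/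
lemma net0_iso : Nonempty ((net0 R).co ≅ aff R R) := by
  have he : IsEmpty (⊥ : SimpleGraph (Option (Fin 0))).edgeSet := by
    rw [SimpleGraph.edgeSet_bot]
    infer_instance
  have hdet : kirchN R (⊥ : SimpleGraph (Option (Fin 0))) (fun _ => (0 : R)) = 1 :=
    Matrix.det_isEmpty
  have e1 : Localization.Away (kirchN R (⊥ : SimpleGraph (Option (Fin 0))) (fun _ => (0 : R)))
      ≃ₐ[R] R := by
    have e2 : MvPolynomial (⊥ : SimpleGraph (Option (Fin 0))).edgeSet R ≃ₐ[R] R :=
      MvPolynomial.isEmptyAlgEquiv R _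
    have e3 := IsLocalization.atUnit (MvPolynomial (⊥ : SimpleGraph (Option (Fin 0))).edgeSet R)
      (Localization.Away (kirchN R (⊥ : SimpleGraph (Option (Fin 0))) (fun _ => (0 : R))))
      (kirchN R (⊥ : SimpleGraph (Option (Fin 0))) (fun _ => (0 : R)))
      (by rw [hdet]; exact isUnit_one)
    exact (e3.symm.restrictScalars R).trans e2
  exact ⟨(affIso e1).symm⟩

/-- Every property with the closure properties `Bnd` which is true for the complements of some finite
list of networks is true for `X`. -/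
def ReachedN (sep : Prop) (X : Sch R) : Prop :=
  ∃ L : List (Net R), ∀ Q : Sch R → Prop, Bnd sep Q → (∀ g ∈ L, Q g.co) → Q X

theorem bnd_reachedN : Bnd sep (ReachedN sep : Sch R → Prop) := by
  have two : ∀ {X Y Z : Sch R}, (∀ Q : Sch R → Prop, Bnd sep Q → Q X → Q Y → Q Z) →
      ReachedN sep X → ReachedN sep Y → ReachedN sep Z := by
    rintro X Y Z h ⟨L, h1⟩ ⟨L', h2⟩
    refine ⟨L ++ L', fun Q hQ h3 => ?_⟩
    exact h Q hQ (h1 Q hQ fun t ht => h3 t (List.mem_append_left _ ht))
      (h2 Q hQ fun t ht => h3 t (List.mem_append_right _ ht))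
  have one : ∀ {X Y : Sch R}, (∀ Q : Sch R → Prop, Bnd sep Q → Q X → Q Y) →
      ReachedN sep X → ReachedN sep Y := by
    rintro X Y h ⟨L, h1⟩
    exact ⟨L, fun Q hQ h3 => h Q hQ (h1 Q hQ h3)⟩
  exact
  { iso := fun hX e => one fun Q hQ => hQ.iso hX e
    total := fun i j hX ht => two fun Q hQ => hQ.total i j hX ht
    opened := fun i j hX ht => two fun Q hQ => hQ.opened i j hX ht
    closed := fun i j hX ht => two fun Q hQ => hQ.closed i j hX ht
    space := fun n => ⟨[], fun Q hQ _ => hQ.space n⟩
    jouanolou := fun B _ _ _ l f U j hj hr h =>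
      one (X := aff R (Jou f)) (Y := U) (fun Q hQ h1 => hQ.jouanolou B l f U j hj hr h1) h
    torus := fun B _ _ _ h => one (X := aff R (LaurentPolynomial B)) (Y := aff R B)
      (fun Q hQ h1 => hQ.torus B h1) h
    bundle := fun B _ _ _ l f U j hj hr h =>
      one (X := U) (Y := aff R (Jou f)) (fun Q hQ h1 => hQ.bundle B l f U j hj hr h1) h }

/-- **Finitely many networks.** For each scheme of finite type there are finitely many networks such
that each property with the closure properties `Bnd` which is true for their complements is true for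
the scheme. -/
theorem reachedN [IsNoetherianRing R] (X : Sch R) (hX : FT sep X) : ReachedN sep X := by
  refine (net_iff' bnd_reachedN).mpr (fun g => ?_) X hX
  exact ⟨[g], fun Q _ h1 => h1 g (List.mem_singleton.mpr rfl)⟩

end

section pair

variable {k : Type} [Field k] {ι : Type} {E : Type w'} [CommRing E]
  {C : PairData.{w} k ι E} {δ τ σ : ι ≃ ι} (hg : WeightGen C) (hC : IsPair C δ τ σ)
  (h1 : BijAll C (aff k k))

include hg hC h1

/-- smooth projective schemes and networks -/
theorem wg_net [PerfectField k] : (∀ Y : Sch k, SmoothProj Y → BijAll C Y) ↔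
      ∀ g : Net k, BijAll C g.co := by
  constructor
  · intro h g
    exact (all_iff (bnd_pair hC h1)).mpr ((wg_all hg hC h1).mp h) _ g.ft
  · intro h Y hY
    exact (net_iff' (bnd_pair hC h1)).mpr h Y hY.ft

end pair

section serre

variable {k : Type} [Field k] {A : Type u} [Category.{v} A] [Abelian A]
  {D : CompactData k A} {S : A → Prop}

/-- schemes of finite type and networks -/
theorem ft_net (hD : IsCompact D) (hS : IsTateSerre D S)
    (h1 : ∀ i, S (D.H i (aff k k))) :
    (∀ X : Sch k, FT True X → ∀ i, S (D.H i X)) ↔ ∀ (g : Net k) (i : ℤ), S (D.H i g.co) :=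
  net_iff' (bnd_compact hD hS h1)

/-- smooth projective schemes and networks -/
theorem proj_net [PerfectField k] (hD : IsCompact D) (hg : Generated D)
    (hS : IsTateSerre D S) (h1 : ∀ i, S (D.H i (aff k k))) :
    (∀ Y : Sch k, SmoothProj Y → ∀ i, S (D.H i Y)) ↔
      ∀ (g : Net k) (i : ℤ), S (D.H i g.co) := by
  constructor
  · intro h g
    exact (all_iff (bnd_compact hD hS h1)).mpr ((proj_all_iff hD hg hS h1).mp h) _ g.ft
  · intro h Y hY
    exact (net_iff' (bnd_compact hD hS h1)).mpr h Y hY.ft

variable (hD : IsCompact D) (ρ : A) [Simple ρ]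

include hD

/-- **Every simple object that occurs in the cohomology of some scheme occurs in the cohomology of the
complement of some network.** -/
theorem origin_net : (∃ X : Sch k, FT True X ∧ ∃ i, Occurs D ρ (D.H i X)) ↔
    ∃ (g : Net k) (i : ℤ), Occurs D ρ (D.H i g.co) := by
  constructor
  · rintro ⟨X, hX, i, h⟩
    by_contra h0
    have h3 : ∀ n, ¬ Occurs D ρ (D.H n (aff k k)) := by
      intro n hn
      obtain ⟨a, ha⟩ := hn
      obtain ⟨e0⟩ := net0_iso (R := k)
      obtain ⟨e⟩ := hD.iso (ft_aff True) ⟨e0.symm⟩ n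
      have := hD.twAdditive a
      exact h0 ⟨net0 k, n, a, ha.of_iso ((D.tw a).mapIso e)⟩
    exact (ft_net hD (not_occurs_serre hD ρ) h3).mpr
      (fun g n hn => h0 ⟨g, n, hn⟩) X hX i h
  · rintro ⟨g, i, h⟩
    exact ⟨_, g.ft, i, h⟩

/-- The same for smooth projective schemes. -/
theorem origin_proj_net [PerfectField k] (hg : Generated D) :
    (∃ Y : Sch k, SmoothProj Y ∧ ∃ i, Occurs D ρ (D.H i Y)) ↔
    ∃ (g : Net k) (i : ℤ), Occurs D ρ (D.H i g.co) := by
  rw [← origin_net hD ρ, origin_all hD ρ, origin_proj_all hD ρ hg]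

end serre

end Pool.Agent.H839.PZ
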