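import Pool.Agent.H839.PZ.Use
import Pool.Agent.H839.PZ.Use2
import Pool.Graph.R_pool_sql_team_seeded_2aa45f1a.Q68.OV.Line
import Pool.Graph.R_pool_sql_team_seeded_2aa45f1a.Q68.OV.Reg

/-!
# One smooth projective scheme and finitely many graph hypersurfaces
-/

set_option autoImplicit false

open CategoryTheory CategoryTheory.Limits AlgebraicGeometry Pool.Agent.Y116.UV Pool.Agent.Z125.UN
  Pool.Agent.Q193.LT Pool.Agent.Q49.WU Pool.Agent.Q68.OV

universe w w' u

namespace Pool.Agent.H839.PZ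

/-- all schemes from the smooth projective ones -/
lemma all_of_sp {F : Type} [Field F] [PerfectField F] {ι : Type} {E : Type w'} [CommRing E]
    {C : PairData.{w} F ι E} {δ τ σ : ι ≃ ι} (hg : WeightGen C) (hC : IsPair C δ τ σ)
    (h1 : BijAll C (aff F F)) (h : ∀ Y : Sch F, SmoothProj Y → BijAll C Y) (X : Sch F)
    (hX : FT True X) : BijAll C X :=
  (all_iff (bnd_pair hC h1)).mpr ((wg_all hg hC h1).mp h) X hX

/-- the lists of a scheme -/
lemma lists {F : Type} [Field F] (S : Sch F) (hS : FT True S) : ∃ (N : List (Net F)) (G : List Gph),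
    (∀ Q : Sch F → Prop, Bnd True Q → (∀ g ∈ N, Q g.co) → Q S) ∧
    (Frac F → ∀ Q : Sch F → Prop, Bnd True Q → (∀ g ∈ G, Q (g.co F)) → Q S) := by
  obtain ⟨N, hN⟩ := reachedN S hS
  by_cases hF : Frac F
  · obtain ⟨G, hG⟩ := reachedK hF S hS
    exact ⟨N, G, hN, fun _ => hG⟩
  · exact ⟨N, [], hN, fun h => absurd h hF⟩

/-- **The classes of one smooth projective scheme, finitely many networks and graphs.** -/
theorem reach_kirch {F : Type} [Field F] [PerfectField F] {S : Sch F} (hS : SmoothProj S) (m0 : ℤ) :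
    ∃ (N : List (Net F)) (G : List Gph),
      ∀ (E : Type w') [CommRing E] (D : Reach.{w, w', u} F E S m0)
        (C : PairData.{w} F (ℤ × ℤ) E), IsReach D →
        IsWeightPair C → WeightGen C →
        (∀ Y, SmoothProj Y → ∀ m, (BijAt C Prod.fst m Y ↔ Closed D m Y)) →
        BijAll C (aff F F) →
        (Holds D ↔ ∀ g ∈ N, BijAll C g.co) ∧
        (Frac F → (Holds D ↔ ∀ g ∈ G, BijAll C (g.co F))) ∧
        (Holds D → (∀ g : Net F, BijAll C g.co) ∧ ∀ g : Gph, BijAll C (g.co F)) := by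
  obtain ⟨N, G, hN, hG⟩ := lists S hS.ft
  refine ⟨N, G, fun E _ D C hD hC hg bij point => ?_⟩
  have hall' : ∀ X : Sch F, BijAll C X ↔ ∀ m, BijAt C Prod.fst m X :=
    fun X => ⟨fun h _ j _ => h j, fun h j => h j.1 j rfl⟩
  have hst : Holds D → ∀ Y, SmoothProj Y → BijAll C Y := fun h Y hY =>
    (hall' Y).mpr fun m => (bij Y hY m).mpr fun c x hx => hD.act_mem m Y hY c x (h x hx)
  have hback : BijAll C S → Holds D := by
    intro h x hx
    have h1 := (bij S hS m0).mp ((hall' S).mp h m0) D.one x hx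
    rwa [hD.act_one] at h1
  have hall : Holds D → ∀ X : Sch F, FT True X → BijAll C X := fun h =>
    all_of_sp hg hC point (hst h)
  exact ⟨⟨fun h g _ => hall h _ g.ft, fun h => hback (hN _ (bnd_pair hC point) h)⟩,
    fun hF => ⟨fun h g _ => hall h _ g.ft, fun h => hback (hG hF _ (bnd_pair hC point) h)⟩,
    fun h => ⟨fun g => hall h _ g.ft, fun g => hall h _ g.ft⟩⟩

/-- **Periods of one smooth projective scheme.** -/
theorem line_kirch {F : Type} [Field F] [PerfectField F] {S : Sch F} (hS : SmoothProj S) (m0 : ℤ) :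
    ∃ (N : List (Net F)) (G : List Gph),
      ∀ (D : LineData.{w, u} F S m0) (C : PairData.{w} F (ℤ × ℤ) ℚ), IsLine D → IsWeightPair C →
        WeightGen C → (∀ Y, SmoothProj Y → ∀ m, (BijAt C Prod.fst m Y ↔ LineStable D m Y)) →
        BijAll C (aff F F) →
        (PeriodStatement D ↔ ∀ g ∈ N, BijAll C g.co) ∧
        (Frac F → (PeriodStatement D ↔ ∀ g ∈ G, BijAll C (g.co F))) ∧
        (PeriodStatement D → (∀ g : Net F, BijAll C g.co) ∧ ∀ g : Gph, BijAll C (g.co F)) := by
  obtain ⟨N, G, h⟩ := reach_kirch.{w, 0, u} hS m0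
  refine ⟨N, G, fun D C hD hC hg bij point => ?_⟩
  have h1 := h ℚ (lineReach D) C (line_isReach hD) hC hg
    (fun Y hY m => (bij Y hY m).trans (line_closed_iff m Y).symm) point
  simpa only [line_holds_iff hD] using h1

/-- **The regulator of one smooth projective scheme.** -/
theorem reg_kirch {F : Type} [Field F] [PerfectField F] {S : Sch F} (hS : SmoothProj S) (m0 : ℤ) :
    ∃ (N : List (Net F)) (G : List Gph),
      ∀ (E : Type w') [CommRing E] (D : RegData.{w, w', u} F E S m0)
        (C : PairData.{w} F (ℤ × ℤ) E), IsReg D → IsWeightPair C → WeightGen C →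
        (∀ Y, SmoothProj Y → ∀ m, (BijAt C Prod.fst m Y ↔ RegStable D m Y)) →
        BijAll C (aff F F) →
        (Iso D ↔ ∀ g ∈ N, BijAll C g.co) ∧
        (Frac F → (Iso D ↔ ∀ g ∈ G, BijAll C (g.co F))) ∧
        (Iso D → (∀ g : Net F, BijAll C g.co) ∧ ∀ g : Gph, BijAll C (g.co F)) := by
  obtain ⟨N, G, h⟩ := reach_kirch.{w, w', u} hS m0
  refine ⟨N, G, fun E _ D C hD hC hg bij point => ?_⟩
  have h1 := h E (toReach D) C (isReach hD) hC hg
    (fun Y hY m => (bij Y hY m).trans (closed_iff m Y).symm) point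
  simpa only [holds_iff] using h1

/-- dimension zero implies the point -/
lemma point_of_zero {F : Type} [Field F] {ι : Type} {E : Type w'} [CommRing E]
    {C : PairData.{w} F ι E} (hg : WeightGen C)
    (zero : ∀ Y : Sch F, SmoothProj Y → topologicalKrullDim Y.left ≤ (0 : ℕ) → BijAll C Y) :
    BijAll C (aff F F) := by
  refine hg 0 zero (aff F F) (ft_aff True) ?_
  rw [topDim_aff, ringKrullDim_eq_zero_of_field]
  exact_mod_cast le_rfl

end Pool.Agent.H839.PZ
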