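import Pool.Agent.H839.PZ.Pts
import Pool.Graph.R_seed8.Z125.UN.Lin

/-!
# Closed-open decompositions, affine bundles and the torus in terms of points
-/

set_option autoImplicit false

open CategoryTheory AlgebraicGeometry MvPolynomial

namespace Pool.Agent.H839.PZ

open Pool.Agent.Y116.UV Pool.Agent.Z125.UN

variable {R : Type} [CommRing R] {sep : Prop} {P : Sch R → Prop}

lemma rep_pc {σ κ : Type} (G : κ → MvPolynomial σ R) (w : MvPolynomial σ R) :
    Rep (Set.range G) w (Pc G w) (pv G w) where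
  pt := by
    refine ⟨?_, ?_⟩
    · rintro _ ⟨k, rfl⟩
      rw [pc_aeval]
      exact pc_rel G w k
    · rw [pc_aeval]
      exact pc_unit G w
  ex _ _ _ v h := ⟨pcLift G w v (fun k => h.1 _ ⟨k, rfl⟩) h.2, fun s => pcLift_pv _ _ _ _ _ s⟩
  ext _ _ _ _ _ h := pc_ext h

/-- polynomials over an algebra -/
lemma rep_poly {σ : Type} {S : Set (MvPolynomial σ R)} {w : MvPolynomial σ R} {A : Type}
    [CommRing A] [Algebra R A] {x : σ → A} (hA : Rep S w A x) (τ : Type) :
    Rep (rename Sum.inl '' S : Set (MvPolynomial (σ ⊕ τ) R)) (rename Sum.inl w)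
      (MvPolynomial τ A) (Sum.elim (fun s => C (x s)) X) where
  pt := by
    have h := pt_map (IsScalarTower.toAlgHom R A (MvPolynomial τ A)) hA.pt
    refine ⟨?_, ?_⟩
    · rintro _ ⟨g, hg, rfl⟩
      rw [aeval_rename]
      exact h.1 g hg
    · rw [aeval_rename]
      exact h.2
  ex D _ _ v h := by
    have h1 : Pt S w (fun s => v (Sum.inl s)) := by
      refine ⟨fun g hg => ?_, ?_⟩
      · have := h.1 (rename Sum.inl g) ⟨g, hg, rfl⟩
        rwa [aeval_rename] at this
      · have := h.2
        rwa [aeval_rename] at this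
    obtain ⟨f, hf⟩ := hA.ex D _ h1
    refine ⟨aevalTower f fun t => v (Sum.inr t), ?_⟩
    rintro (s | t)
    · exact (aevalTower_C _ _ _).trans (hf s)
    · exact aevalTower_X _ _ _
  ext D _ _ f g h := by
    apply MvPolynomial.algHom_ext'
    · apply hA.ext D
      intro s
      exact h (Sum.inl s)
    · intro t
      exact h (Sum.inr t)

section jou

variable {σ τ : Type} [Fintype τ]

/-- the equations of the affine bundle -/
def JS (S : Set (MvPolynomial σ R)) (F : τ → MvPolynomial σ R) : Set (MvPolynomial (σ ⊕ τ) R) :=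
  (rename Sum.inl '' S) ∪ {∑ t, rename Sum.inl (F t) * X (Sum.inr t) - 1}

lemma pt_js {S : Set (MvPolynomial σ R)} {w : MvPolynomial σ R} {F : τ → MvPolynomial σ R}
    {D : Type} [CommRing D] [Algebra R D] (v : σ ⊕ τ → D) : Pt (JS S F) (rename Sum.inl w) v ↔
      Pt S w (fun s => v (Sum.inl s)) ∧
        ∑ t, aeval (fun s => v (Sum.inl s)) (F t) * v (Sum.inr t) = 1 := by
  have h1 : ∀ p : MvPolynomial σ R, aeval v (rename Sum.inl p) =
      aeval (fun s => v (Sum.inl s)) p := fun p => aeval_rename _ _ _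
  constructor
  · rintro ⟨h2, h3⟩
    refine ⟨⟨fun g hg => ?_, ?_⟩, ?_⟩
    · rw [← h1]
      exact h2 _ (Or.inl ⟨g, hg, rfl⟩)
    · rw [← h1]
      exact h3
    · have h4 := h2 _ (Or.inr rfl)
      rw [map_sub, map_one, map_sum, sub_eq_zero] at h4
      rw [← h4]
      refine Finset.sum_congr rfl fun t _ => ?_
      rw [map_mul, h1, aeval_X]
  · rintro ⟨⟨h2, h3⟩, h4⟩
    refine ⟨?_, ?_⟩
    · rintro _ (⟨g, hg, rfl⟩ | h5)
      · rw [h1]
        exact h2 g hg
      · rw [Set.mem_singleton_iff.mp h5, map_sub, map_one, map_sum, sub_eq_zero, ← h4]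
        refine Finset.sum_congr rfl fun t _ => ?_
        rw [map_mul, h1, aeval_X]
    · rw [h1]
      exact h3

lemma rep_jou {S : Set (MvPolynomial σ R)} {w : MvPolynomial σ R} {A : Type}
    [CommRing A] [Algebra R A] {x : σ → A} (hA : Rep S w A x) (F : τ → MvPolynomial σ R) {m : ℕ}
    (e : Fin m ≃ τ) : Rep (JS S F) (rename Sum.inl w) (Jou fun l => aeval x (F (e l)))
      (Sum.elim (fun s => algebraMap A _ (x s)) fun t => Ideal.Quotient.mk _ (X (e.symm t))) where
  pt := by
    have h := pt_map (IsScalarTower.toAlgHom R A (Jou fun l => aeval x (F (e l)))) hA.pt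
    rw [pt_js]
    refine ⟨h, ?_⟩
    have h1 : ∀ p : MvPolynomial σ R,
        aeval (fun s => algebraMap A (Jou fun l => aeval x (F (e l))) (x s)) p =
        algebraMap A (Jou fun l => aeval x (F (e l))) (aeval x p) := by
      intro p
      have := MvPolynomial.comp_aeval (R := R) x
        (IsScalarTower.toAlgHom R A (Jou fun l => aeval x (F (e l))))
      exact (congrArg (fun k : MvPolynomial σ R →ₐ[R] _ => k p) this).symm
    change ∑ t, aeval (fun s => algebraMap A (Jou fun l => aeval x (F (e l))) (x s)) (F t) *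
      Ideal.Quotient.mk _ (X (e.symm t)) = 1
    rw [← e.sum_comp]
    have h2 : (∑ l, C (aeval x (F (e l))) * X l - 1 : MvPolynomial (Fin m) A) ∈
        Ideal.span {∑ l, C (aeval x (F (e l))) * X l - 1} := Ideal.mem_span_singleton_self _
    have h3 := Ideal.Quotient.eq_zero_iff_mem.mpr h2
    rw [map_sub, map_one, sub_eq_zero, map_sum] at h3
    rw [← h3]
    refine Finset.sum_congr rfl fun l _ => ?_
    rw [h1, Equiv.symm_apply_apply, map_mul]
    rfl
  ex D _ _ v h := by
    rw [pt_js] at h
    obtain ⟨h1, h2⟩ := h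
    obtain ⟨f, hf⟩ := hA.ex D _ h1
    have h3 : ∀ p : MvPolynomial σ R, f (aeval x p) = aeval (fun s => v (Sum.inl s)) p := by
      intro p
      have h4 : (fun s => v (Sum.inl s)) = fun s => f (x s) := funext fun s => (hf s).symm
      have := MvPolynomial.comp_aeval (R := R) x f
      rw [h4]
      exact congrArg (fun k : MvPolynomial σ R →ₐ[R] _ => k p) this
    refine ⟨Ideal.Quotient.liftₐ _ (aevalTower f fun l => v (Sum.inr (e l))) ?_, ?_⟩
    · intro a ha
      have h4 : Ideal.span {∑ l, C (aeval x (F (e l))) * X l - 1} ≤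
          RingHom.ker (aevalTower f fun l => v (Sum.inr (e l))) := by
        rw [Ideal.span_le, Set.singleton_subset_iff]
        change aevalTower f (fun l => v (Sum.inr (e l)))
          (∑ l, C (aeval x (F (e l))) * X l - 1) = 0
        rw [map_sub, map_one, map_sum, sub_eq_zero, ← h2, ← e.sum_comp]
        refine Finset.sum_congr rfl fun l _ => ?_
        rw [map_mul, aevalTower_C, aevalTower_X, h3]
      exact h4 ha
    · rintro (s | t)
      · change aevalTower f (fun l => v (Sum.inr (e l))) (C (x s)) = _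
        rw [aevalTower_C]
        exact hf s
      · change aevalTower f (fun l => v (Sum.inr (e l))) (X (e.symm t)) = _
        rw [aevalTower_X, Equiv.apply_symm_apply]
  ext D _ _ f g h := by
    apply Ideal.Quotient.algHom_ext
    apply MvPolynomial.algHom_ext'
    · apply hA.ext D
      intro s
      exact h (Sum.inl s)
    · intro l
      have := h (Sum.inr (e l))
      rw [Sum.elim_inr, Equiv.symm_apply_apply] at this
      exact this

end jou

section

variable (hP : Bnd sep P)

include hP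

lemma pp_pc {σ κ : Type} [Finite σ] {G : κ → MvPolynomial σ R} {w : MvPolynomial σ R} :
    P (aff R (Pc G w)) ↔ PP P (Set.range G) w :=
  ⟨pp_of_rep hP (rep_pc G w), pp_rep hP (rep_pc G w)⟩

variable {σ : Type} [Finite σ] {S : Set (MvPolynomial σ R)} {w : MvPolynomial σ R}

omit hP [Finite σ] in
lemma range_adj (e : MvPolynomial σ R) :
    Set.range (adj (fun g : S => (g : MvPolynomial σ R)) e) = insert e S := by
  ext g
  constructor
  · rintro ⟨_ | k, rfl⟩
    · exact Or.inl rfl
    · exact Or.inr k.2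
  · rintro (rfl | hg)
    · exact ⟨none, rfl⟩
    · exact ⟨some ⟨g, hg⟩, rfl⟩

lemma pp_total (e : MvPolynomial σ R) (h1 : PP P (insert e S) w) (h2 : PP P S (w * e)) :
    PP P S w := by
  refine pc_total hP (e := e) ?_ h2
  rw [pp_pc hP, range_adj]
  exact h1

lemma pp_closed (e : MvPolynomial σ R) (h1 : PP P S w) (h2 : PP P S (w * e)) :
    PP P (insert e S) w := by
  have := pc_closed hP (e := e) h1 h2
  rwa [pp_pc hP, range_adj] at this

lemma pp_open (e : MvPolynomial σ R) (h1 : PP P S w) (h2 : PP P (insert e S) w) :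
    PP P S (w * e) := by
  refine pc_open hP (e := e) h1 ?_
  rw [pp_pc hP, range_adj]
  exact h2

/-- free variables -/
lemma pp_free (τ : Type) [Fintype τ] (h : PP P S w) :
    PP P (rename Sum.inl '' S : Set (MvPolynomial (σ ⊕ τ) R)) (rename Sum.inl w) :=
  pp_of_rep hP (rep_poly (rep_fn S w) τ) (p_poly hP τ h)

omit hP [Finite σ] in
lemma range_id' {A : Type} [CommRing A] [Algebra R A] {m : ℕ} (f : Fin m → A)
    (hf : ∃ c : Fin m → A, ∑ l, c l * f l = 1) :
    Set.range (𝟙 (aff R A) : aff R A ⟶ aff R A).left =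
      {x : PrimeSpectrum A | ∃ l, f l ∉ x.asIdeal} := by
  have h1 : Set.range (𝟙 (aff R A) : aff R A ⟶ aff R A).left = Set.univ := Set.range_id
  have h2 : {x : PrimeSpectrum A | ∃ l, f l ∉ x.asIdeal} = Set.univ := by
    rw [Set.eq_univ_iff_forall]
    intro x
    by_contra h
    change ¬ ∃ l, f l ∉ x.asIdeal at h
    push Not at h
    obtain ⟨c, hc⟩ := hf
    apply x.isPrime.ne_top
    rw [Ideal.eq_top_iff_one, ← hc]
    exact Ideal.sum_mem _ fun l _ => Ideal.mul_mem_left _ _ (h l)
  exact h1.trans h2.symm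

omit hP in
lemma open_id (A : Type) [CommRing A] [Algebra R A] :
    IsOpenImmersion (𝟙 (aff R A) : aff R A ⟶ aff R A).left :=
  inferInstanceAs (IsOpenImmersion (𝟙 (aff R A).left))

/-- the affine bundle over the whole scheme -/
lemma pp_bundle {τ : Type} [Fintype τ] (F : τ → MvPolynomial σ R)
    (hF : ∀ (C : Type) [CommRing C] [Algebra R C] (v : σ → C), Pt S w v →
      ∃ c : τ → C, ∑ t, c t * aeval v (F t) = 1) (h : PP P S w) :
    PP P (JS S F) (rename Sum.inl w) := by
  let e := (Fintype.equivFin τ).symm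
  refine pp_of_rep hP (rep_jou (rep_fn S w) F e) ?_
  refine hP.bundle (Fn S w) _ _ (aff R (Fn S w)) (𝟙 _) (open_id _) (range_id' _ ?_) h
  obtain ⟨c, hc⟩ := hF _ _ (pt_gp S w)
  refine ⟨fun l => c (e l), ?_⟩
  rw [← hc, ← e.sum_comp]

lemma pp_unbundle {τ : Type} [Fintype τ] (F : τ → MvPolynomial σ R)
    (hF : ∀ (C : Type) [CommRing C] [Algebra R C] (v : σ → C), Pt S w v →
      ∃ c : τ → C, ∑ t, c t * aeval v (F t) = 1) (h : PP P (JS S F) (rename Sum.inl w)) :
    PP P S w := by
  let e := (Fintype.equivFin τ).symm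
  have h1 := pp_rep hP (rep_jou (rep_fn S w) F e) h
  refine hP.jouanolou (Fn S w) _ _ (aff R (Fn S w)) (𝟙 _) (open_id _) (range_id' _ ?_) h1
  obtain ⟨c, hc⟩ := hF _ _ (pt_gp S w)
  refine ⟨fun l => c (e l), ?_⟩
  rw [← hc, ← e.sum_comp]

omit hP [Finite σ] in
lemma rep_quot {τ : Type} {A : Type} [CommRing A] [Algebra R A] {x : σ → A} (hA : Rep S w A x)
    (F : τ → MvPolynomial σ R) {m : ℕ} (e : Fin m ≃ τ) :
    Rep (S ∪ Set.range F) w (A ⧸ Ideal.span (Set.range fun l => aeval x (F (e l))))
      (fun s => Ideal.Quotient.mk _ (x s)) where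
  pt := by
    have h1 : ∀ p : MvPolynomial σ R,
        aeval (fun s => Ideal.Quotient.mk (Ideal.span (Set.range fun l => aeval x (F (e l))))
          (x s)) p = Ideal.Quotient.mk _ (aeval x p) := by
      intro p
      have := MvPolynomial.comp_aeval (R := R) x
        (Ideal.Quotient.mkₐ R (Ideal.span (Set.range fun l => aeval x (F (e l)))))
      exact (congrArg (fun k : MvPolynomial σ R →ₐ[R] _ => k p) this).symm
    refine ⟨?_, ?_⟩
    · rintro g (hg | ⟨t, rfl⟩)
      · rw [h1, hA.pt.1 g hg, map_zero]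
      · rw [h1, Ideal.Quotient.eq_zero_iff_mem]
        refine Ideal.subset_span ⟨e.symm t, ?_⟩
        change aeval x (F (e (e.symm t))) = _
        rw [Equiv.apply_symm_apply]
    · rw [h1]
      exact hA.pt.2.map _
  ex D _ _ v h := by
    obtain ⟨f, hf⟩ := hA.ex D v ⟨fun g hg => h.1 g (Or.inl hg), h.2⟩
    have h3 : ∀ p : MvPolynomial σ R, f (aeval x p) = aeval v p := by
      intro p
      have h4 : v = fun s => f (x s) := funext fun s => (hf s).symm
      have := MvPolynomial.comp_aeval (R := R) x f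
      rw [h4]
      exact congrArg (fun k : MvPolynomial σ R →ₐ[R] _ => k p) this
    refine ⟨Ideal.Quotient.liftₐ _ f ?_, hf⟩
    intro a ha
    have h4 : Ideal.span (Set.range fun l => aeval x (F (e l))) ≤ RingHom.ker f := by
      rw [Ideal.span_le]
      rintro _ ⟨l, rfl⟩
      change f (aeval x (F (e l))) = 0
      rw [h3]
      exact h.1 _ (Or.inr ⟨_, rfl⟩)
    exact h4 ha
  ext D _ _ f g h := by
    apply Ideal.Quotient.algHom_ext
    exact hA.ext D _ _ h

/-- the closed part, from the affine bundle over the complement -/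
lemma pp_of_jou {τ : Type} [Fintype τ] (F : τ → MvPolynomial σ R) (h : PP P S w)
    (hJ : PP P (JS S F) (rename Sum.inl w)) : PP P (S ∪ Set.range F) w := by
  let e := (Fintype.equivFin τ).symm
  have h1 := pp_rep hP (rep_jou (rep_fn S w) F e) hJ
  exact pp_of_rep hP (rep_quot (rep_fn S w) F e) (of_jou hP.toUni _ h h1)

/-- the torus -/
lemma pp_torus (h : PP P (rename Sum.inl '' S : Set (MvPolynomial (σ ⊕ Unit) R))
    (rename Sum.inl w * X (Sum.inr ()))) : PP P S w := by
  refine pc_torus _ _ hP ?_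
  rw [pp_pc hP]
  have h1 : Set.range (rl (fun g : S => (g : MvPolynomial σ R)) Unit) =
      (rename Sum.inl '' S : Set (MvPolynomial (σ ⊕ Unit) R)) := by
    ext g
    constructor
    · rintro ⟨k, rfl⟩
      exact ⟨k, k.2, rfl⟩
    · rintro ⟨k, hk, rfl⟩
      exact ⟨⟨k, hk⟩, rfl⟩
  rw [h1]
  exact h

/-- dropping free variables -/
lemma pp_unfree (τ : Type) [Fintype τ]
    (h : PP P (rename Sum.inl '' S : Set (MvPolynomial (σ ⊕ τ) R)) (rename Sum.inl w)) :
    PP P S w := by
  refine pp_unbundle hP (τ := Option τ) (fun t => t.elim 1 fun _ => 0) ?_ ?_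
  · intro C _ _ v _
    refine ⟨fun t => t.elim 1 fun _ => 0, ?_⟩
    rw [Fintype.sum_option]
    simp
  · have hpt : ∀ {D : Type} [CommRing D] [Algebra R D] (v : σ ⊕ Option τ → D),
        Pt (JS S (fun t : Option τ => t.elim (1 : MvPolynomial σ R) fun _ => 0)) (rename Sum.inl w) v ↔
        Pt S w (fun s => v (Sum.inl s)) ∧ v (Sum.inr none) = 1 := by
      intro D _ _ v
      rw [pt_js, Fintype.sum_option]
      simp
    have hpt' : ∀ {D : Type} [CommRing D] [Algebra R D] (v : σ ⊕ τ → D),
        Pt (rename Sum.inl '' S : Set (MvPolynomial (σ ⊕ τ) R)) (rename Sum.inl w) v ↔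
        Pt S w (fun s => v (Sum.inl s)) := by
      intro D _ _ v
      have h1 : ∀ p : MvPolynomial σ R, aeval v (rename Sum.inl p) =
          aeval (fun s => v (Sum.inl s)) p := fun p => aeval_rename _ _ _
      constructor
      · rintro ⟨h2, h3⟩
        exact ⟨fun g hg => by rw [← h1]; exact h2 _ ⟨g, hg, rfl⟩, by rw [← h1]; exact h3⟩
      · rintro ⟨h2, h3⟩
        refine ⟨?_, by rw [h1]; exact h3⟩
        rintro _ ⟨g, hg, rfl⟩
        rw [h1]
        exact h2 g hg
    refine pp_iso hP
      ⟨fun D _ _ v => Sum.elim (fun s => v (Sum.inl s)) fun t => t.elim 1 fun t => v (Sum.inr t),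
        ?_, ?_⟩
      ⟨fun D _ _ v => Sum.elim (fun s => v (Sum.inl s)) fun t => v (Sum.inr (some t)), ?_, ?_⟩
      ?_ ?_ h
    · intro D _ _ v hv
      rw [hpt]
      exact ⟨(hpt' v).mp hv, rfl⟩
    · intro D E _ _ _ _ f v hv t
      rcases t with s | _ | t
      · rfl
      · exact (map_one f).symm
      · rfl
    · intro D _ _ v hv
      rw [hpt']
      exact ((hpt v).mp hv).1
    · intro D E _ _ _ _ f v hv t
      rcases t with s | t
      · rfl
      · rfl
    · intro D _ _ v hv s
      rcases s with s | s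
      · rfl
      · rfl
    · intro D _ _ v hv t
      rcases t with s | _ | t
      · rfl
      · exact ((hpt v).mp hv).2.symm
      · rfl

end

end Pool.Agent.H839.PZ
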