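import Pool.Agent.H839.PZ.Tor

/-!
# Invertible matrices in which some entries are zero and some entries are one
-/

set_option autoImplicit false

open CategoryTheory AlgebraicGeometry MvPolynomial

namespace Pool.Agent.H839.PZ

open Pool.Agent.Y116.UV Pool.Agent.Z125.UN

variable {R : Type} [CommRing R] {sep : Prop} {P : Sch R → Prop}

variable {ι : Type} [Fintype ι] [DecidableEq ι]

/-- the equations: zeros at the places `Z` and ones at the places `O` -/
def rel (R : Type) [CommRing R] (Z O : Finset (ι × ι)) : Set (MvPolynomial (ι × ι) R) :=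
  {g | (∃ e ∈ Z, X e = g) ∨ ∃ e ∈ O, X e - 1 = g}

/-- the generic matrix -/
noncomputable def gm (R : Type) [CommRing R] (ι : Type) : Matrix ι ι (MvPolynomial (ι × ι) R) :=
  Matrix.of fun i j => X (i, j)

lemma pt_rel {Z O : Finset (ι × ι)} {C : Type} [CommRing C] [Algebra R C] {v : ι × ι → C} :
    Pt (rel R Z O) (gm R ι).det v ↔ ((∀ e ∈ Z, v e = 0) ∧ ∀ e ∈ O, v e = 1) ∧
      IsUnit (Matrix.of fun i j => v (i, j)).det := by
  have h1 : aeval v (gm R ι).det = (Matrix.of fun i j => v (i, j)).det := by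
    rw [AlgHom.map_det]
    congr 1
    ext i j
    exact aeval_X _ _
  rw [Pt, h1]
  refine and_congr_left fun _ => ?_
  constructor
  · intro h
    refine ⟨fun e he => ?_, fun e he => ?_⟩
    · have := h _ (Or.inl ⟨e, he, rfl⟩)
      rwa [aeval_X] at this
    · have := h _ (Or.inr ⟨e, he, rfl⟩)
      rwa [map_sub, map_one, aeval_X, sub_eq_zero] at this
  · rintro ⟨h2, h3⟩ g (⟨e, he, rfl⟩ | ⟨e, he, rfl⟩)
    · rw [aeval_X]
      exact h2 e he
    · rw [map_sub, map_one, aeval_X, sub_eq_zero]
      exact h3 e he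

/-- Sets of places which can be built up such that each new place is in a new row or in a new
column. -/
inductive Peel : Finset (ι × ι) → Prop
  | nil : Peel ∅
  | row {O : Finset (ι × ι)} (c : ι × ι) : Peel O → (∀ e ∈ O, e.1 ≠ c.1) → Peel (insert c O)
  | col {O : Finset (ι × ι)} (c : ι × ι) : Peel O → (∀ e ∈ O, e.2 ≠ c.2) → Peel (insert c O)

section

variable (hP : Bnd sep P)

include hP

lemma peel_step {Z0 Z O : Finset (ι × ι)} (hZ : Z0 ⊆ Z) (c : ι × ι) (a b : ι → ℤ)
    (h1 : a c.1 + b c.2 = 1) (h2 : ∀ e ∈ O, a e.1 + b e.2 = 0)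
    (h : ∀ Z, Z0 ⊆ Z → PP P (rel R Z O) (gm R ι).det) :
    PP P (rel R Z (insert c O)) (gm R ι).det := by
  have h3 : PP P (insert (X c) (rel R Z O)) (gm R ι).det := by
    refine pp_same hP ?_ (h (insert c Z) (hZ.trans (Finset.subset_insert _ _)))
    intro C _ _ v
    rw [pt_insert, pt_rel, pt_rel, aeval_X, Finset.forall_mem_insert]
    tauto
  have h4 := pp_tor hP (fun e : ι × ι => a e.1 + b e.2) c h1 ?_ (h Z hZ) h3
  · refine pp_same hP ?_ h4
    intro C _ _ v
    rw [pt_insert, pt_rel, pt_rel, map_sub, aeval_X, map_one, sub_eq_zero,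
      Finset.forall_mem_insert]
    tauto
  · intro C _ _ u v hv
    rw [pt_rel] at hv ⊢
    obtain ⟨⟨h5, h6⟩, h7⟩ := hv
    refine ⟨⟨fun e he => ?_, fun e he => ?_⟩, ?_⟩
    · change _ * v e = 0
      rw [h5 e he, mul_zero]
    · change ((u ^ (a e.1 + b e.2) : Cˣ) : C) * v e = 1
      rw [h6 e he, h2 e he, zpow_zero, Units.val_one, one_mul]
    · have h8 : (Matrix.of fun i j => ((u ^ (a i + b j) : Cˣ) : C) * v (i, j)) =
          Matrix.of fun i j => ((u ^ a i : Cˣ) : C) *
            (Matrix.of fun i j => ((u ^ b j : Cˣ) : C) * (Matrix.of fun i j => v (i, j)) i j) i j := by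
        ext i j
        simp only [Matrix.of_apply]
        rw [← mul_assoc, ← Units.val_mul, ← zpow_add]
      change IsUnit (Matrix.of fun i j => ((u ^ (a i + b j) : Cˣ) : C) * v (i, j)).det
      rw [h8, Matrix.det_mul_column, Matrix.det_mul_row]
      refine IsUnit.mul ?_ (IsUnit.mul ?_ h7)
      · rw [← Units.coe_prod]
        exact Units.isUnit _
      · rw [← Units.coe_prod]
        exact Units.isUnit _

/-- Invertible matrices with zeros and ones at given places, with zeros at least at `Z0`. -/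
theorem pp_peel' {Z0 : Finset (ι × ι)}
    (h : ∀ Z, Z0 ⊆ Z → PP P (rel R Z (∅ : Finset (ι × ι))) (gm R ι).det) {O : Finset (ι × ι)}
    (hO : Peel O) : ∀ Z, Z0 ⊆ Z → PP P (rel R Z O) (gm R ι).det := by
  induction hO with
  | nil => exact h
  | row c _ hc ih =>
    intro Z hZ
    refine peel_step hP hZ c (fun i => if i = c.1 then 1 else 0) (fun _ => 0) ?_ ?_ ih
    · simp
    · intro e he
      simp [hc e he]
  | col c _ hc ih =>
    intro Z hZ
    refine peel_step hP hZ c (fun _ => 0) (fun j => if j = c.2 then 1 else 0) ?_ ?_ ih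
    · simp
    · intro e he
      simp [hc e he]

/-- Invertible matrices with zeros and ones at given places. -/
theorem pp_peel (h : ∀ Z, PP P (rel R Z (∅ : Finset (ι × ι))) (gm R ι).det) {O : Finset (ι × ι)}
    (hO : Peel O) (Z : Finset (ι × ι)) : PP P (rel R Z O) (gm R ι).det :=
  pp_peel' hP (Z0 := ∅) (fun Z _ => h Z) hO Z (Finset.empty_subset _)

end

end Pool.Agent.H839.PZ
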