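import Pool.Graph.R_seed8.Z125.UN.Bnd
import Pool.Graph.R_seed8.Z125.UN.Red

/-!
# Locally closed subschemes of affine spaces and their points

`Fn S w` is the ring of functions on the subscheme of the affine space with the coordinates `σ` which
is given by the equations in `S` and by `w ≠ 0`. Isomorphisms are given by natural maps on the points
with values in arbitrary algebras.
-/

set_option autoImplicit false

open CategoryTheory AlgebraicGeometry MvPolynomial

namespace Pool.Agent.H839.PZ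

open Pool.Agent.Y116.UV Pool.Agent.Z125.UN

variable {R : Type} [CommRing R]

/-- the ring of functions on `S = 0`, `w ≠ 0` -/
abbrev Fn {σ : Type} (S : Set (MvPolynomial σ R)) (w : MvPolynomial σ R) : Type :=
  Pc (fun g : S => (g : MvPolynomial σ R)) w

/-- the points with values in an algebra -/
def Pt {σ : Type} (S : Set (MvPolynomial σ R)) (w : MvPolynomial σ R) {C : Type} [CommRing C]
    [Algebra R C] (v : σ → C) : Prop :=
  (∀ g ∈ S, aeval v g = 0) ∧ IsUnit (aeval v w)

section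

variable {σ : Type} {S : Set (MvPolynomial σ R)} {w : MvPolynomial σ R}

lemma pt_map {C D : Type} [CommRing C] [Algebra R C] [CommRing D] [Algebra R D] (f : C →ₐ[R] D)
    {v : σ → C} (h : Pt S w v) : Pt S w (fun s => f (v s)) := by
  have h1 : ∀ p : MvPolynomial σ R, aeval (fun s => f (v s)) p = f (aeval v p) := by
    intro p
    have := MvPolynomial.comp_aeval (R := R) v f
    rw [← this]
    rfl
  refine ⟨fun g hg => ?_, ?_⟩
  · rw [h1, h.1 g hg, map_zero]
  · rw [h1]
    exact h.2.map f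

variable (S w)

/-- the generic point -/
noncomputable def gp : σ → Fn S w := pv (fun g : S => (g : MvPolynomial σ R)) w

lemma pt_gp : Pt S w (gp S w) := by
  refine ⟨fun g hg => ?_, ?_⟩
  · rw [gp, pc_aeval]
    exact pc_rel (fun g : S => (g : MvPolynomial σ R)) w ⟨g, hg⟩
  · rw [gp, pc_aeval]
    exact pc_unit _ _

variable {S w}

/-- the homomorphism of a point -/
noncomputable def hom {C : Type} [CommRing C] [Algebra R C] (v : σ → C) (h : Pt S w v) :
    Fn S w →ₐ[R] C :=
  pcLift _ _ v (fun k => h.1 _ k.2) h.2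

lemma hom_gp {C : Type} [CommRing C] [Algebra R C] (v : σ → C) (h : Pt S w v) (s : σ) :
    hom v h (gp S w s) = v s := pcLift_pv _ _ _ _ _ _

lemma hom_ext {C : Type} [CommRing C] [Algebra R C] {f g : Fn S w →ₐ[R] C}
    (h : ∀ s, f (gp S w s) = g (gp S w s)) : f = g := pc_ext h

end

/-- The algebra `A` represents the points of `S = 0`, `w ≠ 0`. -/
structure Rep {σ : Type} (S : Set (MvPolynomial σ R)) (w : MvPolynomial σ R) (A : Type) [CommRing A]
    [Algebra R A] (x : σ → A) : Prop where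
  pt : Pt S w x
  ex : ∀ (C : Type) [CommRing C] [Algebra R C] (v : σ → C), Pt S w v →
    ∃ f : A →ₐ[R] C, ∀ s, f (x s) = v s
  ext : ∀ (C : Type) [CommRing C] [Algebra R C] (f g : A →ₐ[R] C), (∀ s, f (x s) = g (x s)) → f = g

lemma rep_fn {σ : Type} (S : Set (MvPolynomial σ R)) (w : MvPolynomial σ R) :
    Rep S w (Fn S w) (gp S w) where
  pt := pt_gp S w
  ex _ _ _ v h := ⟨hom v h, hom_gp v h⟩
  ext _ _ _ _ _ h := hom_ext h

/-- A natural map on points. -/
structure Mor {σ τ : Type} (S : Set (MvPolynomial σ R)) (w : MvPolynomial σ R)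
    (T : Set (MvPolynomial τ R)) (z : MvPolynomial τ R) where
  fn : ∀ (C : Type) [CommRing C] [Algebra R C], (σ → C) → (τ → C)
  pt : ∀ (C : Type) [CommRing C] [Algebra R C] (v : σ → C), Pt S w v → Pt T z (fn C v)
  nat : ∀ (C D : Type) [CommRing C] [Algebra R C] [CommRing D] [Algebra R D] (f : C →ₐ[R] D)
    (v : σ → C), Pt S w v → ∀ t, fn D (fun s => f (v s)) t = f (fn C v t)

/-- Isomorphisms are given by natural maps on points which are inverse to each other. -/
theorem equiv_of_mor {σ τ : Type} {S : Set (MvPolynomial σ R)} {w : MvPolynomial σ R}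
    {T : Set (MvPolynomial τ R)} {z : MvPolynomial τ R} {A B : Type} [CommRing A] [Algebra R A]
    [CommRing B] [Algebra R B] {x : σ → A} {y : τ → B} (hA : Rep S w A x) (hB : Rep T z B y)
    (φ : Mor S w T z) (ψ : Mor T z S w)
    (h1 : ∀ (C : Type) [CommRing C] [Algebra R C] (v : σ → C), Pt S w v →
      ∀ s, ψ.fn C (φ.fn C v) s = v s)
    (h2 : ∀ (C : Type) [CommRing C] [Algebra R C] (v : τ → C), Pt T z v →
      ∀ t, φ.fn C (ψ.fn C v) t = v t) : Nonempty (A ≃ₐ[R] B) := by
  obtain ⟨f, hf⟩ := hA.ex B (ψ.fn B y) (ψ.pt B y hB.pt)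
  obtain ⟨g, hg⟩ := hB.ex A (φ.fn A x) (φ.pt A x hA.pt)
  refine ⟨AlgEquiv.ofAlgHom f g (hB.ext B _ _ fun t => ?_) (hA.ext A _ _ fun s => ?_)⟩
  · rw [AlgHom.comp_apply, hg, ← φ.nat A B f x hA.pt]
    have h3 : (fun s => f (x s)) = ψ.fn B y := funext hf
    rw [h3, h2 B y hB.pt]
    rfl
  · rw [AlgHom.comp_apply, hf, ← ψ.nat B A g y hB.pt]
    have h3 : (fun t => g (y t)) = φ.fn A x := funext hg
    rw [h3, h1 A x hA.pt]
    rfl

variable {sep : Prop} {P : Sch R → Prop}

/-- the property for `S = 0`, `w ≠ 0` -/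
def PP (P : Sch R → Prop) {σ : Type} (S : Set (MvPolynomial σ R)) (w : MvPolynomial σ R) : Prop :=
  P (aff R (Fn S w))

section

variable (hP : Bnd sep P)

include hP

lemma pp_rep {σ : Type} [Finite σ] {S : Set (MvPolynomial σ R)} {w : MvPolynomial σ R} {A : Type}
    [CommRing A] [Algebra R A] {x : σ → A} (hA : Rep S w A x) (h : PP P S w) : P (aff R A) := by
  let φ : Mor S w S w := ⟨fun _ _ _ v => v, fun _ _ _ _ h => h, fun _ _ _ _ _ _ _ _ _ _ => rfl⟩
  obtain ⟨e⟩ := equiv_of_mor (rep_fn S w) hA φ φ (fun _ _ _ _ _ _ => rfl) (fun _ _ _ _ _ _ => rfl)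
  exact iso_alg hP.toUni e h

lemma pp_of_rep {σ : Type} [Finite σ] {S : Set (MvPolynomial σ R)} {w : MvPolynomial σ R} {A : Type}
    [CommRing A] [Algebra R A] {x : σ → A} (hA : Rep S w A x) (h : P (aff R A)) : PP P S w := by
  let φ : Mor S w S w := ⟨fun _ _ _ v => v, fun _ _ _ _ h => h, fun _ _ _ _ _ _ _ _ _ _ => rfl⟩
  obtain ⟨e⟩ := equiv_of_mor (rep_fn S w) hA φ φ (fun _ _ _ _ _ _ => rfl) (fun _ _ _ _ _ _ => rfl)
  have hf : Algebra.FiniteType R A := Algebra.FiniteType.of_surjective (e : Fn S w →ₐ[R] A)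
    e.surjective
  exact iso_alg hP.toUni e.symm h

/-- Transport along natural bijections on points. -/
theorem pp_iso {σ τ : Type} [Finite σ] {S : Set (MvPolynomial σ R)} {w : MvPolynomial σ R}
    {T : Set (MvPolynomial τ R)} {z : MvPolynomial τ R} (φ : Mor S w T z) (ψ : Mor T z S w)
    (h1 : ∀ (C : Type) [CommRing C] [Algebra R C] (v : σ → C), Pt S w v →
      ∀ s, ψ.fn C (φ.fn C v) s = v s)
    (h2 : ∀ (C : Type) [CommRing C] [Algebra R C] (v : τ → C), Pt T z v →
      ∀ t, φ.fn C (ψ.fn C v) t = v t) (h : PP P S w) : PP P T z := by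
  obtain ⟨e⟩ := equiv_of_mor (rep_fn S w) (rep_fn T z) φ ψ h1 h2
  exact iso_alg hP.toUni e h

/-- The same points. -/
theorem pp_same {σ : Type} [Finite σ] {S T : Set (MvPolynomial σ R)} {w z : MvPolynomial σ R}
    (h : ∀ (C : Type) [CommRing C] [Algebra R C] (v : σ → C), Pt S w v ↔ Pt T z v)
    (hS : PP P S w) : PP P T z :=
  pp_iso hP ⟨fun _ _ _ v => v, fun C _ _ v h' => (h C v).mp h', fun _ _ _ _ _ _ _ _ _ _ => rfl⟩
    ⟨fun _ _ _ v => v, fun C _ _ v h' => (h C v).mpr h', fun _ _ _ _ _ _ _ _ _ _ => rfl⟩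
    (fun _ _ _ _ _ _ => rfl) (fun _ _ _ _ _ _ => rfl) hS

end

end Pool.Agent.H839.PZ
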