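import Pool.Agent.H839.PZ.Sym4

/-!
# Symmetric matrices with prescribed entries outside of the diagonal
-/

set_option autoImplicit false

open CategoryTheory AlgebraicGeometry MvPolynomial

namespace Pool.Agent.H839.PZ.Sc

open Pool.Agent.Y116.UV Pool.Agent.Z125.UN Sy

variable {R : Type} [CommRing R] {sep : Prop} {P : Sch R → Prop}

section cls

variable {κ : Type} [Fintype κ] [DecidableEq κ]

/-- the prescribed entries -/
def crel {R : Type} [CommRing R] (Z : Finset (Sym2 κ)) (c : Sym2 κ → R) :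
    Set (MvPolynomial (Sym2 κ) R) :=
  {g | ∃ e ∈ Z, X e - C (c e) = g}

omit [Fintype κ] [DecidableEq κ] in
lemma pt_crel' {Z : Finset (Sym2 κ)} {c : Sym2 κ → R} {C : Type} [CommRing C] [Algebra R C]
    {v : Sym2 κ → C} {w : MvPolynomial (Sym2 κ) R} :
    Pt (crel Z c) w v ↔ (∀ e ∈ Z, v e = algebraMap R C (c e)) ∧ IsUnit (aeval v w) := by
  rw [Pt]
  refine and_congr_left fun _ => ?_
  constructor
  · intro h e he
    have := h _ ⟨e, he, rfl⟩
    rwa [map_sub, aeval_X, aeval_C, sub_eq_zero] at this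
  · rintro h _ ⟨e, he, rfl⟩
    rw [map_sub, aeval_X, aeval_C, sub_eq_zero]
    exact h e he

lemma pt_crel {Z : Finset (Sym2 κ)} {c : Sym2 κ → R} {C : Type} [CommRing C] [Algebra R C]
    {v : Sym2 κ → C} : Pt (crel Z c) (sgm R κ).det v ↔
      (∀ e ∈ Z, v e = algebraMap R C (c e)) ∧ IsUnit (sm v).det := by
  rw [pt_crel', aeval_sgm]

/-- singular symmetric matrices such that the kernel is supported in `A` -/
def kC {R : Type} [CommRing R] (Z : Finset (Sym2 κ)) (c : Sym2 κ → R) (o : κ) (A : Finset κ) :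
    Set (MvPolynomial (Sym2 κ) R) :=
  {g | g ∈ crel Z c ∨ (sgm R κ).det = g ∨ ∃ i, i ∉ A ∧ gk R o i = g}

lemma pt_kC {Z : Finset (Sym2 κ)} {c : Sym2 κ → R} {o : κ} {A : Finset κ} {C : Type} [CommRing C]
    [Algebra R C] {v : Sym2 κ → C} {w : MvPolynomial (Sym2 κ) R} :
    Pt (kC Z c o A) w v ↔ ((∀ e ∈ Z, v e = algebraMap R C (c e)) ∧ (sm v).det = 0 ∧
      ∀ i, i ∉ A → fc (Pi.single o 1) (sm v) i = 0) ∧ IsUnit (aeval v w) := by
  rw [Pt]
  refine and_congr_left fun _ => ?_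
  constructor
  · intro h
    refine ⟨fun e he => ?_, ?_, fun i hi => ?_⟩
    · have := h _ (Or.inl ⟨e, he, rfl⟩)
      rwa [map_sub, aeval_X, aeval_C, sub_eq_zero] at this
    · have := h _ (Or.inr (Or.inl rfl))
      rwa [aeval_sgm] at this
    · have := h _ (Or.inr (Or.inr ⟨i, hi, rfl⟩))
      rwa [aeval_gk] at this
  · rintro ⟨h1, h2, h3⟩ g (⟨e, he, rfl⟩ | rfl | ⟨i, hi, rfl⟩)
    · rw [map_sub, aeval_X, aeval_C, sub_eq_zero]
      exact h1 e he
    · rw [aeval_sgm]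
      exact h2
    · rw [aeval_gk]
      exact h3 i hi

/-- the prescribed entries of the bordered matrix -/
def cb (c : Sym2 κ → R) : Sym2 (Unit ⊕ κ) → R := msy 0 0 c

omit [Fintype κ] in
lemma forall_cb {Z : Finset (Sym2 κ)} {A : Finset κ} {c : Sym2 κ → R} {C : Type} [CommRing C]
    [Algebra R C] {v : Sym2 (Unit ⊕ κ) → C} :
    (∀ e ∈ zb Z A, v e = algebraMap R C (cb c e)) ↔
      (∀ e ∈ Z, v (Sym2.map Sum.inr e) = algebraMap R C (c e)) ∧
        ∀ i ∈ A, v s(Sum.inl (), Sum.inr i) = 0 := by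
  rw [forall_zb]
  refine and_congr ?_ ?_
  · refine forall_congr' fun e => forall_congr' fun _ => ?_
    rw [cb, msy_inr]
  · refine forall_congr' fun i => forall_congr' fun _ => ?_
    have h : cb c s(Sum.inl (), Sum.inr i) = 0 := rfl
    rw [h, map_zero]

end cls

/-- The property is true for the invertible symmetric matrices with prescribed entries outside of the
diagonal. -/
def SymAllC (R : Type) [CommRing R] (P : Sch R → Prop) : Prop :=
  ∀ (κ : Type) [Fintype κ] [DecidableEq κ] (Z : Finset (Sym2 κ)) (c : Sym2 κ → R),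
    (∀ e ∈ Z, ¬ e.IsDiag) → PP P (crel Z c) (sgm R κ).det

section

variable {κ : Type} [Fintype κ] [DecidableEq κ] {Z : Finset (Sym2 κ)} {c : Sym2 κ → R}
  {A : Finset κ} {o : κ}

/-- the base -/
def bC {R : Type} [CommRing R] (Z : Finset (Sym2 κ)) (c : Sym2 κ → R) :
    Set (MvPolynomial (Sym2 κ ⊕ Unit) R) :=
  rename Sum.inl '' crel Z c

variable {C : Type} [CommRing C] [Algebra R C]

omit [Fintype κ] [DecidableEq κ] in
lemma pt_bC (v : Sym2 κ ⊕ Unit → C) :
    Pt (bC Z c) (1 : MvPolynomial (Sym2 κ ⊕ Unit) R) v ↔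
      ∀ e ∈ Z, v (Sum.inl e) = algebraMap R C (c e) := by
  have h : (1 : MvPolynomial (Sym2 κ ⊕ Unit) R) = rename Sum.inl 1 := (map_one _).symm
  rw [h, bC, pt_rename, pt_crel', map_one]
  exact ⟨fun h => h.1, fun h => ⟨h, isUnit_one⟩⟩

lemma pt_q (v : (Sym2 κ ⊕ Unit) ⊕ (Unit ⊕ κ) → C) :
    Pt (rename Sum.inl '' bC Z c : Set (MvPolynomial ((Sym2 κ ⊕ Unit) ⊕ (Unit ⊕ κ)) R))
      (rename Sum.inl 1 * sbp (bN R κ) A (bq R o)) v ↔
      (∀ e ∈ Z, v (Sum.inl (Sum.inl e)) = algebraMap R C (c e)) ∧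
      IsUnit (bd (v (Sum.inr (Sum.inl ())))
        (yv A (xo o (v (Sum.inl (Sum.inr ())))) fun i => v (Sum.inr (Sum.inr i)))
        (yv A (xo o (v (Sum.inl (Sum.inr ())))) fun i => v (Sum.inr (Sum.inr i)))
        (sm fun e => v (Sum.inl (Sum.inl e)))) := by
  rw [pt_sbp, pt_bC, byc_bq, nc_bN]

lemma pt_z (v : (Sym2 κ ⊕ Unit) ⊕ (Unit ⊕ κ) → C) :
    Pt (rename Sum.inl '' bC Z c : Set (MvPolynomial ((Sym2 κ ⊕ Unit) ⊕ (Unit ⊕ κ)) R))
      (rename Sum.inl 1 * sbp (bN R κ) A 0) v ↔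
      (∀ e ∈ Z, v (Sum.inl (Sum.inl e)) = algebraMap R C (c e)) ∧
      IsUnit (bd (v (Sum.inr (Sum.inl ())))
        (yv A (fun _ => 0) fun i => v (Sum.inr (Sum.inr i)))
        (yv A (fun _ => 0) fun i => v (Sum.inr (Sum.inr i)))
        (sm fun e => v (Sum.inl (Sum.inl e)))) := by
  rw [pt_sbp, pt_bC, byc_zero, nc_bN]

end

section main

variable {κ : Type} [Fintype κ] [DecidableEq κ] {Z : Finset (Sym2 κ)} {c : Sym2 κ → R}
  {A : Finset κ} {o : κ} (hP : Bnd sep P) (hG : SymAllC R P) (hZ : ∀ e ∈ Z, ¬ e.IsDiag)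

include hP hG hZ

lemma sym_zero : SBP (bC Z c) 1 (bN R κ) A P 0 := by
  have h := pp_free hP (Unit ⊕ {i // i ∈ A}) (hG (Unit ⊕ κ) (zb Z A) (cb c) (zb_diag hZ))
  have hs : ∀ {C : Type} [CommRing C] [Algebra R C]
      (v : Sym2 (Unit ⊕ κ) ⊕ (Unit ⊕ {i // i ∈ A}) → C),
      Pt (rename Sum.inl '' crel (zb Z A) (cb c) :
        Set (MvPolynomial (Sym2 (Unit ⊕ κ) ⊕ (Unit ⊕ {i // i ∈ A})) R))
        (rename Sum.inl (sgm R (Unit ⊕ κ)).det) v ↔
      ((∀ e ∈ Z, v (Sum.inl (Sym2.map Sum.inr e)) = algebraMap R C (c e)) ∧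
        ∀ i ∈ A, v (Sum.inl s(Sum.inl (), Sum.inr i)) = 0) ∧
      IsUnit (sm fun e => v (Sum.inl e)).det := by
    intro C _ _ v
    rw [pt_rename, pt_crel, forall_cb]
  refine pp_iso hP
    ⟨fun C _ _ v => Sum.elim (Sum.elim (fun e => v (Sum.inl (Sym2.map Sum.inr e)))
        fun _ => v (Sum.inr (Sum.inl ())))
      (Sum.elim (fun _ => v (Sum.inl s(Sum.inl (), Sum.inl ())))
        fun i => if h : i ∈ A then v (Sum.inr (Sum.inr ⟨i, h⟩)) else
          v (Sum.inl s(Sum.inl (), Sum.inr i))), ?_, ?_⟩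
    ⟨fun C _ _ v => Sum.elim (msy (v (Sum.inr (Sum.inl ())))
        (yv A (fun _ => 0) fun i => v (Sum.inr (Sum.inr i))) fun e => v (Sum.inl (Sum.inl e)))
      (Sum.elim (fun _ => v (Sum.inl (Sum.inr ()))) fun i => v (Sum.inr (Sum.inr i.1))), ?_, ?_⟩
    ?_ ?_ h
  · intro C _ _ v hv
    rw [hs] at hv
    rw [pt_z]
    refine ⟨hv.1.1, ?_⟩
    have h1 := hv.2
    rw [sm_inr] at h1
    refine (congrArg IsUnit ?_).mp h1
    have h2 : (yv A (fun _ => (0 : C)) fun i => if h : i ∈ A then v (Sum.inr (Sum.inr ⟨i, h⟩)) else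
          v (Sum.inl s(Sum.inl (), Sum.inr i))) =
        fun i => v (Sum.inl s(Sum.inl (), Sum.inr i)) := by
      funext i
      rw [yv]
      split_ifs with hi
      · exact (hv.1.2 i hi).symm
      · rfl
    change _ = bd (v (Sum.inl s(Sum.inl (), Sum.inl ())))
      (yv A (fun _ => (0 : C)) fun i => if h : i ∈ A then v (Sum.inr (Sum.inr ⟨i, h⟩)) else
          v (Sum.inl s(Sum.inl (), Sum.inr i)))
      (yv A (fun _ => (0 : C)) fun i => if h : i ∈ A then v (Sum.inr (Sum.inr ⟨i, h⟩)) else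
          v (Sum.inl s(Sum.inl (), Sum.inr i))) (sm fun e => v (Sum.inl (Sym2.map Sum.inr e)))
    rw [h2]
    rfl
  · intro C D _ _ _ _ f v _ t
    rcases t with (e | t) | t | i
    · rfl
    · rfl
    · rfl
    · change (if h : i ∈ A then f (v (Sum.inr (Sum.inr ⟨i, h⟩))) else
          f (v (Sum.inl s(Sum.inl (), Sum.inr i)))) = f (if h : i ∈ A then _ else _)
      split_ifs <;> rfl
  · intro C _ _ v hv
    rw [pt_z] at hv
    rw [hs]
    refine ⟨⟨fun e he => ?_, fun i hi => ?_⟩, ?_⟩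
    · refine (msy_inr _ _ _ e).trans (hv.1 e he)
    · change yv A (fun _ => (0 : C)) (fun i => v (Sum.inr (Sum.inr i))) i = 0
      rw [yv, if_pos hi]
    · exact hv.2
  · intro C D _ _ _ _ f v _ t
    rcases t with e | t | i
    · induction e with
      | _ a b =>
        rcases a with ⟨⟩ | a <;> rcases b with ⟨⟩ | b
        · rfl
        · change yv A (fun _ => (0 : D)) (fun i => f (v (Sum.inr (Sum.inr i)))) b =
            f (yv A (fun _ => (0 : C)) (fun i => v (Sum.inr (Sum.inr i))) b)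
          rw [yv, yv]
          split_ifs
          · exact (map_zero f).symm
          · rfl
        · change yv A (fun _ => (0 : D)) (fun i => f (v (Sum.inr (Sum.inr i)))) a =
            f (yv A (fun _ => (0 : C)) (fun i => v (Sum.inr (Sum.inr i))) a)
          rw [yv, yv]
          split_ifs
          · exact (map_zero f).symm
          · rfl
        · rfl
    · rfl
    · rfl
  · intro C _ _ v hv t
    rw [hs] at hv
    rcases t with e | t | i
    · refine msy_eta (fun e => v (Sum.inl e)) _ ?_ e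
      intro i
      rw [yv]
      split_ifs with hi
      · exact (hv.1.2 i hi).symm
      · exact dif_neg hi
    · rfl
    · exact dif_pos i.2
  · intro C _ _ v hv t
    rcases t with (e | t) | t | i
    · exact msy_inr _ _ _ e
    · rfl
    · rfl
    · change (if h : i ∈ A then v (Sum.inr (Sum.inr i)) else
        yv A (fun _ => (0 : C)) (fun i => v (Sum.inr (Sum.inr i))) i) = _
      split_ifs with hi
      · rfl
      · rw [yv, if_neg hi]

lemma sym_q (ho : o ∈ A) : SBP (bC Z c) 1 (bN R κ) A P (bq R o) := by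
  have h := pp_free hP {i // i ∈ A} (hG (Unit ⊕ κ) (zb Z (A.erase o)) (cb c) (zb_diag hZ))
  have hs : ∀ {C : Type} [CommRing C] [Algebra R C]
      (v : Sym2 (Unit ⊕ κ) ⊕ {i // i ∈ A} → C),
      Pt (rename Sum.inl '' crel (zb Z (A.erase o)) (cb c) :
        Set (MvPolynomial (Sym2 (Unit ⊕ κ) ⊕ {i // i ∈ A}) R))
        (rename Sum.inl (sgm R (Unit ⊕ κ)).det) v ↔
      ((∀ e ∈ Z, v (Sum.inl (Sym2.map Sum.inr e)) = algebraMap R C (c e)) ∧
        ∀ i ∈ A.erase o, v (Sum.inl s(Sum.inl (), Sum.inr i)) = 0) ∧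
      IsUnit (sm fun e => v (Sum.inl e)).det := by
    intro C _ _ v
    rw [pt_rename, pt_crel, forall_cb]
  have hy : ∀ {C : Type} [CommRing C] (v : Sym2 (Unit ⊕ κ) ⊕ {i // i ∈ A} → C)
      (_ : ∀ i ∈ A.erase o, v (Sum.inl s(Sum.inl (), Sum.inr i)) = 0),
      (yv A (xo o (v (Sum.inl s(Sum.inl (), Sum.inr o))))
        fun i => if h : i ∈ A then v (Sum.inr ⟨i, h⟩) else
          v (Sum.inl s(Sum.inl (), Sum.inr i))) =
        fun i => v (Sum.inl s(Sum.inl (), Sum.inr i)) := by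
    intro C _ v hv
    funext i
    rw [yv]
    split_ifs with hi
    · rw [xo]
      split_ifs with hio
      · rw [hio]
      · exact (hv i (Finset.mem_erase.mpr ⟨hio, hi⟩)).symm
    · rfl
  refine pp_iso hP
    ⟨fun C _ _ v => Sum.elim (Sum.elim (fun e => v (Sum.inl (Sym2.map Sum.inr e)))
        fun _ => v (Sum.inl s(Sum.inl (), Sum.inr o)))
      (Sum.elim (fun _ => v (Sum.inl s(Sum.inl (), Sum.inl ())))
        fun i => if h : i ∈ A then v (Sum.inr ⟨i, h⟩) else
          v (Sum.inl s(Sum.inl (), Sum.inr i))), ?_, ?_⟩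
    ⟨fun C _ _ v => Sum.elim (msy (v (Sum.inr (Sum.inl ())))
        (yv A (xo o (v (Sum.inl (Sum.inr ())))) fun i => v (Sum.inr (Sum.inr i)))
        fun e => v (Sum.inl (Sum.inl e)))
      fun i => v (Sum.inr (Sum.inr i.1)), ?_, ?_⟩
    ?_ ?_ h
  · intro C _ _ v hv
    rw [hs] at hv
    rw [pt_q]
    refine ⟨hv.1.1, ?_⟩
    have h1 := hv.2
    rw [sm_inr] at h1
    refine (congrArg IsUnit ?_).mp h1
    change _ = bd (v (Sum.inl s(Sum.inl (), Sum.inl ())))
      (yv A (xo o (v (Sum.inl s(Sum.inl (), Sum.inr o))))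
        fun i => if h : i ∈ A then v (Sum.inr ⟨i, h⟩) else
          v (Sum.inl s(Sum.inl (), Sum.inr i)))
      (yv A (xo o (v (Sum.inl s(Sum.inl (), Sum.inr o))))
        fun i => if h : i ∈ A then v (Sum.inr ⟨i, h⟩) else
          v (Sum.inl s(Sum.inl (), Sum.inr i))) (sm fun e => v (Sum.inl (Sym2.map Sum.inr e)))
    rw [hy v hv.1.2]
    rfl
  · intro C D _ _ _ _ f v _ t
    rcases t with (e | t) | t | i
    · rfl
    · rfl
    · rfl
    · change (if h : i ∈ A then f (v (Sum.inr ⟨i, h⟩)) else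
          f (v (Sum.inl s(Sum.inl (), Sum.inr i)))) = f (if h : i ∈ A then _ else _)
      split_ifs <;> rfl
  · intro C _ _ v hv
    rw [pt_q] at hv
    rw [hs]
    refine ⟨⟨fun e he => ?_, fun i hi => ?_⟩, ?_⟩
    · refine (msy_inr _ _ _ e).trans (hv.1 e he)
    · change yv A (xo o (v (Sum.inl (Sum.inr ())))) (fun i => v (Sum.inr (Sum.inr i))) i = 0
      rw [yv, if_pos (Finset.mem_of_mem_erase hi), xo, if_neg (Finset.ne_of_mem_erase hi)]
    · exact hv.2
  · intro C D _ _ _ _ f v _ t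
    have hf : ∀ i, yv A (xo o (f (v (Sum.inl (Sum.inr ()))))) (fun i => f (v (Sum.inr (Sum.inr i)))) i
        = f (yv A (xo o (v (Sum.inl (Sum.inr ())))) (fun i => v (Sum.inr (Sum.inr i))) i) := by
      intro i
      rw [yv, yv, xo, xo]
      split_ifs
      · rfl
      · exact (map_zero f).symm
      · rfl
    rcases t with e | i
    · induction e with
      | _ a b =>
        rcases a with ⟨⟩ | a <;> rcases b with ⟨⟩ | b
        · rfl
        · exact hf b
        · exact hf a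
        · rfl
    · rfl
  · intro C _ _ v hv t
    rw [hs] at hv
    rcases t with e | i
    · exact msy_eta (fun e => v (Sum.inl e)) _ (fun i => congrFun (hy v hv.1.2) i) e
    · exact dif_pos i.2
  · intro C _ _ v hv t
    rcases t with (e | t) | t | i
    · exact msy_inr _ _ _ e
    · change yv A (xo o (v (Sum.inl (Sum.inr ())))) (fun i => v (Sum.inr (Sum.inr i))) o = _
      rw [yv, if_pos ho, xo, if_pos rfl]
    · rfl
    · change (if h : i ∈ A then v (Sum.inr (Sum.inr i)) else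
        yv A (xo o (v (Sum.inl (Sum.inr ())))) (fun i => v (Sum.inr (Sum.inr i))) i) = _
      split_ifs with hi
      · rfl
      · rw [yv, if_neg hi]

/-- Singular symmetric matrices with a kernel which is generated by a vector with support in `A`, the
entry at `o` not zero. -/
theorem sym_ker (ho : o ∈ A) : PP P (kC Z c o A) (gk R o o) := by
  have h0 : PP P (bC Z c) (1 * (bN R κ).det) := by
    refine pp_same hP ?_ (pp_free hP Unit (hG κ Z c hZ))
    intro C _ _ v
    have h : (1 : MvPolynomial (Sym2 κ ⊕ Unit) R) * (bN R κ).det =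
        rename Sum.inl (sgm R κ).det := by
      rw [one_mul, bN, AlgHom.map_det]
      rfl
    rw [h, bC]
  have hN : (bN R κ).transpose = bN R κ := by
    rw [bN, ← Matrix.transpose_map, sgm_sym]
  have h1 := sborder hP hN (bq R o) h0 (sym_zero hP hG hZ (A := A)) (sym_q hP hG hZ ho)
  have h2 : PP P (rename Sum.inl '' (rename Sum.inl '' kC Z c o A :
      Set (MvPolynomial (Sym2 κ ⊕ Unit) R)) :
      Set (MvPolynomial ((Sym2 κ ⊕ Unit) ⊕ (Unit ⊕ κ)) R))
      (rename Sum.inl (rename Sum.inl (gk R o o) * X (Sum.inr ()))) := by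
    refine pp_same hP ?_ h1
    intro C _ _ v
    have h3 : Pt ((insert (rename Sum.inl (bN R κ).det) (rename Sum.inl '' bC Z c) :
        Set (MvPolynomial ((Sym2 κ ⊕ Unit) ⊕ (Unit ⊕ κ)) R)) ∪ Set.range (szp (bN R κ) A (bq R o)))
        (rename Sum.inl 1 * sbp (bN R κ) A (bq R o)) v ↔
        Pt (insert (rename Sum.inl (bN R κ).det) (rename Sum.inl '' bC Z c) :
          Set (MvPolynomial ((Sym2 κ ⊕ Unit) ⊕ (Unit ⊕ κ)) R))
        (rename Sum.inl 1 * sbp (bN R κ) A (bq R o)) v ∧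
        ∀ i, aeval v (szp (bN R κ) A (bq R o) i) = 0 := by
      rw [Pt, Pt]
      constructor
      · rintro ⟨h3, h4⟩
        exact ⟨⟨fun g hg => h3 g (Or.inl hg), h4⟩, fun i => h3 _ (Or.inr ⟨i, rfl⟩)⟩
      · rintro ⟨⟨h3, h4⟩, h5⟩
        refine ⟨?_, h4⟩
        rintro g (hg | ⟨i, rfl⟩)
        · exact h3 g hg
        · exact h5 i
    rw [h3, pt_insert, pt_q, aeval_ndet, pt_rename, pt_mul, pt_rename, pt_kC, aeval_gk, aeval_X]
    simp only [aeval_szp]
    rw [nc_bN, byc_bq]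
    have h4 : (sm fun e => v (Sum.inl (Sum.inl e)) : Matrix κ κ C).det = 0 →
        _ := fun h => ker_iff (sm_sym fun e => v (Sum.inl (Sum.inl e))) h ho
          (v (Sum.inr (Sum.inl ()))) (v (Sum.inl (Sum.inr ()))) fun i => v (Sum.inr (Sum.inr i))
    constructor
    · rintro ⟨⟨⟨h5, h6⟩, h7⟩, h8⟩
      obtain ⟨⟨h9, h10⟩, h11⟩ := (h4 h7).mp ⟨h6, h8⟩
      exact ⟨⟨⟨h5, h7, h11⟩, h9⟩, h10⟩
    · rintro ⟨⟨⟨h5, h7, h11⟩, h9⟩, h10⟩
      obtain ⟨h6, h8⟩ := (h4 h7).mpr ⟨⟨h9, h10⟩, h11⟩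
      exact ⟨⟨⟨h5, h6⟩, h7⟩, h8⟩
  exact pp_torus hP (pp_unfree hP (Unit ⊕ κ) h2)

/-- The same with given support. -/
theorem sym_supp (T : Finset κ) : ∀ A : Finset κ, o ∈ A → T ⊆ A.erase o →
    PP P (kC Z c o A) (gk R o o * ∏ i ∈ T, gk R o i) := by
  induction T using Finset.induction_on with
  | empty =>
    intro A ho _
    rw [Finset.prod_empty, mul_one]
    exact sym_ker hP hG hZ ho
  | insert e T he ih =>
    intro A ho hT
    have h1 : e ∈ A.erase o := hT (Finset.mem_insert_self e T)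
    have h2 : T ⊆ A.erase o := (Finset.subset_insert e T).trans hT
    have h3 : (gk R o o * ∏ i ∈ insert e T, gk R o i) = (gk R o o * ∏ i ∈ T, gk R o i) * gk R o e := by
      rw [Finset.prod_insert he]
      ring
    rw [h3]
    refine pp_open hP _ (ih A ho h2) ?_
    refine pp_same hP ?_ (ih (A.erase e) (Finset.mem_erase.mpr
      ⟨(Finset.ne_of_mem_erase h1).symm, ho⟩) ?_)
    · intro C _ _ v
      rw [pt_insert, pt_kC, pt_kC, aeval_gk]
      constructor
      · rintro ⟨⟨h4, h5, h6⟩, h7⟩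
        exact ⟨⟨⟨h4, h5, fun i hi => h6 i fun h => hi (Finset.mem_of_mem_erase h)⟩, h7⟩,
          h6 e (Finset.notMem_erase e A)⟩
      · rintro ⟨⟨⟨h4, h5, h6⟩, h7⟩, h8⟩
        refine ⟨⟨h4, h5, fun i hi => ?_⟩, h7⟩
        by_cases hie : i = e
        · rw [hie]
          exact h8
        · exact h6 i fun h => hi (Finset.mem_erase.mpr ⟨hie, h⟩)
    · intro i hi
      have h4 := h2 hi
      refine Finset.mem_erase.mpr ⟨Finset.ne_of_mem_erase h4, Finset.mem_erase.mpr
        ⟨fun h => he (h ▸ hi), Finset.mem_of_mem_erase h4⟩⟩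

end main

end Pool.Agent.H839.PZ.Sc
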