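import Pool.Agent.H839.PZ.Enc2
import Pool.Graph.R_pool_sql_team_seeded_63374d34.N882.UE.OpnSmooth

/-!
# The schemes of invertible matrices with prescribed entries are smooth
-/

set_option autoImplicit false

open CategoryTheory AlgebraicGeometry MvPolynomial

namespace Pool.Agent.H839.PZ

open Pool.Agent.Y116.UV Pool.Agent.Z125.UN

lemma ft_glb {R : Type} [CommRing R] {sep : Prop} {m : ℕ} (B : Finset (Fin m × Fin m)) :
    FT sep (GLB R B) := by
  have hf : Algebra.FiniteType R (Localization.Away (edm R B).det) :=
    Algebra.FiniteType.trans (S := MvPolynomial B R) inferInstance inferInstance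
  exact ft_aff sep

lemma ft_glp {R : Type} [CommRing R] {sep : Prop} {m : ℕ} (F : Finset (Fin m × Fin m))
    (c : Fin m → Fin m → R) : FT sep (GLP F c) := by
  have hf : Algebra.FiniteType R (Localization.Away (prm F c).det) :=
    Algebra.FiniteType.trans (S := MvPolynomial {e // e ∉ F} R) inferInstance inferInstance
  exact ft_aff sep

lemma smooth_glb {k : Type} [Field k] {m : ℕ} (B : Finset (Fin m × Fin m)) :
    Smooth (GLB k B).hom := by
  have h1 : Algebra.Smooth k (MvPolynomial B k) := {}
  have h2 : Algebra.Smooth (MvPolynomial B k) (Localization.Away (edm k B).det) :=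
    Algebra.Smooth.of_isLocalization_Away (edm k B).det
  exact smooth_aff (Algebra.Smooth.comp k (MvPolynomial B k) (Localization.Away (edm k B).det))

lemma smooth_glp {k : Type} [Field k] {m : ℕ} (F : Finset (Fin m × Fin m))
    (c : Fin m → Fin m → k) : Smooth (GLP F c).hom := by
  have h1 : Algebra.Smooth k (MvPolynomial {e // e ∉ F} k) := {}
  have h2 : Algebra.Smooth (MvPolynomial {e // e ∉ F} k) (Localization.Away (prm F c).det) :=
    Algebra.Smooth.of_isLocalization_Away (prm F c).det
  exact smooth_aff (Algebra.Smooth.comp k (MvPolynomial {e // e ∉ F} k)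
    (Localization.Away (prm F c).det))

end Pool.Agent.H839.PZ
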