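import Pool.Agent.H839.PZ.Use
import Pool.Agent.H839.PZ.Use2
import Pool.Graph.R_pool_sql_team_seeded_63374d34.N882.UE.OpnSmooth

/-!
# The complements of the graph hypersurfaces and of the networks are smooth
-/

set_option autoImplicit false

open CategoryTheory AlgebraicGeometry MvPolynomial

namespace Pool.Agent.H839.PZ

open Pool.Agent.Y116.UV Pool.Agent.Z125.UN

lemma smooth_nco {k : Type} [Field k] (g : Net k) : Smooth g.co.hom := by
  have hfin : Finite g.G.edgeSet := inferInstance
  have h1 : Algebra.Smooth k (MvPolynomial g.G.edgeSet k) := {}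
  have h2 : Algebra.Smooth (MvPolynomial g.G.edgeSet k) (Localization.Away (kirchN k g.G g.c)) :=
    Algebra.Smooth.of_isLocalization_Away (kirchN k g.G g.c)
  exact smooth_aff (Algebra.Smooth.comp k (MvPolynomial g.G.edgeSet k)
    (Localization.Away (kirchN k g.G g.c)))

lemma smooth_gco {k : Type} [Field k] (g : Gph) : Smooth (g.co k).hom := by
  have hfin : Finite g.G.edgeSet := inferInstance
  have h1 : Algebra.Smooth k (MvPolynomial g.G.edgeSet k) := {}
  have h2 : Algebra.Smooth (MvPolynomial g.G.edgeSet k) (Localization.Away (kirch k g.G)) :=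
    Algebra.Smooth.of_isLocalization_Away (kirch k g.G)
  exact smooth_aff (Algebra.Smooth.comp k (MvPolynomial g.G.edgeSet k)
    (Localization.Away (kirch k g.G)))

end Pool.Agent.H839.PZ
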