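import Pool.Agent.H839.PZ.Sym2

/-!
# Edges in series
-/

set_option autoImplicit false

open CategoryTheory AlgebraicGeometry MvPolynomial

namespace Pool.Agent.H839.PZ

open Pool.Agent.Y116.UV Pool.Agent.Z125.UN Sy

variable {R : Type} [CommRing R] {sep : Prop} {P : Sch R → Prop} {σ : Type}

/-- the polynomial `x F + Q` -/
noncomputable def sp1 (F Q : MvPolynomial σ R) : MvPolynomial (σ ⊕ Unit) R :=
  X (Sum.inr ()) * rename Sum.inl F + rename Sum.inl Q

/-- the polynomial `x y F + (x + y) Q` -/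
noncomputable def sp2 (F Q : MvPolynomial σ R) : MvPolynomial ((σ ⊕ Unit) ⊕ Unit) R :=
  X (Sum.inr ()) * rename Sum.inl (sp1 F Q) +
    X (Sum.inl (Sum.inr ())) * rename Sum.inl (rename Sum.inl Q)

section

variable {C : Type} [CommRing C] [Algebra R C]

lemma aeval_sp1 (F Q : MvPolynomial σ R) (v : σ ⊕ Unit → C) : aeval v (sp1 F Q) =
    v (Sum.inr ()) * aeval (fun s => v (Sum.inl s)) F + aeval (fun s => v (Sum.inl s)) Q := by
  rw [sp1, map_add, map_mul, aeval_X, aeval_rename, aeval_rename]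
  rfl

lemma aeval_sp2 (F Q : MvPolynomial σ R) (v : (σ ⊕ Unit) ⊕ Unit → C) : aeval v (sp2 F Q) =
    v (Sum.inr ()) * aeval (fun s => v (Sum.inl s)) (sp1 F Q) +
      v (Sum.inl (Sum.inr ())) * aeval (fun s => v (Sum.inl (Sum.inl s))) Q := by
  rw [sp2, map_add, map_mul, map_mul, aeval_X, aeval_X, aeval_rename, aeval_rename, aeval_rename]
  rfl

lemma pt_empty {w : MvPolynomial σ R} {v : σ → C} : Pt ∅ w v ↔ IsUnit (aeval v w) :=
  ⟨fun h => h.2, fun h => ⟨fun _ hg => hg.elim, h⟩⟩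

lemma zp_cancel {a : C} (h : IsUnit a) : a * zp a (-1) = 1 := by
  obtain ⟨u, rfl⟩ := h
  rw [zp_unit, zpow_neg, zpow_one, Units.mul_inv]

lemma aeval_nat {D : Type} [CommRing D] [Algebra R D] (f : C →ₐ[R] D) (v : σ → C)
    (p : MvPolynomial σ R) : aeval (fun s => f (v s)) p = f (aeval v p) := by
  have := MvPolynomial.comp_aeval (R := R) v f
  rw [← this]
  rfl

end

section

variable (hP : Bnd sep P) [Finite σ] (F Q : MvPolynomial σ R)

include hP

/-- the open part where the first polynomial is not zero -/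
lemma se_open (h1 : PP P ∅ (sp1 F Q)) : PP P ∅ (sp2 F Q * rename Sum.inl (sp1 F Q)) := by
  have h2 := pp_gm hP h1
  rw [Set.image_empty] at h2
  have hs : ∀ {C : Type} [CommRing C] [Algebra R C] (v : (σ ⊕ Unit) ⊕ Unit → C),
      Pt ∅ (rename Sum.inl (sp1 F Q) * X (Sum.inr ())) v ↔
        IsUnit (aeval (fun s => v (Sum.inl s)) (sp1 F Q)) ∧ IsUnit (v (Sum.inr ())) := by
    intro C _ _ v
    rw [pt_empty, map_mul, IsUnit.mul_iff, aeval_X, aeval_rename]
    rfl
  have ht : ∀ {C : Type} [CommRing C] [Algebra R C] (v : (σ ⊕ Unit) ⊕ Unit → C),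
      Pt ∅ (sp2 F Q * rename Sum.inl (sp1 F Q)) v ↔
        IsUnit (aeval v (sp2 F Q)) ∧ IsUnit (aeval (fun s => v (Sum.inl s)) (sp1 F Q)) := by
    intro C _ _ v
    rw [pt_empty, map_mul, IsUnit.mul_iff, aeval_rename]
    rfl
  refine pp_iso hP
    ⟨fun C _ _ v => Sum.elim (fun s => v (Sum.inl s)) fun _ =>
      zp (aeval (fun s => v (Sum.inl s)) (sp1 F Q)) (-1) * (v (Sum.inr ()) -
        v (Sum.inl (Sum.inr ())) * aeval (fun s => v (Sum.inl (Sum.inl s))) Q), ?_, ?_⟩
    ⟨fun C _ _ v => Sum.elim (fun s => v (Sum.inl s)) fun _ => aeval v (sp2 F Q), ?_, ?_⟩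
    ?_ ?_ h2
  · intro C _ _ v hv
    rw [hs] at hv
    rw [ht, aeval_sp2]
    refine ⟨?_, hv.1⟩
    have h3 : zp (aeval (fun s => v (Sum.inl s)) (sp1 F Q)) (-1) * (v (Sum.inr ()) -
        v (Sum.inl (Sum.inr ())) * aeval (fun s => v (Sum.inl (Sum.inl s))) Q) *
        aeval (fun s => v (Sum.inl s)) (sp1 F Q) + v (Sum.inl (Sum.inr ())) *
        aeval (fun s => v (Sum.inl (Sum.inl s))) Q = v (Sum.inr ()) := by
      have h4 := zp_cancel hv.1
      linear_combination (v (Sum.inr ()) - v (Sum.inl (Sum.inr ())) *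
        aeval (fun s => v (Sum.inl (Sum.inl s))) Q) * h4
    exact (congrArg IsUnit h3).mpr hv.2
  · intro C D _ _ _ _ f v hv t
    rw [hs] at hv
    rcases t with t | t
    · rfl
    · change zp (aeval (fun s => f (v (Sum.inl s))) (sp1 F Q)) (-1) * (f (v (Sum.inr ())) -
        f (v (Sum.inl (Sum.inr ()))) * aeval (fun s => f (v (Sum.inl (Sum.inl s)))) Q) =
        f (zp (aeval (fun s => v (Sum.inl s)) (sp1 F Q)) (-1) * (v (Sum.inr ()) -
          v (Sum.inl (Sum.inr ())) * aeval (fun s => v (Sum.inl (Sum.inl s))) Q))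
      rw [aeval_nat f (fun s => v (Sum.inl s)), aeval_nat f (fun s => v (Sum.inl (Sum.inl s))),
        map_mul, map_sub, map_mul]
      congr 1
      exact (zp_map (f : C →+* D) hv.1 _).symm
  · intro C _ _ v hv
    rw [ht] at hv
    rw [hs]
    exact ⟨hv.2, hv.1⟩
  · intro C D _ _ _ _ f v hv t
    rcases t with t | t
    · rfl
    · exact aeval_nat f v _
  · intro C _ _ v hv t
    rw [hs] at hv
    rcases t with t | ⟨⟩
    · rfl
    · change aeval (Sum.elim (fun s => v (Sum.inl s)) fun _ => _) (sp2 F Q) = v (Sum.inr ())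
      rw [aeval_sp2]
      change zp (aeval (fun s => v (Sum.inl s)) (sp1 F Q)) (-1) * (v (Sum.inr ()) -
        v (Sum.inl (Sum.inr ())) * aeval (fun s => v (Sum.inl (Sum.inl s))) Q) *
        aeval (fun s => v (Sum.inl s)) (sp1 F Q) + v (Sum.inl (Sum.inr ())) *
        aeval (fun s => v (Sum.inl (Sum.inl s))) Q = v (Sum.inr ())
      have h4 := zp_cancel hv.1
      linear_combination (v (Sum.inr ()) - v (Sum.inl (Sum.inr ())) *
        aeval (fun s => v (Sum.inl (Sum.inl s))) Q) * h4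
  · intro C _ _ v hv t
    rw [ht] at hv
    rcases t with t | ⟨⟩
    · rfl
    · change zp (aeval (fun s => v (Sum.inl s)) (sp1 F Q)) (-1) * (aeval v (sp2 F Q) -
        v (Sum.inl (Sum.inr ())) * aeval (fun s => v (Sum.inl (Sum.inl s))) Q) = v (Sum.inr ())
      rw [aeval_sp2]
      have h4 := zp_cancel hv.2
      linear_combination v (Sum.inr ()) * h4

/-- the closed part where the first polynomial is zero -/
lemma se_closed (h1 : PP P ∅ (sp1 F Q)) (h3 : PP P ∅ (sp2 F Q)) : PP P ∅ (Q * F) := by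
  have h2 := pp_closed hP (rename Sum.inl (sp1 F Q)) h3 (se_open hP F Q h1)
  refine pp_unfree hP Unit ?_
  rw [Set.image_empty]
  have hs : ∀ {C : Type} [CommRing C] [Algebra R C] (v : (σ ⊕ Unit) ⊕ Unit → C),
      Pt (insert (rename Sum.inl (sp1 F Q)) ∅) (sp2 F Q) v ↔
        IsUnit (aeval v (sp2 F Q)) ∧ aeval (fun s => v (Sum.inl s)) (sp1 F Q) = 0 := by
    intro C _ _ v
    rw [pt_insert, pt_empty, aeval_rename]
    rfl
  have ht : ∀ {C : Type} [CommRing C] [Algebra R C] (v : σ ⊕ Unit → C),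
      Pt ∅ (rename Sum.inl (Q * F)) v ↔
        IsUnit (aeval (fun s => v (Sum.inl s)) Q) ∧ IsUnit (aeval (fun s => v (Sum.inl s)) F) := by
    intro C _ _ v
    rw [pt_empty, aeval_rename, map_mul, IsUnit.mul_iff]
    rfl
  have key : ∀ {C : Type} [CommRing C] [Algebra R C] (v : (σ ⊕ Unit) ⊕ Unit → C),
      Pt (insert (rename Sum.inl (sp1 F Q)) ∅) (sp2 F Q) v →
        IsUnit (v (Sum.inl (Sum.inr ()))) ∧ IsUnit (aeval (fun s => v (Sum.inl (Sum.inl s))) Q) ∧
        v (Sum.inl (Sum.inr ())) * aeval (fun s => v (Sum.inl (Sum.inl s))) F =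
          - aeval (fun s => v (Sum.inl (Sum.inl s))) Q := by
    intro C _ _ v hv
    rw [hs] at hv
    obtain ⟨hv, h4⟩ := hv
    rw [aeval_sp2, h4, mul_zero, zero_add, IsUnit.mul_iff] at hv
    rw [aeval_sp1] at h4
    exact ⟨hv.1, hv.2, eq_neg_of_add_eq_zero_left h4⟩
  have key2 : ∀ {C : Type} [CommRing C] [Algebra R C] (v : (σ ⊕ Unit) ⊕ Unit → C),
      Pt (insert (rename Sum.inl (sp1 F Q)) ∅) (sp2 F Q) v →
        IsUnit (aeval (fun s => v (Sum.inl (Sum.inl s))) F) := by
    intro C _ _ v hv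
    obtain ⟨_, h5, h6⟩ := key v hv
    have h7 : IsUnit (v (Sum.inl (Sum.inr ())) *
        aeval (fun s => v (Sum.inl (Sum.inl s))) F) := by
      rw [h6]
      exact h5.neg
    exact (IsUnit.mul_iff.mp h7).2
  refine pp_iso hP
    ⟨fun C _ _ v => Sum.elim (fun s => v (Sum.inl (Sum.inl s))) fun _ => v (Sum.inr ()), ?_, ?_⟩
    ⟨fun C _ _ v => Sum.elim (Sum.elim (fun s => v (Sum.inl s)) fun _ =>
      - (aeval (fun s => v (Sum.inl s)) Q * zp (aeval (fun s => v (Sum.inl s)) F) (-1)))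
      fun _ => v (Sum.inr ()), ?_, ?_⟩ ?_ ?_ h2
  · intro C _ _ v hv
    rw [ht]
    exact ⟨(key v hv).2.1, key2 v hv⟩
  · intro C D _ _ _ _ f v hv t
    rcases t with t | t
    · rfl
    · rfl
  · intro C _ _ v hv
    rw [ht] at hv
    have h4 := zp_cancel hv.2
    have h5 : aeval (fun s : σ ⊕ Unit => (Sum.elim (Sum.elim (fun s => v (Sum.inl s)) fun _ =>
        - (aeval (fun s => v (Sum.inl s)) Q * zp (aeval (fun s => v (Sum.inl s)) F) (-1)))
        (fun _ => v (Sum.inr ())) : (σ ⊕ Unit) ⊕ Unit → C) (Sum.inl s)) (sp1 F Q) = 0 := by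
      rw [aeval_sp1]
      change - (aeval (fun s => v (Sum.inl s)) Q * zp (aeval (fun s => v (Sum.inl s)) F) (-1)) *
        aeval (fun s => v (Sum.inl s)) F + aeval (fun s => v (Sum.inl s)) Q = 0
      linear_combination - aeval (fun s => v (Sum.inl s)) Q * h4
    rw [hs]
    refine ⟨?_, h5⟩
    rw [aeval_sp2, h5, mul_zero, zero_add]
    change IsUnit (- (aeval (fun s => v (Sum.inl s)) Q *
      zp (aeval (fun s => v (Sum.inl s)) F) (-1)) * aeval (fun s => v (Sum.inl s)) Q)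
    refine ((hv.1.mul ?_).neg).mul hv.1
    exact IsUnit.of_mul_eq_one _ (by rw [mul_comm]; exact h4)
  · intro C D _ _ _ _ f v hv t
    rw [ht] at hv
    rcases t with (t | t) | t
    · rfl
    · change - (aeval (fun s => f (v (Sum.inl s))) Q *
        zp (aeval (fun s => f (v (Sum.inl s))) F) (-1)) =
        f (- (aeval (fun s => v (Sum.inl s)) Q * zp (aeval (fun s => v (Sum.inl s)) F) (-1)))
      rw [aeval_nat f (fun s => v (Sum.inl s)), aeval_nat f (fun s => v (Sum.inl s)), map_neg,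
        map_mul]
      congr 2
      exact (zp_map (f : C →+* D) hv.2 _).symm
    · rfl
  · intro C _ _ v hv t
    obtain ⟨h5, h6, h7⟩ := key v hv
    have h8 := zp_cancel (key2 v hv)
    rcases t with (t | ⟨⟩) | ⟨⟩
    · rfl
    · change - (aeval (fun s => v (Sum.inl (Sum.inl s))) Q *
        zp (aeval (fun s => v (Sum.inl (Sum.inl s))) F) (-1)) = v (Sum.inl (Sum.inr ()))
      linear_combination (v (Sum.inl (Sum.inr ()))) * h8 -
        zp (aeval (fun s => v (Sum.inl (Sum.inl s))) F) (-1) * h7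
    · rfl
  · intro C _ _ v hv t
    rcases t with t | ⟨⟩
    · rfl
    · rfl

/-- **Edges in series.** -/
theorem pp_series (h1 : PP P ∅ (sp1 F Q)) (h2 : PP P ∅ Q) (h3 : PP P ∅ (sp2 F Q)) :
    PP P ∅ F := by
  have h4 := se_closed hP F Q h1 h3
  have h5 : PP P (insert F ∅) Q := pp_closed hP F h2 h4
  have h6 := pp_free hP Unit h5
  have h7 : PP P (insert (rename Sum.inl F) ∅) (sp1 F Q) := by
    refine pp_same hP (fun C _ _ v => ?_) h6
    rw [pt_rename, pt_insert, pt_empty, pt_insert, pt_empty, aeval_rename, aeval_sp1]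
    constructor
    · rintro ⟨h8, h9⟩
      refine ⟨?_, h9⟩
      rw [h9, mul_zero, zero_add]
      exact h8
    · rintro ⟨h8, h9⟩
      have h9' : aeval (fun s => v (Sum.inl s)) F = 0 := h9
      refine ⟨?_, h9⟩
      rw [h9', mul_zero, zero_add] at h8
      exact h8
  have h8 : PP P ∅ (sp1 F Q * rename Sum.inl F) := pp_open hP _ h1 h7
  refine pp_torus hP ?_
  rw [Set.image_empty]
  have hs : ∀ {C : Type} [CommRing C] [Algebra R C] (v : σ ⊕ Unit → C),
      Pt ∅ (sp1 F Q * rename Sum.inl F) v ↔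
        IsUnit (aeval v (sp1 F Q)) ∧ IsUnit (aeval (fun s => v (Sum.inl s)) F) := by
    intro C _ _ v
    rw [pt_empty, map_mul, IsUnit.mul_iff, aeval_rename]
    rfl
  have ht : ∀ {C : Type} [CommRing C] [Algebra R C] (v : σ ⊕ Unit → C),
      Pt ∅ (rename Sum.inl F * X (Sum.inr ())) v ↔
        IsUnit (aeval (fun s => v (Sum.inl s)) F) ∧ IsUnit (v (Sum.inr ())) := by
    intro C _ _ v
    rw [pt_empty, map_mul, IsUnit.mul_iff, aeval_rename, aeval_X]
    rfl
  refine pp_iso hP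
    ⟨fun C _ _ v => Sum.elim (fun s => v (Sum.inl s)) fun _ => aeval v (sp1 F Q), ?_, ?_⟩
    ⟨fun C _ _ v => Sum.elim (fun s => v (Sum.inl s)) fun _ =>
      zp (aeval (fun s => v (Sum.inl s)) F) (-1) * (v (Sum.inr ()) -
        aeval (fun s => v (Sum.inl s)) Q), ?_, ?_⟩ ?_ ?_ h8
  · intro C _ _ v hv
    rw [hs] at hv
    rw [ht]
    exact ⟨hv.2, hv.1⟩
  · intro C D _ _ _ _ f v hv t
    rcases t with t | t
    · rfl
    · exact aeval_nat f v _
  · intro C _ _ v hv
    rw [ht] at hv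
    rw [hs, aeval_sp1]
    refine ⟨?_, hv.1⟩
    have h9 := zp_cancel hv.1
    have h10 : zp (aeval (fun s => v (Sum.inl s)) F) (-1) * (v (Sum.inr ()) -
        aeval (fun s => v (Sum.inl s)) Q) * aeval (fun s => v (Sum.inl s)) F +
        aeval (fun s => v (Sum.inl s)) Q = v (Sum.inr ()) := by
      linear_combination (v (Sum.inr ()) - aeval (fun s => v (Sum.inl s)) Q) * h9
    exact (congrArg IsUnit h10).mpr hv.2
  · intro C D _ _ _ _ f v hv t
    rw [ht] at hv
    rcases t with t | t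
    · rfl
    · change zp (aeval (fun s => f (v (Sum.inl s))) F) (-1) * (f (v (Sum.inr ())) -
        aeval (fun s => f (v (Sum.inl s))) Q) =
        f (zp (aeval (fun s => v (Sum.inl s)) F) (-1) * (v (Sum.inr ()) -
          aeval (fun s => v (Sum.inl s)) Q))
      rw [aeval_nat f (fun s => v (Sum.inl s)), aeval_nat f (fun s => v (Sum.inl s)), map_mul,
        map_sub]
      congr 1
      exact (zp_map (f : C →+* D) hv.1 _).symm
  · intro C _ _ v hv t
    rw [hs] at hv
    rcases t with t | ⟨⟩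
    · rfl
    · change zp (aeval (fun s => v (Sum.inl s)) F) (-1) * (aeval v (sp1 F Q) -
        aeval (fun s => v (Sum.inl s)) Q) = v (Sum.inr ())
      rw [aeval_sp1]
      have h9 := zp_cancel hv.2
      linear_combination v (Sum.inr ()) * h9
  · intro C _ _ v hv t
    rw [ht] at hv
    rcases t with t | ⟨⟩
    · rfl
    · change aeval (Sum.elim (fun s => v (Sum.inl s)) fun _ => _) (sp1 F Q) = v (Sum.inr ())
      rw [aeval_sp1]
      change zp (aeval (fun s => v (Sum.inl s)) F) (-1) * (v (Sum.inr ()) -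
        aeval (fun s => v (Sum.inl s)) Q) * aeval (fun s => v (Sum.inl s)) F +
        aeval (fun s => v (Sum.inl s)) Q = v (Sum.inr ())
      have h9 := zp_cancel hv.1
      linear_combination (v (Sum.inr ()) - aeval (fun s => v (Sum.inl s)) Q) * h9

end

end Pool.Agent.H839.PZ
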