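import Pool.Agent.H839.PZ.Sub1
import Pool.Agent.H839.PZ.Border

/-!
# The Kirchhoff polynomials of a graph and of the graph with a vertex split in two
-/

set_option autoImplicit false

open CategoryTheory AlgebraicGeometry MvPolynomial

namespace Pool.Agent.H839.PZ.Gr

open Pool.Agent.Y116.UV Pool.Agent.Z125.UN Sy

section mat

variable {κ : Type} [Fintype κ] [DecidableEq κ] {C : Type} [CommRing C]

/-- the sum of the new row and the row `v`, and the same for the columns -/
def mg (v : κ) (M : Matrix (Unit ⊕ κ) (Unit ⊕ κ) C) : Matrix κ κ C :=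
  Matrix.of fun i j => M (Sum.inr i) (Sum.inr j) + (if i = v then M (Sum.inl ()) (Sum.inr j) else 0) +
    (if j = v then M (Sum.inr i) (Sum.inl ()) else 0) +
    (if i = v then (if j = v then M (Sum.inl ()) (Sum.inl ()) else 0) else 0)

lemma det_mg (v : κ) (M : Matrix (Unit ⊕ κ) (Unit ⊕ κ) C) : M.det =
    bd (M (Sum.inl ()) (Sum.inl ()))
      (fun j => M (Sum.inl ()) (Sum.inr j) + if j = v then M (Sum.inl ()) (Sum.inl ()) else 0)
      (fun i => M (Sum.inr i) (Sum.inl ()) + if i = v then M (Sum.inl ()) (Sum.inl ()) else 0)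
      (mg v M) := by
  let T : Matrix (Unit ⊕ κ) (Unit ⊕ κ) C := bm 1 0 (fun i => if i = v then 1 else 0) 1
  have hT : T.det = 1 := by
    have h := bd_one (fun i => if i = v then (1 : C) else 0) (1 : Matrix κ κ C)
    rw [Matrix.det_one] at h
    exact h
  have h1 : T * M * T.transpose = bm (M (Sum.inl ()) (Sum.inl ()))
      (fun j => M (Sum.inl ()) (Sum.inr j) + if j = v then M (Sum.inl ()) (Sum.inl ()) else 0)
      (fun i => M (Sum.inr i) (Sum.inl ()) + if i = v then M (Sum.inl ()) (Sum.inl ()) else 0)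
      (mg v M) := by
    have hl : ∀ b, (T * M) (Sum.inl ()) b = M (Sum.inl ()) b := by
      intro b
      rw [Matrix.mul_apply, Fintype.sum_sum_type, Fintype.sum_unique]
      simp [T, bm]
    have hr : ∀ i b, (T * M) (Sum.inr i) b = M (Sum.inr i) b + if i = v then M (Sum.inl ()) b else 0 := by
      intro i b
      rw [Matrix.mul_apply, Fintype.sum_sum_type, Fintype.sum_unique]
      simp [T, bm, Matrix.one_apply]
      ring
    have hl' : ∀ (N : Matrix (Unit ⊕ κ) (Unit ⊕ κ) C) a,
        (N * T.transpose) a (Sum.inl ()) = N a (Sum.inl ()) := by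
      intro N a
      rw [Matrix.mul_apply, Fintype.sum_sum_type, Fintype.sum_unique]
      simp [T, bm]
    have hr' : ∀ (N : Matrix (Unit ⊕ κ) (Unit ⊕ κ) C) a j, (N * T.transpose) a (Sum.inr j) =
        N a (Sum.inr j) + if j = v then N a (Sum.inl ()) else 0 := by
      intro N a j
      rw [Matrix.mul_apply, Fintype.sum_sum_type, Fintype.sum_unique]
      simp [T, bm, Matrix.one_apply]
      ring
    ext i j
    rcases i with ⟨⟩ | i <;> rcases j with ⟨⟩ | j
    · rw [hl', hl]
      rfl
    · rw [hr', hl, hl]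
      rfl
    · rw [hl', hr]
      rfl
    · rw [hr', hr, hr]
      change _ = M (Sum.inr i) (Sum.inr j) + (if i = v then M (Sum.inl ()) (Sum.inr j) else 0) +
        (if j = v then M (Sum.inr i) (Sum.inl ()) else 0) +
        (if i = v then (if j = v then M (Sum.inl ()) (Sum.inl ()) else 0) else 0)
      split_ifs <;> ring
  have h2 := congrArg Matrix.det h1
  rw [Matrix.det_mul, Matrix.det_mul, Matrix.det_transpose, hT, one_mul, mul_one] at h2
  exact h2

/-- **A new edge at a new vertex.** -/
lemma det_split (v : κ) (M N : Matrix (Unit ⊕ κ) (Unit ⊕ κ) C) (t : C)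
    (h1 : N (Sum.inl ()) (Sum.inl ()) = M (Sum.inl ()) (Sum.inl ()) + t)
    (h2 : ∀ j, N (Sum.inl ()) (Sum.inr j) = M (Sum.inl ()) (Sum.inr j) - if j = v then t else 0)
    (h3 : ∀ i, N (Sum.inr i) (Sum.inl ()) = M (Sum.inr i) (Sum.inl ()) - if i = v then t else 0)
    (h4 : ∀ i j, N (Sum.inr i) (Sum.inr j) = M (Sum.inr i) (Sum.inr j) +
      if i = v then (if j = v then t else 0) else 0) :
    N.det = t * (mg v M).det + M.det := by
  have e1 : mg v N = mg v M := by
    ext i j
    change N (Sum.inr i) (Sum.inr j) + (if i = v then N (Sum.inl ()) (Sum.inr j) else 0) +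
      (if j = v then N (Sum.inr i) (Sum.inl ()) else 0) +
      (if i = v then (if j = v then N (Sum.inl ()) (Sum.inl ()) else 0) else 0) =
      M (Sum.inr i) (Sum.inr j) + (if i = v then M (Sum.inl ()) (Sum.inr j) else 0) +
      (if j = v then M (Sum.inr i) (Sum.inl ()) else 0) +
      (if i = v then (if j = v then M (Sum.inl ()) (Sum.inl ()) else 0) else 0)
    rw [h1, h2, h3, h4]
    split_ifs <;> ring
  have e2 : (fun j => N (Sum.inl ()) (Sum.inr j) + if j = v then N (Sum.inl ()) (Sum.inl ()) else 0) =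
      fun j => M (Sum.inl ()) (Sum.inr j) + if j = v then M (Sum.inl ()) (Sum.inl ()) else 0 := by
    funext j
    rw [h1, h2]
    split_ifs <;> ring
  have e3 : (fun i => N (Sum.inr i) (Sum.inl ()) + if i = v then N (Sum.inl ()) (Sum.inl ()) else 0) =
      fun i => M (Sum.inr i) (Sum.inl ()) + if i = v then M (Sum.inl ()) (Sum.inl ()) else 0 := by
    funext i
    rw [h1, h3]
    split_ifs <;> ring
  rw [det_mg v N, e1, e2, e3, h1, bd_eq, det_mg v M, bd_eq]
  ring

end mat

section lm

variable {κ ε : Type} [Fintype κ] [DecidableEq κ] [Fintype ε] {C : Type} [CommRing C]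

/-- the incidence of an endpoint and a vertex -/
def inc (C : Type) [CommRing C] (p : Option κ) (i : κ) : C := if p = some i then 1 else 0

omit [Fintype κ] in
lemma inc_some (j i : κ) : inc C (some j) i = if i = j then 1 else 0 := by
  rw [inc]
  by_cases h : i = j
  · rw [if_pos h, if_pos (by rw [h])]
  · rw [if_neg h, if_neg fun h' => h (Option.some.inj h').symm]

omit [Fintype κ] in
lemma inc_none (i : κ) : inc C (none : Option κ) i = 0 := if_neg (by simp)

/-- the reduced Laplace matrix of the graph with the edges `e` between `a e` and `b e`, of weight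
`x e` -/
def lm (a b : ε → Option κ) (x : ε → C) : Matrix κ κ C :=
  Matrix.of fun i j => ∑ e, x e * ((inc C (a e) i - inc C (b e) i) * (inc C (a e) j - inc C (b e) j))

/-- merging the new vertex with `v` -/
def mv (v : κ) : Option (Unit ⊕ κ) → Option κ
  | none => none
  | some (Sum.inl _) => some v
  | some (Sum.inr i) => some i

/-- the new vertex -/
def nv : Option (Unit ⊕ κ) := some (Sum.inl ())

/-- the old vertices -/
def ov : Option κ → Option (Unit ⊕ κ) := Option.map Sum.inr

omit [Fintype κ] [DecidableEq κ] in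
lemma mv_ov (v : κ) (p : Option κ) : mv v (ov p) = p := by
  rcases p with _ | p <;> rfl

omit [Fintype κ] in
lemma inc_mv (v : κ) (p : Option (Unit ⊕ κ)) (i : κ) :
    inc C (mv v p) i = inc C p (Sum.inr i) + if i = v then inc C p (Sum.inl ()) else 0 := by
  rcases p with _ | ⟨⟩ | p
  · change inc C none i = inc C none _ + _
    rw [inc_none, inc_none, inc_none, ite_self, add_zero]
  · change inc C (some v) i = _
    have h1 : inc C (some (Sum.inl ()) : Option (Unit ⊕ κ)) (Sum.inr i) = 0 := by
      rw [inc_some, if_neg (by simp)]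
    have h2 : inc C (some (Sum.inl ()) : Option (Unit ⊕ κ)) (Sum.inl ()) = 1 := by
      rw [inc_some, if_pos rfl]
    rw [inc_some, h1, h2, zero_add]
  · change inc C (some p) i = _
    have h1 : inc C (some (Sum.inr p) : Option (Unit ⊕ κ)) (Sum.inr i) = if i = p then 1 else 0 := by
      rw [inc_some]
      congr 1
      simp
    have h2 : inc C (some (Sum.inr p) : Option (Unit ⊕ κ)) (Sum.inl ()) = 0 := by
      rw [inc_some, if_neg (by simp)]
    rw [inc_some, h1, h2, ite_self, add_zero]

omit [Fintype κ] in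
lemma mg_lm (v : κ) (a b : ε → Option (Unit ⊕ κ)) (x : ε → C) :
    mg v (lm a b x) = lm (fun e => mv v (a e)) (fun e => mv v (b e)) x := by
  ext i j
  change (∑ e, x e * ((inc C (a e) (Sum.inr i) - inc C (b e) (Sum.inr i)) *
      (inc C (a e) (Sum.inr j) - inc C (b e) (Sum.inr j)))) +
    (if i = v then ∑ e, x e * ((inc C (a e) (Sum.inl ()) - inc C (b e) (Sum.inl ())) *
      (inc C (a e) (Sum.inr j) - inc C (b e) (Sum.inr j))) else 0) +
    (if j = v then ∑ e, x e * ((inc C (a e) (Sum.inr i) - inc C (b e) (Sum.inr i)) *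
      (inc C (a e) (Sum.inl ()) - inc C (b e) (Sum.inl ()))) else 0) +
    (if i = v then (if j = v then ∑ e, x e * ((inc C (a e) (Sum.inl ()) - inc C (b e) (Sum.inl ())) *
      (inc C (a e) (Sum.inl ()) - inc C (b e) (Sum.inl ()))) else 0) else 0) =
    ∑ e, x e * ((inc C (mv v (a e)) i - inc C (mv v (b e)) i) *
      (inc C (mv v (a e)) j - inc C (mv v (b e)) j))
  simp only [inc_mv]
  split_ifs <;> simp only [← Finset.sum_add_distrib, add_zero] <;>
    refine Finset.sum_congr rfl fun e _ => ?_ <;> ring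

/-- one more edge -/
def adE (a : ε → Option κ) (p : Option κ) : ε ⊕ Unit → Option κ := Sum.elim a fun _ => p

omit [Fintype κ] in
lemma lm_adE (a b : ε → Option κ) (p q : Option κ) (x : ε ⊕ Unit → C) (i j : κ) :
    lm (adE a p) (adE b q) x i j = lm a b (fun e => x (Sum.inl e)) i j +
      x (Sum.inr ()) * ((inc C p i - inc C q i) * (inc C p j - inc C q j)) := by
  change ∑ e, x e * ((inc C (adE a p e) i - inc C (adE b q e) i) *
    (inc C (adE a p e) j - inc C (adE b q e) j)) = _
  rw [Fintype.sum_sum_type]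
  congr 1
  exact Fintype.sum_unique _

omit [Fintype κ] in
lemma lm_swap (a b : ε → Option κ) (p q : Option κ) (x : ε ⊕ Unit → C) :
    lm (adE a p) (adE b q) x = lm (adE a q) (adE b p) x := by
  ext i j
  rw [lm_adE, lm_adE]
  ring

/-- the edge between the new vertex and `v` -/
lemma det_edge (v : κ) (a b : ε → Option (Unit ⊕ κ)) (x : ε ⊕ Unit → C) :
    (lm (adE a nv) (adE b (some (Sum.inr v))) x).det =
      x (Sum.inr ()) * (lm (fun e => mv v (a e)) (fun e => mv v (b e)) fun e => x (Sum.inl e)).det +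
        (lm a b fun e => x (Sum.inl e)).det := by
  rw [← mg_lm]
  have hn : ∀ i : κ, inc C (nv : Option (Unit ⊕ κ)) (Sum.inr i) = 0 := by
    intro i
    rw [nv, inc_some, if_neg (by simp)]
  have hn' : inc C (nv : Option (Unit ⊕ κ)) (Sum.inl ()) = 1 := by
    rw [nv, inc_some, if_pos rfl]
  have hv : inc C (some (Sum.inr v) : Option (Unit ⊕ κ)) (Sum.inl ()) = 0 := by
    rw [inc_some, if_neg (by simp)]
  have hv' : ∀ i : κ, inc C (some (Sum.inr v) : Option (Unit ⊕ κ)) (Sum.inr i) =
      if i = v then 1 else 0 := by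
    intro i
    rw [inc_some]
    congr 1
    simp
  refine det_split v _ _ _ ?_ ?_ ?_ ?_
  · rw [lm_adE, hn', hv]
    ring
  · intro j
    rw [lm_adE, hn', hv, hn, hv']
    split_ifs <;> ring
  · intro i
    rw [lm_adE, hn', hv, hn, hv']
    split_ifs <;> ring
  · intro i j
    rw [lm_adE, hn, hv', hn, hv']
    split_ifs <;> ring

lemma det_iso (a b : ε → Option κ) (x : ε → C) :
    (lm (fun e => ov (a e)) (fun e => ov (b e)) x).det = 0 := by
  have h : ∀ p : Option κ, inc C (ov p) (Sum.inl ()) = 0 := by
    intro p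
    rcases p with _ | p
    · exact inc_none _
    · change inc C (some (Sum.inr p)) _ = 0
      rw [inc_some, if_neg (by simp)]
  refine Matrix.det_eq_zero_of_row_eq_zero (Sum.inl ()) fun j => ?_
  refine Finset.sum_eq_zero fun e _ => ?_
  rw [h, h]
  ring

/-- two edges in series between the new vertex and `v` -/
lemma det_path (v : κ) (a b : ε → Option (Unit ⊕ κ)) (x : (ε ⊕ Unit) ⊕ Unit → C) :
    (lm (adE (adE (fun e => ov (a e)) nv) nv)
      (adE (adE (fun e => ov (b e)) (some (Sum.inr (Sum.inl ())))) (some (Sum.inr (Sum.inr v))))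
      x).det =
    x (Sum.inr ()) * (lm (adE a nv) (adE b (some (Sum.inr v))) fun e => x (Sum.inl e)).det +
      x (Sum.inl (Sum.inr ())) * (lm a b fun e => x (Sum.inl (Sum.inl e))).det := by
  rw [det_edge (Sum.inr v), det_edge (Sum.inl ()), det_iso, add_zero]
  congr 1
  · congr 2
    rw [lm_swap]
    congr 1
    · funext e
      rcases e with e | e
      · exact mv_ov _ _
      · rfl
    · funext e
      rcases e with e | e
      · exact mv_ov _ _
      · rfl
  · congr 2
    congr 1
    · funext e
      exact mv_ov _ _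
    · funext e
      exact mv_ov _ _

end lm

end Pool.Agent.H839.PZ.Gr
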