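import Pool.Agent.H839.PZ.Sub2

/-!
# Splitting the vertices of degree at least four
-/

set_option autoImplicit false

open CategoryTheory AlgebraicGeometry MvPolynomial

namespace Pool.Agent.H839.PZ.Gr

open Pool.Agent.Y116.UV Pool.Agent.Z125.UN Sy

section kp

variable (R : Type) [CommRing R] {κ ε : Type} [Fintype κ] [DecidableEq κ] [Fintype ε]

/-- the Kirchhoff polynomial -/
noncomputable def kp (a b : ε → Option κ) : MvPolynomial ε R := (lm a b X).det

variable {R}

omit [Fintype κ] in
lemma lm_map {C D : Type} [CommRing C] [CommRing D] (f : C →+* D) (a b : ε → Option κ) (x : ε → C) :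
    (lm a b x).map f = lm a b fun e => f (x e) := by
  have h : ∀ p (i : κ), f (inc C p i) = inc D p i := by
    intro p i
    rw [inc, inc]
    split_ifs
    · exact map_one f
    · exact map_zero f
  ext i j
  rw [Matrix.map_apply, lm, lm, Matrix.of_apply, Matrix.of_apply, map_sum]
  refine Finset.sum_congr rfl fun e _ => ?_
  rw [map_mul, map_mul, map_sub, map_sub, h, h, h, h]

lemma kp_aeval {C : Type} [CommRing C] [Algebra R C] (a b : ε → Option κ) (v : ε → C) :
    aeval v (kp R a b) = (lm a b v).det := by
  rw [kp, AlgHom.map_det]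
  have h := lm_map (aeval v : MvPolynomial ε R →ₐ[R] C).toRingHom a b X
  have h1 : (aeval v : MvPolynomial ε R →ₐ[R] C).mapMatrix (lm a b X) =
      lm a b fun e => (aeval v : MvPolynomial ε R →ₐ[R] C).toRingHom (X e) := h
  rw [h1]
  congr 2
  funext e
  exact aeval_X _ _

lemma kp_rename {ε' : Type} (f : ε → ε') (a b : ε → Option κ) :
    (rename f (kp R a b) : MvPolynomial ε' R) = (lm a b fun e => X (f e)).det := by
  have h := aeval_X_left_apply (rename f (kp R a b) : MvPolynomial ε' R)
  rw [← h, aeval_rename]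
  exact kp_aeval a b _

end kp

section dg

variable {κ ε : Type} [DecidableEq κ] [Fintype ε]

/-- the graph has no loops and no multiple edges -/
structure Smp (a b : ε → Option κ) : Prop where
  ne : ∀ e, a e ≠ b e
  inj : ∀ e e', s(a e, b e) = s(a e', b e') → e = e'

/-- the edges at `p` -/
def Ed (a b : ε → Option κ) (p : Option κ) : Finset ε :=
  Finset.univ.filter fun e => a e = p ∨ b e = p

lemma mem_ed {a b : ε → Option κ} {p : Option κ} {e : ε} : e ∈ Ed a b p ↔ a e = p ∨ b e = p := by
  simp [Ed]

/-- the degree of the vertex `p` -/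
def dg (a b : ε → Option κ) (p : Option κ) : ℕ := (Ed a b p).card

lemma dg_eq (a b : ε → Option κ) (p : Option κ) :
    dg a b p = ∑ e, if a e = p ∨ b e = p then 1 else 0 := Finset.card_filter _ _

lemma dg_adE (a b : ε → Option κ) (p q r : Option κ) :
    dg (adE a p) (adE b q) r = dg a b r + if p = r ∨ q = r then 1 else 0 := by
  rw [dg_eq, dg_eq, Fintype.sum_sum_type]
  congr 1

omit [DecidableEq κ] in
lemma ov_inj : Function.Injective (ov : Option κ → Option (Unit ⊕ κ)) :=
  Option.map_injective Sum.inr_injective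

omit [DecidableEq κ] in
lemma ov_ne_nv (p : Option κ) : ov p ≠ nv := by
  rcases p with _ | p
  · simp [ov, nv]
  · intro h
    have := Option.some.inj h
    exact Sum.inr_ne_inl this

lemma dg_ov (a b : ε → Option κ) (p : Option κ) :
    dg (fun e => ov (a e)) (fun e => ov (b e)) (ov p) = dg a b p := by
  rw [dg_eq, dg_eq]
  refine Finset.sum_congr rfl fun e _ => ?_
  congr 1
  rw [ov_inj.eq_iff, ov_inj.eq_iff]

lemma dg_nv (a b : ε → Option κ) : dg (fun e => ov (a e)) (fun e => ov (b e)) nv = 0 := by
  rw [dg_eq]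
  refine Finset.sum_eq_zero fun e _ => if_neg ?_
  rintro (h | h)
  · exact ov_ne_nv _ h
  · exact ov_ne_nv _ h

omit [Fintype ε] [DecidableEq κ] in
lemma smp_ov {a b : ε → Option κ} (h : Smp a b) :
    Smp (fun e => ov (a e)) (fun e => ov (b e)) where
  ne e h1 := h.ne e (ov_inj h1)
  inj e e' h1 := by
    have h2 : Sym2.map ov s(a e, b e) = Sym2.map ov s(a e', b e') := h1
    exact h.inj e e' (Sym2.map.injective ov_inj h2)

omit [Fintype ε] [DecidableEq κ] in
lemma smp_adE {a b : ε → Option κ} (h : Smp a b) {p q : Option κ} (h1 : p ≠ q)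
    (h2 : ∀ e, s(a e, b e) ≠ s(p, q)) : Smp (adE a p) (adE b q) where
  ne e := by
    rcases e with e | e
    · exact h.ne e
    · exact h1
  inj e e' h3 := by
    rcases e with e | ⟨⟩ <;> rcases e' with e' | ⟨⟩
    · exact congrArg Sum.inl (h.inj e e' h3)
    · exact absurd h3 (h2 e)
    · exact absurd h3.symm (h2 e')
    · rfl

end dg

section split

variable {κ ε : Type} [DecidableEq κ] [Fintype ε] [DecidableEq ε] (A : Finset ε) (i : κ)

/-- the endpoint `i` of the edges in `A` is moved to the new vertex -/
def sv (a : ε → Option κ) (e : ε) : Option (Unit ⊕ κ) :=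
  if e ∈ A ∧ a e = some i then nv else ov (a e)

variable {A i} {a b : ε → Option κ}

omit [Fintype ε] in
lemma mv_sv (e : ε) : mv i (sv A i a e) = a e := by
  rw [sv]
  split_ifs with h
  · exact h.2.symm
  · exact mv_ov _ _

omit [Fintype ε] in
lemma smp_sv (h : Smp a b) : Smp (sv A i a) (sv A i b) where
  ne e h1 := by
    have h2 := congrArg (mv i) h1
    rw [mv_sv, mv_sv] at h2
    exact h.ne e h2
  inj e e' h1 := by
    have h2 : Sym2.map (mv i) s(sv A i a e, sv A i b e) =
      Sym2.map (mv i) s(sv A i a e', sv A i b e') := congrArg _ h1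
    rw [Sym2.map_mk, Sym2.map_mk, mv_sv, mv_sv, mv_sv, mv_sv] at h2
    exact h.inj e e' h2

omit [Fintype ε] in
lemma sv_new (h : Smp a b) (e : ε) : s(sv A i a e, sv A i b e) ≠ s(nv, some (Sum.inr i)) := by
  intro h1
  have h2 : Sym2.map (mv i) s(sv A i a e, sv A i b e) = Sym2.map (mv i) s(nv, some (Sum.inr i)) :=
    congrArg _ h1
  rw [Sym2.map_mk, Sym2.map_mk, mv_sv, mv_sv] at h2
  have h3 : s(a e, b e) = s(some i, some i) := h2
  rw [Sym2.eq_iff] at h3
  rcases h3 with ⟨h4, h5⟩ | ⟨h4, h5⟩
  · exact h.ne e (h4.trans h5.symm)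
  · exact h.ne e (h4.trans h5.symm)

omit [Fintype ε] [DecidableEq ε] in
lemma sv_eq_nv [DecidableEq ε] (e : ε) : sv A i a e = nv ↔ e ∈ A ∧ a e = some i := by
  rw [sv]
  split_ifs with h
  · exact ⟨fun _ => h, fun _ => rfl⟩
  · exact ⟨fun h1 => absurd h1 (ov_ne_nv _), fun h1 => absurd h1 h⟩

omit [Fintype ε] in
lemma sv_eq_ov (e : ε) (p : Option κ) :
    sv A i a e = ov p ↔ a e = p ∧ ¬ (e ∈ A ∧ a e = some i) := by
  rw [sv]
  split_ifs with h
  · exact ⟨fun h1 => absurd h1.symm (ov_ne_nv _), fun h1 => absurd h h1.2⟩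
  · exact ⟨fun h1 => ⟨ov_inj h1, h⟩, fun h1 => congrArg ov h1.1⟩

variable (hA : A ⊆ Ed a b (some i))

include hA

lemma dg_sv_nv : dg (sv A i a) (sv A i b) nv = A.card := by
  rw [dg]
  congr 1
  ext e
  rw [mem_ed, sv_eq_nv, sv_eq_nv]
  constructor
  · rintro (h | h) <;> exact h.1
  · intro h
    rcases mem_ed.mp (hA h) with h1 | h1
    · exact Or.inl ⟨h, h1⟩
    · exact Or.inr ⟨h, h1⟩

lemma dg_sv_i :
    dg (sv A i a) (sv A i b) (ov (some i)) + A.card = dg a b (some i) := by
  have h1 : Ed (sv A i a) (sv A i b) (ov (some i)) = Ed a b (some i) \ A := by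
    ext e
    rw [mem_ed, sv_eq_ov, sv_eq_ov, Finset.mem_sdiff, mem_ed]
    constructor
    · rintro (⟨h2, h3⟩ | ⟨h2, h3⟩)
      · exact ⟨Or.inl h2, fun h4 => h3 ⟨h4, h2⟩⟩
      · exact ⟨Or.inr h2, fun h4 => h3 ⟨h4, h2⟩⟩
    · rintro ⟨h2 | h2, h3⟩
      · exact Or.inl ⟨h2, fun h4 => h3 h4.1⟩
      · exact Or.inr ⟨h2, fun h4 => h3 h4.1⟩
  rw [dg, h1, Finset.card_sdiff_of_subset hA, dg, Nat.sub_add_cancel (Finset.card_le_card hA)]

omit hA in
lemma dg_sv_ne {p : Option κ} (hp : p ≠ some i) :
    dg (sv A i a) (sv A i b) (ov p) = dg a b p := by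
  rw [dg, dg]
  congr 1
  ext e
  rw [mem_ed, mem_ed, sv_eq_ov, sv_eq_ov]
  constructor
  · rintro (h | h)
    · exact Or.inl h.1
    · exact Or.inr h.1
  · rintro (h | h)
    · exact Or.inl ⟨h, fun h1 => hp (h.symm.trans h1.2)⟩
    · exact Or.inr ⟨h, fun h1 => hp (h.symm.trans h1.2)⟩

end split

section main

variable {R : Type} [CommRing R] {sep : Prop} {P : Sch R → Prop}

/-- the excess of the degrees of the vertices over three -/
def exc {κ ε : Type} [Fintype κ] [DecidableEq κ] [Fintype ε] (a b : ε → Option κ) : ℕ :=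
  ∑ i, (dg a b (some i) - 3)

/-- the three graphs -/
lemma of_three (hP : Bnd sep P) {κ ε : Type} [Fintype κ] [DecidableEq κ] [Fintype ε] (i : κ)
    (a b : ε → Option (Unit ⊕ κ))
    (h1 : PP P ∅ (kp R (adE a nv) (adE b (some (Sum.inr i)))))
    (h2 : PP P ∅ (kp R a b))
    (h3 : PP P ∅ (kp R (adE (adE (fun e => ov (a e)) nv) nv)
      (adE (adE (fun e => ov (b e)) (some (Sum.inr (Sum.inl ())))) (some (Sum.inr (Sum.inr i)))))) :
    PP P ∅ (kp R (fun e => mv i (a e)) fun e => mv i (b e)) := by
  have e1 : kp R (adE a nv) (adE b (some (Sum.inr i))) =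
      sp1 (kp R (fun e => mv i (a e)) fun e => mv i (b e)) (kp R a b) := by
    rw [kp, det_edge, sp1, kp_rename, kp_rename]
  refine pp_series hP _ (kp R a b) ?_ h2 ?_
  · rw [← e1]
    exact h1
  · have e2 : kp R (adE (adE (fun e => ov (a e)) nv) nv)
        (adE (adE (fun e => ov (b e)) (some (Sum.inr (Sum.inl ())))) (some (Sum.inr (Sum.inr i)))) =
        sp2 (kp R (fun e => mv i (a e)) fun e => mv i (b e)) (kp R a b) := by
      rw [kp, det_path, sp2, ← e1, kp_rename, rename_rename, kp_rename]
      rfl
    rw [← e2]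
    exact h3

/-- **Graphs of maximal degree three.** -/
theorem all_of_sub (hP : Bnd sep P)
    (h : ∀ (κ ε : Type) [Fintype κ] [DecidableEq κ] [Fintype ε] (a b : ε → Option κ), Smp a b →
      (∀ p, dg a b p ≤ 3) → PP P (∅ : Set (MvPolynomial ε R)) (kp R a b)) (n : ℕ) :
    ∀ (κ ε : Type) [Fintype κ] [DecidableEq κ] [Fintype ε] (a b : ε → Option κ), Smp a b →
      dg a b none ≤ 3 → exc a b ≤ n → PP P (∅ : Set (MvPolynomial ε R)) (kp R a b) := by
  classical
  induction n with
  | zero =>
    intro κ ε _ _ _ a b hs h0 hn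
    refine h κ ε a b hs fun p => ?_
    rcases p with _ | i
    · exact h0
    · have h1 := Finset.sum_eq_zero_iff.mp (Nat.le_zero.mp hn) i (Finset.mem_univ i)
      omega
  | succ n ih =>
    intro κ ε _ _ _ a b hs h0 hn
    by_cases hd : ∀ p, dg a b p ≤ 3
    · exact h κ ε a b hs hd
    obtain ⟨i, hi⟩ : ∃ i : κ, 4 ≤ dg a b (some i) := by
      by_contra h1
      push Not at h1
      refine hd fun p => ?_
      rcases p with _ | i
      · exact h0
      · exact Nat.le_of_lt_succ (h1 i)
    obtain ⟨A, hA, hA2⟩ := Finset.exists_subset_card_eq (s := Ed a b (some i)) (n := 2)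
      (by have := hi; rw [dg] at this; omega)
    have g1 : dg (sv A i a) (sv A i b) nv = 2 := by rw [dg_sv_nv hA, hA2]
    have g2 : dg (sv A i a) (sv A i b) (ov (some i)) + 2 = dg a b (some i) := by
      have := dg_sv_i hA
      rwa [hA2] at this
    have g3 : ∀ {p : Option κ}, p ≠ some i → dg (sv A i a) (sv A i b) (ov p) = dg a b p :=
      fun hp => dg_sv_ne hp
    have hsv := smp_sv (A := A) (i := i) hs
    have hS1 : Smp (adE (sv A i a) nv) (adE (sv A i b) (some (Sum.inr i))) :=
      smp_adE hsv (fun h1 => ov_ne_nv (some i) h1.symm) fun e => sv_new hs e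
    have key : ∀ f : κ → ℕ, (∀ j, f j ≤ dg a b (some j)) → f i + 1 ≤ dg a b (some i) →
        ∑ j, (f j - 3) < exc a b := by
      intro f hf hfi
      refine Finset.sum_lt_sum (fun j _ => Nat.sub_le_sub_right (hf j) 3) ⟨i, Finset.mem_univ i, ?_⟩
      omega
    have hmv : kp R a b = kp R (fun e => mv i (sv A i a e)) fun e => mv i (sv A i b e) := by
      congr 1
      · funext e
        exact (mv_sv e).symm
      · funext e
        exact (mv_sv e).symm
    have hdj : ∀ j : κ, dg (sv A i a) (sv A i b) (some (Sum.inr j)) ≤ dg a b (some j) := by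
      intro j
      by_cases hj : j = i
      · subst hj
        have : dg (sv A j a) (sv A j b) (some (Sum.inr j)) + 2 = dg a b (some j) := g2
        omega
      · exact (g3 fun h1 => hj (Option.some.inj h1)).le
    rw [hmv]
    refine of_three hP i _ _ ?_ ?_ ?_
    · refine ih _ _ _ _ hS1 ?_ ?_
      · rw [dg_adE, if_neg (by simp [nv])]
        exact (g3 (p := none) (by simp)).le.trans h0
      · have e1 : exc (adE (sv A i a) nv) (adE (sv A i b) (some (Sum.inr i))) =
            ∑ j : κ, (dg (adE (sv A i a) nv) (adE (sv A i b) (some (Sum.inr i)))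
              (some (Sum.inr j)) - 3) := by
          rw [exc, Fintype.sum_sum_type, Fintype.sum_unique]
          have h3' : dg (adE (sv A i a) nv) (adE (sv A i b) (some (Sum.inr i))) nv = 3 := by
            rw [dg_adE, if_pos (Or.inl rfl), g1]
          have : dg (adE (sv A i a) nv) (adE (sv A i b) (some (Sum.inr i)))
              (some (Sum.inl ())) = 3 := h3'
          change dg (adE (sv A i a) nv) (adE (sv A i b) (some (Sum.inr i)))
              (some (Sum.inl ())) - 3 + _ = _
          rw [this]
          omega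
        rw [e1]
        refine Nat.le_of_lt_succ (lt_of_lt_of_le (key _ (fun j => ?_) ?_) hn)
        · rw [dg_adE]
          by_cases hj : j = i
          · subst hj
            have : dg (sv A j a) (sv A j b) (some (Sum.inr j)) + 2 = dg a b (some j) := g2
            split_ifs <;> omega
          · rw [if_neg]
            · exact hdj j
            · rintro (h1 | h1)
              · exact ov_ne_nv (some j) h1.symm
              · exact hj (Sum.inr.inj (Option.some.inj h1)).symm
        · rw [dg_adE, if_pos (Or.inr rfl)]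
          have : dg (sv A i a) (sv A i b) (some (Sum.inr i)) + 2 = dg a b (some i) := g2
          omega
    · refine ih _ _ _ _ hsv ?_ ?_
      · exact (g3 (p := none) (by simp)).le.trans h0
      · have e1 : exc (sv A i a) (sv A i b) =
            ∑ j : κ, (dg (sv A i a) (sv A i b) (some (Sum.inr j)) - 3) := by
          rw [exc, Fintype.sum_sum_type, Fintype.sum_unique]
          have : dg (sv A i a) (sv A i b) (some (Sum.inl ())) = 2 := g1
          change dg (sv A i a) (sv A i b) (some (Sum.inl ())) - 3 + _ = _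
          rw [this]
          omega
        rw [e1]
        refine Nat.le_of_lt_succ (lt_of_lt_of_le (key _ hdj ?_) hn)
        have : dg (sv A i a) (sv A i b) (some (Sum.inr i)) + 2 = dg a b (some i) := g2
        omega
    · have hS3 : Smp (adE (adE (fun e => ov (sv A i a e)) nv) nv)
          (adE (adE (fun e => ov (sv A i b e)) (some (Sum.inr (Sum.inl ()))))
            (some (Sum.inr (Sum.inr i)))) := by
        refine smp_adE (smp_adE (smp_ov hsv) (fun h1 => ov_ne_nv nv h1.symm) fun e h1 => ?_)
          (fun h1 => ov_ne_nv (some (Sum.inr i)) h1.symm) fun e h1 => ?_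
        · rw [Sym2.eq_iff] at h1
          rcases h1 with ⟨h2, _⟩ | ⟨_, h2⟩
          · exact ov_ne_nv _ h2
          · exact ov_ne_nv _ h2
        · rw [Sym2.eq_iff] at h1
          rcases e with e | e
          · rcases h1 with ⟨h2, _⟩ | ⟨_, h2⟩
            · exact ov_ne_nv _ h2
            · exact ov_ne_nv _ h2
          · rcases h1 with ⟨_, h2⟩ | ⟨h2, _⟩
            · have h3 : (Sum.inr (Sum.inl ()) : Unit ⊕ (Unit ⊕ κ)) = Sum.inr (Sum.inr i) :=
                Option.some.inj h2
              exact absurd (Sum.inr.inj h3) Sum.inl_ne_inr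
            · exact ov_ne_nv (some (Sum.inr i)) h2.symm
      have d0 : ∀ r : Option (Unit ⊕ κ), dg (adE (adE (fun e => ov (sv A i a e)) nv) nv)
          (adE (adE (fun e => ov (sv A i b e)) (some (Sum.inr (Sum.inl ()))))
            (some (Sum.inr (Sum.inr i)))) (ov r) = dg (sv A i a) (sv A i b) r +
            (if r = nv then 1 else 0) + if r = some (Sum.inr i) then 1 else 0 := by
        intro r
        rw [dg_adE, dg_adE, dg_ov]
        congr 1
        · congr 1
          refine if_congr ?_ rfl rfl
          constructor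
          · rintro (h1 | h1)
            · exact absurd h1.symm (ov_ne_nv _)
            · have h2 : ov nv = ov r := h1
              exact (ov_inj h2).symm
          · rintro rfl
            exact Or.inr rfl
        · refine if_congr ?_ rfl rfl
          constructor
          · rintro (h1 | h1)
            · exact absurd h1.symm (ov_ne_nv _)
            · have h2 : ov (some (Sum.inr i)) = ov r := h1
              exact (ov_inj h2).symm
          · rintro rfl
            exact Or.inr rfl
      have d1 : dg (adE (adE (fun e => ov (sv A i a e)) nv) nv)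
          (adE (adE (fun e => ov (sv A i b e)) (some (Sum.inr (Sum.inl ()))))
            (some (Sum.inr (Sum.inr i)))) nv = 2 := by
        rw [dg_adE, dg_adE, dg_nv, if_pos (Or.inl rfl), if_pos (Or.inl rfl)]
      refine ih _ _ _ _ hS3 ?_ ?_
      · have h1 := d0 none
        have h2 : dg (sv A i a) (sv A i b) none = dg a b none := g3 (p := none) (by simp)
        rw [h2, if_neg (by simp [nv]), if_neg (by simp)] at h1
        exact h1.le.trans h0
      · have e1 : exc (adE (adE (fun e => ov (sv A i a e)) nv) nv)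
            (adE (adE (fun e => ov (sv A i b e)) (some (Sum.inr (Sum.inl ()))))
            (some (Sum.inr (Sum.inr i)))) =
            ∑ j : κ, (dg (adE (adE (fun e => ov (sv A i a e)) nv) nv)
              (adE (adE (fun e => ov (sv A i b e)) (some (Sum.inr (Sum.inl ()))))
                (some (Sum.inr (Sum.inr i)))) (ov (some (Sum.inr j))) - 3) := by
          rw [exc, Fintype.sum_sum_type, Fintype.sum_unique, Fintype.sum_sum_type,
            Fintype.sum_unique]
          have h1 := d0 nv
          rw [g1, if_pos rfl, if_neg (fun h2 => ov_ne_nv (some i) h2.symm)] at h1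
          have h1' : dg (adE (adE (fun e => ov (sv A i a e)) nv) nv)
            (adE (adE (fun e => ov (sv A i b e)) (some (Sum.inr (Sum.inl ()))))
            (some (Sum.inr (Sum.inr i)))) (some (Sum.inr (Sum.inl ()))) = 3 := h1
          have h2' : dg (adE (adE (fun e => ov (sv A i a e)) nv) nv)
            (adE (adE (fun e => ov (sv A i b e)) (some (Sum.inr (Sum.inl ()))))
            (some (Sum.inr (Sum.inr i)))) (some (Sum.inl ())) = 2 := d1
          change dg (adE (adE (fun e => ov (sv A i a e)) nv) nv)
            (adE (adE (fun e => ov (sv A i b e)) (some (Sum.inr (Sum.inl ()))))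
            (some (Sum.inr (Sum.inr i)))) (some (Sum.inl ())) - 3 +
            (dg (adE (adE (fun e => ov (sv A i a e)) nv) nv)
            (adE (adE (fun e => ov (sv A i b e)) (some (Sum.inr (Sum.inl ()))))
            (some (Sum.inr (Sum.inr i)))) (some (Sum.inr (Sum.inl ()))) - 3 + _) = _
          rw [h1', h2']
          rw [show 2 - 3 = 0 from rfl, zero_add, zero_add]
          rfl
        rw [e1]
        have hjn : ∀ j : κ, (some (Sum.inr j) : Option (Unit ⊕ κ)) ≠ nv :=
          fun j => ov_ne_nv (some j)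
        refine Nat.le_of_lt_succ (lt_of_lt_of_le (key _ (fun j => ?_) ?_) hn)
        · rw [d0, if_neg (hjn j)]
          by_cases hj : j = i
          · subst hj
            have : dg (sv A j a) (sv A j b) (some (Sum.inr j)) + 2 = dg a b (some j) := g2
            rw [if_pos rfl]
            omega
          · rw [if_neg fun h2 => hj (Sum.inr.inj (Option.some.inj h2))]
            have := hdj j
            omega
        · rw [d0, if_neg (hjn i), if_pos rfl]
          have : dg (sv A i a) (sv A i b) (some (Sum.inr i)) + 2 = dg a b (some i) := g2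
          omega

end main

end Pool.Agent.H839.PZ.Gr
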