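import Pool.Agent.H839.PZ.Sub3
import Pool.Agent.H839.PZ.Graph

/-!
# Graphs of maximal degree three
-/

set_option autoImplicit false

open CategoryTheory AlgebraicGeometry MvPolynomial

namespace Pool.Agent.H839.PZ.Gr

open Pool.Agent.Y116.UV Pool.Agent.Z125.UN Sy

section root

variable {κ ε : Type} [Fintype κ] [DecidableEq κ] [Fintype ε]

/-- the old root is a vertex -/
def rt : Option κ → Option (Unit ⊕ κ)
  | none => some (Sum.inl ())
  | some i => some (Sum.inr i)

omit [Fintype κ] [DecidableEq κ] in
lemma rt_inj : Function.Injective (rt : Option κ → Option (Unit ⊕ κ)) := by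
  intro p q h
  rcases p with _ | p <;> rcases q with _ | q
  · rfl
  · exact absurd (Option.some.inj h) Sum.inl_ne_inr
  · exact absurd (Option.some.inj h) Sum.inr_ne_inl
  · exact congrArg some (Sum.inr.inj (Option.some.inj h))

omit [Fintype κ] [DecidableEq κ] in
lemma rt_ne (p : Option κ) : rt p ≠ none := by
  rcases p with _ | p <;> simp [rt]

variable {C : Type} [CommRing C]

omit [Fintype κ] in
lemma inc_rt (p : Option κ) (i : κ) : inc C (rt p) (Sum.inr i) = inc C p i := by
  rcases p with _ | p
  · change inc C (some (Sum.inl ())) _ = _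
    rw [inc_some, inc_none, if_neg (by simp)]
  · change inc C (some (Sum.inr p)) _ = _
    rw [inc_some, inc_some]
    congr 1
    simp

omit [DecidableEq κ] in
lemma sum_inc [DecidableEq κ] (p : Option κ) : ∑ j, inc C (rt p) j = 1 := by
  have h : ∀ q : Unit ⊕ κ, ∑ j, inc C (some q) j = 1 := by
    intro q
    rw [Finset.sum_congr rfl fun j _ => inc_some (C := C) q j, Finset.sum_ite_eq']
    simp
  rcases p with _ | p
  · exact h _
  · exact h _

lemma det_full (a b : ε → Option κ) (x : ε → C) :
    (lm (fun e => rt (a e)) (fun e => rt (b e)) x).det = 0 := by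
  set M := lm (fun e => rt (a e)) (fun e => rt (b e)) x with hM
  have h1 : M.mulVec (fun _ => 1) = 0 := by
    funext i
    change ∑ j, M i j * 1 = 0
    simp only [mul_one]
    change ∑ j, ∑ e, x e * ((inc C (rt (a e)) i - inc C (rt (b e)) i) *
      (inc C (rt (a e)) j - inc C (rt (b e)) j)) = 0
    rw [Finset.sum_comm]
    refine Finset.sum_eq_zero fun e _ => ?_
    rw [← Finset.mul_sum, ← Finset.mul_sum, Finset.sum_sub_distrib, sum_inc, sum_inc, sub_self,
      mul_zero, mul_zero]
  have h2 : M.adjugate.mulVec (M.mulVec fun _ => 1) = 0 := by rw [h1, Matrix.mulVec_zero]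
  rw [Matrix.mulVec_mulVec, Matrix.adjugate_mul, Matrix.smul_mulVec, Matrix.one_mulVec] at h2
  have h3 := congrFun h2 (Sum.inl ())
  simpa using h3

/-- the edge at the new root -/
lemma det_root (a b : ε → Option κ) (x : ε ⊕ Unit → C) :
    (lm (adE (fun e => rt (a e)) none) (adE (fun e => rt (b e)) nv) x).det =
      x (Sum.inr ()) * (lm a b fun e => x (Sum.inl e)).det := by
  set M := lm (fun e => rt (a e)) (fun e => rt (b e)) (fun e => x (Sum.inl e)) with hM
  have hL : ∀ i j : κ, M (Sum.inr i) (Sum.inr j) = lm a b (fun e => x (Sum.inl e)) i j := by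
    intro i j
    rw [hM]
    refine Finset.sum_congr rfl fun e _ => ?_
    rw [inc_rt, inc_rt, inc_rt, inc_rt]
  have hn : ∀ i : κ, inc C (nv : Option (Unit ⊕ κ)) (Sum.inr i) = 0 := by
    intro i
    rw [nv, inc_some, if_neg (by simp)]
  have hn' : inc C (nv : Option (Unit ⊕ κ)) (Sum.inl ()) = 1 := by
    rw [nv, inc_some, if_pos rfl]
  have h1 : lm (adE (fun e => rt (a e)) none) (adE (fun e => rt (b e)) nv) x =
      bm (M (Sum.inl ()) (Sum.inl ()) + x (Sum.inr ())) (fun j => M (Sum.inl ()) (Sum.inr j))
        (fun i => M (Sum.inr i) (Sum.inl ())) (lm a b fun e => x (Sum.inl e)) := by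
    ext i j
    rw [lm_adE]
    rcases i with ⟨⟩ | i <;> rcases j with ⟨⟩ | j
    · rw [inc_none, hn']
      change _ = M (Sum.inl ()) (Sum.inl ()) + x (Sum.inr ())
      ring
    · rw [inc_none, inc_none, hn', hn]
      change _ = M (Sum.inl ()) (Sum.inr j)
      ring
    · rw [inc_none, inc_none, hn', hn]
      change _ = M (Sum.inr i) (Sum.inl ())
      ring
    · rw [inc_none, inc_none, hn, hn]
      change _ = lm a b (fun e => x (Sum.inl e)) i j
      rw [← hL]
      ring
  have h2 : M = bm (M (Sum.inl ()) (Sum.inl ())) (fun j => M (Sum.inl ()) (Sum.inr j))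
        (fun i => M (Sum.inr i) (Sum.inl ())) (lm a b fun e => x (Sum.inl e)) := by
    ext i j
    rcases i with ⟨⟩ | i <;> rcases j with ⟨⟩ | j
    · rfl
    · rfl
    · rfl
    · exact hL i j
  have h3 : bd (M (Sum.inl ()) (Sum.inl ())) (fun j => M (Sum.inl ()) (Sum.inr j))
        (fun i => M (Sum.inr i) (Sum.inl ())) (lm a b fun e => x (Sum.inl e)) = 0 := by
    rw [bd, ← h2, hM]
    exact det_full a b _
  rw [h1]
  change bd _ _ _ _ = _
  rw [bd_eq] at h3 ⊢
  linear_combination h3

variable {R : Type} [CommRing R] {sep : Prop} {P : Sch R → Prop}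

lemma pp_root (hP : Bnd sep P) (a b : ε → Option κ)
    (h : PP P ∅ (kp R (adE (fun e => rt (a e)) none) (adE (fun e => rt (b e)) nv))) :
    PP P ∅ (kp R a b) := by
  refine pp_torus hP ?_
  rw [Set.image_empty]
  have h1 : kp R (adE (fun e => rt (a e)) none) (adE (fun e => rt (b e)) nv) =
      rename Sum.inl (kp R a b) * X (Sum.inr ()) := by
    rw [kp, det_root, kp_rename, mul_comm]
  rw [← h1]
  exact h

omit [Fintype κ] [DecidableEq κ] [Fintype ε] in
lemma smp_rt {a b : ε → Option κ} (h : Smp a b) :
    Smp (adE (fun e => rt (a e)) none) (adE (fun e => rt (b e)) nv) := by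
  refine smp_adE ⟨fun e h1 => h.ne e (rt_inj h1), fun e e' h1 => ?_⟩ (by simp [nv]) fun e h1 => ?_
  · have h2 : Sym2.map rt s(a e, b e) = Sym2.map rt s(a e', b e') := h1
    exact h.inj e e' (Sym2.map.injective rt_inj h2)
  · rw [Sym2.eq_iff] at h1
    rcases h1 with ⟨h2, _⟩ | ⟨_, h2⟩
    · exact rt_ne _ h2
    · exact rt_ne _ h2

omit [Fintype κ] in
lemma dg_rt (a b : ε → Option κ) :
    dg (adE (fun e => rt (a e)) none) (adE (fun e => rt (b e)) nv) none = 1 := by
  rw [dg_adE, if_pos (Or.inl rfl), dg_eq, Finset.sum_eq_zero]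
  intro e _
  exact if_neg fun h => h.elim (rt_ne _) (rt_ne _)

end root

section conv

variable {m : ℕ} {ε : Type} [Fintype ε] {C : Type} [CommRing C]

/-- the coefficient of an edge in the Laplace matrix -/
lemma coef_ne {i j : Fin m} (hij : i ≠ j) {p q : Option (Fin m)} (hpq : p ≠ q) :
    (inc C p i - inc C q i) * (inc C p j - inc C q j) =
      - if s(p, q) = s(some i, some j) then 1 else 0 := by
  have hn : (some i : Option (Fin m)) ≠ some j := fun h => hij (Option.some.inj h)
  unfold inc
  by_cases h1 : p = some i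
  · subst h1
    by_cases h2 : q = some j
    · subst h2
      rw [if_pos rfl, if_neg hn.symm, if_neg hn, if_pos rfl, if_pos rfl]
      ring
    · rw [if_pos rfl, if_neg hpq.symm, if_neg hn, if_neg h2, if_neg]
      · ring
      · rw [Sym2.eq_iff]
        rintro (⟨_, h⟩ | ⟨h, _⟩)
        · exact h2 h
        · exact hn h
  · by_cases h2 : q = some i
    · subst h2
      by_cases h3 : p = some j
      · subst h3
        rw [if_neg hn.symm, if_pos rfl, if_pos rfl, if_neg hn, if_pos Sym2.eq_swap]
        ring
      · rw [if_neg h1, if_pos rfl, if_neg h3, if_neg hn, if_neg]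
        · ring
        · rw [Sym2.eq_iff]
          rintro (⟨h, _⟩ | ⟨h, _⟩)
          · exact h1 h
          · exact h3 h
    · have h3 : ¬ s(p, q) = s(some i, some j) := by
        rw [Sym2.eq_iff]
        rintro (⟨h, _⟩ | ⟨_, h⟩)
        · exact h1 h
        · exact h2 h
      rw [if_neg h1, if_neg h2, if_neg h3]
      ring

lemma coef_eq (i : Fin m) {p q : Option (Fin m)} (hpq : p ≠ q) :
    (inc C p i - inc C q i) * (inc C p i - inc C q i) =
      (if s(p, q) = s(some i, none) then 1 else 0) +
        ∑ k, if k = i then 0 else if s(p, q) = s(some i, some k) then 1 else 0 := by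
  have key : ∀ r : Option (Fin m), r ≠ some i → (1 : C) =
      (if s(some i, r) = s(some i, none) then 1 else 0) +
        ∑ k, if k = i then 0 else if s(some i, r) = s(some i, some k) then 1 else 0 := by
    intro r hr
    have h1 : ∀ t : Option (Fin m), s(some i, r) = s(some i, t) ↔ r = t := by
      intro t
      rw [Sym2.eq_iff]
      constructor
      · rintro (⟨_, h⟩ | ⟨h, h'⟩)
        · exact h
        · exact absurd h' hr
      · rintro rfl
        exact Or.inl ⟨rfl, rfl⟩
    simp only [h1]
    rcases r with _ | r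
    · rw [if_pos rfl, Finset.sum_eq_zero, add_zero]
      intro k _
      rw [if_neg (by simp : ¬ (none : Option (Fin m)) = some k), ite_self]
    · have hri : r ≠ i := fun h => hr (congrArg some h)
      rw [if_neg (by simp), Finset.sum_eq_single r, if_neg hri, if_pos rfl, zero_add]
      · intro k _ hk
        rw [if_neg fun h : some r = some k => hk (Option.some.inj h).symm, ite_self]
      · intro h
        exact absurd (Finset.mem_univ r) h
  by_cases h1 : p = some i
  · subst h1
    rw [← key q hpq.symm]
    unfold inc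
    rw [if_pos rfl, if_neg hpq.symm]
    ring
  · by_cases h2 : q = some i
    · subst h2
      have h3 : s(p, some i) = s(some i, p) := Sym2.eq_swap
      rw [h3, ← key p hpq]
      unfold inc
      rw [if_pos rfl, if_neg h1]
      ring
    · unfold inc
      have h3 : ∀ t, s(p, q) ≠ s(some i, t) := by
        intro t h
        rw [Sym2.eq_iff] at h
        rcases h with ⟨h, _⟩ | ⟨_, h⟩
        · exact h1 h
        · exact h2 h
      rw [if_neg h1, if_neg h2, if_neg (h3 _), Finset.sum_eq_zero]
      · ring
      · intro k _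
        rw [if_neg (h3 _), ite_self]

/-- the Laplace matrix of the list of the edges -/
lemma lap_eq_lm (a b : ε → Option (Fin m)) (ha : ∀ e, a e ≠ b e) (x : ε → C)
    (y : Sym2 (Option (Fin m)) → C) (hy : ∀ q, y q = ∑ e, if s(a e, b e) = q then x e else 0) :
    lap y = lm a b x := by
  ext i j
  change (if i = j then y s(some i, none) + ∑ k, (if k = i then 0 else y s(some i, some k)) else
    - y s(some i, some j)) = ∑ e, x e * ((inc C (a e) i - inc C (b e) i) *
      (inc C (a e) j - inc C (b e) j))
  split_ifs with hij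
  · subst hij
    rw [Finset.sum_congr rfl fun e _ => congrArg (x e * ·) (coef_eq i (ha e))]
    simp only [mul_add, Finset.sum_add_distrib]
    congr 1
    · rw [hy]
      refine Finset.sum_congr rfl fun e _ => ?_
      split_ifs
      · rw [mul_one]
      · rw [mul_zero]
    · simp only [Finset.mul_sum]
      rw [Finset.sum_comm]
      refine Finset.sum_congr rfl fun k _ => ?_
      split_ifs with hk
      · simp
      · rw [hy]
        refine Finset.sum_congr rfl fun e _ => ?_
        split_ifs
        · rw [mul_one]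
        · rw [mul_zero]
  · rw [Finset.sum_congr rfl fun e _ => congrArg (x e * ·) (coef_ne hij (ha e)), hy,
      ← Finset.sum_neg_distrib]
    refine Finset.sum_congr rfl fun e _ => ?_
    split_ifs
    · rw [mul_neg, mul_one]
    · rw [neg_zero, mul_zero]

variable {R : Type} [CommRing R] {sep : Prop} {P : Sch R → Prop}

/-- the simple graph and the list of its edges -/
lemma pp_conv (hP : Bnd sep P) (G : SimpleGraph (Option (Fin m))) (a b : ε → Option (Fin m))
    (ha : ∀ e, a e ≠ b e) (φ : ε ≃ G.edgeSet) (hφ : ∀ e, (φ e : Sym2 (Option (Fin m))) = s(a e, b e)) :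
    PP P ∅ (kp R a b) ↔ PP P ∅ (kirch R G) := by
  classical
  have hfin : Finite G.edgeSet := inferInstance
  have h1 : ∀ {C : Type} [CommRing C] [Algebra R C] (v : G.edgeSet → C),
      aeval v (kirch R G) = aeval (fun e => v (φ e)) (kp R a b) := by
    intro C _ _ v
    rw [aeval_kirch, kp_aeval]
    congr 1
    refine lap_eq_lm a b ha _ _ fun q => ?_
    split_ifs with hq
    · rw [Finset.sum_eq_single (φ.symm ⟨q, hq⟩)]
      · rw [← hφ, Equiv.apply_symm_apply, if_pos rfl]
      · intro e _ he
        rw [if_neg]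
        intro h
        rw [← hφ] at h
        refine he ?_
        rw [Equiv.eq_symm_apply]
        exact Subtype.ext h
      · intro h
        exact absurd (Finset.mem_univ _) h
    · refine (Finset.sum_eq_zero fun e _ => if_neg fun h => hq ?_).symm
      rw [← h, ← hφ]
      exact (φ e).2
  have h2 : ∀ {C : Type} [CommRing C] [Algebra R C] (v : ε → C),
      aeval v (kp R a b) = aeval (fun e => v (φ.symm e)) (kirch R G) := by
    intro C _ _ v
    rw [h1]
    congr 2
    funext e
    rw [Equiv.symm_apply_apply]
  constructor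
  · intro h
    refine pp_iso hP ⟨fun C _ _ v e => v (φ.symm e), ?_, ?_⟩ ⟨fun C _ _ v e => v (φ e), ?_, ?_⟩
      ?_ ?_ h
    · intro C _ _ v hv
      rw [pt_empty] at hv ⊢
      rw [← h2]
      exact hv
    · intro C D _ _ _ _ f v _ t
      rfl
    · intro C _ _ v hv
      rw [pt_empty] at hv ⊢
      rw [← h1]
      exact hv
    · intro C D _ _ _ _ f v _ t
      rfl
    · intro C _ _ v _ s
      change v (φ.symm (φ s)) = v s
      rw [Equiv.symm_apply_apply]
    · intro C _ _ v _ s
      change v (φ (φ.symm s)) = v s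
      rw [Equiv.apply_symm_apply]
  · intro h
    refine pp_iso hP ⟨fun C _ _ v e => v (φ e), ?_, ?_⟩ ⟨fun C _ _ v e => v (φ.symm e), ?_, ?_⟩
      ?_ ?_ h
    · intro C _ _ v hv
      rw [pt_empty] at hv ⊢
      rw [← h1]
      exact hv
    · intro C D _ _ _ _ f v _ t
      rfl
    · intro C _ _ v hv
      rw [pt_empty] at hv ⊢
      rw [← h2]
      exact hv
    · intro C D _ _ _ _ f v _ t
      rfl
    · intro C _ _ v _ s
      change v (φ (φ.symm s)) = v s
      rw [Equiv.apply_symm_apply]
    · intro C _ _ v _ s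
      change v (φ.symm (φ s)) = v s
      rw [Equiv.symm_apply_apply]

end conv

section final

variable {R : Type} [CommRing R] {sep : Prop} {P : Sch R → Prop}

/-- the graph of the list of the edges -/
def gr {κ ε : Type} {a b : ε → Option κ} (h : ∀ e, a e ≠ b e) : SimpleGraph (Option κ) where
  Adj p q := ∃ e, s(a e, b e) = s(p, q)
  symm := ⟨fun p q ⟨e, he⟩ => ⟨e, he.trans Sym2.eq_swap⟩⟩
  loopless := ⟨fun p ⟨e, he⟩ => by
    rw [Sym2.eq_iff] at he
    rcases he with ⟨h1, h2⟩ | ⟨h1, h2⟩
    · exact h e (h1.trans h2.symm)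
    · exact h e (h1.trans h2.symm)⟩

lemma gr_ncard {κ ε : Type} [Fintype κ] [DecidableEq κ] [Fintype ε] {a b : ε → Option κ}
    (h : ∀ e, a e ≠ b e) (p : Option κ) : ((gr h).neighborSet p).ncard ≤ dg a b p := by
  classical
  have h1 : (gr h).neighborSet p ⊆
      ((Ed a b p).image fun e => if a e = p then b e else a e : Finset (Option κ)) := by
    rintro q ⟨e, he⟩
    rw [Finset.mem_coe, Finset.mem_image]
    rw [Sym2.eq_iff] at he
    rcases he with ⟨h2, h3⟩ | ⟨h2, h3⟩
    · exact ⟨e, mem_ed.mpr (Or.inl h2), by rw [if_pos h2, h3]⟩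
    · refine ⟨e, mem_ed.mpr (Or.inr h3), ?_⟩
      rw [if_neg, h2]
      intro h4
      exact h e (h4.trans h3.symm)
  refine (Set.ncard_le_ncard h1 (Finset.finite_toSet _)).trans ?_
  rw [Set.ncard_coe_finset]
  exact Finset.card_image_le

/-- the graphs with the vertices `Fin m` suffice -/
lemma sub_of_fin (hP : Bnd sep P)
    (h : ∀ (m : ℕ) (G : SimpleGraph (Option (Fin m))), (∀ p, (G.neighborSet p).ncard ≤ 3) →
      P (GCo R G))
    (κ ε : Type) [Fintype κ] [DecidableEq κ] [Fintype ε] (a b : ε → Option κ) (hs : Smp a b)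
    (hd : ∀ p, dg a b p ≤ 3) : PP P (∅ : Set (MvPolynomial ε R)) (kp R a b) := by
  classical
  let e := Fintype.equivFin κ
  have hinj : Function.Injective (Option.map e) := Option.map_injective e.injective
  let a' : ε → Option (Fin (Fintype.card κ)) := fun t => Option.map e (a t)
  let b' : ε → Option (Fin (Fintype.card κ)) := fun t => Option.map e (b t)
  have ha' : ∀ t, a' t ≠ b' t := fun t h1 => hs.ne t (hinj h1)
  have hk : kp R a b = kp R a' b' := by
    have hi : ∀ (p : Option κ) (i : κ), inc (MvPolynomial ε R) (Option.map e p) (e i) =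
        inc (MvPolynomial ε R) p i := by
      intro p i
      unfold inc
      congr 1
      rw [eq_iff_iff]
      exact ⟨fun h1 => hinj h1, fun h1 => congrArg (Option.map e) h1⟩
    rw [kp, kp, ← Matrix.det_submatrix_equiv_self e (lm a' b' X)]
    congr 1
    refine Matrix.ext fun i j => ?_
    change ∑ t, (X t : MvPolynomial ε R) * ((inc (MvPolynomial ε R) (a t) i -
      inc (MvPolynomial ε R) (b t) i) * (inc (MvPolynomial ε R) (a t) j -
      inc (MvPolynomial ε R) (b t) j)) = ∑ t, (X t : MvPolynomial ε R) *
      ((inc (MvPolynomial ε R) (Option.map e (a t)) (e i) -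
        inc (MvPolynomial ε R) (Option.map e (b t)) (e i)) *
      (inc (MvPolynomial ε R) (Option.map e (a t)) (e j) -
        inc (MvPolynomial ε R) (Option.map e (b t)) (e j)))
    refine Finset.sum_congr rfl fun t _ => ?_
    rw [hi, hi, hi, hi]
  let G := gr ha'
  have hin : ∀ t, s(a' t, b' t) ∈ G.edgeSet := fun t => ⟨t, rfl⟩
  let φ : ε ≃ G.edgeSet := Equiv.ofBijective (fun t => ⟨s(a' t, b' t), hin t⟩) (by
    constructor
    · intro t t' h1
      have h2 : Sym2.map (Option.map e) s(a t, b t) = Sym2.map (Option.map e) s(a t', b t') :=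
        congrArg Subtype.val h1
      exact hs.inj t t' (Sym2.map.injective hinj h2)
    · rintro ⟨q, hq⟩
      induction q with
      | _ p q =>
        obtain ⟨t, ht⟩ := hq
        exact ⟨t, Subtype.ext ht⟩)
  have h1 := h _ G fun p => ?_
  · rw [hk, pp_conv hP G a' b' ha' φ fun _ => rfl, ← pp_gco hP]
    exact h1
  · refine (gr_ncard ha' p).trans ?_
    by_cases hp : ∃ q, Option.map e q = p
    · obtain ⟨q, rfl⟩ := hp
      have h2 : dg a' b' (Option.map e q) = dg a b q := by
        rw [dg_eq, dg_eq]
        refine Finset.sum_congr rfl fun t _ => ?_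
        congr 1
        rw [hinj.eq_iff, hinj.eq_iff]
      rw [h2]
      exact hd q
    · exact absurd ⟨Option.map e.symm p, by rw [Option.map_map, Equiv.self_comp_symm, Option.map_id,
        id]⟩ hp

end final

end Pool.Agent.H839.PZ.Gr

namespace Pool.Agent.H839.PZ

open Pool.Agent.Y116.UV Pool.Agent.Z125.UN Gr Sy

/-- **Graphs of maximal degree three.** A property of schemes of finite type with the closure
properties `Bnd` is true for all of them if and only if it is true for the complements of the graph
hypersurfaces of all finite graphs in which all vertices have at most three neighbours. -/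
theorem sub_iff {R : Type} [CommRing R] {sep : Prop} {P : Sch R → Prop} [IsNoetherianRing R]
    (hR : Pool.Agent.Q193.LT.Frac R) (hP : Bnd sep P) : (∀ X : Sch R, FT sep X → P X) ↔
      ∀ (m : ℕ) (G : SimpleGraph (Option (Fin m))), (∀ p, (G.neighborSet p).ncard ≤ 3) →
        P (GCo R G) := by
  classical
  constructor
  · intro h m G _
    exact h _ (ft_gco G)
  · intro h
    rw [graph_iff hR hP]
    intro m G _
    rw [pp_gco hP]
    have hfin : Fintype G.edgeSet := Fintype.ofFinite _
    have hex : ∀ e : G.edgeSet, ∃ p : Option (Fin m) × Option (Fin m),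
        (e : Sym2 (Option (Fin m))) = s(p.1, p.2) := by
      rintro ⟨e, he⟩
      induction e with
      | _ p q => exact ⟨(p, q), rfl⟩
    choose f hf using hex
    have hs : Smp (fun e : G.edgeSet => (f e).1) (fun e => (f e).2) :=
      ⟨fun e h1 => by
        have h2 := e.2
        rw [hf e, SimpleGraph.mem_edgeSet, h1] at h2
        exact G.irrefl h2, fun e e' h1 => Subtype.ext (by rw [hf e, hf e']; exact h1)⟩
    rw [← pp_conv hP G (fun e : G.edgeSet => (f e).1) (fun e => (f e).2) hs.ne
      (Equiv.refl _) hf]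
    refine pp_root hP _ _ ?_
    exact all_of_sub hP (sub_of_fin hP h) _ _ _ _ _ (smp_rt hs) (by rw [dg_rt]; omega) le_rfl

end Pool.Agent.H839.PZ
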