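import Pool.Agent.H839.PZ.Border

/-!
# Symmetric bordered matrices
-/

set_option autoImplicit false

open CategoryTheory AlgebraicGeometry MvPolynomial

namespace Pool.Agent.H839.PZ.Sy

open Pool.Agent.Y116.UV Pool.Agent.Z125.UN

section alg

variable {κ : Type} [Fintype κ] [DecidableEq κ] {C : Type} [CommRing C]

lemma bd_transpose (q : C) (u v : κ → C) (N : Matrix κ κ C) :
    bd q u v N = bd q v u N.transpose := by
  rw [bd, bd, ← Matrix.det_transpose]
  congr 1
  ext i j
  rcases i with ⟨⟩ | i <;> rcases j with ⟨⟩ | j <;> rfl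

lemma fc_sym {N : Matrix κ κ C} (hN : N.transpose = N) (u v : κ → C) :
    ∑ i, u i * fc v N i = ∑ i, v i * fc u N i := by
  have h1 := bd_eq 0 u v N
  rw [bd_transpose, hN, bd_eq, zero_mul, zero_sub, zero_sub, neg_inj] at h1
  exact h1.symm

lemma mul_fc (v : κ → C) (N : Matrix κ κ C) (k : κ) : ∑ i, N k i * fc v N i = v k * N.det := by
  have h1 := bd_eq (v k) (N k) v N
  have h2 : bd (v k) (N k) v N = 0 := by
    rw [bd]
    refine Matrix.det_zero_of_row_eq (i := Sum.inl ()) (j := Sum.inr k) (by simp) ?_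
    funext j
    rcases j with ⟨⟩ | j <;> rfl
  rw [h2] at h1
  exact (sub_eq_zero.mp h1.symm).symm

lemma bd_det_zero {N : Matrix κ κ C} (h0 : N.det = 0) (α : C) (u v : κ → C) :
    bd α u v N = - ∑ i, u i * fc v N i := by
  rw [bd_eq, h0, mul_zero, zero_sub]

/-- the vectors in the kernel -/
lemma ker_eq {N : Matrix κ κ C} (h0 : N.det = 0) {α : C} {y : κ → C}
    (hu : IsUnit (bd α y y N)) {t : κ → C} (ht : ∀ k, ∑ i, N k i * t i = 0) (i : κ) :
    bd α y y N * t i = - (∑ j, y j * t j) * fc y N i := by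
  set M := bm α y y N with hM
  have hMu : IsUnit M.det := hu
  have hI : Invertible M := Matrix.invertibleOfIsUnitDet M hMu
  let x : Unit ⊕ κ → C := Sum.elim (fun _ => 0)
    fun i => bd α y y N * t i + (∑ j, y j * t j) * fc y N i
  have h1 : M.mulVec x = 0 := by
    funext r
    rw [Matrix.mulVec, dotProduct, Fintype.sum_sum_type, Fintype.sum_unique]
    rcases r with ⟨⟩ | k
    · change α * 0 + ∑ j, y j * (bd α y y N * t j + (∑ j, y j * t j) * fc y N j) = 0
      have h2 : ∑ j, y j * (bd α y y N * t j + (∑ j, y j * t j) * fc y N j) =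
          bd α y y N * (∑ j, y j * t j) + (∑ j, y j * t j) * ∑ j, y j * fc y N j := by
        simp only [mul_add, Finset.sum_add_distrib, Finset.mul_sum]
        congr 1
        · refine Finset.sum_congr rfl fun j _ => ?_
          ring
        · refine Finset.sum_congr rfl fun j _ => ?_
          rw [Finset.sum_mul, Finset.mul_sum, Finset.sum_mul]
          refine Finset.sum_congr rfl fun l _ => ?_
          ring
      rw [h2, bd_det_zero h0]
      ring
    · change y k * 0 + ∑ j, N k j * (bd α y y N * t j + (∑ j, y j * t j) * fc y N j) = 0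
      have h2 : ∑ j, N k j * (bd α y y N * t j + (∑ j, y j * t j) * fc y N j) =
          bd α y y N * (∑ j, N k j * t j) + (∑ j, y j * t j) * ∑ j, N k j * fc y N j := by
        simp only [mul_add, Finset.sum_add_distrib]
        congr 1
        · rw [Finset.mul_sum]
          refine Finset.sum_congr rfl fun j _ => ?_
          ring
        · rw [Finset.mul_sum]
          refine Finset.sum_congr rfl fun j _ => ?_
          ring
      rw [h2, ht, mul_fc, h0]
      ring
  have h5 : x = 0 := by
    calc x = (⅟ M * M).mulVec x := by rw [invOf_mul_self, Matrix.one_mulVec]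
      _ = (⅟ M).mulVec (M.mulVec x) := (Matrix.mulVec_mulVec _ _ _).symm
      _ = 0 := by rw [h1, Matrix.mulVec_zero]
  have h6 := congrFun h5 (Sum.inr i)
  change bd α y y N * t i + (∑ j, y j * t j) * fc y N i = 0 at h6
  rw [neg_mul]
  exact eq_neg_of_add_eq_zero_left h6

lemma fc_fc {N : Matrix κ κ C} (hN : N.transpose = N) (h0 : N.det = 0) {α : C} {y : κ → C}
    (hu : IsUnit (bd α y y N)) (y' : κ → C) (i : κ) :
    bd α y y N * fc y' N i = - (∑ j, y' j * fc y N j) * fc y N i := by
  rw [ker_eq h0 hu (t := fc y' N) (fun k => by rw [mul_fc, h0, mul_zero]) i, fc_sym hN]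

/-- a translation of the border -/
lemma fc_shift {N : Matrix κ κ C} (hN : N.transpose = N) (h0 : N.det = 0) {α : C} {y y' : κ → C}
    (hu : IsUnit (bd α y y N)) (h : ∑ j, y' j * fc y N j = ∑ j, y j * fc y N j) :
    fc y' N = fc y N := by
  funext i
  have h1 := fc_fc hN h0 hu y' i
  have h2 := bd_det_zero h0 α y y
  rw [h, ← h2] at h1
  obtain ⟨a, ha⟩ := hu
  rw [← ha] at h1
  exact a.mul_right_inj.mp h1

lemma bd_shift {N : Matrix κ κ C} (hN : N.transpose = N) (h0 : N.det = 0) {α α' : C}
    {y y' : κ → C} (hu : IsUnit (bd α y y N))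
    (h : ∑ j, y' j * fc y N j = ∑ j, y j * fc y N j) : bd α' y' y' N = bd α y y N := by
  rw [bd_det_zero h0, bd_det_zero h0, fc_shift hN h0 hu h, h]

/-- the vector with some prescribed entries -/
def yv (A : Finset κ) (q u : κ → C) : κ → C := fun i => if i ∈ A then q i else u i

/-- the coordinates of the kernel outside of `A` -/
def zv (A : Finset κ) (y : κ → C) (N : Matrix κ κ C) : κ → C := fun i =>
  if i ∈ A then 0 else fc y N i

/-- the translated border -/
def sh (A : Finset κ) (q1 q2 u s : κ → C) (N : Matrix κ κ C) : κ → C := fun i =>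
  u i + (∑ j, if j ∈ A then (q1 j - q2 j) * fc (yv A q1 u) N j else 0) * s i

lemma sh_sum (A : Finset κ) (q1 q2 u s : κ → C) (N : Matrix κ κ C)
    (hs : ∑ i, zv A (yv A q1 u) N i * s i = 1) :
    ∑ j, yv A q2 (sh A q1 q2 u s N) j * fc (yv A q1 u) N j =
      ∑ j, yv A q1 u j * fc (yv A q1 u) N j := by
  set z := fc (yv A q1 u) N with hz
  set g : C := ∑ j, if j ∈ A then (q1 j - q2 j) * z j else 0 with hg
  have h1 : ∀ j, yv A q2 (sh A q1 q2 u s N) j * z j = yv A q1 u j * z j -
      (if j ∈ A then (q1 j - q2 j) * z j else 0) + g * (zv A (yv A q1 u) N j * s j) := by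
    intro j
    simp only [yv, sh, zv]
    by_cases hj : j ∈ A
    · simp only [hj, if_true]
      ring
    · simp only [hj, if_false]
      change (u j + g * s j) * z j = u j * z j - 0 + g * (z j * s j)
      ring
  rw [Finset.sum_congr rfl fun j _ => h1 j, Finset.sum_add_distrib, Finset.sum_sub_distrib,
    ← Finset.mul_sum, hs, ← hg]
  ring

lemma sh_sh (A : Finset κ) (q1 q2 u s : κ → C) (N : Matrix κ κ C)
    (h : fc (yv A q2 (sh A q1 q2 u s N)) N = fc (yv A q1 u) N) :
    sh A q2 q1 (sh A q1 q2 u s N) s N = u := by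
  funext i
  rw [sh, h]
  change u i + (∑ j, if j ∈ A then (q1 j - q2 j) * fc (yv A q1 u) N j else 0) * s i +
    (∑ j, if j ∈ A then (q2 j - q1 j) * fc (yv A q1 u) N j else 0) * s i = u i
  have h1 : (∑ j, if j ∈ A then (q2 j - q1 j) * fc (yv A q1 u) N j else 0) =
      - ∑ j, if j ∈ A then (q1 j - q2 j) * fc (yv A q1 u) N j else 0 := by
    rw [← Finset.sum_neg_distrib]
    refine Finset.sum_congr rfl fun j _ => ?_
    split_ifs
    · ring
    · exact neg_zero.symm
  rw [h1]
  ring

lemma map_yv {D : Type} [CommRing D] (f : C →+* D) (A : Finset κ) (q u : κ → C) :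
    (fun i => f (yv A q u i)) = yv A (fun i => f (q i)) fun i => f (u i) := by
  funext i
  rw [yv, yv]
  split_ifs <;> rfl

lemma map_zv {D : Type} [CommRing D] (f : C →+* D) (A : Finset κ) (y : κ → C) (N : Matrix κ κ C)
    (i : κ) : f (zv A y N i) = zv A (fun i => f (y i)) (N.map f) i := by
  rw [zv, zv]
  split_ifs
  · exact map_zero f
  · exact map_fc f _ _ _

lemma map_sh {D : Type} [CommRing D] (f : C →+* D) (A : Finset κ) (q1 q2 u s : κ → C)
    (N : Matrix κ κ C) (i : κ) : f (sh A q1 q2 u s N i) = sh A (fun i => f (q1 i))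
      (fun i => f (q2 i)) (fun i => f (u i)) (fun i => f (s i)) (N.map f) i := by
  rw [sh, sh, map_add, map_mul, map_sum, ← map_yv]
  congr 2
  refine Finset.sum_congr rfl fun j _ => ?_
  split_ifs
  · rw [map_mul, map_sub, map_fc]
  · exact map_zero f

end alg

end Pool.Agent.H839.PZ.Sy
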