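import Pool.Agent.H839.PZ.Sym1

/-!
# The border lemma for symmetric matrices
-/

set_option autoImplicit false

open CategoryTheory AlgebraicGeometry MvPolynomial

namespace Pool.Agent.H839.PZ.Sy

open Pool.Agent.Y116.UV Pool.Agent.Z125.UN

variable {R : Type} [CommRing R] {sep : Prop} {P : Sch R → Prop}

/-- the product with the multiplicative group -/
lemma pp_gm (hP : Bnd sep P) {σ : Type} [Finite σ] {S : Set (MvPolynomial σ R)}
    {w : MvPolynomial σ R} (h : PP P S w) :
    PP P (rename Sum.inl '' S : Set (MvPolynomial (σ ⊕ Unit) R))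
      (rename Sum.inl w * X (Sum.inr ())) := by
  refine pp_open hP (X (Sum.inr ())) (pp_free hP Unit h) ?_
  refine pp_iso hP ⟨fun C _ _ v => Sum.elim v fun _ => 0, ?_, ?_⟩
    ⟨fun C _ _ v s => v (Sum.inl s), ?_, ?_⟩ ?_ ?_ h
  · intro C _ _ v hv
    rw [pt_insert, pt_rename, aeval_X]
    exact ⟨hv, rfl⟩
  · intro C D _ _ _ _ f v _ t
    rcases t with t | t
    · rfl
    · exact (map_zero f).symm
  · intro C _ _ v hv
    rw [pt_insert, pt_rename] at hv
    exact hv.1
  · intro C D _ _ _ _ f v _ t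
    rfl
  · intro C _ _ v _ t
    rfl
  · intro C _ _ v hv t
    rw [pt_insert, aeval_X] at hv
    rcases t with t | ⟨⟩
    · rfl
    · exact hv.2.symm

section sb

variable {κ : Type} [Fintype κ] [DecidableEq κ] {σ : Type} (S : Set (MvPolynomial σ R))
  (w : MvPolynomial σ R) (N : Matrix κ κ (MvPolynomial σ R)) (A : Finset κ)

/-- the border -/
noncomputable def byp (q : κ → MvPolynomial σ R) : κ → MvPolynomial (σ ⊕ (Unit ⊕ κ)) R :=
  yv A (fun i => rename Sum.inl (q i)) fun i => X (Sum.inr (Sum.inr i))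

/-- the polynomial of the symmetric bordered matrix -/
noncomputable def sbp (q : κ → MvPolynomial σ R) : MvPolynomial (σ ⊕ (Unit ⊕ κ)) R :=
  bd (X (Sum.inr (Sum.inl ()))) (byp A q) (byp A q) (N.map (rename Sum.inl))

/-- the coordinates of the kernel -/
noncomputable def szp (q : κ → MvPolynomial σ R) (i : κ) : MvPolynomial (σ ⊕ (Unit ⊕ κ)) R :=
  zv A (byp A q) (N.map (rename Sum.inl)) i

/-- the scheme of the symmetric bordered matrices -/
def SBP (P : Sch R → Prop) (q : κ → MvPolynomial σ R) : Prop :=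
  PP P (rename Sum.inl '' S : Set (MvPolynomial (σ ⊕ (Unit ⊕ κ)) R)) (rename Sum.inl w * sbp N A q)

variable {S w N A}

section pts

variable {C : Type} [CommRing C] [Algebra R C]

/-- the border at a point -/
noncomputable def byc (A : Finset κ) (q : κ → MvPolynomial σ R) (v : σ ⊕ (Unit ⊕ κ) → C) : κ → C :=
  yv A (fun i => aeval (fun s => v (Sum.inl s)) (q i)) fun i => v (Sum.inr (Sum.inr i))

/-- the matrix at a point -/
noncomputable def Nc {τ : Type} (N : Matrix κ κ (MvPolynomial σ R)) (v : σ ⊕ τ → C) : Matrix κ κ C :=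
  N.map (aeval fun s => v (Sum.inl s))

lemma aeval_byp (q : κ → MvPolynomial σ R) (v : σ ⊕ (Unit ⊕ κ) → C) :
    (fun i => aeval v (byp A q i)) = byc A q v := by
  have h := map_yv (aeval v : MvPolynomial (σ ⊕ (Unit ⊕ κ)) R →ₐ[R] C).toRingHom A
    (fun i => rename Sum.inl (q i)) fun i => X (Sum.inr (Sum.inr i))
  refine Eq.trans h ?_
  rw [byc]
  congr 1
  · funext i
    exact aeval_inl v (q i)
  · funext i
    exact aeval_X _ _

lemma map_Nc {τ : Type} (v : σ ⊕ τ → C) :
    (N.map (rename Sum.inl : MvPolynomial σ R → MvPolynomial (σ ⊕ τ) R)).map (aeval v) =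
      Nc N v := by
  ext i j
  exact aeval_inl v _

lemma aeval_sbp (q : κ → MvPolynomial σ R) (v : σ ⊕ (Unit ⊕ κ) → C) :
    aeval v (sbp N A q) = bd (v (Sum.inr (Sum.inl ()))) (byc A q v) (byc A q v) (Nc N v) := by
  have h := map_bd (aeval v : MvPolynomial (σ ⊕ (Unit ⊕ κ)) R →ₐ[R] C).toRingHom
    (X (Sum.inr (Sum.inl ()))) (byp A q) (byp A q) (N.map (rename Sum.inl))
  refine Eq.trans h ?_
  have h1 : (aeval v : MvPolynomial (σ ⊕ (Unit ⊕ κ)) R →ₐ[R] C).toRingHom
    (X (Sum.inr (Sum.inl ()))) = v (Sum.inr (Sum.inl ())) := aeval_X _ _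
  rw [h1]
  congr 1
  · exact aeval_byp q v
  · exact aeval_byp q v
  · exact map_Nc v

lemma aeval_szp (q : κ → MvPolynomial σ R) (v : σ ⊕ (Unit ⊕ κ) → C) (i : κ) :
    aeval v (szp N A q i) = zv A (byc A q v) (Nc N v) i := by
  have h := map_zv (aeval v : MvPolynomial (σ ⊕ (Unit ⊕ κ)) R →ₐ[R] C).toRingHom A
    (byp A q) (N.map (rename Sum.inl)) i
  refine Eq.trans h ?_
  have h1 : (fun i => (aeval v : MvPolynomial (σ ⊕ (Unit ⊕ κ)) R →ₐ[R] C).toRingHom
    (byp A q i)) = byc A q v := aeval_byp q v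
  have h2 : (N.map (rename Sum.inl)).map
    (aeval v : MvPolynomial (σ ⊕ (Unit ⊕ κ)) R →ₐ[R] C).toRingHom = Nc N v := map_Nc v
  rw [h1, h2]

lemma aeval_ndet {τ : Type} (v : σ ⊕ τ → C) : aeval v (rename Sum.inl N.det) = (Nc N v).det := by
  rw [aeval_inl, aeval_det']
  rfl

lemma nc_sym {τ : Type} (hN : N.transpose = N) (v : σ ⊕ τ → C) : (Nc N v).transpose = Nc N v := by
  rw [Nc, ← Matrix.transpose_map, hN]

lemma pt_sbp (q : κ → MvPolynomial σ R) (v : σ ⊕ (Unit ⊕ κ) → C) :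
    Pt (rename Sum.inl '' S : Set (MvPolynomial (σ ⊕ (Unit ⊕ κ)) R))
      (rename Sum.inl w * sbp N A q) v ↔ Pt S w (fun s => v (Sum.inl s)) ∧
        IsUnit (bd (v (Sum.inr (Sum.inl ()))) (byc A q v) (byc A q v) (Nc N v)) := by
  rw [pt_mul, pt_rename, aeval_sbp]

lemma pt_sbc (q : κ → MvPolynomial σ R) (v : σ ⊕ (Unit ⊕ κ) → C) :
    Pt (insert (rename Sum.inl N.det) (rename Sum.inl '' S) :
      Set (MvPolynomial (σ ⊕ (Unit ⊕ κ)) R)) (rename Sum.inl w * sbp N A q) v ↔
      (Pt S w (fun s => v (Sum.inl s)) ∧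
        IsUnit (bd (v (Sum.inr (Sum.inl ()))) (byc A q v) (byc A q v) (Nc N v))) ∧
        (Nc N v).det = 0 := by
  rw [pt_insert, pt_sbp, aeval_ndet]

lemma pt_sbj (q : κ → MvPolynomial σ R) (y : (σ ⊕ (Unit ⊕ κ)) ⊕ κ → C) :
    Pt (JS (insert (rename Sum.inl N.det) (rename Sum.inl '' S) :
      Set (MvPolynomial (σ ⊕ (Unit ⊕ κ)) R)) (szp N A q))
      (rename Sum.inl (rename Sum.inl w * sbp N A q)) y ↔
      ((Pt S w (fun s => y (Sum.inl (Sum.inl s))) ∧
        IsUnit (bd (y (Sum.inl (Sum.inr (Sum.inl ())))) (byc A q fun s => y (Sum.inl s))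
          (byc A q fun s => y (Sum.inl s)) (Nc N fun s => y (Sum.inl s)))) ∧
        (Nc N fun s => y (Sum.inl s)).det = 0) ∧
      ∑ i, zv A (byc A q fun s => y (Sum.inl s)) (Nc N fun s => y (Sum.inl s)) i *
        y (Sum.inr i) = 1 := by
  rw [pt_js, pt_sbc]
  refine and_congr_right fun _ => ?_
  rw [Finset.sum_congr rfl fun i _ => by rw [aeval_szp q _ i]]

end pts

variable [Finite σ] (hP : Bnd sep P)

include hP

/-- the part with `det N ≠ 0` -/
lemma sb_open (q : κ → MvPolynomial σ R) (h0 : PP P S (w * N.det)) :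
    PP P (rename Sum.inl '' S : Set (MvPolynomial (σ ⊕ (Unit ⊕ κ)) R))
      (rename Sum.inl w * sbp N A q * rename Sum.inl N.det) := by
  have h1 := pp_gm hP (pp_free hP κ h0)
  have hs : ∀ {C : Type} [CommRing C] [Algebra R C] (v : (σ ⊕ κ) ⊕ Unit → C),
      Pt (rename Sum.inl '' (rename Sum.inl '' S : Set (MvPolynomial (σ ⊕ κ) R)) :
        Set (MvPolynomial ((σ ⊕ κ) ⊕ Unit) R))
        (rename Sum.inl (rename Sum.inl (w * N.det)) * X (Sum.inr ())) v ↔
      (Pt S w (fun s => v (Sum.inl (Sum.inl s))) ∧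
        IsUnit (N.map (aeval fun s => v (Sum.inl (Sum.inl s)))).det) ∧ IsUnit (v (Sum.inr ())) := by
    intro C _ _ v
    rw [pt_mul, pt_rename, pt_rename, pt_mul, aeval_det', aeval_X]
  have ht : ∀ {C : Type} [CommRing C] [Algebra R C] (v : σ ⊕ (Unit ⊕ κ) → C),
      Pt (rename Sum.inl '' S : Set (MvPolynomial (σ ⊕ (Unit ⊕ κ)) R))
        (rename Sum.inl w * sbp N A q * rename Sum.inl N.det) v ↔
      (Pt S w (fun s => v (Sum.inl s)) ∧
        IsUnit (bd (v (Sum.inr (Sum.inl ()))) (byc A q v) (byc A q v) (Nc N v))) ∧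
        IsUnit (Nc N v).det := by
    intro C _ _ v
    rw [pt_mul, pt_sbp, aeval_ndet]
  -- the border and the sum at a point
  refine pp_iso hP
    ⟨fun C _ _ v => Sum.elim (fun s => v (Sum.inl (Sum.inl s)))
      (Sum.elim (fun _ => zp (N.map (aeval fun s => v (Sum.inl (Sum.inl s)))).det (-1) *
        (v (Sum.inr ()) + ∑ i, yv A (fun i => aeval (fun s => v (Sum.inl (Sum.inl s))) (q i))
          (fun i => v (Sum.inl (Sum.inr i))) i *
          fc (yv A (fun i => aeval (fun s => v (Sum.inl (Sum.inl s))) (q i))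
          (fun i => v (Sum.inl (Sum.inr i)))) (N.map (aeval fun s => v (Sum.inl (Sum.inl s)))) i))
        fun i => v (Sum.inl (Sum.inr i))), ?_, ?_⟩
    ⟨fun C _ _ v => Sum.elim (Sum.elim (fun s => v (Sum.inl s)) fun i => v (Sum.inr (Sum.inr i)))
      fun _ => bd (v (Sum.inr (Sum.inl ()))) (byc A q v) (byc A q v) (Nc N v), ?_, ?_⟩ ?_ ?_ h1
  · intro C _ _ v hv
    rw [hs] at hv
    rw [ht]
    obtain ⟨⟨h2, a, ha⟩, h4⟩ := hv
    refine ⟨⟨h2, ?_⟩, ⟨a, ha⟩⟩
    rw [bd_eq]
    change IsUnit (zp (N.map (aeval fun s => v (Sum.inl (Sum.inl s)))).det (-1) *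
        (v (Sum.inr ()) + ∑ i, yv A (fun i => aeval (fun s => v (Sum.inl (Sum.inl s))) (q i))
          (fun i => v (Sum.inl (Sum.inr i))) i *
          fc (yv A (fun i => aeval (fun s => v (Sum.inl (Sum.inl s))) (q i))
          (fun i => v (Sum.inl (Sum.inr i)))) (N.map (aeval fun s => v (Sum.inl (Sum.inl s)))) i) *
        (N.map (aeval fun s => v (Sum.inl (Sum.inl s)))).det - ∑ i,
          yv A (fun i => aeval (fun s => v (Sum.inl (Sum.inl s))) (q i))
          (fun i => v (Sum.inl (Sum.inr i))) i *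
          fc (yv A (fun i => aeval (fun s => v (Sum.inl (Sum.inl s))) (q i))
          (fun i => v (Sum.inl (Sum.inr i)))) (N.map (aeval fun s => v (Sum.inl (Sum.inl s)))) i)
    rw [← ha, zp_unit]
    have h5 : ∀ x y : C, ((a ^ (-1 : ℤ) : Cˣ) : C) * (x + y) * (a : C) - y = x := by
      intro x y
      rw [zpow_neg_one, mul_right_comm, Units.inv_mul, one_mul, add_sub_cancel_right]
    rw [h5]
    exact h4
  · intro C D _ _ _ _ f v hv t
    rw [hs] at hv
    rcases t with s | t | i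
    · rfl
    · change zp (N.map (aeval fun s => f (v (Sum.inl (Sum.inl s))))).det (-1) *
        (f (v (Sum.inr ())) + ∑ i, yv A (fun i => aeval (fun s => f (v (Sum.inl (Sum.inl s)))) (q i))
          (fun i => f (v (Sum.inl (Sum.inr i)))) i *
          fc (yv A (fun i => aeval (fun s => f (v (Sum.inl (Sum.inl s)))) (q i))
          (fun i => f (v (Sum.inl (Sum.inr i)))))
            (N.map (aeval fun s => f (v (Sum.inl (Sum.inl s))))) i) = f (_ * _)
      have h2 : ∀ p : MvPolynomial σ R, aeval (fun s => f (v (Sum.inl (Sum.inl s)))) p =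
          f (aeval (fun s => v (Sum.inl (Sum.inl s))) p) := by
        intro p
        have := MvPolynomial.comp_aeval (R := R) (fun s => v (Sum.inl (Sum.inl s))) f
        exact (congrArg (fun k : MvPolynomial σ R →ₐ[R] _ => k p) this).symm
      have h3 : (N.map (aeval fun s => f (v (Sum.inl (Sum.inl s))))) =
          (N.map (aeval fun s => v (Sum.inl (Sum.inl s)))).map (f : C →+* D) := by
        ext i j
        exact h2 _
      have h4 : yv A (fun i => aeval (fun s => f (v (Sum.inl (Sum.inl s)))) (q i))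
          (fun i => f (v (Sum.inl (Sum.inr i)))) = fun i => (f : C →+* D)
          (yv A (fun i => aeval (fun s => v (Sum.inl (Sum.inl s))) (q i))
          (fun i => v (Sum.inl (Sum.inr i))) i) := by
        rw [map_yv]
        congr 1
        funext i
        exact h2 _
      rw [h3, h4, map_mul, map_add, map_sum]
      congr 1
      · rw [← AlgHom.toRingHom_eq_coe, ← RingHom.mapMatrix_apply, ← RingHom.map_det]
        exact (zp_map (f : C →+* D) hv.1.2 _).symm
      · congr 1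
        refine Finset.sum_congr rfl fun i _ => ?_
        rw [map_mul, ← map_fc]
        rfl
    · rfl
  · intro C _ _ v hv
    rw [ht] at hv
    rw [hs]
    exact ⟨⟨hv.1.1, hv.2⟩, hv.1.2⟩
  · intro C D _ _ _ _ f v _ t
    rcases t with (s | i) | t
    · rfl
    · rfl
    · change bd (f (v (Sum.inr (Sum.inl ())))) (byc A q fun s => f (v s))
        (byc A q fun s => f (v s)) (Nc N fun s => f (v s)) = f (bd _ _ _ _)
      rw [← aeval_sbp q v, ← aeval_sbp q fun s => f (v s)]
      have := MvPolynomial.comp_aeval (R := R) v f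
      exact (congrArg (fun k : MvPolynomial (σ ⊕ (Unit ⊕ κ)) R →ₐ[R] _ => k (sbp N A q)) this).symm
  · intro C _ _ v hv t
    rw [hs] at hv
    obtain ⟨⟨h2, a, ha⟩, h4⟩ := hv
    rcases t with (s | i) | ⟨⟩
    · rfl
    · rfl
    · change bd _ _ _ _ = v (Sum.inr ())
      rw [bd_eq]
      change zp (N.map (aeval fun s => v (Sum.inl (Sum.inl s)))).det (-1) *
        (v (Sum.inr ()) + ∑ i, yv A (fun i => aeval (fun s => v (Sum.inl (Sum.inl s))) (q i))
          (fun i => v (Sum.inl (Sum.inr i))) i *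
          fc (yv A (fun i => aeval (fun s => v (Sum.inl (Sum.inl s))) (q i))
          (fun i => v (Sum.inl (Sum.inr i)))) (N.map (aeval fun s => v (Sum.inl (Sum.inl s)))) i) *
        (N.map (aeval fun s => v (Sum.inl (Sum.inl s)))).det - ∑ i,
          yv A (fun i => aeval (fun s => v (Sum.inl (Sum.inl s))) (q i))
          (fun i => v (Sum.inl (Sum.inr i))) i *
          fc (yv A (fun i => aeval (fun s => v (Sum.inl (Sum.inl s))) (q i))
          (fun i => v (Sum.inl (Sum.inr i)))) (N.map (aeval fun s => v (Sum.inl (Sum.inl s)))) i =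
        v (Sum.inr ())
      rw [← ha, zp_unit]
      have h5 : ∀ x y : C, ((a ^ (-1 : ℤ) : Cˣ) : C) * (x + y) * (a : C) - y = x := by
        intro x y
        rw [zpow_neg_one, mul_right_comm, Units.inv_mul, one_mul, add_sub_cancel_right]
      exact h5 _ _
  · intro C _ _ v hv t
    rw [ht] at hv
    obtain ⟨h2, a, ha⟩ := hv
    rcases t with s | ⟨⟨⟩⟩ | i
    · rfl
    · change zp (Nc N v).det (-1) * (bd (v (Sum.inr (Sum.inl ()))) (byc A q v) (byc A q v) (Nc N v) +
        ∑ i, byc A q v i * fc (byc A q v) (Nc N v) i) = v (Sum.inr (Sum.inl ()))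
      rw [bd_eq, sub_add_cancel, ← ha, zp_unit, zpow_neg_one, mul_comm (v _), ← mul_assoc,
        Units.inv_mul, one_mul]
    · rfl

omit [Finite σ] hP in
/-- the prescribed entries at a point -/
lemma sh_pt {C : Type} [CommRing C] [Algebra R C] (hN : N.transpose = N)
    (q1 q2 : κ → MvPolynomial σ R) (y y' : (σ ⊕ (Unit ⊕ κ)) ⊕ κ → C)
    (h1 : ∀ s, y' (Sum.inl (Sum.inl s)) = y (Sum.inl (Sum.inl s)))
    (h2 : y' (Sum.inl (Sum.inr (Sum.inl ()))) = y (Sum.inl (Sum.inr (Sum.inl ()))))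
    (h3 : ∀ i, y' (Sum.inl (Sum.inr (Sum.inr i))) =
      sh A (fun i => aeval (fun s => y (Sum.inl (Sum.inl s))) (q1 i))
        (fun i => aeval (fun s => y (Sum.inl (Sum.inl s))) (q2 i))
        (fun i => y (Sum.inl (Sum.inr (Sum.inr i)))) (fun i => y (Sum.inr i))
        (Nc N fun s => y (Sum.inl s)) i)
    (h4 : ∀ i, y' (Sum.inr i) = y (Sum.inr i))
    (h : Pt (JS (insert (rename Sum.inl N.det) (rename Sum.inl '' S) :
        Set (MvPolynomial (σ ⊕ (Unit ⊕ κ)) R)) (szp N A q1))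
      (rename Sum.inl (rename Sum.inl w * sbp N A q1)) y) :
    Pt (JS (insert (rename Sum.inl N.det) (rename Sum.inl '' S) :
        Set (MvPolynomial (σ ⊕ (Unit ⊕ κ)) R)) (szp N A q2))
      (rename Sum.inl (rename Sum.inl w * sbp N A q2)) y' ∧
    fc (byc A q2 fun s => y' (Sum.inl s)) (Nc N fun s => y (Sum.inl s)) =
      fc (byc A q1 fun s => y (Sum.inl s)) (Nc N fun s => y (Sum.inl s)) := by
  rw [pt_sbj] at h
  rw [pt_sbj]
  obtain ⟨⟨⟨h5, h6⟩, h7⟩, h8⟩ := h
  have e1 : (fun s => y' (Sum.inl (Sum.inl s))) = fun s => y (Sum.inl (Sum.inl s)) := funext h1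
  have e2 : (Nc N fun s => y' (Sum.inl s)) = Nc N fun s => y (Sum.inl s) := by
    rw [Nc, Nc]
    change N.map (aeval fun s => y' (Sum.inl (Sum.inl s))) = _
    rw [e1]
  have e3 : (byc A q2 fun s => y' (Sum.inl s)) =
      yv A (fun i => aeval (fun s => y (Sum.inl (Sum.inl s))) (q2 i))
        (sh A (fun i => aeval (fun s => y (Sum.inl (Sum.inl s))) (q1 i))
        (fun i => aeval (fun s => y (Sum.inl (Sum.inl s))) (q2 i))
        (fun i => y (Sum.inl (Sum.inr (Sum.inr i)))) (fun i => y (Sum.inr i))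
        (Nc N fun s => y (Sum.inl s))) := by
    rw [byc]
    change yv A (fun i => aeval (fun s => y' (Sum.inl (Sum.inl s))) (q2 i))
      (fun i => y' (Sum.inl (Sum.inr (Sum.inr i)))) = _
    rw [e1, funext h3]
  have hs := sh_sum A (fun i => aeval (fun s => y (Sum.inl (Sum.inl s))) (q1 i))
        (fun i => aeval (fun s => y (Sum.inl (Sum.inl s))) (q2 i))
        (fun i => y (Sum.inl (Sum.inr (Sum.inr i)))) (fun i => y (Sum.inr i))
        (Nc N fun s => y (Sum.inl s)) h8
  have h9 := fc_shift (nc_sym hN _) h7 h6 hs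
  rw [e2, h2, e3]
  refine ⟨⟨⟨⟨?_, ?_⟩, h7⟩, ?_⟩, h9⟩
  · rw [e1]
    exact h5
  · rw [bd_shift (nc_sym hN _) h7 h6 hs]
    exact h6
  · rw [← h8]
    refine Finset.sum_congr rfl fun i _ => ?_
    rw [h4, zv, zv, h9]

omit [Finite σ] hP in
lemma sh_nat {C D : Type} [CommRing C] [Algebra R C] [CommRing D] [Algebra R D] (f : C →ₐ[R] D)
    (q1 q2 : κ → MvPolynomial σ R) (y : (σ ⊕ (Unit ⊕ κ)) ⊕ κ → C) (i : κ) :
    sh A (fun i => aeval (fun s => f (y (Sum.inl (Sum.inl s)))) (q1 i))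
        (fun i => aeval (fun s => f (y (Sum.inl (Sum.inl s)))) (q2 i))
        (fun i => f (y (Sum.inl (Sum.inr (Sum.inr i))))) (fun i => f (y (Sum.inr i)))
        (Nc N fun s => f (y (Sum.inl s))) i =
      f (sh A (fun i => aeval (fun s => y (Sum.inl (Sum.inl s))) (q1 i))
        (fun i => aeval (fun s => y (Sum.inl (Sum.inl s))) (q2 i))
        (fun i => y (Sum.inl (Sum.inr (Sum.inr i)))) (fun i => y (Sum.inr i))
        (Nc N fun s => y (Sum.inl s)) i) := by
  have h2 : ∀ p : MvPolynomial σ R, aeval (fun s => f (y (Sum.inl (Sum.inl s)))) p =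
      f (aeval (fun s => y (Sum.inl (Sum.inl s))) p) := by
    intro p
    have := MvPolynomial.comp_aeval (R := R) (fun s => y (Sum.inl (Sum.inl s))) f
    exact (congrArg (fun k : MvPolynomial σ R →ₐ[R] _ => k p) this).symm
  have h3 : (Nc N fun s => f (y (Sum.inl s))) =
      (Nc N fun s => y (Sum.inl s)).map (f : C →+* D) := by
    ext i j
    exact h2 _
  have h := map_sh (f : C →+* D) A (fun i => aeval (fun s => y (Sum.inl (Sum.inl s))) (q1 i))
        (fun i => aeval (fun s => y (Sum.inl (Sum.inl s))) (q2 i))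
        (fun i => y (Sum.inl (Sum.inr (Sum.inr i)))) (fun i => y (Sum.inr i))
        (Nc N fun s => y (Sum.inl s)) i
  refine Eq.trans ?_ h.symm
  rw [h3]
  congr 1
  · funext i
    exact h2 _
  · funext i
    exact h2 _

/-- the affine bundles -/
lemma sb_jou (hN : N.transpose = N) (q1 q2 : κ → MvPolynomial σ R)
    (h : PP P (JS (insert (rename Sum.inl N.det) (rename Sum.inl '' S) :
        Set (MvPolynomial (σ ⊕ (Unit ⊕ κ)) R)) (szp N A q1))
      (rename Sum.inl (rename Sum.inl w * sbp N A q1))) :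
    PP P (JS (insert (rename Sum.inl N.det) (rename Sum.inl '' S) :
        Set (MvPolynomial (σ ⊕ (Unit ⊕ κ)) R)) (szp N A q2))
      (rename Sum.inl (rename Sum.inl w * sbp N A q2)) := by
  have key : ∀ (q1 q2 : κ → MvPolynomial σ R) {C : Type} [CommRing C] [Algebra R C]
      (y : (σ ⊕ (Unit ⊕ κ)) ⊕ κ → C)
      (_ : Pt (JS (insert (rename Sum.inl N.det) (rename Sum.inl '' S) :
        Set (MvPolynomial (σ ⊕ (Unit ⊕ κ)) R)) (szp N A q1))
      (rename Sum.inl (rename Sum.inl w * sbp N A q1)) y) (i : κ),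
      sh A (fun i => aeval (fun s => y (Sum.inl (Sum.inl s))) (q2 i))
        (fun i => aeval (fun s => y (Sum.inl (Sum.inl s))) (q1 i))
        (sh A (fun i => aeval (fun s => y (Sum.inl (Sum.inl s))) (q1 i))
        (fun i => aeval (fun s => y (Sum.inl (Sum.inl s))) (q2 i))
        (fun i => y (Sum.inl (Sum.inr (Sum.inr i)))) (fun i => y (Sum.inr i))
        (Nc N fun s => y (Sum.inl s))) (fun i => y (Sum.inr i)) (Nc N fun s => y (Sum.inl s)) i =
      y (Sum.inl (Sum.inr (Sum.inr i))) := by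
    intro q1 q2 C _ _ y hy i
    have h1 := (sh_pt hN q1 q2 y (Sum.elim (Sum.elim (fun s => y (Sum.inl (Sum.inl s)))
      (Sum.elim (fun _ => y (Sum.inl (Sum.inr (Sum.inl ()))))
        (sh A (fun i => aeval (fun s => y (Sum.inl (Sum.inl s))) (q1 i))
        (fun i => aeval (fun s => y (Sum.inl (Sum.inl s))) (q2 i))
        (fun i => y (Sum.inl (Sum.inr (Sum.inr i)))) (fun i => y (Sum.inr i))
        (Nc N fun s => y (Sum.inl s))))) fun i => y (Sum.inr i)) (fun _ => rfl) rfl (fun _ => rfl)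
        (fun _ => rfl) hy).2
    exact congrFun (sh_sh A _ _ _ _ _ h1) i
  refine pp_iso hP
    ⟨fun C _ _ y => Sum.elim (Sum.elim (fun s => y (Sum.inl (Sum.inl s)))
      (Sum.elim (fun _ => y (Sum.inl (Sum.inr (Sum.inl ()))))
        (sh A (fun i => aeval (fun s => y (Sum.inl (Sum.inl s))) (q1 i))
        (fun i => aeval (fun s => y (Sum.inl (Sum.inl s))) (q2 i))
        (fun i => y (Sum.inl (Sum.inr (Sum.inr i)))) (fun i => y (Sum.inr i))
        (Nc N fun s => y (Sum.inl s))))) fun i => y (Sum.inr i), ?_, ?_⟩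
    ⟨fun C _ _ y => Sum.elim (Sum.elim (fun s => y (Sum.inl (Sum.inl s)))
      (Sum.elim (fun _ => y (Sum.inl (Sum.inr (Sum.inl ()))))
        (sh A (fun i => aeval (fun s => y (Sum.inl (Sum.inl s))) (q2 i))
        (fun i => aeval (fun s => y (Sum.inl (Sum.inl s))) (q1 i))
        (fun i => y (Sum.inl (Sum.inr (Sum.inr i)))) (fun i => y (Sum.inr i))
        (Nc N fun s => y (Sum.inl s))))) fun i => y (Sum.inr i), ?_, ?_⟩ ?_ ?_ h
  · intro C _ _ y hy
    refine (sh_pt hN q1 q2 y _ ?_ ?_ ?_ ?_ hy).1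
    · intro s
      rfl
    · rfl
    · intro i
      rfl
    · intro i
      rfl
  · intro C D _ _ _ _ f y _ t
    rcases t with (s | ⟨⟨⟩⟩ | i) | i
    · rfl
    · rfl
    · exact sh_nat f q1 q2 y i
    · rfl
  · intro C _ _ y hy
    refine (sh_pt hN q2 q1 y _ ?_ ?_ ?_ ?_ hy).1
    · intro s
      rfl
    · rfl
    · intro i
      rfl
    · intro i
      rfl
  · intro C D _ _ _ _ f y _ t
    rcases t with (s | ⟨⟨⟩⟩ | i) | i
    · rfl
    · rfl
    · exact sh_nat f q2 q1 y i
    · rfl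
  · intro C _ _ y hy t
    rcases t with (s | ⟨⟨⟩⟩ | i) | i
    · rfl
    · rfl
    · exact key q1 q2 y hy i
    · rfl
  · intro C _ _ y hy t
    rcases t with (s | ⟨⟨⟩⟩ | i) | i
    · rfl
    · rfl
    · exact key q2 q1 y hy i
    · rfl

/-- **The border lemma for symmetric matrices.** -/
theorem sborder (hN : N.transpose = N) (q : κ → MvPolynomial σ R) (h0 : PP P S (w * N.det))
    (h1 : SBP S w N A P 0) (h2 : SBP S w N A P q) :
    PP P ((insert (rename Sum.inl N.det) (rename Sum.inl '' S) :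
      Set (MvPolynomial (σ ⊕ (Unit ⊕ κ)) R)) ∪ Set.range (szp N A q))
      (rename Sum.inl w * sbp N A q) := by
  have hc : ∀ q, SBP S w N A P q → PP P (insert (rename Sum.inl N.det) (rename Sum.inl '' S) :
      Set (MvPolynomial (σ ⊕ (Unit ⊕ κ)) R)) (rename Sum.inl w * sbp N A q) :=
    fun q hq => pp_closed hP _ hq (sb_open hP q h0)
  refine pp_of_jou hP (szp N A q) (hc q h2) (sb_jou hP hN 0 q ?_)
  refine pp_bundle hP (szp N A 0) ?_ (hc 0 h1)
  intro C _ _ v hv
  rw [pt_sbc] at hv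
  obtain ⟨⟨_, a, ha⟩, h4⟩ := hv
  refine ⟨fun i => - ((a⁻¹ : Cˣ) : C) * v (Sum.inr (Sum.inr i)), ?_⟩
  have h6 : ∀ i, byc A (0 : κ → MvPolynomial σ R) v i =
      if i ∈ A then 0 else v (Sum.inr (Sum.inr i)) := by
    intro i
    rw [byc, yv]
    split_ifs
    · exact map_zero _
    · rfl
  have h8 : ∑ i, byc A (0 : κ → MvPolynomial σ R) v i *
      fc (byc A (0 : κ → MvPolynomial σ R) v) (Nc N v) i =
      ∑ i, v (Sum.inr (Sum.inr i)) * zv A (byc A (0 : κ → MvPolynomial σ R) v) (Nc N v) i := by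
    refine Finset.sum_congr rfl fun i _ => ?_
    rw [zv, h6]
    split_ifs
    · rw [zero_mul, mul_zero]
    · rfl
  rw [bd_det_zero h4, h8] at ha
  simp only [aeval_szp]
  have h7 : ∑ i, - ((a⁻¹ : Cˣ) : C) * v (Sum.inr (Sum.inr i)) *
      zv A (byc A (0 : κ → MvPolynomial σ R) v) (Nc N v) i = ((a⁻¹ : Cˣ) : C) * (a : C) := by
    rw [ha, mul_neg, ← neg_mul, Finset.mul_sum]
    refine Finset.sum_congr rfl fun i _ => ?_
    rw [mul_assoc]
  rw [h7]
  exact a.inv_mul

end sb

end Pool.Agent.H839.PZ.Sy
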