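import Pool.Agent.H839.PZ.Sym2

/-!
# Symmetric matrices with prescribed zeros, and their kernels
-/

set_option autoImplicit false

open CategoryTheory AlgebraicGeometry MvPolynomial

namespace Pool.Agent.H839.PZ.Sy

open Pool.Agent.Y116.UV Pool.Agent.Z125.UN

section alg

variable {κ : Type} [Fintype κ] [DecidableEq κ] {C : Type} [CommRing C]

lemma fc_single (N : Matrix κ κ C) (o i : κ) :
    fc (Pi.single o 1) N i = (N.updateRow o (Pi.single i 1)).det := by
  have h1 := Matrix.det_permute (Equiv.swap (Sum.inl ()) (Sum.inr o))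
    (bm 0 (Pi.single i 1) (Pi.single o 1) N)
  have h2 : (bm 0 (Pi.single i 1) (Pi.single o 1) N).submatrix
      (Equiv.swap (Sum.inl ()) (Sum.inr o)) id =
      Matrix.fromBlocks 1 (Matrix.of fun _ j => N o j) 0 (N.updateRow o (Pi.single i 1)) := by
    ext a b
    rw [Matrix.submatrix_apply]
    rcases a with ⟨⟩ | a
    · rw [Equiv.swap_apply_left]
      rcases b with ⟨⟩ | b
      · simp [bm]
      · rfl
    · by_cases ha : a = o
      · subst ha
        rw [Equiv.swap_apply_right]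
        rcases b with ⟨⟩ | b
        · rfl
        · simp [bm]
      · rw [Equiv.swap_apply_of_ne_of_ne (by simp) (by simpa using ha)]
        rcases b with ⟨⟩ | b
        · simp [bm, ha]
        · simp [bm, ha]
  rw [h2, Matrix.det_fromBlocks_zero₂₁, Matrix.det_one, one_mul,
    Equiv.Perm.sign_swap (by simp)] at h1
  rw [fc, bd, h1]
  simp

/-- the vectors of the border with one entry in `A` -/
def xo (o : κ) (x : C) : κ → C := fun i => if i = o then x else 0

lemma ker_iff {N : Matrix κ κ C} (hN : N.transpose = N) (h0 : N.det = 0) {A : Finset κ} {o : κ}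
    (ho : o ∈ A) (α x : C) (u : κ → C) :
    (IsUnit (bd α (yv A (xo o x) u) (yv A (xo o x) u) N) ∧
      ∀ i, zv A (yv A (xo o x) u) N i = 0) ↔
    (IsUnit (fc (Pi.single o 1) N o) ∧ IsUnit x) ∧ ∀ i, i ∉ A → fc (Pi.single o 1) N i = 0 := by
  set y := yv A (xo o x) u with hy
  have hyo : y o = x := by
    rw [hy, yv, if_pos ho, xo, if_pos rfl]
  have hyA : ∀ i ∈ A, i ≠ o → y i = 0 := by
    intro i hi hio
    rw [hy, yv, if_pos hi, xo, if_neg hio]
  have hsum : ∀ z : κ → C, (∀ i, i ∉ A → z i = 0) → ∑ i, y i * z i = x * z o := by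
    intro z hz
    rw [Finset.sum_eq_single o]
    · rw [hyo]
    · intro i _ hio
      by_cases hi : i ∈ A
      · rw [hyA i hi hio, zero_mul]
      · rw [hz i hi, mul_zero]
    · intro h
      exact absurd (Finset.mem_univ o) h
  have hone : ∀ z : κ → C, ∑ j, (Pi.single o 1 : κ → C) j * z j = z o := by
    intro z
    rw [Finset.sum_eq_single o]
    · rw [Pi.single_eq_same, one_mul]
    · intro i _ hio
      rw [Pi.single_eq_of_ne hio, zero_mul]
    · intro h
      exact absurd (Finset.mem_univ o) h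
  constructor
  · rintro ⟨hu, hz⟩
    have hz' : ∀ i, i ∉ A → fc y N i = 0 := by
      intro i hi
      have := hz i
      rwa [zv, if_neg hi] at this
    have h1 := bd_det_zero h0 α y y
    rw [hsum _ hz'] at h1
    have h2 : IsUnit (x * fc y N o) := by
      rw [h1] at hu
      exact IsUnit.neg_iff _ |>.mp hu
    have h3 := fc_fc hN h0 hu (Pi.single o 1)
    rw [hone] at h3
    obtain ⟨hx, hzo⟩ := IsUnit.mul_iff.mp h2
    refine ⟨⟨?_, hx⟩, ?_⟩
    · have h4 := h3 o
      have h5 : IsUnit (bd α y y N * fc (Pi.single o 1) N o) := by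
        rw [h4, neg_mul]
        exact (hzo.mul hzo).neg
      exact (IsUnit.mul_iff.mp h5).2
    · intro i hi
      have h4 := h3 i
      rw [hz' i hi, mul_zero] at h4
      exact (hu.mul_right_eq_zero).mp h4
  · rintro ⟨⟨hg, hx⟩, hgA⟩
    set g := fc (Pi.single o 1) N with hgdef
    have h1 : bd 0 (Pi.single o 1) (Pi.single o 1) N = - g o := by
      rw [bd_det_zero h0, hone]
    have h2 : IsUnit (bd 0 (Pi.single o 1) (Pi.single o 1) N) := by
      rw [h1]
      exact hg.neg
    have h3 := fc_fc hN h0 h2 y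
    rw [h1, ← hgdef, hsum g hgA] at h3
    have h4 : ∀ i, i ∉ A → fc y N i = 0 := by
      intro i hi
      have h5 := h3 i
      rw [hgA i hi, mul_zero] at h5
      exact (hg.neg.mul_right_eq_zero).mp h5
    have h6 : fc y N o = x * g o := by
      have h5 := h3 o
      rw [neg_mul, neg_mul, neg_inj, mul_comm (x * g o)] at h5
      exact hg.mul_left_cancel h5
    refine ⟨?_, fun i => ?_⟩
    · rw [bd_det_zero h0, hsum _ h4, h6]
      exact (hx.mul (hx.mul hg)).neg
    · rw [zv]
      split_ifs with hi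
      · rfl
      · exact h4 i hi

end alg

variable {R : Type} [CommRing R] {sep : Prop} {P : Sch R → Prop}

section cls

variable {κ : Type} [Fintype κ] [DecidableEq κ]

/-- the generic symmetric matrix -/
noncomputable def sgm (R : Type) [CommRing R] (κ : Type) : Matrix κ κ (MvPolynomial (Sym2 κ) R) :=
  Matrix.of fun i j => X s(i, j)

/-- the zeros -/
def srel (R : Type) [CommRing R] (Z : Finset (Sym2 κ)) : Set (MvPolynomial (Sym2 κ) R) :=
  {g | ∃ e ∈ Z, X e = g}

/-- the property for the invertible symmetric matrices with zeros at `Z` -/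
def SGP (P : Sch R → Prop) (Z : Finset (Sym2 κ)) : Prop := PP P (srel R Z) (sgm R κ).det

/-- the symmetric matrix at a point -/
def sm {C : Type} (v : Sym2 κ → C) : Matrix κ κ C := Matrix.of fun i j => v s(i, j)

omit [Fintype κ] [DecidableEq κ] in
lemma sm_sym {C : Type} (v : Sym2 κ → C) : (sm v).transpose = sm v := by
  ext i j
  change v s(j, i) = v s(i, j)
  rw [Sym2.eq_swap]

omit [Fintype κ] [DecidableEq κ] in
lemma sgm_sym : (sgm R κ).transpose = sgm R κ := sm_sym (X : Sym2 κ → MvPolynomial (Sym2 κ) R)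

omit [Fintype κ] [DecidableEq κ] in
lemma map_sgm {C : Type} [CommRing C] [Algebra R C] (v : Sym2 κ → C) :
    (sgm R κ).map (aeval v) = sm v := by
  ext i j
  exact aeval_X _ _

lemma aeval_sgm {C : Type} [CommRing C] [Algebra R C] (v : Sym2 κ → C) :
    aeval v (sgm R κ).det = (sm v).det := by
  rw [aeval_det', map_sgm]

omit [Fintype κ] [DecidableEq κ] in
lemma pt_srel' {Z : Finset (Sym2 κ)} {C : Type} [CommRing C] [Algebra R C] {v : Sym2 κ → C}
    {w : MvPolynomial (Sym2 κ) R} :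
    Pt (srel R Z) w v ↔ (∀ e ∈ Z, v e = 0) ∧ IsUnit (aeval v w) := by
  rw [Pt]
  refine and_congr_left fun _ => ?_
  constructor
  · intro h e he
    have := h _ ⟨e, he, rfl⟩
    rwa [aeval_X] at this
  · rintro h _ ⟨e, he, rfl⟩
    rw [aeval_X]
    exact h e he

lemma pt_srel {Z : Finset (Sym2 κ)} {C : Type} [CommRing C] [Algebra R C] {v : Sym2 κ → C} :
    Pt (srel R Z) (sgm R κ).det v ↔ (∀ e ∈ Z, v e = 0) ∧ IsUnit (sm v).det := by
  rw [pt_srel', aeval_sgm]

/-- the coordinates of the kernel -/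
noncomputable def gk (R : Type) [CommRing R] (o i : κ) : MvPolynomial (Sym2 κ) R :=
  fc (Pi.single o 1) (sgm R κ) i

lemma aeval_gk {C : Type} [CommRing C] [Algebra R C] (v : Sym2 κ → C) (o i : κ) :
    aeval v (gk R o i) = fc (Pi.single o 1) (sm v) i := by
  have h := map_fc (aeval v : MvPolynomial (Sym2 κ) R →ₐ[R] C).toRingHom (Pi.single o 1)
    (sgm R κ) i
  refine Eq.trans h ?_
  have h1 : (sgm R κ).map (aeval v : MvPolynomial (Sym2 κ) R →ₐ[R] C).toRingHom = sm v :=
    map_sgm v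
  rw [h1]
  congr 1
  funext j
  rw [Pi.single_apply, Pi.single_apply]
  split_ifs
  · exact map_one _
  · exact map_zero _

/-- singular symmetric matrices such that the kernel is supported in `A` -/
def kS (R : Type) [CommRing R] (Z : Finset (Sym2 κ)) (o : κ) (A : Finset κ) :
    Set (MvPolynomial (Sym2 κ) R) :=
  {g | g ∈ srel R Z ∨ (sgm R κ).det = g ∨ ∃ i, i ∉ A ∧ gk R o i = g}

lemma pt_kS {Z : Finset (Sym2 κ)} {o : κ} {A : Finset κ} {C : Type} [CommRing C] [Algebra R C]
    {v : Sym2 κ → C} {w : MvPolynomial (Sym2 κ) R} :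
    Pt (kS R Z o A) w v ↔ ((∀ e ∈ Z, v e = 0) ∧ (sm v).det = 0 ∧
      ∀ i, i ∉ A → fc (Pi.single o 1) (sm v) i = 0) ∧ IsUnit (aeval v w) := by
  rw [Pt]
  refine and_congr_left fun _ => ?_
  constructor
  · intro h
    refine ⟨fun e he => ?_, ?_, fun i hi => ?_⟩
    · have := h _ (Or.inl ⟨e, he, rfl⟩)
      rwa [aeval_X] at this
    · have := h _ (Or.inr (Or.inl rfl))
      rwa [aeval_sgm] at this
    · have := h _ (Or.inr (Or.inr ⟨i, hi, rfl⟩))
      rwa [aeval_gk] at this
  · rintro ⟨h1, h2, h3⟩ g (⟨e, he, rfl⟩ | rfl | ⟨i, hi, rfl⟩)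
    · rw [aeval_X]
      exact h1 e he
    · rw [aeval_sgm]
      exact h2
    · rw [aeval_gk]
      exact h3 i hi

/-- the bordered symmetric matrix -/
def msy {C : Type} (α : C) (y : κ → C) (n : Sym2 κ → C) : Sym2 (Unit ⊕ κ) → C :=
  Sym2.lift ⟨fun a b => bm α y y (sm n) a b, by
    intro a b
    rcases a with ⟨⟩ | a <;> rcases b with ⟨⟩ | b
    · rfl
    · rfl
    · rfl
    · change n s(a, b) = n s(b, a)
      rw [Sym2.eq_swap]⟩

omit [Fintype κ] [DecidableEq κ] in
lemma sm_msy {C : Type} (α : C) (y : κ → C) (n : Sym2 κ → C) :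
    sm (msy α y n) = bm α y y (sm n) := by
  ext a b
  rfl

/-- the zeros of the bordered matrix -/
def zb (Z : Finset (Sym2 κ)) (A : Finset κ) : Finset (Sym2 (Unit ⊕ κ)) :=
  Z.image (Sym2.map Sum.inr) ∪ A.image fun i => s(Sum.inl (), Sum.inr i)

omit [Fintype κ] in
lemma forall_zb {Z : Finset (Sym2 κ)} {A : Finset κ} {p : Sym2 (Unit ⊕ κ) → Prop} :
    (∀ e ∈ zb Z A, p e) ↔ (∀ e ∈ Z, p (Sym2.map Sum.inr e)) ∧
      ∀ i ∈ A, p s(Sum.inl (), Sum.inr i) := by
  simp only [zb, Finset.mem_union, Finset.mem_image]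
  constructor
  · intro h
    exact ⟨fun e he => h _ (Or.inl ⟨e, he, rfl⟩), fun i hi => h _ (Or.inr ⟨i, hi, rfl⟩)⟩
  · rintro ⟨h1, h2⟩ e (⟨e, he, rfl⟩ | ⟨i, hi, rfl⟩)
    · exact h1 e he
    · exact h2 i hi

omit [Fintype κ] [DecidableEq κ] in
lemma msy_eta {C : Type} (M : Sym2 (Unit ⊕ κ) → C) (y : κ → C)
    (hy : ∀ i, y i = M s(Sum.inl (), Sum.inr i)) (e : Sym2 (Unit ⊕ κ)) :
    msy (M s(Sum.inl (), Sum.inl ())) y (fun e => M (Sym2.map Sum.inr e)) e = M e := by
  induction e with
  | _ a b =>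
    rcases a with ⟨⟩ | a <;> rcases b with ⟨⟩ | b
    · rfl
    · exact hy b
    · refine (hy a).trans ?_
      rw [Sym2.eq_swap]
    · rfl

omit [Fintype κ] [DecidableEq κ] in
lemma msy_inr {C : Type} (α : C) (y : κ → C) (n : Sym2 κ → C) (e : Sym2 κ) :
    msy α y n (Sym2.map Sum.inr e) = n e := by
  induction e with
  | _ a b => rfl

omit [Fintype κ] [DecidableEq κ] in
lemma sm_inr {C : Type} (M : Sym2 (Unit ⊕ κ) → C) :
    sm M = bm (M s(Sum.inl (), Sum.inl ())) (fun i => M s(Sum.inl (), Sum.inr i))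
      (fun i => M s(Sum.inl (), Sum.inr i)) (sm fun e => M (Sym2.map Sum.inr e)) := by
  rw [← sm_msy]
  ext a b
  exact (msy_eta M _ (fun _ => rfl) _).symm

end cls

end Pool.Agent.H839.PZ.Sy
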