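import Pool.Agent.H839.PZ.Sym3

/-!
# Singular symmetric matrices with a kernel of given support
-/

set_option autoImplicit false

open CategoryTheory AlgebraicGeometry MvPolynomial

namespace Pool.Agent.H839.PZ.Sy

open Pool.Agent.Y116.UV Pool.Agent.Z125.UN

variable {R : Type} [CommRing R] {sep : Prop} {P : Sch R → Prop}

/-- The property is true for the invertible symmetric matrices with prescribed zeros outside of the
diagonal. -/
def SymAll (R : Type) [CommRing R] (P : Sch R → Prop) : Prop :=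
  ∀ (κ : Type) [Fintype κ] [DecidableEq κ] (Z : Finset (Sym2 κ)), (∀ e ∈ Z, ¬ e.IsDiag) →
    SGP (R := R) P Z

section

variable {κ : Type} [Fintype κ] [DecidableEq κ] {Z : Finset (Sym2 κ)} {A : Finset κ} {o : κ}

lemma zb_diag (hZ : ∀ e ∈ Z, ¬ e.IsDiag) : ∀ e ∈ zb Z A, ¬ e.IsDiag := by
  rw [forall_zb]
  refine ⟨fun e he => ?_, fun i _ => ?_⟩
  · have h1 := hZ e he
    induction e with
    | _ a b =>
      rw [Sym2.mk_isDiag_iff] at h1
      rw [Sym2.map_mk, Sym2.mk_isDiag_iff]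
      simpa using h1
  · rw [Sym2.mk_isDiag_iff]
    simp

/-- the base -/
def bS (R : Type) [CommRing R] (Z : Finset (Sym2 κ)) : Set (MvPolynomial (Sym2 κ ⊕ Unit) R) :=
  rename Sum.inl '' srel R Z

/-- the matrix over the base -/
noncomputable def bN (R : Type) [CommRing R] (κ : Type) :
    Matrix κ κ (MvPolynomial (Sym2 κ ⊕ Unit) R) :=
  (sgm R κ).map (rename Sum.inl)

/-- the entry in the border -/
noncomputable def bq (R : Type) [CommRing R] (o : κ) : κ → MvPolynomial (Sym2 κ ⊕ Unit) R :=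
  xo o (X (Sum.inr ()))

variable {C : Type} [CommRing C] [Algebra R C]

omit [Fintype κ] [DecidableEq κ] in
lemma pt_bS (v : Sym2 κ ⊕ Unit → C) :
    Pt (bS R Z) (1 : MvPolynomial (Sym2 κ ⊕ Unit) R) v ↔ ∀ e ∈ Z, v (Sum.inl e) = 0 := by
  have h : (1 : MvPolynomial (Sym2 κ ⊕ Unit) R) = rename Sum.inl 1 := (map_one _).symm
  rw [h, bS, pt_rename, pt_srel', map_one]
  exact ⟨fun h => h.1, fun h => ⟨h, isUnit_one⟩⟩

omit [Fintype κ] [DecidableEq κ] in
lemma nc_bN (v : (Sym2 κ ⊕ Unit) ⊕ (Unit ⊕ κ) → C) :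
    Nc (bN R κ) v = sm fun e => v (Sum.inl (Sum.inl e)) := by
  ext i j
  change aeval (fun s => v (Sum.inl s)) (rename Sum.inl (X s(i, j))) = _
  rw [rename_X, aeval_X]
  rfl

omit [Fintype κ] in
lemma byc_bq (v : (Sym2 κ ⊕ Unit) ⊕ (Unit ⊕ κ) → C) :
    byc A (bq R o) v = yv A (xo o (v (Sum.inl (Sum.inr ())))) fun i => v (Sum.inr (Sum.inr i)) := by
  rw [byc]
  congr 1
  funext i
  rw [bq, xo, xo]
  split_ifs
  · exact aeval_X _ _
  · exact map_zero _

omit [Fintype κ] in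
lemma byc_zero (v : (Sym2 κ ⊕ Unit) ⊕ (Unit ⊕ κ) → C) :
    byc A (0 : κ → MvPolynomial (Sym2 κ ⊕ Unit) R) v =
      yv A (fun _ => 0) fun i => v (Sum.inr (Sum.inr i)) := by
  rw [byc]
  congr 1

lemma pt_q (v : (Sym2 κ ⊕ Unit) ⊕ (Unit ⊕ κ) → C) :
    Pt (rename Sum.inl '' bS R Z : Set (MvPolynomial ((Sym2 κ ⊕ Unit) ⊕ (Unit ⊕ κ)) R))
      (rename Sum.inl 1 * sbp (bN R κ) A (bq R o)) v ↔
      (∀ e ∈ Z, v (Sum.inl (Sum.inl e)) = 0) ∧
      IsUnit (bd (v (Sum.inr (Sum.inl ())))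
        (yv A (xo o (v (Sum.inl (Sum.inr ())))) fun i => v (Sum.inr (Sum.inr i)))
        (yv A (xo o (v (Sum.inl (Sum.inr ())))) fun i => v (Sum.inr (Sum.inr i)))
        (sm fun e => v (Sum.inl (Sum.inl e)))) := by
  rw [pt_sbp, pt_bS, byc_bq, nc_bN]

lemma pt_z (v : (Sym2 κ ⊕ Unit) ⊕ (Unit ⊕ κ) → C) :
    Pt (rename Sum.inl '' bS R Z : Set (MvPolynomial ((Sym2 κ ⊕ Unit) ⊕ (Unit ⊕ κ)) R))
      (rename Sum.inl 1 * sbp (bN R κ) A 0) v ↔
      (∀ e ∈ Z, v (Sum.inl (Sum.inl e)) = 0) ∧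
      IsUnit (bd (v (Sum.inr (Sum.inl ())))
        (yv A (fun _ => 0) fun i => v (Sum.inr (Sum.inr i)))
        (yv A (fun _ => 0) fun i => v (Sum.inr (Sum.inr i)))
        (sm fun e => v (Sum.inl (Sum.inl e)))) := by
  rw [pt_sbp, pt_bS, byc_zero, nc_bN]

omit [Fintype κ] in
lemma yv_congr {q u q' u' : κ → C} (h1 : ∀ i ∈ A, q i = q' i) (h2 : ∀ i, i ∉ A → u i = u' i) :
    yv A q u = yv A q' u' := by
  funext i
  rw [yv, yv]
  split_ifs with hi
  · exact h1 i hi
  · exact h2 i hi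

end

section main

variable {κ : Type} [Fintype κ] [DecidableEq κ] {Z : Finset (Sym2 κ)} {A : Finset κ} {o : κ}
  (hP : Bnd sep P) (hG : SymAll R P) (hZ : ∀ e ∈ Z, ¬ e.IsDiag)

include hP hG hZ

lemma sym_zero : SBP (bS R Z) 1 (bN R κ) A P 0 := by
  have h := pp_free hP (Unit ⊕ {i // i ∈ A}) (hG (Unit ⊕ κ) (zb Z A) (zb_diag hZ))
  have hs : ∀ {C : Type} [CommRing C] [Algebra R C]
      (v : Sym2 (Unit ⊕ κ) ⊕ (Unit ⊕ {i // i ∈ A}) → C),
      Pt (rename Sum.inl '' srel R (zb Z A) :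
        Set (MvPolynomial (Sym2 (Unit ⊕ κ) ⊕ (Unit ⊕ {i // i ∈ A})) R))
        (rename Sum.inl (sgm R (Unit ⊕ κ)).det) v ↔
      ((∀ e ∈ Z, v (Sum.inl (Sym2.map Sum.inr e)) = 0) ∧
        ∀ i ∈ A, v (Sum.inl s(Sum.inl (), Sum.inr i)) = 0) ∧
      IsUnit (sm fun e => v (Sum.inl e)).det := by
    intro C _ _ v
    rw [pt_rename, pt_srel, forall_zb]
  refine pp_iso hP
    ⟨fun C _ _ v => Sum.elim (Sum.elim (fun e => v (Sum.inl (Sym2.map Sum.inr e)))
        fun _ => v (Sum.inr (Sum.inl ())))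
      (Sum.elim (fun _ => v (Sum.inl s(Sum.inl (), Sum.inl ())))
        fun i => if h : i ∈ A then v (Sum.inr (Sum.inr ⟨i, h⟩)) else
          v (Sum.inl s(Sum.inl (), Sum.inr i))), ?_, ?_⟩
    ⟨fun C _ _ v => Sum.elim (msy (v (Sum.inr (Sum.inl ())))
        (yv A (fun _ => 0) fun i => v (Sum.inr (Sum.inr i))) fun e => v (Sum.inl (Sum.inl e)))
      (Sum.elim (fun _ => v (Sum.inl (Sum.inr ()))) fun i => v (Sum.inr (Sum.inr i.1))), ?_, ?_⟩
    ?_ ?_ h
  · intro C _ _ v hv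
    rw [hs] at hv
    rw [pt_z]
    refine ⟨hv.1.1, ?_⟩
    have h1 := hv.2
    rw [sm_inr] at h1
    refine (congrArg IsUnit ?_).mp h1
    have h2 : (yv A (fun _ => (0 : C)) fun i => if h : i ∈ A then v (Sum.inr (Sum.inr ⟨i, h⟩)) else
          v (Sum.inl s(Sum.inl (), Sum.inr i))) =
        fun i => v (Sum.inl s(Sum.inl (), Sum.inr i)) := by
      funext i
      rw [yv]
      split_ifs with hi
      · exact (hv.1.2 i hi).symm
      · rfl
    change _ = bd (v (Sum.inl s(Sum.inl (), Sum.inl ())))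
      (yv A (fun _ => (0 : C)) fun i => if h : i ∈ A then v (Sum.inr (Sum.inr ⟨i, h⟩)) else
          v (Sum.inl s(Sum.inl (), Sum.inr i)))
      (yv A (fun _ => (0 : C)) fun i => if h : i ∈ A then v (Sum.inr (Sum.inr ⟨i, h⟩)) else
          v (Sum.inl s(Sum.inl (), Sum.inr i))) (sm fun e => v (Sum.inl (Sym2.map Sum.inr e)))
    rw [h2]
    rfl
  · intro C D _ _ _ _ f v _ t
    rcases t with (e | t) | t | i
    · rfl
    · rfl
    · rfl
    · change (if h : i ∈ A then f (v (Sum.inr (Sum.inr ⟨i, h⟩))) else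
          f (v (Sum.inl s(Sum.inl (), Sum.inr i)))) = f (if h : i ∈ A then _ else _)
      split_ifs <;> rfl
  · intro C _ _ v hv
    rw [pt_z] at hv
    rw [hs]
    refine ⟨⟨fun e he => ?_, fun i hi => ?_⟩, ?_⟩
    · refine (msy_inr _ _ _ e).trans (hv.1 e he)
    · change yv A (fun _ => (0 : C)) (fun i => v (Sum.inr (Sum.inr i))) i = 0
      rw [yv, if_pos hi]
    · exact hv.2
  · intro C D _ _ _ _ f v _ t
    rcases t with e | t | i
    · induction e with
      | _ a b =>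
        rcases a with ⟨⟩ | a <;> rcases b with ⟨⟩ | b
        · rfl
        · change yv A (fun _ => (0 : D)) (fun i => f (v (Sum.inr (Sum.inr i)))) b =
            f (yv A (fun _ => (0 : C)) (fun i => v (Sum.inr (Sum.inr i))) b)
          rw [yv, yv]
          split_ifs
          · exact (map_zero f).symm
          · rfl
        · change yv A (fun _ => (0 : D)) (fun i => f (v (Sum.inr (Sum.inr i)))) a =
            f (yv A (fun _ => (0 : C)) (fun i => v (Sum.inr (Sum.inr i))) a)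
          rw [yv, yv]
          split_ifs
          · exact (map_zero f).symm
          · rfl
        · rfl
    · rfl
    · rfl
  · intro C _ _ v hv t
    rw [hs] at hv
    rcases t with e | t | i
    · refine msy_eta (fun e => v (Sum.inl e)) _ ?_ e
      intro i
      rw [yv]
      split_ifs with hi
      · exact (hv.1.2 i hi).symm
      · exact dif_neg hi
    · rfl
    · exact dif_pos i.2
  · intro C _ _ v hv t
    rcases t with (e | t) | t | i
    · exact msy_inr _ _ _ e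
    · rfl
    · rfl
    · change (if h : i ∈ A then v (Sum.inr (Sum.inr i)) else
        yv A (fun _ => (0 : C)) (fun i => v (Sum.inr (Sum.inr i))) i) = _
      split_ifs with hi
      · rfl
      · rw [yv, if_neg hi]

lemma sym_q (ho : o ∈ A) : SBP (bS R Z) 1 (bN R κ) A P (bq R o) := by
  have h := pp_free hP {i // i ∈ A} (hG (Unit ⊕ κ) (zb Z (A.erase o)) (zb_diag hZ))
  have hs : ∀ {C : Type} [CommRing C] [Algebra R C]
      (v : Sym2 (Unit ⊕ κ) ⊕ {i // i ∈ A} → C),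
      Pt (rename Sum.inl '' srel R (zb Z (A.erase o)) :
        Set (MvPolynomial (Sym2 (Unit ⊕ κ) ⊕ {i // i ∈ A}) R))
        (rename Sum.inl (sgm R (Unit ⊕ κ)).det) v ↔
      ((∀ e ∈ Z, v (Sum.inl (Sym2.map Sum.inr e)) = 0) ∧
        ∀ i ∈ A.erase o, v (Sum.inl s(Sum.inl (), Sum.inr i)) = 0) ∧
      IsUnit (sm fun e => v (Sum.inl e)).det := by
    intro C _ _ v
    rw [pt_rename, pt_srel, forall_zb]
  have hy : ∀ {C : Type} [CommRing C] (v : Sym2 (Unit ⊕ κ) ⊕ {i // i ∈ A} → C)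
      (_ : ∀ i ∈ A.erase o, v (Sum.inl s(Sum.inl (), Sum.inr i)) = 0),
      (yv A (xo o (v (Sum.inl s(Sum.inl (), Sum.inr o))))
        fun i => if h : i ∈ A then v (Sum.inr ⟨i, h⟩) else
          v (Sum.inl s(Sum.inl (), Sum.inr i))) =
        fun i => v (Sum.inl s(Sum.inl (), Sum.inr i)) := by
    intro C _ v hv
    funext i
    rw [yv]
    split_ifs with hi
    · rw [xo]
      split_ifs with hio
      · rw [hio]
      · exact (hv i (Finset.mem_erase.mpr ⟨hio, hi⟩)).symm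
    · rfl
  refine pp_iso hP
    ⟨fun C _ _ v => Sum.elim (Sum.elim (fun e => v (Sum.inl (Sym2.map Sum.inr e)))
        fun _ => v (Sum.inl s(Sum.inl (), Sum.inr o)))
      (Sum.elim (fun _ => v (Sum.inl s(Sum.inl (), Sum.inl ())))
        fun i => if h : i ∈ A then v (Sum.inr ⟨i, h⟩) else
          v (Sum.inl s(Sum.inl (), Sum.inr i))), ?_, ?_⟩
    ⟨fun C _ _ v => Sum.elim (msy (v (Sum.inr (Sum.inl ())))
        (yv A (xo o (v (Sum.inl (Sum.inr ())))) fun i => v (Sum.inr (Sum.inr i)))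
        fun e => v (Sum.inl (Sum.inl e)))
      fun i => v (Sum.inr (Sum.inr i.1)), ?_, ?_⟩
    ?_ ?_ h
  · intro C _ _ v hv
    rw [hs] at hv
    rw [pt_q]
    refine ⟨hv.1.1, ?_⟩
    have h1 := hv.2
    rw [sm_inr] at h1
    refine (congrArg IsUnit ?_).mp h1
    change _ = bd (v (Sum.inl s(Sum.inl (), Sum.inl ())))
      (yv A (xo o (v (Sum.inl s(Sum.inl (), Sum.inr o))))
        fun i => if h : i ∈ A then v (Sum.inr ⟨i, h⟩) else
          v (Sum.inl s(Sum.inl (), Sum.inr i)))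
      (yv A (xo o (v (Sum.inl s(Sum.inl (), Sum.inr o))))
        fun i => if h : i ∈ A then v (Sum.inr ⟨i, h⟩) else
          v (Sum.inl s(Sum.inl (), Sum.inr i))) (sm fun e => v (Sum.inl (Sym2.map Sum.inr e)))
    rw [hy v hv.1.2]
    rfl
  · intro C D _ _ _ _ f v _ t
    rcases t with (e | t) | t | i
    · rfl
    · rfl
    · rfl
    · change (if h : i ∈ A then f (v (Sum.inr ⟨i, h⟩)) else
          f (v (Sum.inl s(Sum.inl (), Sum.inr i)))) = f (if h : i ∈ A then _ else _)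
      split_ifs <;> rfl
  · intro C _ _ v hv
    rw [pt_q] at hv
    rw [hs]
    refine ⟨⟨fun e he => ?_, fun i hi => ?_⟩, ?_⟩
    · refine (msy_inr _ _ _ e).trans (hv.1 e he)
    · change yv A (xo o (v (Sum.inl (Sum.inr ())))) (fun i => v (Sum.inr (Sum.inr i))) i = 0
      rw [yv, if_pos (Finset.mem_of_mem_erase hi), xo, if_neg (Finset.ne_of_mem_erase hi)]
    · exact hv.2
  · intro C D _ _ _ _ f v _ t
    have hf : ∀ i, yv A (xo o (f (v (Sum.inl (Sum.inr ()))))) (fun i => f (v (Sum.inr (Sum.inr i)))) i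
        = f (yv A (xo o (v (Sum.inl (Sum.inr ())))) (fun i => v (Sum.inr (Sum.inr i))) i) := by
      intro i
      rw [yv, yv, xo, xo]
      split_ifs
      · rfl
      · exact (map_zero f).symm
      · rfl
    rcases t with e | i
    · induction e with
      | _ a b =>
        rcases a with ⟨⟩ | a <;> rcases b with ⟨⟩ | b
        · rfl
        · exact hf b
        · exact hf a
        · rfl
    · rfl
  · intro C _ _ v hv t
    rw [hs] at hv
    rcases t with e | i
    · exact msy_eta (fun e => v (Sum.inl e)) _ (fun i => congrFun (hy v hv.1.2) i) e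
    · exact dif_pos i.2
  · intro C _ _ v hv t
    rcases t with (e | t) | t | i
    · exact msy_inr _ _ _ e
    · change yv A (xo o (v (Sum.inl (Sum.inr ())))) (fun i => v (Sum.inr (Sum.inr i))) o = _
      rw [yv, if_pos ho, xo, if_pos rfl]
    · rfl
    · change (if h : i ∈ A then v (Sum.inr (Sum.inr i)) else
        yv A (xo o (v (Sum.inl (Sum.inr ())))) (fun i => v (Sum.inr (Sum.inr i))) i) = _
      split_ifs with hi
      · rfl
      · rw [yv, if_neg hi]

/-- Singular symmetric matrices with a kernel which is generated by a vector with support in `A`, the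
entry at `o` not zero. -/
theorem sym_ker (ho : o ∈ A) : PP P (kS R Z o A) (gk R o o) := by
  have h0 : PP P (bS R Z) (1 * (bN R κ).det) := by
    refine pp_same hP ?_ (pp_free hP Unit (hG κ Z hZ))
    intro C _ _ v
    have h : (1 : MvPolynomial (Sym2 κ ⊕ Unit) R) * (bN R κ).det =
        rename Sum.inl (sgm R κ).det := by
      rw [one_mul, bN, AlgHom.map_det]
      rfl
    rw [h, bS]
  have hN : (bN R κ).transpose = bN R κ := by
    rw [bN, ← Matrix.transpose_map, sgm_sym]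
  have h1 := sborder hP hN (bq R o) h0 (sym_zero hP hG hZ (A := A)) (sym_q hP hG hZ ho)
  have h2 : PP P (rename Sum.inl '' (rename Sum.inl '' kS R Z o A :
      Set (MvPolynomial (Sym2 κ ⊕ Unit) R)) :
      Set (MvPolynomial ((Sym2 κ ⊕ Unit) ⊕ (Unit ⊕ κ)) R))
      (rename Sum.inl (rename Sum.inl (gk R o o) * X (Sum.inr ()))) := by
    refine pp_same hP ?_ h1
    intro C _ _ v
    have h3 : Pt ((insert (rename Sum.inl (bN R κ).det) (rename Sum.inl '' bS R Z) :
        Set (MvPolynomial ((Sym2 κ ⊕ Unit) ⊕ (Unit ⊕ κ)) R)) ∪ Set.range (szp (bN R κ) A (bq R o)))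
        (rename Sum.inl 1 * sbp (bN R κ) A (bq R o)) v ↔
        Pt (insert (rename Sum.inl (bN R κ).det) (rename Sum.inl '' bS R Z) :
          Set (MvPolynomial ((Sym2 κ ⊕ Unit) ⊕ (Unit ⊕ κ)) R))
        (rename Sum.inl 1 * sbp (bN R κ) A (bq R o)) v ∧
        ∀ i, aeval v (szp (bN R κ) A (bq R o) i) = 0 := by
      rw [Pt, Pt]
      constructor
      · rintro ⟨h3, h4⟩
        exact ⟨⟨fun g hg => h3 g (Or.inl hg), h4⟩, fun i => h3 _ (Or.inr ⟨i, rfl⟩)⟩
      · rintro ⟨⟨h3, h4⟩, h5⟩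
        refine ⟨?_, h4⟩
        rintro g (hg | ⟨i, rfl⟩)
        · exact h3 g hg
        · exact h5 i
    rw [h3, pt_insert, pt_q, aeval_ndet, pt_rename, pt_mul, pt_rename, pt_kS, aeval_gk, aeval_X]
    simp only [aeval_szp]
    rw [nc_bN, byc_bq]
    have h4 : (sm fun e => v (Sum.inl (Sum.inl e)) : Matrix κ κ C).det = 0 →
        _ := fun h => ker_iff (sm_sym fun e => v (Sum.inl (Sum.inl e))) h ho
          (v (Sum.inr (Sum.inl ()))) (v (Sum.inl (Sum.inr ()))) fun i => v (Sum.inr (Sum.inr i))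
    constructor
    · rintro ⟨⟨⟨h5, h6⟩, h7⟩, h8⟩
      obtain ⟨⟨h9, h10⟩, h11⟩ := (h4 h7).mp ⟨h6, h8⟩
      exact ⟨⟨⟨h5, h7, h11⟩, h9⟩, h10⟩
    · rintro ⟨⟨⟨h5, h7, h11⟩, h9⟩, h10⟩
      obtain ⟨h6, h8⟩ := (h4 h7).mpr ⟨⟨h9, h10⟩, h11⟩
      exact ⟨⟨⟨h5, h6⟩, h7⟩, h8⟩
  exact pp_torus hP (pp_unfree hP (Unit ⊕ κ) h2)

/-- The same with given support. -/
theorem sym_supp (T : Finset κ) : ∀ A : Finset κ, o ∈ A → T ⊆ A.erase o →
    PP P (kS R Z o A) (gk R o o * ∏ i ∈ T, gk R o i) := by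
  induction T using Finset.induction_on with
  | empty =>
    intro A ho _
    rw [Finset.prod_empty, mul_one]
    exact sym_ker hP hG hZ ho
  | insert e T he ih =>
    intro A ho hT
    have h1 : e ∈ A.erase o := hT (Finset.mem_insert_self e T)
    have h2 : T ⊆ A.erase o := (Finset.subset_insert e T).trans hT
    have h3 : (gk R o o * ∏ i ∈ insert e T, gk R o i) = (gk R o o * ∏ i ∈ T, gk R o i) * gk R o e := by
      rw [Finset.prod_insert he]
      ring
    rw [h3]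
    refine pp_open hP _ (ih A ho h2) ?_
    refine pp_same hP ?_ (ih (A.erase e) (Finset.mem_erase.mpr
      ⟨(Finset.ne_of_mem_erase h1).symm, ho⟩) ?_)
    · intro C _ _ v
      rw [pt_insert, pt_kS, pt_kS, aeval_gk]
      constructor
      · rintro ⟨⟨h4, h5, h6⟩, h7⟩
        exact ⟨⟨⟨h4, h5, fun i hi => h6 i fun h => hi (Finset.mem_of_mem_erase h)⟩, h7⟩,
          h6 e (Finset.notMem_erase e A)⟩
      · rintro ⟨⟨⟨h4, h5, h6⟩, h7⟩, h8⟩
        refine ⟨⟨h4, h5, fun i hi => ?_⟩, h7⟩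
        by_cases hie : i = e
        · rw [hie]
          exact h8
        · exact h6 i fun h => hi (Finset.mem_erase.mpr ⟨hie, h⟩)
    · intro i hi
      have h4 := h2 hi
      refine Finset.mem_erase.mpr ⟨Finset.ne_of_mem_erase h4, Finset.mem_erase.mpr
        ⟨fun h => he (h ▸ hi), Finset.mem_of_mem_erase h4⟩⟩

end main

end Pool.Agent.H839.PZ.Sy
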