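import Pool.Agent.H839.PZ.Sym4
import Pool.Agent.H839.PZ.Main

/-!
# From symmetric matrices to arbitrary matrices with prescribed zeros
-/

set_option autoImplicit false

open CategoryTheory AlgebraicGeometry MvPolynomial

namespace Pool.Agent.H839.PZ.Sy

open Pool.Agent.Y116.UV Pool.Agent.Z125.UN

variable {R : Type} [CommRing R] {sep : Prop} {P : Sch R → Prop}

/-- tori -/
lemma pp_tori (hP : Bnd sep P) (n : ℕ) : ∀ {σ : Type} [Finite σ] {S : Set (MvPolynomial σ R)}
    {w : MvPolynomial σ R},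
    PP P (rename Sum.inl '' S : Set (MvPolynomial (σ ⊕ Fin n) R))
      (rename Sum.inl w * ∏ i, X (Sum.inr i)) → PP P S w := by
  induction n with
  | zero =>
    intro σ _ S w h
    rw [Fin.prod_univ_zero, mul_one] at h
    exact pp_unfree hP _ h
  | succ n ih =>
    intro σ _ S w h
    refine pp_torus hP (ih ?_)
    refine pp_iso hP
      ⟨fun C _ _ v => Sum.elim (Sum.elim (fun s => v (Sum.inl s)) fun _ => v (Sum.inr 0))
        fun i => v (Sum.inr i.succ), ?_, ?_⟩
      ⟨fun C _ _ v => Sum.elim (fun s => v (Sum.inl (Sum.inl s)))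
        (Fin.cons (v (Sum.inl (Sum.inr ()))) fun i => v (Sum.inr i)), ?_, ?_⟩ ?_ ?_ h
    · intro C _ _ v hv
      rw [pt_mul, pt_rename, map_prod, Fin.prod_univ_succ] at hv
      simp only [aeval_X] at hv
      rw [pt_mul, pt_rename, pt_mul, pt_rename, aeval_X, map_prod]
      simp only [aeval_X]
      rw [IsUnit.mul_iff] at hv
      exact ⟨⟨hv.1, hv.2.1⟩, hv.2.2⟩
    · intro C D _ _ _ _ f v _ t
      rcases t with (s | t) | i <;> rfl
    · intro C _ _ v hv
      rw [pt_mul, pt_rename, pt_mul, pt_rename, aeval_X, map_prod] at hv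
      simp only [aeval_X] at hv
      rw [pt_mul, pt_rename, map_prod, Fin.prod_univ_succ]
      simp only [aeval_X]
      rw [IsUnit.mul_iff]
      exact ⟨hv.1.1, hv.1.2, hv.2⟩
    · intro C D _ _ _ _ f v _ t
      rcases t with s | i
      · rfl
      · refine Fin.cases ?_ (fun i => ?_) i
        · rfl
        · rfl
    · intro C _ _ v _ t
      rcases t with s | i
      · rfl
      · refine Fin.cases ?_ (fun i => ?_) i
        · rfl
        · rfl
    · intro C _ _ v _ t
      rcases t with (s | t) | i <;> rfl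

section alg

variable {m : ℕ} {C : Type} [CommRing C]

/-- the vertices -/
abbrev VK (m : ℕ) : Type := Unit ⊕ (Fin m ⊕ Fin m)

/-- the entries of the symmetric matrix -/
def ent (x : Fin m × Fin m → C) (D w : Fin m → C) : VK m → VK m → C
  | Sum.inl _, Sum.inl _ => 0
  | Sum.inl _, Sum.inr (Sum.inl _) => 0
  | Sum.inl _, Sum.inr (Sum.inr j) => - ∑ i, x (i, j) * w i
  | Sum.inr (Sum.inl _), Sum.inl _ => 0
  | Sum.inr (Sum.inl _), Sum.inr (Sum.inl _) => 0
  | Sum.inr (Sum.inl i), Sum.inr (Sum.inr j) => x (i, j)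
  | Sum.inr (Sum.inr j), Sum.inl _ => - ∑ i, x (i, j) * w i
  | Sum.inr (Sum.inr j), Sum.inr (Sum.inl i) => x (i, j)
  | Sum.inr (Sum.inr j), Sum.inr (Sum.inr j') => if j = j' then D j else 0

lemma ent_symm (x : Fin m × Fin m → C) (D w : Fin m → C) (a b : VK m) :
    ent x D w a b = ent x D w b a := by
  rcases a with ⟨⟩ | a | a <;> rcases b with ⟨⟩ | b | b
  · rfl
  · rfl
  · rfl
  · rfl
  · rfl
  · rfl
  · rfl
  · rfl
  · change (if a = b then D a else 0) = if b = a then D b else 0
    by_cases h : a = b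
    · rw [if_pos h, if_pos h.symm, h]
    · rw [if_neg h, if_neg fun h' => h h'.symm]

/-- the symmetric matrix -/
def bv (x : Fin m × Fin m → C) (D w : Fin m → C) : Sym2 (VK m) → C :=
  Sym2.lift ⟨ent x D w, ent_symm x D w⟩

lemma sm_bv (x : Fin m × Fin m → C) (D w : Fin m → C) (a b : VK m) :
    sm (bv x D w) a b = ent x D w a b := rfl

/-- the vector in the kernel -/
def kv (w : Fin m → C) : VK m → C := Sum.elim (fun _ => 1) (Sum.elim w fun _ => 0)

lemma bv_kv (x : Fin m × Fin m → C) (D w : Fin m → C) (a : VK m) :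
    ∑ b, sm (bv x D w) a b * kv w b = 0 := by
  simp only [sm_bv]
  rw [Fintype.sum_sum_type, Fintype.sum_sum_type, Fintype.sum_unique]
  have h0 : ∑ j : Fin m, ent x D w a (Sum.inr (Sum.inr j)) * kv w (Sum.inr (Sum.inr j)) = 0 :=
    Finset.sum_eq_zero fun j _ => mul_zero _
  rw [h0, add_zero]
  change ent x D w a (Sum.inl ()) * 1 + ∑ i, ent x D w a (Sum.inr (Sum.inl i)) * w i = 0
  rw [mul_one]
  rcases a with ⟨⟩ | a | a
  · change (0 : C) + ∑ i, 0 * w i = 0
    simp
  · change (0 : C) + ∑ i, 0 * w i = 0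
    simp
  · change - ∑ i, x (i, a) * w i + ∑ i, x (i, a) * w i = 0
    exact neg_add_cancel _

lemma bv_det (x : Fin m × Fin m → C) (D w : Fin m → C) : (sm (bv x D w)).det = 0 := by
  have h1 : (sm (bv x D w)).mulVec (kv w) = 0 := funext fun a => bv_kv x D w a
  have h2 : ((sm (bv x D w)).adjugate * sm (bv x D w)).mulVec (kv w) = 0 := by
    rw [← Matrix.mulVec_mulVec, h1, Matrix.mulVec_zero]
  rw [Matrix.adjugate_mul, Matrix.smul_mulVec, Matrix.one_mulVec] at h2
  have h3 := congrFun h2 (Sum.inl ())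
  change (sm (bv x D w)).det * 1 = 0 at h3
  rwa [mul_one] at h3

lemma unit_bv (x : Fin m × Fin m → C) (D w : Fin m → C) :
    IsUnit (fc (Pi.single (Sum.inl ()) 1) (sm (bv x D w)) (Sum.inl ())) ↔
      IsUnit (Matrix.of fun i j => x (i, j)).det := by
  rw [fc_single]
  have h1 : (sm (bv x D w)).updateRow (Sum.inl ()) (Pi.single (Sum.inl ()) 1) =
      Matrix.fromBlocks 1 0 (Matrix.of fun a _ => sm (bv x D w) (Sum.inr a) (Sum.inl ()))
        (Matrix.of fun a b => sm (bv x D w) (Sum.inr a) (Sum.inr b)) := by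
    ext a b
    rcases a with ⟨⟩ | a
    · rcases b with ⟨⟩ | b <;> simp
    · rcases b with ⟨⟩ | b <;> simp
  rw [h1, Matrix.det_fromBlocks_zero₁₂, Matrix.det_one, one_mul]
  have h2 := Matrix.det_permute' (Equiv.sumComm (Fin m) (Fin m))
    (Matrix.of fun a b => sm (bv x D w) (Sum.inr a) (Sum.inr b))
  have h3 : (Matrix.of fun a b => sm (bv x D w) (Sum.inr a) (Sum.inr b)).submatrix id
      (Equiv.sumComm (Fin m) (Fin m)) = Matrix.fromBlocks (Matrix.of fun i j => x (i, j)) 0
      (Matrix.diagonal D) (Matrix.of fun i j => x (i, j)).transpose := by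
    ext a b
    rcases a with a | a <;> rcases b with b | b
    · rfl
    · rfl
    · change (if a = b then D a else 0) = Matrix.diagonal D a b
      rw [Matrix.diagonal_apply]
    · rfl
  rw [h3, Matrix.det_fromBlocks_zero₁₂, Matrix.det_transpose] at h2
  have h4 : IsUnit (((Equiv.Perm.sign (Equiv.sumComm (Fin m) (Fin m)) : ℤˣ) : ℤ) : C) := by
    have := (Equiv.Perm.sign (Equiv.sumComm (Fin m) (Fin m))).isUnit
    exact this.map (Int.castRingHom C)
  constructor
  · intro h5
    have h6 := h4.mul h5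
    rw [← h2] at h6
    exact (IsUnit.mul_iff.mp h6).1
  · intro h5
    have h6 := h5.mul h5
    rw [h2] at h6
    exact (IsUnit.mul_iff.mp h6).2

lemma fc_bv {x : Fin m × Fin m → C} (D w : Fin m → C)
    (hx : IsUnit (Matrix.of fun i j => x (i, j)).det) (a : VK m) :
    fc (Pi.single (Sum.inl ()) 1) (sm (bv x D w)) a =
      fc (Pi.single (Sum.inl ()) 1) (sm (bv x D w)) (Sum.inl ()) * kv w a := by
  have h0 := bv_det x D w
  have hone : ∀ z : VK m → C, ∑ j, (Pi.single (Sum.inl ()) 1 : VK m → C) j * z j =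
      z (Sum.inl ()) := by
    intro z
    rw [Finset.sum_eq_single (Sum.inl ())]
    · rw [Pi.single_eq_same, one_mul]
    · intro i _ hio
      rw [Pi.single_eq_of_ne hio, zero_mul]
    · intro h
      exact absurd (Finset.mem_univ _) h
  have h1 : bd 0 (Pi.single (Sum.inl ()) 1) (Pi.single (Sum.inl ()) 1) (sm (bv x D w)) =
      - fc (Pi.single (Sum.inl ()) 1) (sm (bv x D w)) (Sum.inl ()) := by
    rw [bd_det_zero h0, hone]
  have h2 : IsUnit (bd 0 (Pi.single (Sum.inl ()) 1) (Pi.single (Sum.inl ()) 1)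
      (sm (bv x D w))) := by
    rw [h1]
    exact ((unit_bv x D w).mpr hx).neg
  have h3 := ker_eq h0 h2 (t := kv w) (fun k => bv_kv x D w k) a
  rw [h1, hone, neg_mul, neg_mul, neg_inj] at h3
  rw [h3]
  change _ = 1 * _
  rw [one_mul]

end alg

end Pool.Agent.H839.PZ.Sy
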