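import Pool.Agent.H839.PZ.Ops

/-!
# Normalizing a coordinate by a torus action
-/

set_option autoImplicit false

open CategoryTheory AlgebraicGeometry MvPolynomial

namespace Pool.Agent.H839.PZ

open Pool.Agent.Y116.UV Pool.Agent.Z125.UN

variable {R : Type} [CommRing R] {sep : Prop} {P : Sch R → Prop}

section zp

open Classical in
/-- integral powers of units -/
noncomputable def zp {C : Type} [CommRing C] (a : C) (k : ℤ) : C :=
  if h : IsUnit a then ((h.unit ^ k : Cˣ) : C) else 0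

lemma zp_unit {C : Type} [CommRing C] (u : Cˣ) (k : ℤ) : zp (u : C) k = ((u ^ k : Cˣ) : C) := by
  have h : IsUnit (u : C) := u.isUnit
  have h1 : h.unit = u := Units.ext rfl
  rw [zp, dif_pos h, h1]

lemma zp_map {C D : Type} [CommRing C] [CommRing D] (f : C →+* D) {a : C} (h : IsUnit a) (k : ℤ) :
    f (zp a k) = zp (f a) k := by
  obtain ⟨u, rfl⟩ := h
  have h1 : f (u : C) = ((Units.map (f : C →* D) u : Dˣ) : D) := rfl
  rw [zp_unit, h1, zp_unit, ← map_zpow]
  rfl

end zp

variable {σ : Type} {S : Set (MvPolynomial σ R)} {w : MvPolynomial σ R}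

/-- The points are stable under the one parameter group with the weights `m`. -/
def Inv (m : σ → ℤ) (S : Set (MvPolynomial σ R)) (w : MvPolynomial σ R) : Prop :=
  ∀ (C : Type) [CommRing C] [Algebra R C] (u : Cˣ) (v : σ → C), Pt S w v →
    Pt S w (fun s => ((u ^ m s : Cˣ) : C) * v s)

lemma pt_mul {C : Type} [CommRing C] [Algebra R C] {v : σ → C} {e : MvPolynomial σ R} :
    Pt S (w * e) v ↔ Pt S w v ∧ IsUnit (aeval v e) := by
  rw [Pt, Pt, map_mul, IsUnit.mul_iff, and_assoc]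

lemma pt_insert {C : Type} [CommRing C] [Algebra R C] {v : σ → C} {e : MvPolynomial σ R} :
    Pt (insert e S) w v ↔ Pt S w v ∧ aeval v e = 0 := by
  rw [Pt, Pt, Set.forall_mem_insert]
  tauto

lemma pt_rename {τ : Type} {C : Type} [CommRing C] [Algebra R C] {v : σ ⊕ τ → C} :
    Pt (rename Sum.inl '' S : Set (MvPolynomial (σ ⊕ τ) R)) (rename Sum.inl w) v ↔
      Pt S w (fun s => v (Sum.inl s)) := by
  have h1 : ∀ p : MvPolynomial σ R, aeval v (rename Sum.inl p) =
      aeval (fun s => v (Sum.inl s)) p := fun p => aeval_rename _ _ _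
  constructor
  · rintro ⟨h2, h3⟩
    exact ⟨fun g hg => by rw [← h1]; exact h2 _ ⟨g, hg, rfl⟩, by rw [← h1]; exact h3⟩
  · rintro ⟨h2, h3⟩
    refine ⟨?_, by rw [h1]; exact h3⟩
    rintro _ ⟨g, hg, rfl⟩
    rw [h1]
    exact h2 g hg

/-- A coordinate of weight one can be set to be one. -/
theorem pp_tor (hP : Bnd sep P) [Finite σ] (m : σ → ℤ) (c : σ) (hc : m c = 1) (hi : Inv m S w)
    (h : PP P S w) (h0 : PP P (insert (X c) S) w) : PP P (insert (X c - 1) S) w := by
  have h1 : PP P S (w * X c) := pp_open hP (X c) h h0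
  have hs : ∀ {C : Type} [CommRing C] [Algebra R C] (v : σ → C),
      Pt S (w * X c) v ↔ Pt S w v ∧ IsUnit (v c) := by
    intro C _ _ v
    rw [pt_mul, aeval_X]
  have ht : ∀ {C : Type} [CommRing C] [Algebra R C] (v : σ ⊕ Unit → C),
      Pt (rename Sum.inl '' (insert (X c - 1) S) : Set (MvPolynomial (σ ⊕ Unit) R))
        (rename Sum.inl w * X (Sum.inr ())) v ↔
      (Pt S w (fun s => v (Sum.inl s)) ∧ v (Sum.inl c) = 1) ∧ IsUnit (v (Sum.inr ())) := by
    intro C _ _ v
    rw [pt_mul, pt_rename, pt_insert, aeval_X, map_sub, map_one, aeval_X, sub_eq_zero]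
  refine pp_torus hP (pp_iso hP
    ⟨fun C _ _ v => Sum.elim (fun s => zp (v c) (- m s) * v s) fun _ => v c, ?_, ?_⟩
    ⟨fun C _ _ v s => zp (v (Sum.inr ())) (m s) * v (Sum.inl s), ?_, ?_⟩ ?_ ?_ h1)
  · intro C _ _ v hv
    rw [hs] at hv
    obtain ⟨hv, u, hu⟩ := hv
    rw [ht]
    have h2 : ∀ s, zp (v c) (- m s) = (((u⁻¹) ^ m s : Cˣ) : C) := by
      intro s
      rw [← hu, zp_unit, zpow_neg, inv_zpow]
    refine ⟨⟨?_, ?_⟩, ?_⟩
    · have h3 := hi C u⁻¹ v hv
      refine (congrArg (Pt S w) (funext fun s => ?_)).mp h3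
      exact congrArg (· * v s) (h2 s).symm
    · change zp (v c) (- m c) * v c = 1
      rw [h2, hc, zpow_one, ← hu]
      exact u.inv_mul
    · exact ⟨u, hu⟩
  · intro C D _ _ _ _ f v hv t
    rw [hs] at hv
    rcases t with s | t
    · change zp (f (v c)) (- m s) * f (v s) = f (zp (v c) (- m s) * v s)
      rw [map_mul]
      congr 1
      exact (zp_map (f : C →+* D) hv.2 _).symm
    · rfl
  · intro C _ _ v hv
    rw [ht] at hv
    obtain ⟨⟨hv, h1⟩, u, hu⟩ := hv
    rw [hs]
    have h2 : ∀ s, zp (v (Sum.inr ())) (m s) = ((u ^ m s : Cˣ) : C) := by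
      intro s
      rw [← hu, zp_unit]
    refine ⟨?_, ?_⟩
    · have h3 := hi C u _ hv
      refine (congrArg (Pt S w) (funext fun s => ?_)).mp h3
      exact congrArg (· * v (Sum.inl s)) (h2 s).symm
    · change IsUnit (zp (v (Sum.inr ())) (m c) * v (Sum.inl c))
      rw [h2, h1, mul_one]
      exact Units.isUnit _
  · intro C D _ _ _ _ f v hv s
    rw [ht] at hv
    change zp (f (v (Sum.inr ()))) (m s) * f (v (Sum.inl s)) = f (zp (v (Sum.inr ())) (m s) * v (Sum.inl s))
    rw [map_mul]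
    congr 1
    exact (zp_map (f : C →+* D) hv.2 _).symm
  · intro C _ _ v hv s
    rw [hs] at hv
    obtain ⟨hv, u, hu⟩ := hv
    change zp (v c) (m s) * (zp (v c) (- m s) * v s) = v s
    rw [← hu, zp_unit, zp_unit, ← mul_assoc, ← Units.val_mul, ← zpow_add, add_neg_cancel, zpow_zero,
      Units.val_one, one_mul]
  · intro C _ _ v hv t
    rw [ht] at hv
    obtain ⟨⟨hv, h1⟩, u, hu⟩ := hv
    have h3 : zp (v (Sum.inr ())) (m c) * v (Sum.inl c) = v (Sum.inr ()) := by
      rw [h1, mul_one, hc, ← hu, zp_unit, zpow_one]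
    rcases t with s | t
    · change zp (zp (v (Sum.inr ())) (m c) * v (Sum.inl c)) (- m s) *
        (zp (v (Sum.inr ())) (m s) * v (Sum.inl s)) = v (Sum.inl s)
      rw [h3, ← hu, zp_unit, zp_unit, ← mul_assoc, ← Units.val_mul, ← zpow_add, neg_add_cancel,
        zpow_zero, Units.val_one, one_mul]
    · exact h3

end Pool.Agent.H839.PZ
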